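import Pool.Agent.P.MP_b60056_nt.AA.Api

/-! The averaged product of the energies along a branch. -/

namespace Pool.Agent.P.MP_b60056_nt.AA

open Finset

namespace Coll

variable {Q K : ℕ}

noncomputable def ch (β : Fin K → Fin Q) (lam : Fin K → ℤ) : ℂ :=
  ee (2 * Real.pi * (∑ j, ((β j : ℕ) : ℝ) * (lam j : ℝ)) / Q)

theorem ch_add (β : Fin K → Fin Q) (l m : Fin K → ℤ) : ch β (l + m) = ch β l * ch β m := by
  unfold ch
  rw [← ee_add, ← add_div, ← mul_add, ← sum_add_distrib]
  simp only [Pi.add_apply, Int.cast_add, mul_add]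

theorem ch_zero (β : Fin K → Fin Q) : ch β 0 = 1 := by simp [ch, ee_zero]

theorem ch_neg (β : Fin K → Fin Q) (l : Fin K → ℤ) : ch β (-l) = (starRingEnd ℂ) (ch β l) := by
  unfold ch
  rw [conj_ee]
  simp only [Pi.neg_apply, Int.cast_neg, mul_neg, sum_neg_distrib, neg_div]

theorem ch_sum {ι : Type} (A : Finset ι) (β : Fin K → Fin Q) (l : ι → Fin K → ℤ) :
    ch β (∑ i ∈ A, l i) = ∏ i ∈ A, ch β (l i) := by
  classical
  induction A using Finset.induction_on with
  | empty => simp [ch_zero]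
  | insert a s ha ih => rw [sum_insert ha, prod_insert ha, ch_add, ih]

theorem orth1 (hQ : Q ≠ 0) (l : ℤ) :
    avc (fun b : Fin Q => ee (2 * Real.pi * (((b : ℕ) : ℝ) * (l : ℝ)) / Q)) =
      if (Q : ℤ) ∣ l then 1 else 0 := by
  have hQ' : (Q : ℝ) ≠ 0 := by exact_mod_cast hQ
  have h : ∀ b : ℕ, ee (2 * Real.pi * ((b : ℝ) * (l : ℝ)) / Q) = ee (2 * Real.pi * l / Q) ^ b :=
    fun b => by
      rw [← ee_nat_mul]
      congr 1
      ring
  simp only [h]
  split_ifs with hd
  · obtain ⟨m, rfl⟩ := hd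
    have : Nonempty (Fin Q) := ⟨⟨0, Nat.pos_of_ne_zero hQ⟩⟩
    have e : 2 * Real.pi * (((Q : ℤ) * m : ℤ) : ℝ) / Q = 2 * Real.pi * m := by
      push_cast
      field_simp
    simp only [e, ee_int, one_pow]
    exact avc_const 1
  · have h1 : ee (2 * Real.pi * l / Q) ≠ 1 := by
      intro h1
      obtain ⟨n, hn⟩ := (ee_eq_one_iff _).1 h1
      refine hd ⟨n, ?_⟩
      have := Real.pi_pos
      have h2 : (l : ℝ) = Q * n := by
        field_simp at hn
        linarith
      exact_mod_cast h2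
    have h2 : ee (2 * Real.pi * l / Q) ^ Q = 1 := by
      rw [← ee_nat_mul, ← ee_int l]
      congr 1
      field_simp
    unfold avc
    rw [Fin.sum_univ_eq_sum_range (fun b => ee (2 * Real.pi * l / Q) ^ b), geom_sum_eq h1, h2]
    simp

theorem orth (hQ : Q ≠ 0) (l : Fin K → ℤ) :
    avc (fun β : Fin K → Fin Q => ch β l) = if ∀ j, (Q : ℤ) ∣ l j then 1 else 0 := by
  have h : ∀ β : Fin K → Fin Q, ch β l =
      ∏ j, ee (2 * Real.pi * (((β j : ℕ) : ℝ) * (l j : ℝ)) / Q) := fun β => by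
    rw [← ee_sum, ch, mul_sum, sum_div]
  simp only [h]
  rw [avc_pi (fun j (b : Fin Q) => ee (2 * Real.pi * (((b : ℕ) : ℝ) * (l j : ℝ)) / Q))]
  simp only [orth1 hQ]
  rw [Finset.prod_ite_zero]
  simp

/-- The vector of powers. -/
def pw (K : ℕ) (u : ℤ) : Fin K → ℤ := fun j => u ^ (j.val + 1)

theorem Fb_eq (β : Fin K → Fin Q) (u : ℕ) : Fb Q K β u = ch β (pw K u) := by
  simp [Fb, ch, pw]

/-- The points below a node. -/
def uu (p b c : ℕ) (r x : ℕ) : ℕ := c % p ^ b + p ^ b * r + p ^ (b + 1) * x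

/-- The power sums of the points. -/
def ss (p b c : ℕ) {P : ℕ} (r : Fin K → Fin p) (x : Fin K → Fin P) : Fin K → ℤ :=
  ∑ i, pw K (uu p b c (r i) (x i))

theorem avc_comm {S S' : Type} [Fintype S] [Fintype S'] (f : S → S' → ℂ) :
    avc (fun s => avc (fun s' => f s s')) = avc (fun s' => avc (fun s => f s s')) := by
  unfold avc
  simp only [← Finset.sum_div]
  rw [Finset.sum_comm, div_div, div_div, mul_comm]

theorem eK_eq (p M b c : ℕ) (β : Fin K → Fin Q) :
    (eK p M K (Fb Q K β) b (c % p ^ b) : ℂ) =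
      (∑ r ∈ (univ : Finset (Fin K → Fin p)).filter (fun r => Function.Injective r),
        avc fun x' : Fin K → Fin (p ^ (M - (b + 1))) => avc fun x : Fin K → Fin (p ^ (M - (b + 1))) =>
          ch β (ss p b c r x - ss p b c r x')) / (p : ℂ) ^ K := by
  unfold eK
  push_cast
  congr 1
  refine sum_congr rfl fun r _ => ?_
  have h1 : ∀ i, gt p M (Fb Q K β) (b + 1) (c % p ^ b + p ^ b * (r i : ℕ)) =
      avc fun y : Fin (p ^ (M - (b + 1))) => ch β (pw K (uu p b c (r i) y)) := fun i => by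
    unfold gt avc
    rw [Fin.sum_univ_eq_sum_range (fun y => ch β (pw K (uu p b c (r i) y))), Fintype.card_fin]
    simp only [Fb_eq, uu]
  have h2 : ∏ i, gt p M (Fb Q K β) (b + 1) (c % p ^ b + p ^ b * (r i : ℕ)) =
      avc fun x : Fin K → Fin (p ^ (M - (b + 1))) => ch β (ss p b c r x) := by
    simp only [h1, ss, ch_sum]
    exact (avc_pi fun i (y : Fin (p ^ (M - (b + 1)))) => ch β (pw K (uu p b c (r i) y))).symm
  simp only [← Complex.mul_conj', prod_mul_distrib, ← map_prod, h2, conj_avc, sub_eq_add_neg,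
    ch_add, ch_neg, avc_mul_right, avc_mul_left]

/-- The twisted averages. -/
noncomputable def JJ (p K M c : ℕ) (B : Finset ℕ) (lam : Fin K → ℤ) : ℝ :=
  (avc fun β : Fin K → Fin (p ^ (M * K)) =>
    (∏ b ∈ B, (eK p M K (Fb (p ^ (M * K)) K β) b (c % p ^ b) : ℂ)) * ch β lam).re

theorem JJ_insert (p K M c : ℕ) {B : Finset ℕ} {b : ℕ} (hb : b ∉ B) (lam : Fin K → ℤ) :
    JJ p K M c (insert b B) lam =
      (∑ r ∈ (univ : Finset (Fin K → Fin p)).filter (fun r => Function.Injective r),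
        av fun x' : Fin K → Fin (p ^ (M - (b + 1))) => av fun x : Fin K → Fin (p ^ (M - (b + 1))) =>
          JJ p K M c B (lam + (ss p b c r x - ss p b c r x'))) / (p : ℝ) ^ K := by
  unfold JJ
  simp only [← avc_re]
  rw [← Complex.re_sum, ← Complex.div_ofReal_re]
  congr 1
  simp only [prod_insert hb, eK_eq p M b c, ch_add]
  push_cast
  rw [div_eq_mul_inv]
  have h : ∀ r : Fin K → Fin p, (avc fun x' : Fin K → Fin (p ^ (M - (b + 1))) =>
      avc fun x : Fin K → Fin (p ^ (M - (b + 1))) => avc fun β : Fin K → Fin (p ^ (M * K)) =>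
        (∏ b ∈ B, (eK p M K (Fb (p ^ (M * K)) K β) b (c % p ^ b) : ℂ)) *
          (ch β lam * ch β (ss p b c r x - ss p b c r x'))) =
      avc fun β : Fin K → Fin (p ^ (M * K)) =>
        (∏ b ∈ B, (eK p M K (Fb (p ^ (M * K)) K β) b (c % p ^ b) : ℂ)) * ch β lam *
          avc fun x' : Fin K → Fin (p ^ (M - (b + 1))) =>
            avc fun x : Fin K → Fin (p ^ (M - (b + 1))) => ch β (ss p b c r x - ss p b c r x') := by
    intro r
    simp only [← avc_mul_left, mul_assoc]
    rw [avc_comm (S := Fin K → Fin (p ^ (M * K)))]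
    exact avc_congr fun x' => avc_comm _
  simp only [h]
  rw [← avc_sum, ← avc_mul_right]
  refine avc_congr fun β => ?_
  rw [← mul_sum]
  ring

/-- The change of origin. -/
def phi (c0 : ℤ) (lam : Fin K → ℤ) (j : Fin K) : ℤ :=
  ∑ i : Fin K, ((j.val + 1).choose (i.val + 1) : ℤ) * (-c0) ^ (j.val - i.val) * lam i

theorem phi_pw (c0 u : ℤ) (j : Fin K) :
    phi c0 (pw K u) j = (u - c0) ^ (j.val + 1) - (-c0) ^ (j.val + 1) := by
  unfold phi pw
  rw [Fin.sum_univ_eq_sum_range
    (fun i => ((j.val + 1).choose (i + 1) : ℤ) * (-c0) ^ (j.val - i) * u ^ (i + 1)),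
    sub_eq_add_neg u, add_pow, sum_range_succ', ← sum_subset (range_subset_range.2 j.2)]
  · simp only [Nat.add_sub_add_right, pow_zero, Nat.sub_zero, Nat.choose_zero_right, Nat.cast_one,
      one_mul, mul_one, add_sub_cancel_right]
    exact sum_congr rfl fun i _ => by ring
  · intro i _ hi
    rw [Nat.choose_eq_zero_of_lt (by simpa using hi)]
    simp

theorem phi_ss (c0 : ℤ) (lam : Fin K → ℤ) (j : Fin K) (p b c : ℕ) {P : ℕ} (r : Fin K → Fin p)
    (x x' : Fin K → Fin P) : phi c0 (lam + (ss p b c r x - ss p b c r x')) j =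
      phi c0 lam j + (∑ i, ((uu p b c (r i) (x i) : ℤ) - c0) ^ (j.val + 1) -
        ∑ i, ((uu p b c (r i) (x' i) : ℤ) - c0) ^ (j.val + 1)) := by
  have h : ∀ y : Fin K → Fin P, phi c0 (ss p b c r y) j =
      ∑ i, (((uu p b c (r i) (y i) : ℤ) - c0) ^ (j.val + 1) - (-c0) ^ (j.val + 1)) := fun y => by
    simp only [← phi_pw]
    unfold phi ss
    simp only [Finset.sum_apply, mul_sum]
    exact sum_comm
  have h1 : phi c0 (lam + (ss p b c r x - ss p b c r x')) j =
      phi c0 lam j + (phi c0 (ss p b c r x) j - phi c0 (ss p b c r x') j) := by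
    unfold phi
    simp only [Pi.add_apply, Pi.sub_apply, mul_add, mul_sub, sum_add_distrib, sum_sub_distrib]
  rw [h1, h, h, sum_sub_distrib, sum_sub_distrib]
  ring

theorem dvd_uu (p c r x : ℕ) {b0 b : ℕ} (h : b0 ≤ b) :
    (p : ℤ) ^ b0 ∣ (uu p b c r x : ℤ) - (c % p ^ b0 : ℕ) := by
  have h1 : c % p ^ b0 ≡ c % p ^ b [MOD p ^ b0] :=
    (Nat.mod_modEq _ _).trans ((Nat.mod_modEq c _).of_dvd (pow_dvd_pow p h)).symm
  have h2 := h1.dvd
  have e : (uu p b c r x : ℤ) - (c % p ^ b0 : ℕ) = ((c % p ^ b : ℕ) - (c % p ^ b0 : ℕ)) +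
      (p : ℤ) ^ b * (r + p * x) := by
    unfold uu
    simp only [Nat.cast_add, Nat.cast_mul, Nat.cast_pow]
    ring
  rw [e]
  exact dvd_add (by exact_mod_cast h2) ((pow_dvd_pow _ h).mul_right _)

theorem uu_sub (p c r x b : ℕ) : (uu p b c r x : ℤ) - (c % p ^ (b + 1) : ℕ) =
    (p : ℤ) ^ b * (((r : ℤ) - (c / p ^ b % p : ℕ)) + p * x) := by
  unfold uu
  rw [Nat.mod_pow_succ]
  simp only [Nat.cast_add, Nat.cast_mul, Nat.cast_pow]
  ring

theorem av_ne {S : Type} [Fintype S] {f : S → ℝ} (h : av f ≠ 0) : ∃ s, f s ≠ 0 := by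
  by_contra h1
  push Not at h1
  exact h ((av_congr h1).trans av_zero)

theorem main (h1 : S_LINNIK) {p K M c : ℕ} (hp : p.Prime) (hK : K < p) (B : Finset ℕ) :
    (∀ b ∈ B, b + K ≤ M) → ∀ lam : Fin K → ℤ, 0 ≤ JJ p K M c B lam ∧
      JJ p K M c B lam * (p : ℝ) ^ (B.card * (K * (K - 1) / 2)) ≤ 1 ∧
      (JJ p K M c B lam ≠ 0 → ∀ b0 ≤ M, (∀ b ∈ B, b0 ≤ b) → ∀ j : Fin K,
        (p : ℤ) ^ (b0 * (j.val + 1)) ∣ phi (c % p ^ b0 : ℕ) lam j) := by
  have hp0 : (0 : ℝ) < p := by exact_mod_cast hp.pos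
  induction B using Finset.induction_on_min with
  | empty =>
    intro _ lam
    have e : JJ p K M c ∅ lam = if ∀ j, ((p ^ (M * K) : ℕ) : ℤ) ∣ lam j then 1 else 0 := by
      unfold JJ
      simp only [prod_empty, one_mul, orth (pow_ne_zero _ hp.ne_zero)]
      split_ifs <;> simp
    rw [e]
    split_ifs with h
    · refine ⟨zero_le_one, by simp, fun _ b0 hb0 _ j => dvd_sum fun i _ => ?_⟩
      refine Dvd.dvd.mul_left (dvd_trans ?_ (h i)) _
      push_cast
      exact pow_dvd_pow _ (Nat.mul_le_mul hb0 j.2)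
    · simp
  | insert b B hb ih =>
    intro hB lam
    have hbB : b ∉ B := fun h => lt_irrefl _ (hb b h)
    have hbM := hB b (mem_insert_self _ _)
    have ih' := ih fun b' hb' => hB b' (mem_insert_of_mem hb')
    rw [JJ_insert p K M c hbB, card_insert_of_notMem hbB]
    refine ⟨div_nonneg (sum_nonneg fun r _ => av_nonneg fun x' => av_nonneg fun x =>
      (ih' _).1) (by positivity), ?_, fun h0 b0 hb0 hb0' j => ?_⟩
    · have key : ∀ r : Fin K → Fin p, Function.Injective r →
          ∀ x' : Fin K → Fin (p ^ (M - (b + 1))),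
          (av fun x : Fin K → Fin (p ^ (M - (b + 1))) =>
            JJ p K M c B (lam + (ss p b c r x - ss p b c r x'))) *
            (p : ℝ) ^ ((B.card + 1) * (K * (K - 1) / 2)) ≤ 1 := by
        intro r hr x'
        by_cases hx : ∀ x : Fin K → Fin (p ^ (M - (b + 1))),
            JJ p K M c B (lam + (ss p b c r x - ss p b c r x')) = 0
        · rw [av_congr hx, av_zero, zero_mul]
          exact zero_le_one
        push Not at hx
        obtain ⟨x0, hx0⟩ := hx
        have h2 := h1 p K (M - (b + 1)) (fun i => ((r i : ℕ) : ℤ) - (c / p ^ b % p : ℕ))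
          (fun j => ∑ i, ((((r i : ℕ) : ℤ) - (c / p ^ b % p : ℕ)) + p * ((x0 i : ℕ) : ℤ)) ^
            (j.val + 1)) hp hK (by omega) (fun i i' hi hd => by
              rw [sub_sub_sub_cancel_right] at hd
              have h3 : (r i' : ℕ) ≡ r i [MOD p] := (Nat.modEq_iff_dvd).2 hd
              exact hi (hr (Fin.ext (h3.eq_of_lt_of_lt (r i').2 (r i).2))).symm)
        set A := (univ : Finset (Fin K → Fin (p ^ (M - (b + 1))))).filter (fun x => ∀ j : Fin K,
          (p : ℤ) ^ (j.val + 1) ∣ (∑ i, ((((r i : ℕ) : ℤ) - (c / p ^ b % p : ℕ)) +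
            p * ((x i : ℕ) : ℤ)) ^ (j.val + 1)) - ∑ i, ((((r i : ℕ) : ℤ) - (c / p ^ b % p : ℕ)) +
            p * ((x0 i : ℕ) : ℤ)) ^ (j.val + 1)) with hA
        have h3 : ∀ x, JJ p K M c B (lam + (ss p b c r x - ss p b c r x')) ≠ 0 → x ∈ A := by
          intro x hx
          refine mem_filter.2 ⟨mem_univ _, fun j => ?_⟩
          have hj := j.2
          have h4 := dvd_sub ((ih' _).2.2 hx (b + 1) (by omega) hb j)
            ((ih' _).2.2 hx0 (b + 1) (by omega) hb j)
          rw [phi_ss, phi_ss, add_sub_add_left_eq_sub, sub_sub_sub_cancel_right] at h4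
          simp only [uu_sub, mul_pow, ← mul_sum] at h4
          rw [← mul_sub, add_mul, one_mul, pow_add, pow_mul] at h4
          exact (mul_dvd_mul_iff_left (pow_ne_zero _ (pow_ne_zero _
            (by exact_mod_cast hp.ne_zero)))).1 h4
        have h4 : (av fun x : Fin K → Fin (p ^ (M - (b + 1))) =>
            JJ p K M c B (lam + (ss p b c r x - ss p b c r x'))) *
            (p : ℝ) ^ (B.card * (K * (K - 1) / 2)) ≤ av fun x => if x ∈ A then 1 else 0 := by
          rw [← av_mul_right]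
          refine av_mono fun x => ?_
          split_ifs with h5
          · exact (ih' _).2.1
          · rw [not_not.1 fun h6 => h5 (h3 x h6), zero_mul]
        rw [av_indicator, filter_mem_eq_inter, univ_inter, Fintype.card_fun, Fintype.card_fin,
          Fintype.card_fin, ← pow_mul] at h4
        have h5 : (A.card : ℝ) * (p : ℝ) ^ (K * (K - 1) / 2) ≤ (p : ℝ) ^ ((M - (b + 1)) * K) := by
          exact_mod_cast h2
        rw [add_mul, one_mul, pow_add, ← mul_assoc]
        refine (mul_le_mul_of_nonneg_right h4 (by positivity)).trans ?_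
        rw [div_mul_eq_mul_div, Nat.cast_pow, div_le_one (by positivity)]
        exact h5
      rw [div_mul_eq_mul_div, div_le_one (by positivity), sum_mul]
      refine (sum_le_card_nsmul _ _ 1 fun r hr => ?_).trans ?_
      · rw [← av_mul_right]
        exact (av_mono (key r (mem_filter.1 hr).2)).trans (av_const_le zero_le_one)
      · have h6 := card_filter_le (univ : Finset (Fin K → Fin p)) fun r => Function.Injective r
        rw [card_univ, Fintype.card_fun, Fintype.card_fin, Fintype.card_fin] at h6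
        rw [nsmul_eq_mul, mul_one]
        exact_mod_cast h6
    · obtain ⟨r, -, hr⟩ := exists_ne_zero_of_sum_ne_zero (div_ne_zero_iff.1 h0).1
      obtain ⟨x', hx'⟩ := av_ne hr
      obtain ⟨x, hx⟩ := av_ne hx'
      have h2 := (ih' _).2.2 hx b0 hb0 (fun b' hb' => hb0' b' (mem_insert_of_mem hb')) j
      have h3 : ∀ y : Fin K → Fin (p ^ (M - (b + 1))), (p : ℤ) ^ (b0 * (j.val + 1)) ∣
          ∑ i, ((uu p b c (r i) (y i) : ℤ) - (c % p ^ b0 : ℕ)) ^ (j.val + 1) := fun y =>
        dvd_sum fun i _ => by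
          rw [pow_mul]
          exact pow_dvd_pow_of_dvd (dvd_uu p c _ _ (hb0' b (mem_insert_self _ _))) _
      rw [phi_ss] at h2
      exact (dvd_add_left (dvd_sub (h3 x) (h3 x'))).1 h2

end Coll

theorem coll (h1 : S_LINNIK) : S_COLL := by
  intro p K M c B hp hK hB
  have h := (Coll.main h1 (c := c) hp hK B hB 0).2.1
  unfold Coll.JJ at h
  simp only [Coll.ch_zero, mul_one, ← Complex.ofReal_prod, avc_ofReal, Complex.ofReal_re] at h
  exact h

end Pool.Agent.P.MP_b60056_nt.AA
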