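import Pool.Agent.P.MP_b60056_nt.AA.Api

namespace Pool.Agent.P.MP_b60056_nt.AA

open Finset

namespace Linnik

theorem step (p K e : ℕ) (hp : p.Prime) (hK : K < p) (he : 1 ≤ e) (xi z : Fin K → ℤ)
    (hd : ∀ i i', i ≠ i' → ¬ (p : ℤ) ∣ xi i - xi i')
    (h : ∀ j : Fin K, (p : ℤ) ^ (e + 1) ∣
      (∑ i, (xi i + (p : ℤ) ^ e * z i) ^ (j.val + 1)) - ∑ i, xi i ^ (j.val + 1)) :
    ∀ i, (p : ℤ) ∣ z i := by
  have := Fact.mk hp
  have hp0 : (p : ℤ) ≠ 0 := by exact_mod_cast hp.ne_zero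
  have h1 : ∀ j : Fin K, (p : ℤ) ∣ ∑ i, z i * xi i ^ j.val := by
    intro j
    have h2 : (p : ℤ) ^ (e + 1) ∣ ∑ i, ((xi i + (p : ℤ) ^ e * z i) ^ (j.val + 1)
        - xi i ^ (j.val + 1 - 1) * ((p : ℤ) ^ e * z i) * ((j.val + 1 : ℕ) : ℤ)
        - xi i ^ (j.val + 1)) := by
      refine Finset.dvd_sum fun i _ => ?_
      refine Dvd.dvd.trans ?_ (sq_dvd_add_pow_sub_sub ((p : ℤ) ^ e * z i) (xi i) (j.val + 1))
      rw [mul_pow, ← pow_mul]
      exact Dvd.dvd.mul_right (pow_dvd_pow _ (by omega)) _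
    have h3 := dvd_sub (h j) h2
    have h4 : (∑ i, (xi i + (p : ℤ) ^ e * z i) ^ (j.val + 1)) - ∑ i, xi i ^ (j.val + 1)
        - ∑ i, ((xi i + (p : ℤ) ^ e * z i) ^ (j.val + 1)
        - xi i ^ (j.val + 1 - 1) * ((p : ℤ) ^ e * z i) * ((j.val + 1 : ℕ) : ℤ)
        - xi i ^ (j.val + 1))
        = (p : ℤ) ^ e * (((j.val + 1 : ℕ) : ℤ) * ∑ i, z i * xi i ^ j.val) := by
      rw [← Finset.sum_sub_distrib, ← Finset.sum_sub_distrib, Finset.mul_sum, Finset.mul_sum]
      refine Finset.sum_congr rfl fun i _ => ?_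
      rw [Nat.add_sub_cancel]
      ring
    rw [h4, pow_succ] at h3
    have h5 := (mul_dvd_mul_iff_left (pow_ne_zero e hp0)).1 h3
    have hpr : Prime (p : ℤ) := Nat.prime_iff_prime_int.1 hp
    rcases hpr.dvd_or_dvd h5 with h6 | h6
    · exfalso
      have h7 : p ∣ j.val + 1 := by exact_mod_cast h6
      have := Nat.le_of_dvd (by omega) h7
      have := j.isLt
      omega
    · exact h6
  have hinj : Function.Injective (fun i => ((xi i : ℤ) : ZMod p)) := by
    intro i i' hii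
    by_contra hne
    apply hd i i' hne
    rw [← ZMod.intCast_zmod_eq_zero_iff_dvd]
    push_cast
    exact sub_eq_zero.2 hii
  have hz : (fun i => ((z i : ℤ) : ZMod p)) = 0 := by
    apply Matrix.eq_zero_of_forall_pow_sum_mul_pow_eq_zero hinj
    intro j
    have := (ZMod.intCast_zmod_eq_zero_iff_dvd _ p).2 (h1 j)
    push_cast at this
    exact this
  intro i
  exact (ZMod.intCast_zmod_eq_zero_iff_dvd _ p).1 (congrFun hz i)

theorem lift (p K : ℕ) (hp : p.Prime) (hK : K < p) (xi xi' : Fin K → ℤ)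
    (hd : ∀ i i', i ≠ i' → ¬ (p : ℤ) ∣ xi i - xi i')
    (h1 : ∀ i, (p : ℤ) ∣ xi' i - xi i)
    (h : ∀ j : Fin K, (p : ℤ) ^ K ∣
      (∑ i, xi' i ^ (j.val + 1)) - ∑ i, xi i ^ (j.val + 1)) :
    ∀ e, e + 1 ≤ K → ∀ i, (p : ℤ) ^ (e + 1) ∣ xi' i - xi i := by
  intro e
  induction e with
  | zero => intro _ i; simpa using h1 i
  | succ e ih =>
    intro he
    have h2 := ih (by omega)
    choose z hz using h2
    have h3 : ∀ i, xi' i = xi i + (p : ℤ) ^ (e + 1) * z i := fun i => by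
      rw [← hz i]; ring
    have h4 := step p K (e + 1) hp hK (by omega) xi z hd (fun j => by
      have := (pow_dvd_pow (p : ℤ) he).trans (h j)
      simpa only [h3] using this)
    intro i
    rw [hz i, pow_succ (p : ℤ) (e + 1)]
    exact mul_dvd_mul_left _ (h4 i)

theorem sum_sub (K : ℕ) : ∑ j : Fin K, (K - (j.val + 1)) = K * (K - 1) / 2 := by
  rw [Fin.sum_univ_eq_sum_range (fun j => K - (j + 1)) K, ← Finset.sum_range_id,
    ← Finset.sum_range_reflect (fun j => j) K]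
  refine Finset.sum_congr rfl fun j _ => ?_
  omega

end Linnik

theorem linnik : S_LINNIK := by
  intro p K Y ρ lam hp hK hKY hρ
  classical
  have hp0 : (p : ℤ) ≠ 0 := by exact_mod_cast hp.ne_zero
  have hpp : 0 < p := hp.pos
  set s : (Fin K → Fin (p ^ Y)) → Fin K → ℤ :=
    fun x j => (∑ i, (ρ i + p * ((x i : ℕ) : ℤ)) ^ (j.val + 1)) - lam j with hs
  set T : Finset ((Fin K → ℕ) × (Fin K → ℤ)) :=
    (Fintype.piFinset fun _ : Fin K => range (p ^ (Y + 1 - K))) ×ˢ
      (Fintype.piFinset fun j : Fin K => Ico (0 : ℤ) ((p : ℤ) ^ (K - (j.val + 1)))) with hT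
  have hTc : T.card = p ^ ((Y + 1 - K) * K) * p ^ (K * (K - 1) / 2) := by
    rw [hT, card_product, Fintype.card_piFinset, Fintype.card_piFinset]
    congr 1
    · simp [← pow_mul]
    · rw [← Linnik.sum_sub K, ← Finset.prod_pow_eq_pow_sum]
      refine Finset.prod_congr rfl fun j _ => ?_
      rw [Int.card_Ico, sub_zero, ← Nat.cast_pow, Int.toNat_natCast]
  have hle : ((univ : Finset (Fin K → Fin (p ^ Y))).filter (fun x => ∀ j : Fin K,
      (p : ℤ) ^ (j.val + 1) ∣ s x j)).card ≤ T.card := by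
    refine Finset.card_le_card_of_injOn
      (fun x => (fun i => (x i : ℕ) / p ^ (K - 1),
        fun j => (s x j / (p : ℤ) ^ (j.val + 1)) % (p : ℤ) ^ (K - (j.val + 1)))) ?_ ?_
    · intro x _
      simp only [hT, coe_product, Set.mem_prod, mem_coe, Fintype.mem_piFinset, mem_range, mem_Ico]
      refine ⟨fun i => ?_, fun j => ⟨Int.emod_nonneg _ (pow_ne_zero _ hp0),
        Int.emod_lt_of_pos _ (by positivity)⟩⟩
      rw [Nat.div_lt_iff_lt_mul (by positivity), ← pow_add]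
      have hi := i.isLt
      have : Y + 1 - K + (K - 1) = Y := by omega
      rw [this]
      exact (x i).isLt
    · intro x hx x' hx' hxx
      simp only [coe_filter, mem_univ, true_and, Set.mem_ofPred_eq] at hx hx'
      have hq := congrArg Prod.fst hxx
      have hr := congrArg Prod.snd hxx
      simp only at hq hr
      funext i
      have hi := i.isLt
      have hdv : ∀ j : Fin K, (p : ℤ) ^ K ∣
          (∑ i, (ρ i + p * ((x' i : ℕ) : ℤ)) ^ (j.val + 1))
            - ∑ i, (ρ i + p * ((x i : ℕ) : ℤ)) ^ (j.val + 1) := by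
        intro j
        have hj := j.isLt
        obtain ⟨a, ha⟩ := hx j
        obtain ⟨b, hb⟩ := hx' j
        have h1 := congrFun hr j
        rw [ha, hb, Int.mul_ediv_cancel_left _ (pow_ne_zero _ hp0),
          Int.mul_ediv_cancel_left _ (pow_ne_zero _ hp0)] at h1
        have h2 : (p : ℤ) ^ (K - (j.val + 1)) ∣ b - a := Int.ModEq.dvd h1
        have h3 : (∑ i, (ρ i + p * ((x' i : ℕ) : ℤ)) ^ (j.val + 1))
            - ∑ i, (ρ i + p * ((x i : ℕ) : ℤ)) ^ (j.val + 1) = s x' j - s x j := by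
          simp only [hs]; ring
        rw [h3, ha, hb, ← mul_sub]
        have h4 : (p : ℤ) ^ K = (p : ℤ) ^ (j.val + 1) * (p : ℤ) ^ (K - (j.val + 1)) := by
          rw [← pow_add]; congr 1; omega
        rw [h4]
        exact mul_dvd_mul_left _ h2
      have hl := Linnik.lift p K hp hK (fun i => ρ i + p * ((x i : ℕ) : ℤ))
        (fun i => ρ i + p * ((x' i : ℕ) : ℤ))
        (fun i i' hne hdv => hρ i i' hne (by
          have h1 : ρ i - ρ i' = (ρ i + p * ((x i : ℕ) : ℤ) - (ρ i' + p * ((x i' : ℕ) : ℤ)))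
              - p * (((x i : ℕ) : ℤ) - ((x i' : ℕ) : ℤ)) := by ring
          rw [h1]
          exact dvd_sub hdv (dvd_mul_right _ _)))
        (fun i => ⟨((x' i : ℕ) : ℤ) - ((x i : ℕ) : ℤ), by ring⟩) hdv (K - 1) (by omega) i
      have h5 : ρ i + p * ((x' i : ℕ) : ℤ) - (ρ i + p * ((x i : ℕ) : ℤ))
          = (((x' i : ℕ) : ℤ) - ((x i : ℕ) : ℤ)) * p := by ring
      rw [h5, pow_succ] at hl
      have h6 := (mul_dvd_mul_iff_right hp0).1 hl
      have h7 : (x i : ℕ) ≡ (x' i : ℕ) [MOD p ^ (K - 1)] := by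
        rw [Nat.modEq_iff_dvd]
        exact_mod_cast h6
      have h8 := congrFun hq i
      apply Fin.ext
      rw [← Nat.div_add_mod (x i : ℕ) (p ^ (K - 1)), ← Nat.div_add_mod (x' i : ℕ) (p ^ (K - 1)),
        h8, h7]
  calc _ ≤ T.card * p ^ (K * (K - 1) / 2) := Nat.mul_le_mul_right _ hle
    _ = p ^ (Y * K) := by
      rw [hTc, ← pow_add, ← pow_add]
      congr 1
      have h2 : K * (K - 1) / 2 * 2 = K * (K - 1) := Nat.div_mul_cancel (Nat.even_mul_pred_self K).two_dvd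
      rcases Nat.eq_zero_or_pos K with h0 | h0
      · subst h0; simp
      · obtain ⟨k, rfl⟩ : ∃ k, K = k + 1 := ⟨K - 1, by omega⟩
        obtain ⟨y, rfl⟩ : ∃ y, Y = k + y := ⟨Y - k, by omega⟩
        have h3 : k + y + 1 - (k + 1) = y := by omega
        rw [h3]
        simp only [Nat.add_sub_cancel] at h2 ⊢
        nlinarith

end Pool.Agent.P.MP_b60056_nt.AA
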