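import Pool.Agent.P.MP_b60056_nt.AA.Api

namespace Pool.Agent.P.MP_b60056_nt.AA

open Finset

namespace Rep

theorem Om_mul {a b : ℕ} (ha : a ≠ 0) (hb : b ≠ 0) : Om (a * b) = Om a + Om b :=
  ArithmeticFunction.cardFactors_mul ha hb

theorem Om_prod {ι : Type} (s : Finset ι) (f : ι → ℕ) (h : ∀ i, f i ≠ 0) :
    Om (∏ i ∈ s, f i) = ∑ i ∈ s, Om (f i) := by
  classical
  induction s using Finset.induction_on with
  | empty => simp [Om]
  | insert a s ha ih =>
    rw [prod_insert ha, sum_insert ha, Om_mul (h a) (prod_ne_zero_iff.2 fun i _ => h i), ih]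

theorem count {ι : Type} [Fintype ι] [DecidableEq ι] (n : ℕ) : n ≠ 0 → ∀ A : Finset (ι → ℕ),
    (∀ f ∈ A, ∏ i, f i = n) → A.card ≤ Fintype.card ι ^ Om n := by
  induction n using induction_on_primes with
  | zero => exact fun h => absurd rfl h
  | one =>
    intro _ A h
    have h1 : ∀ f ∈ A, f = fun _ => 1 := fun f hf => funext fun i =>
      Nat.dvd_one.1 (h f hf ▸ dvd_prod_of_mem f (mem_univ i))
    simpa [Om] using card_le_one.2 fun f hf g hg => (h1 f hf).trans (h1 g hg).symm
  | prime_mul p m hp ih =>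
    intro h0 A h
    have hm : m ≠ 0 := right_ne_zero_of_mul h0
    have hsub : A ⊆ univ.biUnion fun i => A.filter fun f => p ∣ f i := fun f hf => by
      obtain ⟨i, hi, h1⟩ := (Prime.dvd_finsetProd_iff hp.prime f).1 (h f hf ▸ dvd_mul_right p m)
      exact mem_biUnion.2 ⟨i, hi, mem_filter.2 ⟨hf, h1⟩⟩
    have hO : Om (p * m) = Om m + 1 := by
      rw [Om_mul hp.ne_zero hm, add_comm, Om, Om, ArithmeticFunction.cardFactors_apply_prime hp]
    rw [hO, pow_succ', ← card_univ, ← smul_eq_mul]
    refine ((card_le_card hsub).trans card_biUnion_le).trans (sum_le_card_nsmul _ _ _ fun i _ => ?_)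
    rw [← card_image_of_injOn (f := fun f : ι → ℕ => Function.update f i (f i / p))]
    · refine ih hm _ fun g hg => ?_
      obtain ⟨f, hf, rfl⟩ := mem_image.1 hg
      obtain ⟨hf, c, hc⟩ := mem_filter.1 hf
      have h1 := h f hf
      rw [← mul_prod_erase _ _ (mem_univ i), hc, mul_assoc] at h1
      rw [prod_update_of_mem (mem_univ i), sdiff_singleton_eq_erase, hc,
        Nat.mul_div_cancel_left _ hp.pos]
      exact mul_left_cancel₀ hp.ne_zero h1
    · intro f hf g hg e
      funext j
      have e' := congrFun e j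
      rcases eq_or_ne j i with rfl | hj
      · simp only [Function.update_self] at e'
        rw [← Nat.mul_div_cancel' (mem_filter.1 hf).2, e', Nat.mul_div_cancel' (mem_filter.1 hg).2]
      · simpa only [Function.update_of_ne hj] using e'

end Rep

theorem rep : S_REP := by
  intro ι _ _ A R n h
  rcases (A.filter fun f => ∏ i, f i = n).eq_empty_or_nonempty with h0 | ⟨f, hf⟩
  · simp [h0]
  obtain ⟨hA, rfl⟩ := mem_filter.1 hf
  have h1 : ∀ i, f i ≠ 0 := fun i => (h f hA i).1.ne'
  refine (Rep.count _ (prod_ne_zero_iff.2 fun i _ => h1 i) _ fun g hg => (mem_filter.1 hg).2).trans ?_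
  rcases isEmpty_or_nonempty ι with _ | _
  · simp [Om]
  refine Nat.pow_le_pow_right Fintype.card_pos ?_
  rw [Rep.Om_prod _ _ h1, ← card_univ, ← smul_eq_mul]
  exact sum_le_card_nsmul _ _ _ fun i _ => (h f hA i).2

end Pool.Agent.P.MP_b60056_nt.AA
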