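import Pool.Agent.P.MP_b60056_nt.AA.Api

namespace Pool.Agent.P.MP_b60056_nt.AA

open Finset

namespace Sj

theorem nrm (x : ℝ) : ‖ee x‖ = 1 := Complex.norm_exp_ofReal_mul_I x

theorem triv (θ : ℕ → ℝ) {L : ℕ} (hL : 1 ≤ L) :
    ‖∑ x ∈ range (2 * L + 1), ee (θ x)‖ ^ 2 ≤ 9 * (L : ℝ) ^ 2 := by
  have h1 : ‖∑ x ∈ range (2 * L + 1), ee (θ x)‖ ≤ 3 * L := by
    refine (norm_sum_le _ _).trans ?_
    have : (1 : ℝ) ≤ L := by exact_mod_cast hL
    simp only [nrm, sum_const, card_range, nsmul_eq_mul, mul_one]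
    push_cast
    linarith
  calc _ ≤ (3 * (L : ℝ)) ^ 2 := pow_le_pow_left₀ (norm_nonneg _) h1 2
    _ = _ := by ring

theorem geo {β : ℝ} (hβ : |β| ≤ 1 / 2) (n : ℕ) :
    ‖∑ x ∈ range n, ee (2 * Real.pi * β * x)‖ * |β| ≤ 1 / 2 := by
  have e1 : ∑ x ∈ range n, ee (2 * Real.pi * β * x) = ∑ x ∈ range n, ee (2 * Real.pi * β) ^ x :=
    sum_congr rfl fun x _ => by rw [← ee_nat_mul, mul_comm]
  have e2 := congrArg norm (geom_sum_mul (ee (2 * Real.pi * β)) n)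
  have e3 : ‖ee (2 * Real.pi * β) ^ n - 1‖ ≤ 2 := by
    refine (norm_sub_le _ _).trans ?_
    rw [norm_pow, nrm, one_pow, norm_one]
    norm_num
  have e4 : 4 * |β| ≤ ‖ee (2 * Real.pi * β) - 1‖ := by
    have hp := Real.pi_pos
    have h1 : |Real.pi * β| = Real.pi * |β| := by rw [abs_mul, abs_of_pos hp]
    have h2 := Real.mul_abs_le_abs_sin (x := Real.pi * β) (by rw [h1]; nlinarith)
    rw [ee, mul_comm _ Complex.I, Complex.norm_exp_I_mul_ofReal_sub_one, Real.norm_eq_abs, abs_mul,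
      abs_two, show 2 * Real.pi * β / 2 = Real.pi * β by ring]
    rw [h1, show 2 / Real.pi * (Real.pi * |β|) = 2 * |β| by field_simp] at h2
    linarith
  rw [norm_mul] at e2
  rw [e1]
  have := mul_le_mul_of_nonneg_left e4 (norm_nonneg (∑ x ∈ range n, ee (2 * Real.pi * β) ^ x))
  linarith

theorem term {α : ℝ} (hα : α ≠ 0) {L : ℕ} (hL : 1 ≤ L) (h : |α| * L ≤ 1 / 2) {μ : ℤ} {n : ℕ}
    (hn : n + 1 ≤ L) (hμ : |(μ : ℝ)| = n + 1) :
    ‖∑ x ∈ range (2 * L + 1), ee (2 * Real.pi * α * μ * x)‖ ^ 2 ≤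
      1 / |α| ^ 2 * (1 / (n + 1 / (6 * |α| * L)) - 1 / (n + 1 + 1 / (6 * |α| * L))) := by
  have ha : 0 < |α| := abs_pos.2 hα
  have hL' : (0 : ℝ) < L := by exact_mod_cast hL
  have hn' : (n : ℝ) + 1 ≤ L := by exact_mod_cast hn
  have h1 := geo (β := α * μ) (by rw [abs_mul, hμ]; nlinarith) (2 * L + 1)
  have h2 := triv (fun x => 2 * Real.pi * α * μ * x) hL
  simp only [← mul_assoc] at h1
  rw [abs_mul, hμ] at h1
  set T := ‖∑ x ∈ range (2 * L + 1), ee (2 * Real.pi * α * μ * x)‖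
  have hT : 0 ≤ T := norm_nonneg _
  set c := 1 / (6 * |α| * L) with hc
  have hc0 : 0 < c := by positivity
  have h3 : (T * (|α| * (n + 1))) ^ 2 ≤ (1 / 2) ^ 2 := pow_le_pow_left₀ (by positivity) h1 2
  have h4 : 9 * (L : ℝ) ^ 2 * (|α| * c) ^ 2 = 1 / 4 := by rw [hc]; field_simp; norm_num
  have h5 := mul_le_mul_of_nonneg_right h2 (sq_nonneg (|α| * c))
  have hn0 : (0 : ℝ) ≤ n := Nat.cast_nonneg n
  have e : 1 / |α| ^ 2 * (1 / (n + c) - 1 / (n + 1 + c)) =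
      1 / (|α| ^ 2 * ((n + c) * (n + 1 + c))) := by
    field_simp
    ring
  rw [e, le_div_iff₀ (by positivity)]
  have h6 : (n + c) * (n + 1 + c) ≤ 2 * (n + 1) ^ 2 + 2 * c ^ 2 := by
    nlinarith [sq_nonneg (n + 1 - c)]
  have h7 := mul_le_mul_of_nonneg_left h6 (mul_nonneg (sq_nonneg T) (sq_nonneg |α|))
  nlinarith

theorem part {α : ℝ} (hα : α ≠ 0) {L : ℕ} (hL : 1 ≤ L) (h : |α| * L ≤ 1 / 2) (n : ℕ)
    (hn : n ≤ L) : ∑ μ ∈ Icc (-(n : ℤ)) n,
      ‖∑ x ∈ range (2 * L + 1), ee (2 * Real.pi * α * μ * x)‖ ^ 2 ≤ 9 * (L : ℝ) ^ 2 +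
        2 * (1 / |α| ^ 2 * (6 * |α| * L - 1 / (n + 1 / (6 * |α| * L)))) := by
  induction n with
  | zero => simpa using triv (fun x => 2 * Real.pi * α * (0 : ℤ) * x) hL
  | succ n ih =>
    have e : Icc (-((n + 1 : ℕ) : ℤ)) (n + 1 : ℕ) =
        insert (-((n : ℤ) + 1)) (insert ((n : ℤ) + 1) (Icc (-(n : ℤ)) n)) := by
      ext x
      simp only [mem_Icc, mem_insert]
      push_cast
      omega
    rw [e, sum_insert (by simp only [mem_insert, mem_Icc]; omega),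
      sum_insert (by simp only [mem_Icc]; omega)]
    have hn0 : (0 : ℝ) ≤ n + 1 := by positivity
    have h1 := term hα hL h (μ := -((n : ℤ) + 1)) hn (by push_cast; rw [abs_neg, abs_of_nonneg hn0])
    have h2 := term hα hL h (μ := (n : ℤ) + 1) hn (by push_cast; rw [abs_of_nonneg hn0])
    have h3 := ih (by omega)
    rw [Nat.cast_succ]
    linarith

end Sj

theorem sj : S_SJ := by
  intro α L hL
  have hL' : (1 : ℝ) ≤ L := by exact_mod_cast hL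
  refine ⟨?_, fun hα h => ?_⟩
  · rw [Sj, div_le_iff₀ (by positivity)]
    refine (sum_le_card_nsmul _ _ _ fun μ _ => Sj.triv _ hL).trans ?_
    rw [Int.card_Icc, show ((L : ℤ) + 1 - -(L : ℤ)).toNat = 2 * L + 1 by omega, nsmul_eq_mul]
    push_cast
    nlinarith [sq_nonneg (L : ℝ)]
  · have ha : 0 < |α| := abs_pos.2 hα
    rw [Sj, div_le_iff₀ (by positivity)]
    refine (Sj.part hα hL h L le_rfl).trans ?_
    have h1 : 0 ≤ 1 / |α| ^ 2 * (1 / (L + 1 / (6 * |α| * L))) := by positivity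
    have h2 : 1 / |α| ^ 2 * (6 * |α| * L) = 6 * (1 / |α|) * L := by field_simp
    have h3 : 0 < 1 / |α| := by positivity
    rw [mul_sub, h2, show 19 / |α| = 19 * (1 / |α|) by ring]
    nlinarith

end Pool.Agent.P.MP_b60056_nt.AA
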