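import Pool.Agent.P.MP_b60056_nt.AA.Api

namespace Pool.Agent.P.MP_b60056_nt.AA

open Finset MeasureTheory

namespace Tree

theorem split (f : ℕ → ℂ) (p : ℕ) : ∀ N : ℕ,
    ∑ x ∈ range (N * p), f x = ∑ r ∈ range p, ∑ x ∈ range N, f (r + p * x)
  | 0 => by simp
  | N + 1 => by
    rw [Nat.succ_mul, sum_range_add, split f p N, ← sum_add_distrib]
    refine sum_congr rfl fun r _ => ?_
    rw [sum_range_succ, add_comm r, mul_comm p]

theorem gt_succ {p M b : ℕ} (hp : 0 < p) (hb : b < M) (F : ℕ → ℂ) (c : ℕ) :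
    gt p M F b c = (∑ r ∈ range p, gt p M F (b + 1) (c + p ^ b * r)) / p := by
  have e : p ^ (M - b) = p ^ (M - (b + 1)) * p := by
    rw [← pow_succ]; congr 1; omega
  unfold gt
  rw [e, split, ← sum_div, div_div, Nat.cast_mul]
  congr 1
  refine sum_congr rfl fun r _ => sum_congr rfl fun x _ => ?_
  congr 1
  ring

theorem gt_sq {p M b : ℕ} (hp : 0 < p) (hb : b < M) (F : ℕ → ℂ) (c : ℕ) :
    p * ‖gt p M F b c‖ ^ 2 ≤ ∑ r ∈ range p, ‖gt p M F (b + 1) (c + p ^ b * r)‖ ^ 2 := by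
  have hp' : (0 : ℝ) < p := by exact_mod_cast hp
  have h1 := sq_sum_le_card_mul_sum_sq (s := range p)
    (f := fun r => ‖gt p M F (b + 1) (c + p ^ b * r)‖)
  have h2 := pow_le_pow_left₀ (norm_nonneg _)
    (norm_sum_le (range p) fun r => gt p M F (b + 1) (c + p ^ b * r)) 2
  rw [card_range] at h1
  rw [gt_succ hp hb, norm_div, Complex.norm_natCast, div_pow, sq (p : ℝ), mul_div_assoc',
    mul_div_mul_left _ _ hp'.ne', div_le_iff₀' hp']
  exact h2.trans h1

theorem gt_le {p M : ℕ} (hp : 0 < p) {F : ℕ → ℂ} (hF : ∀ u, ‖F u‖ ≤ 1) (b c : ℕ) :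
    ‖gt p M F b c‖ ≤ 1 := by
  unfold gt
  rw [norm_div, Complex.norm_natCast, div_le_one (by positivity)]
  refine (norm_sum_le_of_le _ fun x _ => hF _).trans ?_
  simp

theorem inj_sum {p K : ℕ} (x : Fin p → ℝ) {s t : ℝ} (h0 : ∀ a, 0 ≤ x a) (h1 : ∀ a, x a ≤ s)
    (hs : 0 ≤ s) (ht : 0 ≤ t) (h : t + K * s ≤ ∑ a, x a) : ∀ k ≤ K,
    t ^ k ≤ ∑ r : Fin k → Fin p, if Function.Injective r then ∏ i, x (r i) else 0
  | 0, _ => by simp [Function.injective_of_subsingleton]
  | k + 1, hk => by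
    have ih := inj_sum x h0 h1 hs ht h k (by omega)
    rw [← (Fin.consEquiv fun _ : Fin (k + 1) => Fin p).sum_comp, Fintype.sum_prod_type_right,
      pow_succ']
    refine (mul_le_mul_of_nonneg_left ih ht).trans ?_
    rw [mul_sum]
    refine sum_le_sum fun r _ => ?_
    have e : ∀ a : Fin p, (if Function.Injective ((Fin.consEquiv fun _ : Fin (k + 1) => Fin p) (a, r))
        then ∏ i, x ((Fin.consEquiv fun _ : Fin (k + 1) => Fin p) (a, r) i) else 0) =
        (if a ∈ univ.image r then 0 else x a) *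
          (if Function.Injective r then ∏ i, x (r i) else 0) := fun a => by
      have e1 : (Fin.consEquiv fun _ : Fin (k + 1) => Fin p) (a, r) = Fin.cons a r := rfl
      rw [e1, Fin.prod_univ_succ]
      simp only [Fin.cons_injective_iff, Fin.cons_zero, Fin.cons_succ, mem_image, mem_univ,
        true_and, Set.mem_range]
      by_cases ha : ∃ i, r i = a <;> by_cases hr : Function.Injective r <;> simp [ha, hr]
    rw [sum_congr rfl fun a _ => e a, ← sum_mul]
    refine mul_le_mul_of_nonneg_right ?_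
      (by split_ifs; exacts [prod_nonneg fun _ _ => h0 _, le_rfl])
    have a1 : ∑ a, x a = ∑ a, (if a ∈ univ.image r then 0 else x a) + ∑ a ∈ univ.image r, x a := by
      rw [← sum_ite_mem_eq (univ.image r), ← sum_add_distrib]
      refine sum_congr rfl fun a _ => ?_
      split_ifs <;> simp
    have a2 : ∑ a ∈ univ.image r, x a ≤ (univ.image r).card • s :=
      sum_le_card_nsmul _ _ _ fun a _ => h1 a
    have a3 : ((univ.image r).card : ℝ) ≤ K := by
      have := card_image_le (s := univ) (f := r)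
      rw [card_univ, Fintype.card_fin] at this
      exact_mod_cast this.trans (by omega)
    rw [nsmul_eq_mul] at a2
    have a4 := mul_le_mul_of_nonneg_right a3 hs
    linarith

theorem growth (m : ℕ → ℝ) {q : ℝ} (hq : 0 ≤ q) : ∀ D : ℕ, (∀ b < D, m b ≤ m (b + 1)) →
    q ^ ((range D).filter fun b => q * m b < m (b + 1)).card * m 0 ≤ m D
  | 0, _ => by simp
  | D + 1, h => by
    have ih := growth m hq D fun b hb => h b (by omega)
    rw [range_add_one, filter_insert]
    split_ifs with e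
    · rw [card_insert_of_notMem (by simp), pow_succ', mul_assoc]
      exact (mul_le_mul_of_nonneg_left ih hq).trans e.le
    · exact ih.trans (h D (by omega))

/-- The path through the tree. -/
def path (p : ℕ) (ρ : ℕ → ℕ → ℕ) : ℕ → ℕ
  | 0 => 0
  | b + 1 => path p ρ b + p ^ b * ρ b (path p ρ b)

theorem path_lt {p : ℕ} {ρ : ℕ → ℕ → ℕ} (h : ∀ b c, ρ b c < p) : ∀ b, path p ρ b < p ^ b
  | 0 => by simp [path]
  | b + 1 => by
    have h1 := path_lt h b
    have h2 := Nat.mul_le_mul_left (p ^ b) (Nat.succ_le_of_lt (h b (path p ρ b)))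
    rw [path, pow_succ]
    rw [Nat.mul_succ] at h2
    omega

theorem path_mod {p : ℕ} {ρ : ℕ → ℕ → ℕ} (h : ∀ b c, ρ b c < p) (b : ℕ) :
    ∀ d, path p ρ (b + d) % p ^ b = path p ρ b
  | 0 => Nat.mod_eq_of_lt (path_lt h b)
  | d + 1 => by
    rw [← add_assoc, path, pow_add, mul_assoc, Nat.add_mul_mod_self_left, path_mod h b d]

end Tree

open Tree in
theorem tree : S_TREE := by
  intro p M K n F hK hp hM hF
  have hp0 : 0 < p := lt_of_lt_of_le (by positivity) hp
  have hp' : (0 : ℝ) < p := by exact_mod_cast hp0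
  have hK' : (1 : ℝ) ≤ K := by exact_mod_cast hK
  have hp2 : 4 * (K : ℝ) ^ 2 ≤ p := by exact_mod_cast hp
  choose ρ hρ hmax using fun b c => exists_max_image (range p)
    (fun r => ‖gt p M F (b + 1) (c + p ^ b * r)‖ ^ 2) ⟨0, mem_range.2 hp0⟩
  have hρ' : ∀ b c, ρ b c < p := fun b c => mem_range.1 (hρ b c)
  obtain ⟨m, hm⟩ : ∃ m : ℕ → ℝ, ∀ b, m b = ‖gt p M F b (path p ρ b)‖ ^ 2 := ⟨_, fun _ => rfl⟩
  have hm0 : ∀ b, 0 ≤ m b := fun b => by rw [hm]; positivity
  have hx : ∀ b, ∀ r ∈ range p, ‖gt p M F (b + 1) (path p ρ b + p ^ b * r)‖ ^ 2 ≤ m (b + 1) :=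
    fun b r hr => by rw [hm]; exact hmax b _ r hr
  have hmono : ∀ b < M, m b ≤ m (b + 1) := fun b hb => by
    have h1 := gt_sq hp0 hb F (path p ρ b)
    have h2 := sum_le_card_nsmul _ _ _ (hx b)
    rw [card_range, nsmul_eq_mul] at h2
    rw [← hm] at h1
    exact le_of_mul_le_mul_left (h1.trans h2) hp'
  have hle : ∀ b ≤ M, m 0 ≤ m b := fun b => by
    induction b with
    | zero => exact fun _ => le_rfl
    | succ b ih => exact fun hb => (ih (by omega)).trans (hmono b hb)
  have e0 : ‖gt p M F 0 0‖ ^ 2 = m 0 := (hm 0).symm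
  rw [e0]
  obtain ⟨q, hq⟩ : ∃ q : ℝ, q = p / (2 * K) := ⟨_, rfl⟩
  have hq1 : q * (2 * K) = p := by rw [hq]; field_simp
  have hq0 : 0 < q := by rw [hq]; positivity
  have hq2 : 2 * (K : ℝ) ≤ q := by rw [hq, le_div_iff₀ (by positivity)]; linarith
  have hq3 : (p : ℝ) ≤ q ^ 2 := by nlinarith
  have hg := growth m hq0.le (n + 2 * K) fun b hb => hmono b (by omega)
  by_cases hc : 2 * K ≤ ((range (n + 2 * K)).filter fun b => q * m b < m (b + 1)).card
  · left
    have a1 : (p : ℝ) ^ K ≤ q ^ ((range (n + 2 * K)).filter fun b => q * m b < m (b + 1)).card :=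
      ((pow_le_pow_left₀ hp'.le hq3 K).trans_eq (pow_mul _ _ _).symm).trans
        (pow_le_pow_right₀ (by linarith) hc)
    have a2 : m (n + 2 * K) ≤ 1 := by
      rw [hm]; exact pow_le_one₀ (norm_nonneg _) (gt_le hp0 hF _ _)
    rw [← one_div, le_div_iff₀' (by positivity)]
    exact (mul_le_mul_of_nonneg_right a1 (hm0 0)).trans (hg.trans a2)
  · right
    have a1 := card_filter_add_card_filter_not (s := range (n + 2 * K))
      fun b => q * m b < m (b + 1)
    rw [card_range] at a1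
    obtain ⟨B, hB, hBn⟩ := exists_subset_card_eq (n := n)
      (s := (range (n + 2 * K)).filter fun b => ¬ q * m b < m (b + 1)) (by omega)
    refine ⟨path p ρ (n + 2 * K), path_lt hρ' _, B, hB.trans (filter_subset _ _), hBn, ?_⟩
    rw [pow_mul, ← hBn, ← prod_const]
    have h00 := hm0 0
    refine prod_le_prod (fun _ _ => by positivity) fun b hb => ?_
    obtain ⟨b1, b2⟩ := mem_filter.1 (hB hb)
    rw [mem_range] at b1
    obtain ⟨d, hd⟩ : ∃ d, n + 2 * K = b + d := ⟨n + 2 * K - b, by omega⟩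
    rw [hBn, hd, path_mod hρ', eK, le_div_iff₀ (by positivity), ← mul_pow, sum_filter]
    refine inj_sum (fun r : Fin p => ‖gt p M F (b + 1) (path p ρ b + p ^ b * (r : ℕ))‖ ^ 2)
      (fun _ => by positivity) (fun r => hx b r (mem_range.2 r.2)) (hm0 _) (by positivity) ?_ K le_rfl
    have c1 := gt_sq hp0 (show b < M by omega) F (path p ρ b)
    rw [← hm, ← Fin.sum_univ_eq_sum_range
      (fun r => ‖gt p M F (b + 1) (path p ρ b + p ^ b * r)‖ ^ 2)] at c1
    have c2 := mul_le_mul_of_nonneg_left (hle b (by omega)) hp'.le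
    have c3 := mul_le_mul_of_nonneg_left (not_lt.1 b2) (show (0 : ℝ) ≤ K by linarith)
    have c4 : K * (q * m b) = p * m b / 2 := by rw [← hq1]; ring
    linarith

end Pool.Agent.P.MP_b60056_nt.AA
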