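import Pool.Agent.P.MP_b60056_nt.AA.Api

namespace Pool.Agent.P.MP_b60056_nt.AA

open Finset MeasureTheory

namespace Vmvt

theorem orth (Q : ℕ) (hQ : 0 < Q) (m : ℤ) :
    avc (fun b : Fin Q => ee (2 * Real.pi * (((b : ℕ) : ℝ) * (m : ℝ)) / Q)) =
      ((if (Q : ℤ) ∣ m then (1 : ℝ) else 0 : ℝ) : ℂ) := by
  have hQR : (Q : ℝ) ≠ 0 := by exact_mod_cast hQ.ne'
  have h1 : ∀ b : ℕ, ee (2 * Real.pi * ((b : ℝ) * (m : ℝ)) / Q) =
      ee (2 * Real.pi * m / Q) ^ b := by
    intro b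
    rw [← ee_nat_mul]; congr 1; ring
  have : Nonempty (Fin Q) := ⟨⟨0, hQ⟩⟩
  simp only [h1]
  split_ifs with h
  · obtain ⟨k, rfl⟩ := h
    have h2 : ee (2 * Real.pi * ((Q : ℤ) * k : ℤ) / Q) = 1 := by
      rw [← ee_int k]; congr 1; push_cast; field_simp
    simp only [h2, one_pow]
    rw [avc_const]; simp
  · have h2 : ee (2 * Real.pi * m / Q) ≠ 1 := by
      intro h2
      obtain ⟨k, hk⟩ := (ee_eq_one_iff _).1 h2
      apply h
      refine ⟨k, ?_⟩
      have h3 : (m : ℝ) = Q * k := by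
        field_simp at hk
        linarith
      exact_mod_cast h3
    have h3 : ee (2 * Real.pi * m / Q) ^ Q = 1 := by
      rw [← ee_nat_mul, ← ee_int m]; congr 1; field_simp
    unfold avc
    rw [Fin.sum_univ_eq_sum_range (fun b => ee (2 * Real.pi * m / Q) ^ b) Q, geom_sum_eq h2, h3]
    simp

theorem avc_comm {S S' : Type} [Fintype S] [Fintype S'] (f : S → S' → ℂ) :
    avc (fun s => avc (fun s' => f s s')) = avc (fun s' => avc (fun s => f s s')) := by
  unfold avc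
  simp only [← Finset.sum_div]
  rw [Finset.sum_comm, div_div, div_div, mul_comm]

theorem gt_zero (p M : ℕ) (F : ℕ → ℂ) :
    gt p M F 0 0 = avc (fun u : Fin (p ^ M) => F u) := by
  unfold gt avc
  simp only [Nat.sub_zero, pow_zero, one_mul, zero_add, Fintype.card_fin]
  rw [Fin.sum_univ_eq_sum_range F]

theorem moment (K l P Q : ℕ) (hQ : 0 < Q) :
    (Jn K l P : ℝ) / (P : ℝ) ^ (2 * l) ≤
      av (fun β : Fin K → Fin Q => ‖avc (fun u : Fin P => Fb Q K β u)‖ ^ (2 * l)) := by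
  classical
  let m : (Fin l → Fin P) × (Fin l → Fin P) → Fin K → ℤ := fun w j =>
    ((∑ i, (w.1 i : ℕ) ^ (j.val + 1) : ℕ) : ℤ) - ((∑ i, (w.2 i : ℕ) ^ (j.val + 1) : ℕ) : ℤ)
  have h1 : ∀ β : Fin K → Fin Q,
      ((‖avc (fun u : Fin P => Fb Q K β u)‖ ^ (2 * l) : ℝ) : ℂ) =
        avc (fun w : (Fin l → Fin P) × (Fin l → Fin P) =>
          ∏ j : Fin K, ee (2 * Real.pi * (((β j : ℕ) : ℝ) * (m w j : ℝ)) / Q)) := by
    intro β
    have h2 : avc (fun u : Fin P => Fb Q K β u) ^ l =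
        avc (fun σ : Fin l → Fin P => ∏ i, Fb Q K β (σ i)) := by
      rw [avc_pi (fun (_ : Fin l) (u : Fin P) => Fb Q K β u)]; simp
    have h3 : ((‖avc (fun u : Fin P => Fb Q K β u)‖ ^ (2 * l) : ℝ) : ℂ) =
        avc (fun u : Fin P => Fb Q K β u) ^ l *
          (starRingEnd ℂ) (avc (fun u : Fin P => Fb Q K β u) ^ l) := by
      rw [Complex.mul_conj, Complex.normSq_eq_norm_sq, norm_pow, ← pow_mul, mul_comm l 2]
    rw [h3, h2, conj_avc, ← avc_prod]
    refine avc_congr fun w => ?_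
    unfold Fb
    rw [← ee_sum, ← ee_sum, ← ee_sub, ← ee_sum]
    congr 1
    simp only [m]
    push_cast
    simp only [mul_sub, sub_div, Finset.sum_sub_distrib, Finset.mul_sum, Finset.sum_div]
    rw [Finset.sum_comm, Finset.sum_comm (s := (univ : Finset (Fin l)))]
  have h4 : ((av (fun β : Fin K → Fin Q =>
      ‖avc (fun u : Fin P => Fb Q K β u)‖ ^ (2 * l)) : ℝ) : ℂ) =
      ((av (fun w : (Fin l → Fin P) × (Fin l → Fin P) =>
        ∏ j : Fin K, if (Q : ℤ) ∣ m w j then (1 : ℝ) else 0) : ℝ) : ℂ) := by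
    rw [← avc_ofReal, ← avc_ofReal, avc_congr h1, avc_comm]
    refine avc_congr fun w => ?_
    rw [avc_pi (fun (j : Fin K) (b : Fin Q) =>
      ee (2 * Real.pi * (((b : ℕ) : ℝ) * (m w j : ℝ)) / Q)), Complex.ofReal_prod]
    exact Finset.prod_congr rfl fun j _ => orth Q hQ _
  rw [Complex.ofReal_injective h4]
  have h5 : (Jn K l P : ℝ) / (P : ℝ) ^ (2 * l) =
      av (fun w : (Fin l → Fin P) × (Fin l → Fin P) => if (∀ j : Fin K,
        ∑ i, (w.1 i : ℕ) ^ (j.val + 1) = ∑ i, (w.2 i : ℕ) ^ (j.val + 1)) then (1 : ℝ) else 0) := by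
    rw [av_indicator]
    unfold Jn
    congr 1
    simp only [Fintype.card_prod, Fintype.card_pi, Fintype.card_fin, Finset.prod_const,
      Finset.card_univ]
    push_cast; ring
  rw [h5]
  refine av_mono fun w => ?_
  split_ifs with h
  · refine le_of_eq (Finset.prod_eq_one fun j _ => ?_).symm
    rw [if_pos]
    simp only [m, h j, sub_self, dvd_zero]
  · exact Finset.prod_nonneg fun j _ => by split_ifs <;> norm_num

theorem eK_nonneg (p M K : ℕ) (F : ℕ → ℂ) (b c : ℕ) : 0 ≤ eK p M K F b c := by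
  unfold eK
  exact div_nonneg (Finset.sum_nonneg fun _ _ => Finset.prod_nonneg fun _ _ => by positivity)
    (by positivity)

end Vmvt

theorem vmvt (h1 : S_TREE) (h2 : S_COLL) : S_VMVT := by
  intro p K n hp hK hKp
  have hp0 : (0 : ℝ) < p := by exact_mod_cast hp.pos
  have hp1 : (1 : ℝ) ≤ p := by exact_mod_cast hp.one_le
  have hKlt : K < p := by nlinarith
  set M := n + 3 * K with hM
  set D := n + 2 * K with hD
  set W : ℝ := (p : ℝ) ^ (n * (K * (K - 1) / 2)) with hW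
  have hW0 : 0 < W := by positivity
  have hQ : 0 < p ^ (M * K) := pow_pos hp.pos _
  have : Nonempty (Fin (p ^ (M * K))) := ⟨⟨0, hQ⟩⟩
  have hm := Vmvt.moment K (K * n) (p ^ M) (p ^ (M * K)) hQ
  have hpt : ∀ β : Fin K → Fin (p ^ (M * K)),
      ‖avc (fun u : Fin (p ^ M) => Fb (p ^ (M * K)) K β u)‖ ^ (2 * (K * n)) ≤
        (((p : ℝ) ^ K)⁻¹) ^ (K * n) + 2 ^ (K * n) *
          ∑ t ∈ range (p ^ D) ×ˢ powersetCard n (range D),
            ∏ b ∈ t.2, eK p M K (Fb (p ^ (M * K)) K β) b (t.1 % p ^ b) := by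
    intro β
    have hnn : ∀ t ∈ range (p ^ D) ×ˢ powersetCard n (range D),
        0 ≤ ∏ b ∈ t.2, eK p M K (Fb (p ^ (M * K)) K β) b (t.1 % p ^ b) :=
      fun t _ => Finset.prod_nonneg fun b _ => Vmvt.eK_nonneg _ _ _ _ _ _
    have hs := Finset.sum_nonneg hnn
    rw [← Vmvt.gt_zero, pow_mul]
    rcases h1 p M K n (Fb (p ^ (M * K)) K β) hK hKp (by omega) (fun u => (norm_ee _).le) with
      h | ⟨c, hc, B, hB, hBn, h⟩
    · have := pow_le_pow_left₀ (by positivity) h (K * n)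
      have h3 : (0 : ℝ) ≤ 2 ^ (K * n) * ∑ t ∈ range (p ^ D) ×ˢ powersetCard n (range D),
          ∏ b ∈ t.2, eK p M K (Fb (p ^ (M * K)) K β) b (t.1 % p ^ b) := by positivity
      linarith
    · have h3 := Finset.single_le_sum hnn (a := (c, B))
        (Finset.mem_product.2 ⟨Finset.mem_range.2 hc, Finset.mem_powersetCard.2 ⟨hB, hBn⟩⟩)
      rw [div_pow, div_le_iff₀ (by positivity)] at h
      have h4 : (0 : ℝ) ≤ (((p : ℝ) ^ K)⁻¹) ^ (K * n) := by positivity
      have h5 := mul_le_mul_of_nonneg_left h3 (show (0 : ℝ) ≤ 2 ^ (K * n) by positivity)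
      simp only at h5
      linarith
  have hav := av_mono hpt
  rw [av_add, av_const, av_mul_left, av_sum] at hav
  have hsum : (∑ t ∈ range (p ^ D) ×ˢ powersetCard n (range D),
      av (fun β : Fin K → Fin (p ^ (M * K)) =>
        ∏ b ∈ t.2, eK p M K (Fb (p ^ (M * K)) K β) b (t.1 % p ^ b))) * W ≤ (2 * (p : ℝ)) ^ D := by
    rw [Finset.sum_mul]
    refine (Finset.sum_le_card_nsmul _ _ 1 fun t ht => ?_).trans ?_
    · obtain ⟨hB, hBn⟩ := Finset.mem_powersetCard.1 (Finset.mem_product.1 ht).2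
      have := h2 p K M t.1 t.2 hp hKlt fun b hb => by
        have := Finset.mem_range.1 (hB hb); omega
      rwa [hBn] at this
    · rw [Finset.card_product, Finset.card_range, Finset.card_powersetCard, Finset.card_range,
        nsmul_eq_mul, mul_one, mul_pow, mul_comm]
      have h3 : ((D.choose n : ℕ) : ℝ) ≤ 2 ^ D := by exact_mod_cast Nat.choose_le_two_pow D n
      push_cast
      gcongr
  have hfirst : (((p : ℝ) ^ K)⁻¹) ^ (K * n) * W ≤ 1 := by
    rw [inv_pow, ← pow_mul, inv_mul_le_iff₀ (by positivity), mul_one, hW]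
    refine pow_le_pow_right₀ hp1 ?_
    have h3 : K * (K - 1) / 2 ≤ K * K :=
      (Nat.div_le_self _ _).trans (Nat.mul_le_mul_left K (Nat.sub_le K 1))
    calc n * (K * (K - 1) / 2) ≤ n * (K * K) := Nat.mul_le_mul_left n h3
      _ = K * (K * n) := by ring
  have hone : (1 : ℝ) ≤ 2 ^ (K * n) * (2 * (p : ℝ)) ^ D :=
    one_le_mul_of_one_le_of_one_le (one_le_pow₀ (by norm_num)) (one_le_pow₀ (by linarith))
  have hP : (0 : ℝ) < ((p : ℝ) ^ M) ^ (2 * (K * n)) := by positivity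
  have hfin : (Jn K (K * n) (p ^ M) : ℝ) / ((p : ℝ) ^ M) ^ (2 * (K * n)) * W ≤
      2 * 2 ^ (K * n) * (2 * (p : ℝ)) ^ D := by
    have h3 := mul_le_mul_of_nonneg_right (hm.trans hav) hW0.le
    have h4 := mul_le_mul_of_nonneg_left hsum (show (0 : ℝ) ≤ 2 ^ (K * n) by positivity)
    push_cast at h3
    rw [add_mul, mul_assoc] at h3
    linarith
  rwa [div_mul_eq_mul_div, div_le_iff₀ hP] at hfin

end Pool.Agent.P.MP_b60056_nt.AA
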