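import Pool.Agent.P.MP_b60056_nt.AA.Api

namespace Pool.Agent.P.MP_b60056_nt.AA

open Finset

namespace Wb

theorem good {τ Lg lam y b l j A : ℝ} (hτ : 1000 ≤ τ) (hLg : 10 ^ 6 * τ ≤ Lg)
    (hlam : 10 ^ 6 * lam ≤ Lg) (hy1 : 0.33 * Lg ≤ y) (hy2 : y ≤ Lg / 3) (hb1 : 99 / 100 * Lg ≤ b)
    (hb2 : b ≤ Lg) (hl1 : 1 ≤ l) (hl2 : l ≤ Real.exp (4 * lam)) (hj1 : 1.6 * τ ≤ j)
    (hj2 : j ≤ 2.5 * τ) (hA : A = Real.exp (τ * Lg) / (2 * Real.pi * j * Real.exp (j * b))) :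
    A * (l * Real.exp (j * y)) ≤ 1 / 2 ∧
      27 * (l * Real.exp (j * y)) + 19 / A ≤
        27 * (l * Real.exp (j * y)) ^ 2 * Real.exp (-(0.14 * τ * Lg)) := by
  have hpi := Real.pi_gt_three
  have hpi' := Real.pi_lt_d2
  have hL0 : 0 < Lg := by linarith
  have hj0 : 1 ≤ j := by linarith
  have hτL : 1000 * Lg ≤ τ * Lg := mul_le_mul_of_nonneg_right hτ hL0.le
  have e1 : 1.6 * τ * Lg ≤ j * Lg := mul_le_mul_of_nonneg_right hj1 hL0.le
  have e2 : j * Lg ≤ 2.5 * τ * Lg := mul_le_mul_of_nonneg_right hj2 hL0.le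
  have e3 : j * (0.33 * Lg) ≤ j * y := mul_le_mul_of_nonneg_left hy1 (by linarith)
  have e4 : j * y ≤ j * (Lg / 3) := mul_le_mul_of_nonneg_left hy2 (by linarith)
  have e5 : j * (99 / 100 * Lg) ≤ j * b := mul_le_mul_of_nonneg_left hb1 (by linarith)
  have e6 : j * b ≤ j * Lg := mul_le_mul_of_nonneg_left hb2 (by linarith)
  have hc : 2 ≤ 2 * Real.pi * j := by nlinarith
  have hc' : 2 * Real.pi * j ≤ 16 * τ := by nlinarith
  have hA' : A = Real.exp (τ * Lg - j * b) / (2 * Real.pi * j) := by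
    rw [hA, Real.exp_sub, div_div, mul_comm (Real.exp (j * b))]
  constructor
  · have h1 : Real.exp (τ * Lg - j * b) * (l * Real.exp (j * y)) ≤ 1 := by
      calc _ ≤ Real.exp (τ * Lg - j * b) * (Real.exp (4 * lam) * Real.exp (j * y)) := by gcongr
        _ = Real.exp (τ * Lg - j * b + (4 * lam + j * y)) := by rw [← Real.exp_add, ← Real.exp_add]
        _ ≤ 1 := Real.exp_le_one_iff.2 (by linarith)
    rw [hA', div_mul_eq_mul_div, div_le_iff₀ (by linarith)]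
    linarith
  · set X := Real.exp (j * y) with hX
    set E := Real.exp (-(0.14 * τ * Lg)) with hE
    have hX0 : 0 < X := Real.exp_pos _
    have hE0 : 0 < E := Real.exp_pos _
    have h1 : 2 ≤ X * E := by
      rw [hX, hE, ← Real.exp_add]
      have := Real.add_one_le_exp (j * y + -(0.14 * τ * Lg))
      linarith
    have h2 : 2 ≤ l * X * E := by
      rw [mul_assoc]
      exact h1.trans (le_mul_of_one_le_left (by positivity) hl1)
    have h3 : 27 * (l * X) ≤ 27 / 2 * ((l * X) ^ 2 * E) := by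
      have : l * X * 2 ≤ l * X * (l * X * E) := mul_le_mul_of_nonneg_left h2 (by positivity)
      nlinarith
    have h4 : 19 / A ≤ 27 / 2 * (X ^ 2 * E) := by
      have h5 : 23 * τ ≤ Real.exp (τ * Lg - j * b) * (X ^ 2 * E) := by
        rw [hX, hE, sq, ← Real.exp_add, ← Real.exp_add, ← Real.exp_add]
        have := Real.add_one_le_exp (τ * Lg - j * b + (j * y + j * y + -(0.14 * τ * Lg)))
        linarith
      rw [hA', div_div_eq_mul_div, div_le_iff₀ (Real.exp_pos _)]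
      linarith
    have h6 : X ^ 2 * E ≤ (l * X) ^ 2 * E := by
      gcongr
      exact le_mul_of_one_le_left hX0.le hl1
    linarith

theorem sum_two (K : ℕ) : ∑ j ∈ Icc 1 K, (2 * (j : ℝ)) = K * (K + 1) := by
  induction K with
  | zero => simp
  | succ K ih =>
    rw [sum_Icc_succ_top (by omega), ih]
    push_cast
    ring

theorem cast_half (K : ℕ) : ((K * (K - 1) / 2 : ℕ) : ℝ) = K * (K - 1) / 2 := by
  rw [← Nat.choose_two_right, Nat.cast_choose_two]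

theorem total {τ Lg lam k x c : ℝ} (hτ : 1000 ≤ τ) (hLg : 10 ^ 6 * τ ≤ Lg)
    (hlam : 10 ^ 6 * τ * lam ≤ Lg) (hlam0 : 0 ≤ lam) (hk1 : 4 * τ ≤ k) (hk2 : k ≤ 4.001 * τ)
    (hx : k * x ≤ Lg / 3009) (hc : 0.899 * τ ≤ c) :
    2 * (0.7 * (1 + k * (1000 * k) + 1002 * k) +
        x * (1002 * k - 1000 * k * (k * (k - 1) / 2))) +
      (k * (4 + 8 * lam) + 1003 * k * x * (k * (k + 1)) + c * -(0.14 * τ * Lg)) ≤
      4 * (k * (1000 * k)) ^ 2 * (-Lg / (10 ^ 11 * τ ^ 2)) := by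
  have hL0 : 0 < Lg := by linarith
  have hk0 : 0 ≤ k := by linarith
  have hτ0 : 0 < τ := by linarith
  have hkk : k ^ 2 ≤ 16.01 * τ ^ 2 := by nlinarith
  have hττ : 1000 * τ ≤ τ ^ 2 := by nlinarith
  have h1 : 3 * k ^ 2 + 2003 * k + 2004 ≤ 56.1 * τ ^ 2 := by linarith
  have h2 : k * x * (3 * k ^ 2 + 2003 * k + 2004) ≤ Lg / 3009 * (56.1 * τ ^ 2) :=
    (mul_le_mul_of_nonneg_right hx (by positivity)).trans
      (mul_le_mul_of_nonneg_left h1 (by positivity))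
  have h3 : 0.899 * τ * (τ * Lg) ≤ c * (τ * Lg) := mul_le_mul_of_nonneg_right hc (by positivity)
  have h4 : k * lam ≤ 4.001 * τ * lam := mul_le_mul_of_nonneg_right hk2 hlam0
  have h5 : τ ^ 2 * 10 ^ 9 ≤ τ ^ 2 * Lg := mul_le_mul_of_nonneg_left (by linarith) (by positivity)
  have h6 : 1 * Lg ≤ τ ^ 2 * Lg := mul_le_mul_of_nonneg_right (by linarith) hL0.le
  have h7 : -(0.1 * (τ ^ 2 * Lg)) ≤ 4 * (k * (1000 * k)) ^ 2 * (-Lg / (10 ^ 11 * τ ^ 2)) := by
    have h8 : (k ^ 2) ^ 2 ≤ (16.01 * τ ^ 2) ^ 2 := by gcongr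
    have h9 : (k ^ 2) ^ 2 * Lg ≤ (16.01 * τ ^ 2) ^ 2 * Lg := by gcongr
    have h10 : 0 ≤ τ ^ 4 * Lg := by positivity
    rw [← mul_div_assoc, le_div_iff₀ (by positivity)]
    nlinarith
  refine le_trans ?_ h7
  nlinarith

end Wb

open Wb in
theorem wb (h1 : S_VMVT) (h2 : S_BILIN) (h3 : S_SJ) : S_WB := by
  intro Lg τ a t K p hτ hLg ht ha1 ha2 hK hp hp1 hp2
  have hτ0 : 0 < τ := by linarith
  set lam := Real.log τ with hlam
  have hτe : Real.exp lam = τ := Real.exp_log hτ0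
  have hlam1 : 1 ≤ lam := by
    rw [hlam, Real.le_log_iff_exp_le hτ0]
    linarith [Real.exp_one_lt_d9]
  have hL1 : 10 ^ 6 * τ ≤ Lg := by nlinarith
  have hL2 : 10 ^ 6 * lam ≤ Lg := by nlinarith
  have hk1 : 4 * τ ≤ K := hK ▸ Nat.le_ceil _
  have hk2 : (K : ℝ) ≤ 4.001 * τ := by
    have := Nat.ceil_lt_add_one (show 0 ≤ 4 * τ by linarith)
    rw [← hK] at this
    linarith
  have hk0 : (0 : ℝ) < K := by linarith
  have hK1 : 1 ≤ K := Nat.cast_pos.1 hk0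
  have hp0 : (0 : ℝ) < p := by exact_mod_cast hp.pos
  have hlog2 : Real.log 2 ≤ 0.7 := by linarith [Real.log_two_lt_d9]
  set x := Real.log p with hx
  have hpe : Real.exp x = p := Real.exp_log hp0
  have hx2 : x ≤ Lg / (3009 * K) := by rwa [← hpe, Real.exp_le_exp] at hp2
  have hx1 : Lg / (3009 * K) - 0.7 ≤ x := by
    rw [← hpe, ← Real.exp_log two_pos, ← Real.exp_sub, Real.exp_lt_exp] at hp1
    linarith
  have hu : (K : ℝ) * (Lg / (3009 * K)) = Lg / 3009 := by field_simp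
  have hkx2 : K * x ≤ Lg / 3009 := hu ▸ mul_le_mul_of_nonneg_left hx2 hk0.le
  have hkx1 : Lg / 3009 - 0.7 * K ≤ K * x := by
    have := mul_le_mul_of_nonneg_left hx1 hk0.le
    rw [mul_sub, hu] at this
    linarith
  have hkk : (K : ℝ) ^ 2 ≤ 16.01 * τ ^ 2 := by nlinarith
  have hKp : 4 * K ^ 2 ≤ p := by
    have e1 : 4 * lam ≤ Lg / (3009 * K) := by
      rw [le_div_iff₀ (by positivity)]
      nlinarith
    have e2 : Real.exp (3 * lam) ≤ p := by
      rw [← hpe, Real.exp_le_exp]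
      linarith
    rw [show 3 * lam = (3 : ℕ) * lam by norm_num, Real.exp_nat_mul, hτe] at e2
    have e3 : 1000 * τ ^ 2 ≤ τ ^ 3 := by nlinarith [sq_nonneg τ]
    have : (4 * K ^ 2 : ℝ) ≤ p := by nlinarith [sq_nonneg τ]
    exact_mod_cast this
  have hV := h1 p K (1000 * K) hp hK1 hKp
  rw [show 1000 * K + 3 * K = 1003 * K by ring, show 1000 * K + 2 * K = 1002 * K by ring] at hV
  set l := K * (1000 * K) with hl
  set P := p ^ (1003 * K) with hP
  have hl1 : 1 ≤ l := Nat.mul_pos hK1 (by omega)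
  have hP1 : 1 ≤ P := Nat.pow_pos hp.pos
  have hlr : (l : ℝ) = K * (1000 * K) := by rw [hl]; push_cast; ring
  have hl2 : (l : ℝ) ≤ Real.exp (4 * lam) := by
    rw [show 4 * lam = (4 : ℕ) * lam by norm_num, Real.exp_nat_mul, hτe, hlr]
    have e3 : 10 ^ 6 ≤ τ ^ 2 := by nlinarith
    nlinarith [mul_le_mul_of_nonneg_right e3 (sq_nonneg τ)]
  set y := 1003 * K * x with hy
  have hPr : (P : ℝ) = Real.exp y := by
    rw [hP, hy, Nat.cast_pow, ← hpe, ← Real.exp_nat_mul]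
    push_cast
    rfl
  have hPr' : (p : ℝ) ^ (1003 * K) = P := by rw [hP, Nat.cast_pow]
  have hy1 : 0.33 * Lg ≤ y := by rw [hy, mul_assoc]; linarith
  have hy2 : y ≤ Lg / 3 := by rw [hy, mul_assoc]; linarith
  have ha0 : 0 < a := (Real.exp_pos _).trans_le ha1
  set b := Real.log a with hb
  have hae : Real.exp b = a := Real.exp_log ha0
  have hb1 : 99 / 100 * Lg ≤ b := by rwa [← hae, Real.exp_le_exp] at ha1
  have hb2 : b ≤ Lg := by rwa [← hae, Real.exp_le_exp] at ha2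
  set α : ℕ → ℝ := fun j => (-1) ^ (j + 1) * t / (2 * Real.pi * j * a ^ j) with hα
  have hB := h2 K l P α hl1 hP1
  set A := Icc ⌈1.6 * τ⌉₊ ⌊2.5 * τ⌋₊ with hA
  have hAm : ∀ j ∈ A, 1.6 * τ ≤ j ∧ (j : ℝ) ≤ 2.5 * τ := fun j hj =>
    ⟨Nat.ceil_le.1 (mem_Icc.1 hj).1, (Nat.le_floor_iff (by linarith)).1 (mem_Icc.1 hj).2⟩
  have hAs : A ⊆ Icc 1 K := fun j hj => by
    obtain ⟨e1, e2⟩ := hAm j hj
    refine mem_Icc.2 ⟨?_, ?_⟩
    · exact_mod_cast (show (1 : ℝ) ≤ j by linarith)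
    · exact_mod_cast (show (j : ℝ) ≤ K by linarith)
  have hAc : 0.899 * τ ≤ A.card := by
    have e1 := Nat.ceil_lt_add_one (show 0 ≤ 1.6 * τ by linarith)
    have e2 := Nat.lt_floor_add_one (2.5 * τ)
    have e3 : ⌊2.5 * τ⌋₊ + 1 ≤ A.card + ⌈1.6 * τ⌉₊ := by rw [hA, Nat.card_Icc]; omega
    have e4 : (⌊2.5 * τ⌋₊ + 1 : ℝ) ≤ A.card + ⌈1.6 * τ⌉₊ := by exact_mod_cast e3
    linarith
  have hLj : ∀ j : ℕ, ((l * P ^ j : ℕ) : ℝ) = l * Real.exp (j * y) := fun j => by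
    rw [Real.exp_nat_mul, ← hPr]
    push_cast
    rfl
  have hS : ∀ j ∈ Icc 1 K, Sj (α j) (l * P ^ j) ≤ Real.exp (4 + 8 * lam + y * (2 * j)) *
      if j ∈ A then Real.exp (-(0.14 * τ * Lg)) else 1 := fun j hj => by
    obtain ⟨s1, s2⟩ := h3 (α j) (l * P ^ j) (Nat.mul_pos hl1 (Nat.pow_pos hP1))
    rw [hLj] at s1 s2
    have e1 : 27 * (l * Real.exp (j * y)) ^ 2 ≤ Real.exp (4 + 8 * lam + y * (2 * j)) := by
      have e2 : (27 : ℝ) ≤ Real.exp 4 := by
        rw [show (4 : ℝ) = (4 : ℕ) * 1 by norm_num, Real.exp_nat_mul]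
        exact le_trans (by norm_num) (pow_le_pow_left₀ (by norm_num) Real.exp_one_gt_d9.le 4)
      calc _ ≤ Real.exp 4 * (Real.exp (4 * lam) * Real.exp (j * y)) ^ 2 := by gcongr
        _ = _ := by
          rw [← Real.exp_add, sq, ← Real.exp_add, ← Real.exp_add]
          congr 1
          ring
    split_ifs with hjA
    · obtain ⟨e2, e3⟩ := hAm j hjA
      have hj0 : (0 : ℝ) < j := by linarith
      have e4 : |α j| = Real.exp (τ * Lg) / (2 * Real.pi * j * Real.exp (j * b)) := by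
        rw [hα, Real.exp_nat_mul, hae]
        simp only
        rw [abs_div, abs_mul, abs_pow, abs_neg, abs_one, one_pow, one_mul, ht,
          abs_of_pos (by positivity)]
      obtain ⟨g1, g2⟩ := good hτ hL1 hL2 hy1 hy2 hb1 hb2 (by exact_mod_cast hl1) hl2 e2 e3 e4
      refine ((s2 (abs_pos.1 (by rw [e4]; positivity)) g1).trans g2).trans ?_
      exact mul_le_mul_of_nonneg_right e1 (Real.exp_pos _).le
    · rw [mul_one]
      exact s1.trans e1
  have hprod : ∏ j ∈ Icc 1 K, Sj (α j) (l * P ^ j) ≤ Real.exp (K * (4 + 8 * lam) +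
      1003 * K * x * (K * (K + 1)) + A.card * -(0.14 * τ * Lg)) := by
    refine (prod_le_prod (fun j _ => by unfold Sj; positivity) hS).trans_eq ?_
    rw [prod_mul_distrib, prod_ite_mem, inter_eq_right.2 hAs, prod_const, ← Real.exp_sum,
      ← Real.exp_nat_mul, ← Real.exp_add, sum_add_distrib, ← mul_sum, sum_two, sum_const,
      Nat.card_Icc, Nat.add_sub_cancel, nsmul_eq_mul]
  have hJ : (Jn K l P : ℝ) / (P : ℝ) ^ (2 * l) ≤ Real.exp (0.7 * (1 + K * (1000 * K) + 1002 * K) +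
      x * (1002 * K - 1000 * K * (K * (K - 1) / 2))) := by
    have e2 : (2 : ℝ) ≤ Real.exp 0.7 := by
      rw [← Real.exp_log two_pos, Real.exp_le_exp]
      exact hlog2
    have e3 : 2 * 2 ^ l * (2 * (p : ℝ)) ^ (1002 * K) ≤
        Real.exp 0.7 * Real.exp 0.7 ^ l * (Real.exp 0.7 * Real.exp x) ^ (1002 * K) := by
      rw [hpe]
      gcongr
    rw [hPr'] at hV
    have e4 : (0 : ℝ) < (P : ℝ) ^ (2 * l) := by rw [hPr]; positivity
    have e5 := hV.trans (mul_le_mul_of_nonneg_right e3 e4.le)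
    rw [← le_div_iff₀ (by positivity), mul_div_right_comm] at e5
    rw [div_le_iff₀ e4]
    refine e5.trans_eq ?_
    congr 1
    rw [← hpe, ← Real.exp_add, ← Real.exp_nat_mul, ← Real.exp_nat_mul, ← Real.exp_nat_mul,
      ← Real.exp_add, ← Real.exp_add, ← Real.exp_sub, Nat.cast_mul (1000 * K), cast_half, hlr]
    congr 1
    push_cast
    ring
  have hfin : ‖Wb K P α‖ ^ (4 * l ^ 2) ≤ Real.exp (-Lg / (10 ^ 11 * τ ^ 2)) ^ (4 * l ^ 2) := by
    refine hB.trans ((mul_le_mul (pow_le_pow_left₀ (by positivity) hJ 2) hprod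
      (prod_nonneg fun j _ => by unfold Sj; positivity) (by positivity)).trans ?_)
    rw [← Real.exp_nat_mul, ← Real.exp_nat_mul, ← Real.exp_add, Real.exp_le_exp]
    have := total hτ hL1 hLg (by linarith) hk1 hk2 hkx2 hAc
    push_cast
    rw [hlr]
    exact this
  exact (pow_le_pow_iff_left₀ (norm_nonneg _) (Real.exp_pos _).le (by positivity)).1 hfin

end Pool.Agent.P.MP_b60056_nt.AA
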