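import Pool.Agent.P.MP_b60056_nt.AA.Api

namespace Pool.Agent.P.MP_b60056_nt.AA

open Finset

namespace Bilin

theorem av_pow {S : Type} [Fintype S] [Nonempty S] (f : S → ℝ) (hf : ∀ s, 0 ≤ f s) (n : ℕ) :
    av f ^ n ≤ av (fun s => f s ^ n) := by
  have hc : (Fintype.card S : ℝ) ≠ 0 := by exact_mod_cast Fintype.card_ne_zero
  have h := Real.pow_arith_mean_le_arith_mean_pow univ (fun _ : S => (Fintype.card S : ℝ)⁻¹) f
    (fun _ _ => by positivity) (by simp [hc]) (fun s _ => hf s) n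
  unfold av
  simpa only [← Finset.mul_sum, div_eq_inv_mul] using h

theorem avc_comm {S S' : Type} [Fintype S] [Fintype S'] (f : S → S' → ℂ) :
    avc (fun s => avc (fun s' => f s s')) = avc (fun s' => avc (fun s => f s s')) := by
  unfold avc
  simp only [← Finset.sum_div]
  rw [Finset.sum_comm, div_div, div_div, mul_comm]

theorem fib_le {X A : Type} [Fintype X] [AddCommGroup A] [DecidableEq A] (s : X → A) (a : A) :
    (univ.filter fun w : X × X => s w.1 - s w.2 = a).card ≤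
      (univ.filter fun w : X × X => s w.1 - s w.2 = 0).card := by
  set ρ : A → ℕ := fun y => (univ.filter fun x => s x = y).card with hρ
  have h1 : ∀ a : A, (univ.filter fun w : X × X => s w.1 - s w.2 = a).card =
      ∑ y ∈ univ.image s, ρ y * ρ (y - a) := by
    intro a
    have h2 : (univ.filter fun w : X × X => s w.1 - s w.2 = a).card = ∑ x, ρ (s x - a) := by
      rw [card_filter, Fintype.sum_prod_type]
      refine sum_congr rfl fun x _ => ?_
      rw [hρ]
      simp only [card_filter]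
      refine sum_congr rfl fun x' _ => if_congr ?_ rfl rfl
      rw [sub_eq_iff_eq_add, eq_sub_iff_add_eq, add_comm, eq_comm]
    rw [h2, sum_comp (fun y => ρ (y - a)) s]
    rfl
  have h3 : ∑ y ∈ univ.image s, ρ (y - a) * ρ (y - a) ≤ ∑ y ∈ univ.image s, ρ y * ρ y := by
    rw [← sum_image (s := univ.image s) (g := fun y => y - a) (f := fun y => ρ y * ρ y)
      fun y _ y' _ h => sub_left_injective h]
    refine sum_le_sum_of_ne_zero fun y _ hy => ?_
    obtain ⟨x, hx⟩ := card_ne_zero.1 (left_ne_zero_of_mul hy)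
    exact mem_image.2 ⟨x, mem_univ _, (mem_filter.1 hx).2⟩
  have h4 : 2 * ∑ y ∈ univ.image s, ρ y * ρ (y - a) ≤
      ∑ y ∈ univ.image s, ρ y * ρ y + ∑ y ∈ univ.image s, ρ (y - a) * ρ (y - a) := by
    rw [mul_sum, ← sum_add_distrib]
    refine sum_le_sum fun y _ => ?_
    zify
    nlinarith [sq_nonneg ((ρ y : ℤ) - ρ (y - a))]
  rw [h1, h1]
  simp only [sub_zero]
  omega

/-- Pairs of tuples. -/
abbrev TT (l P : ℕ) : Type := (Fin l → Fin P) × (Fin l → Fin P)

/-- Power sums. -/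
def ps (K : ℕ) {l P : ℕ} (u : Fin l → Fin P) : Fin K → ℤ :=
  fun j => ∑ i, ((u i : ℕ) : ℤ) ^ (j.val + 1)

/-- Differences of power sums. -/
def lam (K : ℕ) {l P : ℕ} (w : TT l P) : Fin K → ℤ := ps K w.1 - ps K w.2

/-- The box. -/
noncomputable def box {K : ℕ} (L : Fin K → ℕ) : Finset (Fin K → ℤ) :=
  Fintype.piFinset fun j => Icc (-(L j : ℤ)) (L j)

/-- The normalised exponential sum. -/
noncomputable def gg (K P : ℕ) (β : Fin K → ℝ) : ℂ :=
  avc fun u : Fin P => ee (2 * Real.pi * ∑ j, β j * ((u : ℕ) : ℝ) ^ (j.val + 1))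

theorem ps_bd (K : ℕ) {l P : ℕ} (u : Fin l → Fin P) (j : Fin K) :
    0 ≤ ps K u j ∧ ps K u j ≤ ((l * P ^ (j.val + 1) : ℕ) : ℤ) := by
  refine ⟨sum_nonneg fun i _ => by positivity, ?_⟩
  have := sum_le_card_nsmul univ (fun i => ((u i : ℕ) : ℤ) ^ (j.val + 1)) ((P : ℤ) ^ (j.val + 1))
    fun i _ => pow_le_pow_left₀ (by positivity) (by exact_mod_cast (u i).2.le) _
  simpa [ps] using this

theorem lam_mem (K : ℕ) {l P : ℕ} (w : TT l P) :
    lam K w ∈ box fun j : Fin K => l * P ^ (j.val + 1) := by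
  refine Fintype.mem_piFinset.2 fun j => mem_Icc.2 ?_
  have h1 := ps_bd K w.1 j
  have h2 := ps_bd K w.2 j
  simp only [lam, Pi.sub_apply]
  omega

theorem av_lam (K l P : ℕ) (f : (Fin K → ℤ) → ℝ) (hf : ∀ a, 0 ≤ f a) :
    av (fun w : TT l P => f (lam K w)) ≤ (Jn K l P : ℝ) / (P : ℝ) ^ (2 * l) *
      ∑ a ∈ box fun j : Fin K => l * P ^ (j.val + 1), f a := by
  have hJ : (univ.filter fun w : TT l P => ps K w.1 - ps K w.2 = 0).card = Jn K l P := by
    unfold Jn
    congr 1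
    refine filter_congr fun w _ => ?_
    rw [sub_eq_zero, funext_iff]
    refine forall_congr' fun j => ?_
    unfold ps
    norm_cast
  have hc : (Fintype.card (TT l P) : ℝ) = (P : ℝ) ^ (2 * l) := by
    simp [two_mul, pow_add]
  unfold av
  rw [hc, div_mul_eq_mul_div]
  refine div_le_div_of_nonneg_right ?_ (by positivity)
  rw [← sum_fiberwise_of_maps_to (fun w _ => lam_mem K w), mul_sum]
  refine sum_le_sum fun a _ => ?_
  rw [sum_congr rfl fun w hw => congrArg f (mem_filter.1 hw).2, sum_const, nsmul_eq_mul]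
  refine mul_le_mul_of_nonneg_right ?_ (hf a)
  rw [← hJ]
  exact_mod_cast fib_le (ps K) a

theorem gg_pow (K l P : ℕ) (β : Fin K → ℝ) : ((‖gg K P β‖ ^ (2 * l) : ℝ) : ℂ) =
    avc fun w : TT l P => ee (2 * Real.pi * ∑ j, β j * (lam K w j : ℝ)) := by
  have h1 : gg K P β ^ l = avc fun u : Fin l → Fin P =>
      ee (2 * Real.pi * ∑ j, β j * (ps K u j : ℝ)) := by
    have h := avc_pi (ι := Fin l) fun _ (u : Fin P) =>
      ee (2 * Real.pi * ∑ j, β j * ((u : ℕ) : ℝ) ^ (j.val + 1))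
    rw [prod_const, card_univ, Fintype.card_fin] at h
    refine h.symm.trans (avc_congr fun u => ?_)
    rw [← ee_sum, ← mul_sum, sum_comm]
    simp only [ps, ← mul_sum]
    push_cast
    rfl
  have h2 : ((‖gg K P β‖ ^ (2 * l) : ℝ) : ℂ) =
      gg K P β ^ l * (starRingEnd ℂ) (gg K P β ^ l) := by
    rw [Complex.mul_conj, Complex.normSq_eq_norm_sq, norm_pow, ← pow_mul, mul_comm]
  rw [h2, h1, conj_avc, ← avc_prod]
  refine avc_congr fun w => ?_
  rw [← ee_sub, ← mul_sub, ← sum_sub_distrib]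
  simp only [lam, Pi.sub_apply, Int.cast_sub, mul_sub]

theorem box_le {K : ℕ} (L : Fin K → ℕ) (f : (Fin K → ℤ) → ℝ) (hf : ∀ a, 0 ≤ f a) :
    (∑ a ∈ box L, f a) * ∏ j, ((L j : ℝ) + 1) ≤
      ∑ x ∈ Fintype.piFinset fun j => range (2 * L j + 1),
        ∑ x' ∈ Fintype.piFinset fun j => range (2 * L j + 1),
          f fun j => (x j : ℤ) - (x' j : ℤ) := by
  set Y := Fintype.piFinset fun j => range (L j + 1) with hY
  have hc : ∏ j, ((L j : ℝ) + 1) = Y.card := by simp [hY]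
  let φ : (Fin K → ℤ) × (Fin K → ℕ) → (Fin K → ℕ) × (Fin K → ℕ) :=
    fun q => (fun j => q.2 j + (q.1 j).toNat, fun j => q.2 j + (-q.1 j).toNat)
  have hφ : Function.Injective φ := by
    intro q q' h
    have h1 := fun j => congrFun (congrArg Prod.fst h) j
    have h2 := fun j => congrFun (congrArg Prod.snd h) j
    refine Prod.ext (funext fun j => ?_) (funext fun j => ?_)
    all_goals
      have a := h1 j
      have b := h2 j
      simp only [φ] at a b
      omega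
  rw [← sum_product', hc]
  calc (∑ a ∈ box L, f a) * (Y.card : ℝ) = ∑ q ∈ box L ×ˢ Y, f q.1 := by
        rw [sum_product, sum_mul]
        simp [mul_comm]
    _ = ∑ q ∈ (box L ×ˢ Y).image φ, f fun j => (q.1 j : ℤ) - (q.2 j : ℤ) := by
        rw [sum_image fun q _ q' _ h => hφ h]
        refine sum_congr rfl fun q _ => congrArg f (funext fun j => ?_)
        simp only [φ]
        omega
    _ ≤ _ := by
        refine sum_le_sum_of_subset_of_nonneg (fun x hx => ?_) fun _ _ _ => hf _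
        obtain ⟨q, hq, rfl⟩ := mem_image.1 hx
        obtain ⟨h1, h2⟩ := mem_product.1 hq
        refine mem_product.2 ⟨Fintype.mem_piFinset.2 fun j => ?_,
          Fintype.mem_piFinset.2 fun j => ?_⟩
        all_goals
          have a := mem_Icc.1 (Fintype.mem_piFinset.1 h1 j)
          have b := mem_range.1 (Fintype.mem_piFinset.1 h2 j)
          simp only [φ, mem_range]
          omega

theorem pair_sum {K : ℕ} (L : Fin K → ℕ) (α : Fin K → ℝ) (μ : Fin K → ℤ) :
    ∑ x ∈ Fintype.piFinset fun j => range (2 * L j + 1),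
      ∑ x' ∈ Fintype.piFinset fun j => range (2 * L j + 1),
        ee (2 * Real.pi * ∑ j, α j * (((x j : ℤ) - (x' j : ℤ) : ℤ) : ℝ) * (μ j : ℝ)) =
      ((∏ j, ‖∑ x ∈ range (2 * L j + 1), ee (2 * Real.pi * α j * μ j * x)‖ ^ 2 : ℝ) : ℂ) := by
  have h1 : ∀ z : ℂ, ((‖z‖ ^ 2 : ℝ) : ℂ) = z * (starRingEnd ℂ) z := fun z => by
    rw [Complex.mul_conj, Complex.normSq_eq_norm_sq]
  rw [Complex.ofReal_prod]
  simp only [h1, map_sum]
  rw [prod_mul_distrib, prod_univ_sum, prod_univ_sum, sum_mul_sum]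
  refine sum_congr rfl fun x _ => sum_congr rfl fun x' _ => ?_
  rw [← prod_mul_distrib, mul_sum, ee_sum]
  refine prod_congr rfl fun j _ => ?_
  rw [← ee_sub]
  congr 1
  push_cast
  ring

theorem icc_prod {M : Type} [CommMonoid M] (K : ℕ) (f : ℕ → M) :
    ∏ j ∈ Icc 1 K, f j = ∏ j : Fin K, f (j.val + 1) := by
  rw [Fin.prod_univ_eq_prod_range (fun j => f (j + 1)) K, range_eq_Ico, prod_Ico_add' f 0 K 1]
  rfl

theorem icc_sum (K : ℕ) (f : ℕ → ℝ) : ∑ j ∈ Icc 1 K, f j = ∑ j : Fin K, f (j.val + 1) := by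
  rw [Fin.sum_univ_eq_sum_range (fun j => f (j + 1)) K, range_eq_Ico, sum_Ico_add' f 0 K 1]
  rfl

theorem wb_eq (K P : ℕ) (α : ℕ → ℝ) : Wb K P α =
    avc fun u : Fin P => gg K P fun j => α (j.val + 1) * ((u : ℕ) : ℝ) ^ (j.val + 1) := by
  unfold Wb gg avc
  simp only [← sum_div, Fintype.card_fin, icc_sum]
  rw [div_div, ← sq, sum_range]
  simp only [sum_range]

end Bilin

open Bilin in
theorem bilin : S_BILIN := by
  intro K l P α hl hP
  have : Nonempty (Fin P) := ⟨⟨0, hP⟩⟩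
  set a : Fin K → ℝ := fun j => α (j.val + 1) with ha
  set L : Fin K → ℕ := fun j => l * P ^ (j.val + 1) with hL
  set J : ℝ := (Jn K l P : ℝ) / (P : ℝ) ^ (2 * l) with hJ
  have hJ0 : 0 ≤ J := by positivity
  set Ξ : (Fin K → ℤ) → ℝ := fun m => ‖gg K P fun j => a j * (m j : ℝ)‖ ^ (2 * l) with hΞ
  have hΞ0 : ∀ m, 0 ≤ Ξ m := fun m => by positivity
  have s1 : ‖Wb K P α‖ ^ (2 * l) ≤
      av fun w : TT l P => ‖gg K P fun j => a j * (lam K w j : ℝ)‖ := by
    have e : ((av fun u : Fin P =>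
        ‖gg K P fun j => a j * ((u : ℕ) : ℝ) ^ (j.val + 1)‖ ^ (2 * l) : ℝ) : ℂ) =
        avc fun w : TT l P => gg K P fun j => a j * (lam K w j : ℝ) := by
      rw [← avc_ofReal]
      simp only [gg_pow]
      rw [avc_comm]
      refine avc_congr fun w => avc_congr fun u => ?_
      simp only [mul_right_comm]
    calc ‖Wb K P α‖ ^ (2 * l)
        ≤ (av fun u : Fin P => ‖gg K P fun j => a j * ((u : ℕ) : ℝ) ^ (j.val + 1)‖) ^ (2 * l) := by
          rw [wb_eq]
          exact pow_le_pow_left₀ (norm_nonneg _) (norm_avc_le _) _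
      _ ≤ _ := av_pow _ (fun _ => norm_nonneg _) _
      _ ≤ ‖avc fun w : TT l P => gg K P fun j => a j * (lam K w j : ℝ)‖ := by
          rw [← e, Complex.norm_real]
          exact le_abs_self _
      _ ≤ _ := norm_avc_le _
  have s2 : ‖Wb K P α‖ ^ (4 * l ^ 2) ≤ J * ∑ m ∈ box L, Ξ m := by
    calc ‖Wb K P α‖ ^ (4 * l ^ 2) = (‖Wb K P α‖ ^ (2 * l)) ^ (2 * l) := by
          rw [← pow_mul]
          congr 1
          ring
      _ ≤ _ := pow_le_pow_left₀ (by positivity) s1 _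
      _ ≤ av fun w : TT l P => Ξ (lam K w) := av_pow _ (fun _ => norm_nonneg _) _
      _ ≤ _ := av_lam K l P Ξ hΞ0
  have s3 : ∑ x ∈ Fintype.piFinset fun j => range (2 * L j + 1),
      ∑ x' ∈ Fintype.piFinset fun j => range (2 * L j + 1), Ξ (fun j => (x j : ℤ) - (x' j : ℤ)) =
      av fun w : TT l P => ∏ j,
        ‖∑ x ∈ range (2 * L j + 1), ee (2 * Real.pi * a j * lam K w j * x)‖ ^ 2 := by
    apply Complex.ofReal_injective
    rw [← avc_ofReal]
    simp only [← pair_sum, avc_sum, Complex.ofReal_sum, hΞ, gg_pow]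
  have s4 := av_lam K l P (fun m => ∏ j,
    ‖∑ x ∈ range (2 * L j + 1), ee (2 * Real.pi * a j * m j * x)‖ ^ 2) fun m => by positivity
  have s5 := box_le L Ξ hΞ0
  rw [s3] at s5
  have s6 := s5.trans s4
  have hp : 0 < ∏ j, ((L j : ℝ) + 1) := by positivity
  have s7 : ∑ m ∈ box L, ∏ j,
      ‖∑ x ∈ range (2 * L j + 1), ee (2 * Real.pi * a j * m j * x)‖ ^ 2 =
      ∏ j, ∑ m ∈ Icc (-(L j : ℤ)) (L j),
        ‖∑ x ∈ range (2 * L j + 1), ee (2 * Real.pi * a j * m * x)‖ ^ 2 :=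
    (prod_univ_sum (fun j => Icc (-(L j : ℤ)) (L j)) fun j (m : ℤ) =>
      ‖∑ x ∈ range (2 * L j + 1), ee (2 * Real.pi * a j * m * x)‖ ^ 2).symm
  rw [← le_div_iff₀ hp, s7, mul_div_assoc, ← prod_div_distrib] at s6
  rw [icc_prod, sq J, mul_assoc]
  exact s2.trans (mul_le_mul_of_nonneg_left s6 hJ0)

end Pool.Agent.P.MP_b60056_nt.AA
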