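import Pool.Agent.P.MP_b60056_nt.AA.Api

namespace Pool.Agent.P.MP_b60056_nt.AA

open Finset MeasureTheory

namespace Vino

theorem block (F : ℕ → ℂ) (hF : ∀ n, ‖F n‖ ≤ 1) (M h : ℕ) : ‖∑ a ∈ Ioc M (M + h), F a‖ ≤ h := by
  refine (norm_sum_le _ _).trans ((sum_le_sum fun a _ => hF a).trans ?_)
  simp

theorem shift (F : ℕ → ℂ) (hF : ∀ n, ‖F n‖ ≤ 1) {M N : ℕ} (hMN : M ≤ N) (h : ℕ) :
    ‖∑ a ∈ Ioc M N, F a - ∑ a ∈ Ioc M N, F (a + h)‖ ≤ 2 * h := by
  have e0 : ∑ a ∈ Ioc M N, F (a + h) = ∑ a ∈ Ioc (M + h) (N + h), F a := by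
    rw [← Finset.map_add_right_Ioc, sum_map]; rfl
  have e1 := sum_Ioc_consecutive F hMN (Nat.le_add_right N h)
  have e2 := sum_Ioc_consecutive F (Nat.le_add_right M h) (Nat.add_le_add_right hMN h)
  have e3 : ∑ a ∈ Ioc M N, F a - ∑ a ∈ Ioc M N, F (a + h) =
      ∑ a ∈ Ioc M (M + h), F a - ∑ a ∈ Ioc N (N + h), F a := by
    rw [e0]; linear_combination e1 - e2
  rw [e3]
  have := block F hF M h
  have := block F hF N h
  have := norm_sub_le (∑ a ∈ Ioc M (M + h), F a) (∑ a ∈ Ioc N (N + h), F a)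
  linarith

theorem core (F : ℕ → ℂ) (hF : ∀ n, ‖F n‖ ≤ 1) {M N P : ℕ} (hMN : M ≤ N) (hP : 0 < P)
    (G : ℕ → ℕ → ℕ → ℂ) (η W : ℝ)
    (h1 : ∀ a ∈ Ioc M N, ∀ u ∈ range P, ∀ v ∈ range P, ‖F (a + u * v) - F a * G a u v‖ ≤ η)
    (h2 : ∀ a ∈ Ioc M N, ‖(∑ u ∈ range P, ∑ v ∈ range P, G a u v) / (P : ℂ) ^ 2‖ ≤ W) :
    ‖∑ a ∈ Ioc M N, F a‖ ≤ ((N : ℝ) - M) * (W + η) + 2 * (P : ℝ) ^ 2 := by
  have hP' : (0 : ℝ) < (P : ℝ) ^ 2 := by positivity
  have hc : ((Ioc M N).card : ℝ) = (N : ℝ) - M := by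
    rw [Nat.card_Ioc, Nat.cast_sub hMN]
  have e : (P : ℂ) ^ 2 * ∑ a ∈ Ioc M N, F a =
      (∑ u ∈ range P, ∑ v ∈ range P, ((∑ a ∈ Ioc M N, F a - ∑ a ∈ Ioc M N, F (a + u * v)) +
        ∑ a ∈ Ioc M N, (F (a + u * v) - F a * G a u v))) +
      ∑ a ∈ Ioc M N, F a * ∑ u ∈ range P, ∑ v ∈ range P, G a u v := by
    have e1 : ∑ a ∈ Ioc M N, F a * ∑ u ∈ range P, ∑ v ∈ range P, G a u v =
        ∑ u ∈ range P, ∑ v ∈ range P, ∑ a ∈ Ioc M N, F a * G a u v := by
      simp only [mul_sum]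
      rw [sum_comm]
      exact sum_congr rfl fun u _ => sum_comm
    rw [e1, ← sum_add_distrib]
    simp only [sum_sub_distrib, sub_add_sub_cancel, sub_add_cancel, sum_const,
      card_range, nsmul_eq_mul]
    ring
  have b1 : ‖∑ u ∈ range P, ∑ v ∈ range P,
      ((∑ a ∈ Ioc M N, F a - ∑ a ∈ Ioc M N, F (a + u * v)) +
        ∑ a ∈ Ioc M N, (F (a + u * v) - F a * G a u v))‖ ≤
      (P : ℝ) ^ 2 * (2 * (P : ℝ) ^ 2 + ((N : ℝ) - M) * η) := by
    refine (norm_sum_le_of_le _ (n := fun _ => (P : ℝ) * (2 * (P : ℝ) ^ 2 + ((N : ℝ) - M) * η))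
      fun u hu => (norm_sum_le_of_le _ (n := fun _ => 2 * (P : ℝ) ^ 2 + ((N : ℝ) - M) * η)
        fun v hv => ?_).trans (le_of_eq (by simp; ring))).trans (le_of_eq (by simp; ring))
    refine (norm_add_le _ _).trans (add_le_add ((shift F hF hMN _).trans ?_) ?_)
    · have hu' : (u : ℝ) ≤ P := by exact_mod_cast (mem_range.1 hu).le
      have hv' : (v : ℝ) ≤ P := by exact_mod_cast (mem_range.1 hv).le
      have := mul_le_mul hu' hv' (Nat.cast_nonneg _) (Nat.cast_nonneg _)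
      push_cast
      nlinarith
    · refine (norm_sum_le_of_le _ fun a ha => h1 a ha u hu v hv).trans (le_of_eq ?_)
      rw [sum_const, nsmul_eq_mul, hc]
  have b2 : ‖∑ a ∈ Ioc M N, F a * ∑ u ∈ range P, ∑ v ∈ range P, G a u v‖ ≤
      (P : ℝ) ^ 2 * (((N : ℝ) - M) * W) := by
    refine (norm_sum_le_of_le _ (n := fun _ => (P : ℝ) ^ 2 * W) fun a ha => ?_).trans
      (le_of_eq (by rw [sum_const, nsmul_eq_mul, hc]; ring))
    have h3 := h2 a ha
    rw [norm_div, norm_pow, Complex.norm_natCast, div_le_iff₀ hP'] at h3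
    rw [norm_mul]
    have h4 := mul_le_of_le_one_left (norm_nonneg (∑ u ∈ range P, ∑ v ∈ range P, G a u v)) (hF a)
    linarith
  have b3 := (norm_add_le _ _).trans (add_le_add b1 b2)
  rw [← e, norm_mul, norm_pow, Complex.norm_natCast] at b3
  refine le_of_mul_le_mul_left (b3.trans (le_of_eq ?_)) hP'
  ring

theorem taylor (t a u v : ℝ) (K : ℕ) (ha : 0 < a) (hx0 : 0 ≤ u * v / a) (hx : u * v / a ≤ 1 / 2) :
    ‖ee (t * Real.log (a + u * v)) - ee (t * Real.log a) * ee (2 * Real.pi * ∑ j ∈ Icc 1 K,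
      (-1) ^ (j + 1) * t / (2 * Real.pi * j * a ^ j) * u ^ j * v ^ j)‖ ≤
      |t| * (2 * (u * v / a) ^ (K + 1)) := by
  set x := u * v / a with hxd
  have h1 : |(-x)| < 1 := by rw [abs_neg, abs_of_nonneg hx0]; linarith
  have h2 := Real.abs_log_sub_add_sum_range_le h1 K
  rw [abs_neg, abs_of_nonneg hx0, sub_neg_eq_add] at h2
  have h3 : x ^ (K + 1) / (1 - x) ≤ 2 * x ^ (K + 1) := by
    rw [div_le_iff₀ (by linarith)]
    have : 0 ≤ x ^ (K + 1) := by positivity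
    nlinarith
  have e1 : Real.log (a + u * v) = Real.log a + Real.log (1 + x) := by
    rw [← Real.log_mul ha.ne' (by linarith), hxd]
    congr 1
    field_simp
  have e2 : 2 * Real.pi * ∑ j ∈ Icc 1 K,
      (-1) ^ (j + 1) * t / (2 * Real.pi * j * a ^ j) * u ^ j * v ^ j =
      -(t * ∑ i ∈ range K, (-x) ^ (i + 1) / (i + 1)) := by
    rw [← Finset.Ico_add_one_right_eq_Icc, sum_Ico_eq_sum_range, Nat.add_sub_cancel, mul_sum,
      mul_sum, ← sum_neg_distrib]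
    refine sum_congr rfl fun i _ => ?_
    have hpi := Real.pi_pos
    rw [add_comm 1 i, neg_pow x, hxd, div_pow, mul_pow, pow_succ (-1 : ℝ) (i + 1)]
    push_cast
    field_simp
  rw [← ee_add]
  refine (norm_ee_sub_le _ _).trans ?_
  rw [e1, e2, show t * (Real.log a + Real.log (1 + x)) - (t * Real.log a +
    -(t * ∑ i ∈ range K, (-x) ^ (i + 1) / (i + 1))) =
      t * (∑ i ∈ range K, (-x) ^ (i + 1) / (i + 1) + Real.log (1 + x)) by ring, abs_mul]
  exact mul_le_mul_of_nonneg_left (h2.trans h3) (abs_nonneg t)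

theorem log_ge {x : ℝ} (hx : 1000 ≤ x) : 2 ≤ Real.log x := by
  rw [Real.le_log_iff_exp_le (by linarith)]
  have h1 := Real.exp_one_lt_d9
  have h2 : Real.exp 2 = Real.exp 1 * Real.exp 1 := by rw [← Real.exp_add]; norm_num
  have h3 := Real.exp_pos 1
  nlinarith

theorem prime {Z : ℝ} (hZ : 2 ≤ Z) : ∃ p : ℕ, p.Prime ∧ Z / 2 < p ∧ (p : ℝ) ≤ Z := by
  have h1 : 1 ≤ ⌊Z / 2⌋₊ := Nat.le_floor (by push_cast; linarith)
  obtain ⟨p, hp, h2, h3⟩ := Nat.exists_prime_lt_and_le_two_mul ⌊Z / 2⌋₊ (by omega)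
  have h4 := Nat.lt_floor_add_one (Z / 2)
  have h5 := Nat.floor_le (show 0 ≤ Z / 2 by linarith)
  have h6 : ((⌊Z / 2⌋₊ : ℝ) + 1) ≤ p := by exact_mod_cast h2
  have h7 : (p : ℝ) ≤ 2 * ⌊Z / 2⌋₊ := by exact_mod_cast h3
  exact ⟨p, hp, by linarith, by linarith⟩

end Vino

open Vino in
theorem vino (h1 : S_WB) : S_VINO := by
  intro M N t K0 hMN hM hK0 ht1 ht2 hL
  set Lg := Real.log N with hLg
  have hlK := log_ge hK0
  have hL0 : 10 ^ 9 ≤ Lg := by nlinarith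
  have hN : (0 : ℝ) < N := by
    rcases Nat.eq_zero_or_pos N with h0 | h0
    · rw [h0] at hLg
      simp at hLg
      rw [hLg] at hL0
      norm_num at hL0
    · exact_mod_cast h0
  have hLp : 0 < Lg := by linarith
  have hNe : Real.exp Lg = N := Real.exp_log hN
  have hr : ∀ y : ℝ, (N : ℝ) ^ y = Real.exp (y * Lg) := fun y => by
    rw [Real.rpow_def_of_pos hN, mul_comm]
  have ht0 : 0 < |t| := lt_of_lt_of_le (by positivity) ht1
  set τ := Real.log |t| / Lg with hτ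
  have hτL : τ * Lg = Real.log |t| := div_mul_cancel₀ _ hLp.ne'
  have hte : |t| = Real.exp (τ * Lg) := by rw [hτL, Real.exp_log ht0]
  have hτ1 : 1000 ≤ τ := by
    have h2 := Real.log_le_log (by positivity) ht1
    rw [Real.log_pow] at h2
    rw [hτ, le_div_iff₀ hLp]
    exact_mod_cast h2
  have hτ2 : τ ≤ K0 := by
    rw [hr, hte, Real.exp_le_exp] at ht2
    exact le_of_mul_le_mul_right ht2 hLp
  have hlτ := log_ge hτ1
  have hτ3 : 10 ^ 6 * τ * Real.log τ ≤ Lg := by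
    have h2 := Real.log_le_log (by linarith) hτ2
    have h3 := mul_le_mul hτ2 h2 (by linarith) (by linarith)
    nlinarith
  set K := ⌈4 * τ⌉₊ with hK
  have hK1 : 4 * τ ≤ K := Nat.le_ceil _
  have hK2 : (K : ℝ) < 4 * τ + 1 := Nat.ceil_lt_add_one (by linarith)
  have hKp : (0 : ℝ) < K := by linarith
  have hZ : 2 ≤ Real.exp (Lg / (3009 * K)) := by
    have h2 : 1 ≤ Lg / (3009 * K) := by
      rw [le_div_iff₀ (by positivity)]
      nlinarith
    linarith [Real.add_one_le_exp (Lg / (3009 * K))]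
  obtain ⟨p, hp, hp1, hp2⟩ := prime hZ
  have hP : ((p ^ (1003 * K) : ℕ) : ℝ) ≤ Real.exp (Lg / 3) := by
    push_cast
    refine (pow_le_pow_left₀ (Nat.cast_nonneg _) hp2 _).trans (le_of_eq ?_)
    rw [← Real.exp_nat_mul]
    congr 1
    push_cast
    field_simp
    norm_num
  have hP0 : 0 < p ^ (1003 * K) := pow_pos hp.pos _
  generalize hPd : p ^ (1003 * K) = P at hP hP0
  have hP2 : (P : ℝ) ^ 2 ≤ Real.exp (2 / 3 * Lg) := by
    refine (pow_le_pow_left₀ (Nat.cast_nonneg _) hP 2).trans (le_of_eq ?_)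
    rw [← Real.exp_nat_mul]
    congr 1
    push_cast
    ring
  rw [hr] at hM
  have key := core (fun n => ee (t * Real.log n)) (fun n => (norm_ee _).le) (M := M) (N := N)
    (by omega) hP0 (fun a u v => ee (2 * Real.pi * ∑ j ∈ Icc 1 K,
      (-1) ^ (j + 1) * t / (2 * Real.pi * j * (a : ℝ) ^ j) * (u : ℝ) ^ j * (v : ℝ) ^ j))
    (2 * Real.exp (-(1 / 3 * Lg))) (Real.exp (-Lg / (10 ^ 11 * K0 ^ 2))) ?_ ?_
  · refine key.trans ?_
    have h2 : (2 * M : ℝ) ≤ N := by exact_mod_cast hMN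
    have h3 : Real.exp (2 / 3 * Lg) = N * Real.exp (-(1 / 3 * Lg)) := by
      rw [← hNe, ← Real.exp_add]
      congr 1
      ring
    rw [hr, div_eq_mul_inv 6, ← Real.exp_neg]
    have h4 := Real.exp_pos (-(1 / 3 * Lg))
    nlinarith
  · intro a ha u hu v hv
    have ha1 : Real.exp (99 / 100 * Lg) ≤ a := hM.trans (by exact_mod_cast (mem_Ioc.1 ha).1.le)
    have ha0 : (0 : ℝ) < a := lt_of_lt_of_le (Real.exp_pos _) ha1
    have hu' : (u : ℝ) ≤ P := by exact_mod_cast (mem_range.1 hu).le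
    have hv' : (v : ℝ) ≤ P := by exact_mod_cast (mem_range.1 hv).le
    have huv := mul_le_mul hu' hv' (Nat.cast_nonneg _) (Nat.cast_nonneg _)
    have hx0 : 0 ≤ (u : ℝ) * v / a := by positivity
    have hx1 : (u : ℝ) * v / a ≤ Real.exp (-(32 / 100 * Lg)) := by
      rw [div_le_iff₀ ha0]
      have h2 : Real.exp (2 / 3 * Lg) ≤
          Real.exp (-(32 / 100 * Lg)) * Real.exp (99 / 100 * Lg) := by
        rw [← Real.exp_add, Real.exp_le_exp]
        linarith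
      have h3 := mul_le_mul_of_nonneg_left ha1 (Real.exp_pos (-(32 / 100 * Lg))).le
      nlinarith
    have hx2 : Real.exp (-(32 / 100 * Lg)) ≤ 1 / 2 := by
      rw [Real.exp_neg, ← one_div]
      refine one_div_le_one_div_of_le (by norm_num) ?_
      linarith [Real.add_one_le_exp (32 / 100 * Lg)]
    have h4 := taylor t a u v K ha0 hx0 (hx1.trans hx2)
    push_cast
    refine h4.trans ?_
    have h5 := pow_le_pow_left₀ hx0 hx1 (K + 1)
    rw [← Real.exp_nat_mul] at h5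
    have h6 : Real.exp (τ * Lg) * Real.exp (((K + 1 : ℕ) : ℝ) * -(32 / 100 * Lg)) ≤
        Real.exp (-(1 / 3 * Lg)) := by
      rw [← Real.exp_add, Real.exp_le_exp]
      push_cast
      nlinarith
    have h7 := mul_le_mul_of_nonneg_left h5 (Real.exp_pos (τ * Lg)).le
    rw [hte]
    linarith
  · intro a ha
    have ha1 : Real.exp (99 / 100 * Lg) ≤ a := hM.trans (by exact_mod_cast (mem_Ioc.1 ha).1.le)
    have ha2 : (a : ℝ) ≤ Real.exp Lg := by rw [hNe]; exact_mod_cast (mem_Ioc.1 ha).2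
    have h2 := h1 Lg τ a t K p hτ1 hτ3 hte ha1 ha2 hK hp hp1 hp2
    rw [hPd] at h2
    refine le_trans h2 (Real.exp_le_exp.2 ?_)
    rw [neg_div, neg_div, neg_le_neg_iff]
    refine div_le_div_of_nonneg_left hLp.le (by positivity) ?_
    have := pow_le_pow_left₀ (by linarith) hτ2 2
    linarith

end Pool.Agent.P.MP_b60056_nt.AA
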