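import Pool.Agent.P.MP_b60056_nt.AA.Api

namespace Pool.Agent.P.MP_b60056_nt.AA

open Finset

namespace Abs

variable {S : Type} [Fintype S]

noncomputable def ph (h : S → ℂ) : ℂ := (starRingEnd ℂ) (avc h) / (‖avc h‖ : ℂ)

noncomputable def uc (h : S → ℂ) (s : S) : ℂ := h s * ph h

theorem norm_ph {h : S → ℂ} (h0 : avc h ≠ 0) : ‖ph h‖ = 1 := by
  unfold ph
  rw [norm_div, Complex.norm_conj, Complex.norm_real, norm_norm,
    div_self (norm_ne_zero_iff.2 h0)]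

theorem norm_uc {h : S → ℂ} (hh : ∀ s, ‖h s‖ = 1) (h0 : avc h ≠ 0) (s : S) : ‖uc h s‖ = 1 := by
  unfold uc; rw [norm_mul, hh, norm_ph h0, one_mul]

theorem avc_uc {h : S → ℂ} (h0 : avc h ≠ 0) : avc (uc h) = (‖avc h‖ : ℂ) := by
  have : avc (uc h) = avc h * ph h := avc_mul_right _ _
  rw [this]
  unfold ph
  have h1 : (‖avc h‖ : ℂ) ≠ 0 := by exact_mod_cast norm_ne_zero_iff.2 h0
  rw [← mul_div_assoc, Complex.mul_conj, Complex.normSq_eq_norm_sq, div_eq_iff h1]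
  push_cast; ring

theorem av_re [Nonempty S] {h : S → ℂ} (h0 : avc h ≠ 0) :
    av (fun s => 1 - (uc h s).re) = 1 - ‖avc h‖ := by
  rw [av_sub, av_const, ← avc_re, avc_uc h0]; simp

theorem av_im {h : S → ℂ} (h0 : avc h ≠ 0) : av (fun s => (uc h s).im) = 0 := by
  rw [← avc_im, avc_uc h0]; simp

theorem norm_Ft_uc {k : ℕ} (ω : (Fin k → S) → ℝ) {h : S → ℂ} (h0 : avc h ≠ 0) :
    ‖Ft ω (uc h)‖ = ‖Ft ω h‖ := by
  have : Ft ω (uc h) = Ft ω h * ph h ^ k := by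
    unfold Ft
    rw [← avc_mul_right]
    refine avc_congr fun σ => ?_
    unfold uc
    rw [Finset.prod_mul_distrib]; simp; ring
  rw [this, norm_mul, norm_pow, norm_ph h0]; simp

theorem norm_avc_uc (ρ : S → ℝ) {h : S → ℂ} (h0 : avc h ≠ 0) :
    ‖avc (fun s => (ρ s : ℂ) * uc h s)‖ = ‖avc (fun s => (ρ s : ℂ) * h s)‖ := by
  have : avc (fun s => (ρ s : ℂ) * uc h s) = avc (fun s => (ρ s : ℂ) * h s) * ph h := by
    rw [← avc_mul_right]
    refine avc_congr fun σ => ?_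
    unfold uc; ring
  rw [this, norm_mul, norm_ph h0, mul_one]

theorem norm_avc_dens {ρ : S → ℝ} {u : S → ℂ} (h0 : ∀ s, 0 ≤ ρ s) (h1 : av ρ = 1)
    (hu : ∀ s, ‖u s‖ = 1) : ‖avc (fun s => (ρ s : ℂ) * u s)‖ ≤ 1 := by
  refine (norm_avc_le _).trans ((av_mono fun s => ?_).trans h1.le)
  rw [norm_mul, hu, Complex.norm_real, Real.norm_of_nonneg (h0 s), mul_one]

theorem one_sub_re_nonneg {u : ℂ} (hu : ‖u‖ = 1) : 0 ≤ 1 - u.re := by
  have := Complex.re_le_norm u; linarith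

theorem kill {ω : S → ℝ} {u : S → ℂ} {x : ℝ} (h0 : ∀ s, 0 ≤ ω s) (h1 : av ω = 1)
    (hu : ∀ s, ‖u s‖ = 1) (hx : avc u = (x : ℂ)) (hx1 : 1 / 2 ≤ x) (hx2 : x ≤ 1) :
    ‖avc (fun s => (((1 + ω s) / 2 : ℝ) : ℂ) * u s)‖ ^ 2 ≤
      1 - av (fun s => ω s * (1 - (u s).re)) / 4 := by
  set w : ℂ := avc (fun s => (ω s : ℂ) * u s) with hw
  have e1 : avc (fun s => (((1 + ω s) / 2 : ℝ) : ℂ) * u s) = (1 / 2 : ℂ) * (x + w) := by
    rw [← hx, hw, ← avc_add, ← avc_mul_left]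
    refine avc_congr fun s => ?_
    push_cast; ring
  have e2 : w.re = 1 - av (fun s => ω s * (1 - (u s).re)) := by
    have e0 : av (fun s => ω s * (1 - (u s).re)) = av ω - av (fun s => ω s * (u s).re) := by
      rw [← av_sub]; exact av_congr fun s => by ring
    rw [e0, h1, hw, avc_re, sub_sub_cancel]
    refine av_congr fun s => ?_
    simp
  have e3 : ‖w‖ ≤ 1 := norm_avc_dens h0 h1 hu
  have e4 : w.re ^ 2 + w.im ^ 2 ≤ 1 := by
    have := Complex.sq_norm w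
    rw [Complex.normSq_apply] at this
    have h5 : ‖w‖ ^ 2 ≤ 1 := by nlinarith [norm_nonneg w]
    nlinarith
  have e5 : 0 ≤ av (fun s => ω s * (1 - (u s).re)) :=
    av_nonneg fun s => mul_nonneg (h0 s) (one_sub_re_nonneg (hu s))
  rw [e1, Complex.sq_norm, Complex.normSq_apply]
  simp only [Complex.mul_re, Complex.mul_im, Complex.add_re, Complex.add_im, Complex.ofReal_re,
    Complex.ofReal_im]
  norm_num
  set c := av (fun s => ω s * (1 - (u s).re))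
  nlinarith

omit [Fintype S] in
theorem chi_zero {χ : ℤ → S → ℂ} (hn : ∀ i s, ‖χ i s‖ = 1)
    (ha : ∀ i i' s, χ (i + i') s = χ i s * χ i' s) (s : S) : χ 0 s = 1 := by
  have h := ha 0 0 s
  rw [add_zero] at h
  have h0 : χ 0 s ≠ 0 := by
    intro h0; have := hn 0 s; rw [h0] at this; simp at this
  exact (mul_eq_left₀ h0).1 h.symm

omit [Fintype S] in
theorem chi_sub {χ : ℤ → S → ℂ} (hn : ∀ i s, ‖χ i s‖ = 1)
    (ha : ∀ i i' s, χ (i + i') s = χ i s * χ i' s) (i i' : ℤ) (s : S) :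
    χ i s * (starRingEnd ℂ) (χ i' s) = χ (i - i') s := by
  have h := ha (i - i') i' s
  rw [sub_add_cancel] at h
  rw [h, mul_assoc, Complex.mul_conj, Complex.normSq_eq_norm_sq, hn]; simp

theorem sum_sq_le_one {N : ℕ} {g : Fin N → S → ℝ} (hg : ∑ j, av (fun s => g j s ^ 2) ≤ 1)
    {f : S → ℝ} {c : ℝ} (hc : 0 ≤ c) (hf : ∀ s, f s ^ 2 ≤ c) :
    ∑ j, av (fun s => g j s * f s) ^ 2 ≤ c := by
  have h1 : av (fun s => f s ^ 2) ≤ c := (av_mono hf).trans (av_const_le hc)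
  calc ∑ j, av (fun s => g j s * f s) ^ 2 ≤ ∑ j, av (fun s => g j s ^ 2) * c :=
        Finset.sum_le_sum fun j _ => (av_cs _ _).trans
          (mul_le_mul_of_nonneg_left h1 (av_nonneg fun s => sq_nonneg _))
    _ = (∑ j, av (fun s => g j s ^ 2)) * c := by rw [Finset.sum_mul]
    _ ≤ c := mul_le_of_le_one_left hc hg

theorem pow_le_exp {x η : ℝ} (n : ℕ) (hx : 0 ≤ x) (h : x ≤ 1 - η) :
    x ^ n ≤ Real.exp (-(n * η)) := by
  have h1 : x ≤ Real.exp (-η) := h.trans (by linarith [Real.add_one_le_exp (-η)])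
  calc x ^ n ≤ Real.exp (-η) ^ n := pow_le_pow_left₀ hx h1 n
    _ = Real.exp (-(n * η)) := by rw [← Real.exp_nat_mul]; congr 1; ring

theorem sum_le_card {A U : Finset ℤ} {f : ℤ → ℝ} {c J : ℝ} (hA : A ⊆ U)
    (hU : (U.card : ℝ) ≤ Real.exp J) (hf : ∀ i ∈ A, f i ≤ Real.exp c) :
    ∑ i ∈ A, f i ≤ Real.exp (J + c) := by
  have h1 : ∑ i ∈ A, f i ≤ A.card • Real.exp c := Finset.sum_le_card_nsmul _ _ _ hf
  have h2 : (A.card : ℝ) ≤ U.card := by exact_mod_cast Finset.card_le_card hA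
  rw [nsmul_eq_mul] at h1
  rw [Real.exp_add]
  exact h1.trans (mul_le_mul_of_nonneg_right (h2.trans hU) (Real.exp_pos _).le)

end Abs

open Abs

theorem abs_ (h1 : S_GAME) (h2 : S_DISS) (h3 : S_TILT) (h4 : S_SUM) : S_ABS := by
  intro S _ _ χ U r N0 n Nd m1 m2 m q I η0 η2 δ J G0 LH hn ha ok hF1 hF2 hU
  classical
  set U1 : Finset ℤ := (Icc (-(N0 : ℤ)) N0).filter (fun i => 1 - η2 ≤ ‖avc (χ i)‖) with hU1
  have hne : ∀ i ∈ U1, avc (χ i) ≠ 0 := by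
    intro i hi h0
    have := (Finset.mem_filter.1 hi).2
    rw [h0, norm_zero] at this
    linarith [ok.e2']
  have hab : ∀ i ∈ U1, |i| ≤ N0 := by
    intro i hi
    have := Finset.mem_Icc.1 (Finset.mem_filter.1 hi).1
    exact abs_le.2 this
  have hA1 : ∀ i, ‖avc (χ i)‖ ≤ 1 := fun i => norm_avc_le_one fun s => (hn i s).le
  have hun : ∀ i ∈ U1, ∀ s, ‖uc (χ i) s‖ = 1 := fun i hi s => norm_uc (hn i) (hne i hi) s
  let P : Type := {p // p ∈ (U1 ×ˢ U1).filter (fun p : ℤ × ℤ => (r : ℤ) ≤ |p.1 - p.2|)}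
  have hP1 : ∀ p : P, p.1.1 ∈ U1 := fun p =>
    (Finset.mem_product.1 (Finset.mem_filter.1 p.2).1).1
  have hP2 : ∀ p : P, p.1.2 ∈ U1 := fun p =>
    (Finset.mem_product.1 (Finset.mem_filter.1 p.2).1).2
  have hP3 : ∀ p : P, (r : ℤ) ≤ |p.1.1 - p.1.2| := fun p => (Finset.mem_filter.1 p.2).2
  have hP4 : ∀ p : P, |p.1.1 - p.1.2| ≤ 2 * N0 := fun p => by
    have := abs_sub p.1.1 p.1.2
    have := hab _ (hP1 p)
    have := hab _ (hP2 p)
    omega
  have hd0 : ∀ p : P, av (fun s => (uc (χ p.1.1) s).im - (uc (χ p.1.2) s).im) = 0 := fun p => by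
    rw [av_sub, av_im (hne _ (hP1 p)), av_im (hne _ (hP2 p)), sub_zero]
  have hLH : 0 < LH := lt_of_lt_of_le one_pos ok.lh
  rcases h1 S P (fun p s => (1 - (uc (χ p.1.1) s).re) + (1 - (uc (χ p.1.2) s).re))
      (fun p s => (uc (χ p.1.1) s).im - (uc (χ p.1.2) s).im) LH η2 (δ ^ 2) ok.lh ok.e2
      (pow_pos ok.d0 2)
      (fun p s => add_nonneg (one_sub_re_nonneg (hun _ (hP1 p) s))
        (one_sub_re_nonneg (hun _ (hP2 p) s))) hd0 with
    ⟨ω, hω, hω1, N, g, hg0, hg1, hwin⟩ | ⟨π, hπ0, hπ1, hZ, hflat⟩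
  swap
  · exfalso
    refine h2 S P χ (fun p => uc (χ p.1.1)) (fun p => uc (χ p.1.2)) (fun p => p.1.1 - p.1.2)
      (fun p => ph (χ p.1.1) * (starRingEnd ℂ) (ph (χ p.1.2))) π U n Nd (2 * N0) η0 η2 (δ ^ 2)
      LH⁻¹ J hn ha (fun p s => ⟨hun _ (hP1 p) s, hun _ (hP2 p) s⟩) (fun p => ?_) (fun p s => ?_)
      (fun p => by push_cast; exact hP4 p) (fun p => hF1 _ (hP3 p) (hP4 p)) (fun p => ?_) hd0
      hπ0 hπ1 ?_ hflat (fun i hi => hF2 i (by push_cast at hi; exact hi)) hU ok.e0 ok.e2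
      (pow_pos ok.d0 2) (inv_nonneg.2 hLH.le) ok.j0 ok.n1 ok.nd1 ok.nd2 ok.n2 ok.n3 ok.n4 ok.e3
    · rw [norm_mul, Complex.norm_conj, norm_ph (hne _ (hP1 p)), norm_ph (hne _ (hP2 p)), one_mul]
    · rw [← chi_sub hn ha]
      unfold uc
      rw [map_mul]; ring
    · rw [av_add, av_re (hne _ (hP1 p)), av_re (hne _ (hP2 p))]
      have := (Finset.mem_filter.1 (hP1 p)).2
      have := (Finset.mem_filter.1 (hP2 p)).2
      linarith
    · rw [inv_mul_eq_div, le_div_iff₀ hLH, mul_comm]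
      exact hZ
  obtain ⟨ωT, ϖ, a, hT0, hT1, hT2, hp0, hp1, ha4, hTb⟩ := h3 S N g m q hg0 hg1 ok.m0 ok.qe ok.mq
  set ρ : S → ℝ := fun s => (1 + ω s) / 2 with hρ
  have hρ0 : ∀ s, 0 ≤ ρ s := fun s => by have := (hω s).1; simp only [hρ]; linarith
  have hρ1 : av ρ = 1 := by
    simp only [hρ]; rw [av_div, av_add, av_const, hω1]; norm_num
  have hρ2 : av (fun s => ρ s ^ 2) ≤ LH := by
    have : av (fun s => ρ s ^ 2) ≤ av (fun s => LH * ρ s) := av_mono fun s => by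
      have h5 : ρ s ≤ LH := by have := (hω s).2; have := ok.lh; simp only [hρ]; linarith
      have := hρ0 s
      nlinarith
    rwa [av_mul_left, hρ1, mul_one] at this
  obtain ⟨ωa, a0, a1, a2, a3⟩ := dens_pow (fun _ : S => (1 : ℝ)) m1 (fun _ => zero_le_one)
  obtain ⟨ωb, b0, b1, b2, b3⟩ := dens_pow ρ m2 hρ0
  obtain ⟨ωc, c0, c1, c2, c3⟩ := dens_mul ωa ωb a0 b0
  obtain ⟨ωd, d0, d1, d2, d3⟩ := dens_mul ωc ωT c0 hT0
  have hF : ∀ i, ‖Ft ωd (χ i)‖ = ‖avc (χ i)‖ ^ m1 *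
      ‖avc (fun s => (ρ s : ℂ) * χ i s)‖ ^ m2 * ‖Ft ωT (χ i)‖ := by
    intro i
    rw [d3, c3, a3, b3, norm_mul, norm_mul, norm_pow, norm_pow]
    simp
  have hB1 : ∀ i, ‖avc (fun s => (ρ s : ℂ) * χ i s)‖ ≤ 1 := fun i =>
    norm_avc_dens hρ0 hρ1 (hn i)
  have hB2 : ∀ i, ‖avc (fun s => (ρ s : ℂ) * χ i s)‖ ^ m2 ≤ 1 := fun i =>
    pow_le_one₀ (norm_nonneg _) (hB1 i)
  have hC1 : ∀ i, ‖Ft ωT (χ i)‖ ≤ 1 := fun i => norm_Ft_le_one hT0 hT1 fun s => (hn i s).le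
  have hA2 : ∀ i, ‖avc (χ i)‖ ^ m1 ≤ 1 := fun i => pow_le_one₀ (norm_nonneg _) (hA1 i)
  have hFa : ∀ i, ‖Ft ωd (χ i)‖ ≤ ‖avc (χ i)‖ ^ m1 := by
    intro i
    rw [hF, mul_assoc]
    exact mul_le_of_le_one_right (by positivity)
      (mul_le_one₀ (hB2 i) (norm_nonneg _) (hC1 i))
  have hFb : ∀ i, ‖Ft ωd (χ i)‖ ≤ ‖avc (fun s => (ρ s : ℂ) * χ i s)‖ ^ m2 := by
    intro i
    rw [hF]
    calc _ ≤ 1 * ‖avc (fun s => (ρ s : ℂ) * χ i s)‖ ^ m2 * 1 := by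
          gcongr
          · exact hA2 i
          · exact hC1 i
      _ = _ := by ring
  have hFc : ∀ i, ‖Ft ωd (χ i)‖ ≤ ‖avc (χ i)‖ ^ m1 * ‖Ft ωT (χ i)‖ := by
    intro i
    rw [hF]
    calc _ ≤ ‖avc (χ i)‖ ^ m1 * 1 * ‖Ft ωT (χ i)‖ := by
          gcongr
          exact hB2 i
      _ = _ := by ring
  refine ⟨ωd, d0, ?_, ?_, hFa, ?_⟩
  · rw [d1, c1, a1, b1, hρ1, hT1, av_const]; simp
  · rw [d2, c2, a2, b2]
    simp only [one_pow, av_const, one_mul]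
    exact mul_le_mul (pow_le_pow_left₀ (av_nonneg fun s => sq_nonneg _) hρ2 _) hT2
      (av_nonneg fun s => sq_nonneg _) (by positivity)
  set W := (Icc (-(N0 : ℤ)) N0).filter (fun i => (r : ℤ) ≤ |i| ∧ 1 / 2 ≤ ‖avc (χ i)‖) with hW
  have hn1 : (1 : ℤ) ≤ n := by
    have h5 : (1 : ℝ) ≤ n := by nlinarith [ok.n1, ok.j0]
    exact_mod_cast h5
  have hWU : W ⊆ U := by
    intro i hi
    obtain ⟨h5, -, h6⟩ := Finset.mem_filter.1 hi
    refine hF2 i ?_ h6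
    have := abs_le.2 (Finset.mem_Icc.1 h5)
    nlinarith [abs_nonneg i]
  let cc : ℤ → ℝ := fun i => av (fun s => ω s * (1 - (uc (χ i) s).re))
  set W1 := W.filter (fun i => i ∈ U1) with hW1
  set W2 := W1.filter (fun i => cc i < η2 / 2) with hW2
  rw [← Finset.sum_filter_add_sum_filter_not W (fun i => i ∈ U1), ← hW1,
    ← Finset.sum_filter_add_sum_filter_not W1 (fun i => cc i < η2 / 2), ← hW2]
  have s1 : ∑ i ∈ W.filter (fun i => ¬ i ∈ U1), ‖Ft ωd (χ i)‖ ^ 2 ≤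
      Real.exp (J - 2 * m1 * η2) := by
    rw [sub_eq_add_neg]
    refine sum_le_card ((Finset.filter_subset _ _).trans hWU) hU fun i hi => ?_
    obtain ⟨h5, h6⟩ := Finset.mem_filter.1 hi
    have h7 : ‖avc (χ i)‖ ≤ 1 - η2 := by
      by_contra h8
      exact h6 (Finset.mem_filter.2 ⟨(Finset.mem_filter.1 h5).1, (not_le.1 h8).le⟩)
    calc ‖Ft ωd (χ i)‖ ^ 2 ≤ (‖avc (χ i)‖ ^ m1) ^ 2 := pow_le_pow_left₀ (norm_nonneg _) (hFa i) 2
      _ = ‖avc (χ i)‖ ^ (2 * m1) := by rw [← pow_mul, mul_comm]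
      _ ≤ Real.exp (-((2 * m1 : ℕ) * η2)) := pow_le_exp _ (norm_nonneg _) h7
      _ = _ := by push_cast; ring_nf
  have s2 : ∑ i ∈ W1.filter (fun i => ¬ cc i < η2 / 2), ‖Ft ωd (χ i)‖ ^ 2 ≤
      Real.exp (J - m2 * η2 / 8) := by
    rw [sub_eq_add_neg]
    refine sum_le_card ((Finset.filter_subset _ _).trans ((Finset.filter_subset _ _).trans hWU))
      hU fun i hi => ?_
    obtain ⟨h5, h6⟩ := Finset.mem_filter.1 hi
    obtain ⟨h7, h8⟩ := Finset.mem_filter.1 h5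
    have h9 := kill (fun s => (hω s).1) hω1 (hun i h8) (avc_uc (hne i h8))
      (Finset.mem_filter.1 h7).2.2 (hA1 i)
    have h10 : ‖avc (fun s => (ρ s : ℂ) * χ i s)‖ ^ 2 ≤ 1 - η2 / 8 := by
      rw [← norm_avc_uc ρ (hne i h8)]
      have h11 : η2 / 2 ≤ cc i := not_lt.1 h6
      exact h9.trans (by simp only [cc] at h11; linarith)
    calc ‖Ft ωd (χ i)‖ ^ 2 ≤ (‖avc (fun s => (ρ s : ℂ) * χ i s)‖ ^ m2) ^ 2 :=
          pow_le_pow_left₀ (norm_nonneg _) (hFb i) 2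
      _ = (‖avc (fun s => (ρ s : ℂ) * χ i s)‖ ^ 2) ^ m2 := by rw [← pow_mul, ← pow_mul, mul_comm]
      _ ≤ Real.exp (-(m2 * (η2 / 8))) := pow_le_exp _ (sq_nonneg _) h10
      _ = _ := by ring_nf
  let x : ℤ → Fin N → ℝ := fun i j => av (fun s => g j s * (uc (χ i) s).im)
  have hcap : ∀ i ∈ U1, ∀ i' ∈ U1, cc i < η2 / 2 → cc i' < η2 / 2 → (r : ℤ) ≤ |i - i'| →
      δ ^ 2 ≤ ∑ j, (x i j - x i' j) ^ 2 := by
    intro i hi i' hi' k1 k2 k3
    rcases hwin ⟨(i, i'), Finset.mem_filter.2 ⟨Finset.mem_product.2 ⟨hi, hi'⟩, k3⟩⟩ with k4 | k4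
    · exfalso
      have : av (fun s => ω s * ((1 - (uc (χ i) s).re) + (1 - (uc (χ i') s).re))) =
          cc i + cc i' := by
        simp only [cc]; rw [← av_add]; exact av_congr fun s => by ring
      rw [this] at k4
      linarith
    · refine k4.trans (le_of_eq (Finset.sum_congr rfl fun j _ => ?_))
      simp only [x]; rw [← av_sub]; congr 1
      exact av_congr fun s => by ring
  have hz1 : avc (χ 0) = 1 := by
    rw [avc_congr (chi_zero hn ha), avc_const]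
  have hz2 : (0 : ℤ) ∈ U1 := by
    refine Finset.mem_filter.2 ⟨Finset.mem_Icc.2 ⟨by omega, by omega⟩, ?_⟩
    rw [hz1, norm_one]; linarith [ok.e2]
  have hz3 : ∀ s, uc (χ 0) s = 1 := by
    intro s; unfold uc ph; rw [hz1, chi_zero hn ha]; simp
  have hz4 : cc 0 < η2 / 2 := by
    simp only [cc, hz3]; simp [av_zero, ok.e2]
  have hz5 : ∀ j, x 0 j = 0 := by
    intro j; simp only [x, hz3]; simp [av_zero]
  have hq1 : 1 ≤ q := by
    rcases Nat.eq_zero_or_pos q with h0 | h0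
    · have h5 := ok.mq; have h6 := ok.m0
      rw [h0] at h5; nlinarith
    · exact h0
  have hr0 : (0 : ℤ) < r := by exact_mod_cast ok.r1
  have s3 : ∀ c : ℤ, ∑ i ∈ W2.filter (fun i => i % r = c), ‖Ft ωd (χ i)‖ ^ 2 ≤
      4 * Real.exp 2 * (Real.exp (-19 * J) + 2 ^ (I + 2) * Real.exp (-G0)) := by
    intro c
    have hm : ∀ i ∈ W2.filter (fun i => i % r = c),
        i ∈ W ∧ i ∈ U1 ∧ cc i < η2 / 2 ∧ i % r = c := by
      intro i hi
      obtain ⟨k1, k2⟩ := Finset.mem_filter.1 hi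
      obtain ⟨k3, k4⟩ := Finset.mem_filter.1 k1
      obtain ⟨k5, k6⟩ := Finset.mem_filter.1 k3
      exact ⟨k5, k6, k4, k2⟩
    have key := h4 S (Fin N) ℤ ϖ a m q I (W2.filter (fun i => i % r = c)) x
      (fun i => ‖avc (χ i)‖ ^ m1 * ‖Ft ωT (χ i)‖) (2 * Real.exp 1) δ G0 J (10 * J) ok.m0 hq1 hp0
      hp1 ha4 ok.d0 (by positivity) ?_ ?_ ?_ ?_ ok.g1 ok.g2 ok.g3 ok.g4
    · refine le_trans (Finset.sum_le_sum fun i _ =>
        pow_le_pow_left₀ (norm_nonneg _) (hFc i) 2) (key.trans (le_of_eq ?_))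
      rw [mul_pow, ← Real.exp_nat_mul]
      norm_num
      ring_nf
    · intro i hi
      obtain ⟨k1, k2, k3, -⟩ := hm i hi
      refine ⟨by positivity, ?_⟩
      have := hcap i k2 0 hz2 k3 hz4 (by rw [sub_zero]; exact (Finset.mem_filter.1 k1).2.1)
      simpa [hz5] using this
    · intro i hi e
      obtain ⟨k1, k2, -, -⟩ := hm i hi
      have k3 := (Finset.mem_filter.1 k1).2.2
      have k4 := hTb (uc (χ i)) e (hun i k2) (by rw [av_re (hne i k2)]; linarith)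
      rw [av_re (hne i k2)] at k4
      have k5 : ‖Ft ωT (χ i)‖ = ‖avc (fun σ : Fin m → S => (ωT σ : ℂ) * ∏ l, uc (χ i) (σ l))‖ :=
        (norm_Ft_uc ωT (hne i k2)).symm
      have k6 : ‖avc (χ i)‖ ^ m1 ≤ Real.exp (-(72 * m * (1 - ‖avc (χ i)‖))) := by
        refine (pow_le_exp (η := 1 - ‖avc (χ i)‖) m1 (norm_nonneg _) (by linarith)).trans
          (Real.exp_le_exp.2 ?_)
        have k7 : (72 * m : ℝ) ≤ m1 := by exact_mod_cast ok.mm
        have := hA1 i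
        nlinarith
      rw [k5]
      refine (mul_le_mul k6 k4 (norm_nonneg _) (Real.exp_pos _).le).trans (le_of_eq ?_)
      rw [mul_left_comm, ← Real.exp_add, mul_assoc 2 (Real.exp 1), ← Real.exp_add]
      congr 2
      simp only [x]; ring
    · intro i hi i' hi' hii
      obtain ⟨-, k2, k3, k4⟩ := hm i hi
      obtain ⟨-, l2, l3, l4⟩ := hm i' hi'
      have hd : (r : ℤ) ∣ i - i' := Int.ModEq.dvd (show i' ≡ i [ZMOD r] from l4.trans k4.symm)
      refine ⟨hcap i k2 i' l2 k3 l3 (Int.le_of_dvd (abs_pos.2 (sub_ne_zero.2 hii))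
        ((dvd_abs _ _).2 hd)), ?_⟩
      have k5 : ∑ j, (x i j - x i' j) ^ 2 ≤ 4 := by
        have := sum_sq_le_one hg1 (f := fun s => (uc (χ i) s).im - (uc (χ i') s).im) (c := 4)
          (by norm_num) (fun s => by
            have e1 := Complex.abs_im_le_norm (uc (χ i) s)
            have e2 := Complex.abs_im_le_norm (uc (χ i') s)
            rw [hun i k2] at e1; rw [hun i' l2] at e2
            have := abs_le.1 e1; have := abs_le.1 e2
            nlinarith)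
        refine le_trans (le_of_eq (Finset.sum_congr rfl fun j _ => ?_)) this
        simp only [x]; rw [← av_sub]; congr 1
        exact av_congr fun s => by ring
      have := ok.i1
      nlinarith
    · have k1 : (W2.filter (fun i => i % r = c)) ⊆ U := fun i hi => hWU (hm i hi).1
      have k2 : ((W2.filter (fun i => i % r = c)).card : ℝ) ≤ U.card := by
        exact_mod_cast Finset.card_le_card k1
      exact k2.trans hU
  have s4 : ∑ i ∈ W2, ‖Ft ωd (χ i)‖ ^ 2 ≤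
      r * (4 * Real.exp 2 * (Real.exp (-19 * J) + 2 ^ (I + 2) * Real.exp (-G0))) := by
    rw [← Finset.sum_fiberwise_of_maps_to (s := W2) (t := Ico (0 : ℤ) r) (g := fun i => i % r)
      (fun i _ => Finset.mem_Ico.2 ⟨Int.emod_nonneg _ hr0.ne', Int.emod_lt_of_pos _ hr0⟩)]
    refine (Finset.sum_le_card_nsmul _ _ _ fun c _ => s3 c).trans (le_of_eq ?_)
    rw [nsmul_eq_mul]; simp
  unfold epsA
  linarith

end Pool.Agent.P.MP_b60056_nt.AA
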