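import Pool.Agent.P.MP_b60056_nt.AA.Api

/-! A product of small factors divides the product of the following integers. -/

namespace Pool.Agent.P.MP_b60056_nt.AA

open Finset

namespace Block

theorem offsets {ι : Type} [Fintype ι] (f : ι → ℕ) (hf : ∀ i, 1 ≤ f i) :
    ∃ o : ι → ℕ, Function.Injective o ∧
      ∀ j, ∃ c, 1 ≤ c ∧ c ≤ Fintype.card ι ∧ o j = f j * c := by
  classical
  have hc : ∀ j, ((Icc 1 (Fintype.card ι)).image fun c => f j * c).card = Fintype.card ι := by
    intro j
    rw [card_image_of_injective _ (mul_right_injective₀ (by have := hf j; omega))]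
    simp
  obtain ⟨o, ho, hm⟩ := (all_card_le_biUnion_card_iff_exists_injective
    fun j => (Icc 1 (Fintype.card ι)).image fun c => f j * c).mp fun s => by
      rcases s.eq_empty_or_nonempty with rfl | ⟨j, hj⟩
      · simp
      · exact (card_le_univ s).trans ((hc j).symm.le.trans
          (card_le_card (subset_biUnion_of_mem
            (fun j => (Icc 1 (Fintype.card ι)).image fun c => f j * c) hj)))
  refine ⟨o, ho, fun j => ?_⟩
  obtain ⟨c, hc1, hc2⟩ := mem_image.mp (hm j)
  exact ⟨c, (mem_Icc.mp hc1).1, (mem_Icc.mp hc1).2, hc2.symm⟩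

end Block

theorem block : S_BLOCK := by
  classical
  intro ι _ f Y m h hf h1 h2
  obtain ⟨i, hi⟩ := Nat.exists_eq_add_of_le h1
  obtain ⟨o, ho, hm⟩ := Block.offsets f fun j => (hf j).1
  refine ⟨i, mem_range.mpr (by omega), ?_⟩
  have hinj : Function.Injective fun j => i + o j := fun a b hab => ho (Nat.add_left_cancel hab)
  calc m + i = ∏ j, f j := hi.symm
    _ ∣ ∏ j, (m + (i + o j)) := by
        refine prod_dvd_prod_of_dvd _ _ fun j _ => ?_
        obtain ⟨c, -, -, hc⟩ := hm j
        rw [← add_assoc, ← hi, hc]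
        exact dvd_add (dvd_prod_of_mem f (mem_univ j)) (dvd_mul_right _ _)
    _ = ∏ t ∈ univ.image (fun j => i + o j), (m + t) :=
        (prod_image (f := fun t => m + t) fun a _ b _ hab => hinj hab).symm
    _ ∣ _ := by
        refine prod_dvd_prod_of_subset _ _ _ fun t ht => ?_
        obtain ⟨j, -, rfl⟩ := mem_image.mp ht
        obtain ⟨c, hc1, hc2, hc⟩ := hm j
        have h3 : 1 ≤ o j := hc ▸ Nat.mul_pos (hf j).1 hc1
        have h4 : o j ≤ Fintype.card ι * Y := by
          rw [hc, mul_comm]
          exact Nat.mul_le_mul hc2 (hf j).2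
        exact mem_erase.mpr ⟨by omega, mem_range.mpr (by omega)⟩

end Pool.Agent.P.MP_b60056_nt.AA
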