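import Pool.Agent.P.MP_b60056_nt.AA.Api

namespace Pool.Agent.P.MP_b60056_nt.AA

open Finset MeasureTheory

namespace Coef

noncomputable def cf (a L : ℝ) (f : ℝ → ℂ) (i : ℤ) : ℂ :=
  (∫ x in a..(a + L), ee (-(2 * Real.pi * i * x / L)) * f x) / L

noncomputable def bx (v T x : ℝ) : ℝ := if x ≤ v ∧ v < x + 1 / T then T else 0

abbrev L2 (a L : ℝ) (f : ℝ → ℂ) : Prop := MemLp f 2 (volume.restrict (Set.Ioc a (a + L)))

variable {a L T v : ℝ} {f : ℝ → ℂ}

theorem pars (hL : 0 < L) (hf : L2 a L f) :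
    HasSum (fun i => ‖cf a L f i‖ ^ 2) ((∫ x in a..(a + L), ‖f x‖ ^ 2) / L) := by
  have h := hasSum_sq_fourierCoeffOn (lt_add_of_pos_right a hL) hf
  have e : ∀ i, fourierCoeffOn (lt_add_of_pos_right a hL) f i = cf a L f i := fun i => by
    rw [fourierCoeffOn_eq_integral, cf, Complex.real_smul, add_sub_cancel_left, Complex.ofReal_div,
      Complex.ofReal_one, one_div_mul_eq_div]
    refine congrArg (· / (L : ℂ)) (intervalIntegral.integral_congr fun x _ => ?_)
    simp only [fourier_coe_apply, ee, smul_eq_mul]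
    congr 2
    push_cast
    ring
  simpa only [e, add_sub_cancel_left, smul_eq_mul, inv_mul_eq_div] using h

theorem ii (hL : 0 < L) (hf : L2 a L f) (i : ℤ) :
    IntervalIntegrable (fun x => ee (-(2 * Real.pi * i * x / L)) * f x) volume a (a + L) :=
  IntervalIntegrable.continuousOn_mul ((intervalIntegrable_iff_integrableOn_Ioc_of_le
    (lt_add_of_pos_right a hL).le).2 (hf.integrable one_le_two))
    (continuous_ee.comp (by fun_prop)).continuousOn

theorem cf_sum {ι : Type} (hL : 0 < L) (s : Finset ι) (c : ι → ℂ) {g : ι → ℝ → ℂ}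
    (hg : ∀ k, L2 a L (g k)) (i : ℤ) :
    cf a L (fun x => ∑ k ∈ s, c k * g k x) i = ∑ k ∈ s, c k * cf a L (g k) i := by
  simp only [cf, mul_sum, mul_left_comm _ (c _)]
  rw [intervalIntegral.integral_finsetSum fun k _ => (ii hL (hg k) i).const_mul (c k), sum_div]
  exact sum_congr rfl fun k _ => by rw [intervalIntegral.integral_const_mul, mul_div_assoc]

theorem cf_sub {g : ℝ → ℂ} (hL : 0 < L) (hf : L2 a L f) (hg : L2 a L g) (i : ℤ) :
    cf a L (fun x => f x - g x) i = cf a L f i - cf a L g i := by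
  simp only [cf, mul_sub]
  rw [intervalIntegral.integral_sub (ii hL hf i) (ii hL hg i), sub_div]

theorem L2_sum {ι : Type} (s : Finset ι) (c : ι → ℂ) {g : ι → ℝ → ℂ} (hg : ∀ k, L2 a L (g k)) :
    L2 a L fun x => ∑ k ∈ s, c k * g k x :=
  memLp_finsetSum s fun k _ => (hg k).const_mul (c k)

theorem L2_ee (i : ℤ) : L2 a L fun x => ee (2 * Real.pi * i * x / L) :=
  MemLp.of_bound (continuous_ee.comp (by fun_prop)).aestronglyMeasurable 1
    (ae_of_all _ fun x => (norm_ee _).le)

theorem cf_ee (hL : 0 < L) (i j : ℤ) :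
    cf a L (fun x => ee (2 * Real.pi * i * x / L)) j = if i = j then 1 else 0 := by
  have hL' : (L : ℂ) ≠ 0 := Complex.ofReal_ne_zero.2 hL.ne'
  have e : ∀ x : ℝ, ee (-(2 * Real.pi * j * x / L)) * ee (2 * Real.pi * i * x / L) =
      Complex.exp (((i - j : ℤ) * (2 * Real.pi * Complex.I) / L) * x) := fun x => by
    rw [← ee_add, ee]
    congr 1
    push_cast
    ring
  simp only [cf, e]
  split_ifs with h
  · simp [h, hL']
  · have h0 : ((i - j : ℤ) * (2 * Real.pi * Complex.I) / L : ℂ) ≠ 0 :=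
      div_ne_zero (mul_ne_zero (Int.cast_ne_zero.2 (sub_ne_zero.2 h)) Complex.two_pi_I_ne_zero) hL'
    rw [integral_exp_mul_complex h0, Complex.ofReal_add, mul_add, Complex.exp_add,
      div_mul_cancel₀ _ hL', Complex.exp_int_mul_two_pi_mul_I, mul_one, sub_self, zero_div,
      zero_div]

theorem bx_eq (x : ℝ) : bx v T x = (Set.Ioc (v - 1 / T) v).indicator (fun _ => T) x := by
  simp only [bx, Set.indicator_apply, Set.mem_Ioc, sub_lt_iff_lt_add, and_comm]

theorem L2_bx : L2 a L fun x => (bx v T x : ℂ) := by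
  simp only [bx_eq]
  exact (memLp_indicator_const 2 measurableSet_Ioc T (Or.inr (measure_ne_top _ _))).ofReal

theorem sub (hT : 1 ≤ T) (h1 : a + 1 ≤ v) (h2 : v ≤ a + L) :
    Set.Ioc (v - 1 / T) v ⊆ Set.Ioc a (a + L) :=
  Set.Ioc_subset_Ioc (by linarith [(div_le_one (by linarith : 0 < T)).2 hT]) h2

theorem cf_bx (hL : 0 < L) (hT : 1 ≤ T) (h1 : a + 1 ≤ v) (h2 : v ≤ a + L) (i : ℤ) :
    cf a L (fun x => (bx v T x : ℂ)) i = ee (-(2 * Real.pi * i * v / L)) * hat T L i / L := by
  have e : ∀ x, ee (-(2 * Real.pi * i * x / L)) * (bx v T x : ℂ) = (Set.Ioc (v - 1 / T) v).indicator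
      (fun x => (T : ℂ) * ee (-(2 * Real.pi * i * x / L))) x := fun x => by
    rw [bx_eq]
    by_cases hx : x ∈ Set.Ioc (v - 1 / T) v
    · rw [Set.indicator_of_mem hx, Set.indicator_of_mem hx, mul_comm]
    · rw [Set.indicator_of_notMem hx, Set.indicator_of_notMem hx, Complex.ofReal_zero, mul_zero]
  have h3 : v - 1 / T ≤ v := sub_le_self _ (by positivity)
  have h4 := intervalIntegral.integral_comp_sub_left (a := 0) (b := 1 / T)
    (fun x => ee (-(2 * Real.pi * i * x / L))) v
  simp only [cf, e]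
  rw [intervalIntegral.integral_of_le (lt_add_of_pos_right a hL).le,
    setIntegral_indicator measurableSet_Ioc, Set.inter_eq_right.2 (sub hT h1 h2),
    ← intervalIntegral.integral_of_le h3, intervalIntegral.integral_const_mul, hat, mul_left_comm,
    ← intervalIntegral.integral_const_mul (ee _)]
  rw [sub_zero] at h4
  rw [← h4]
  refine congrArg (fun z => (T : ℂ) * z / L) (intervalIntegral.integral_congr fun x _ => ?_)
  simp only [← ee_add]
  congr 1
  ring

theorem bx_int (hL : 0 < L) {v' : ℝ} :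
    IntervalIntegrable (fun x => bx v T x * bx v' T x) volume a (a + L) := by
  have h : ∀ u, MemLp (bx u T) 2 (volume.restrict (Set.Ioc a (a + L))) := fun u => by
    rw [funext bx_eq]
    exact memLp_indicator_const 2 measurableSet_Ioc T (Or.inr (measure_ne_top _ _))
  exact (intervalIntegrable_iff_integrableOn_Ioc_of_le (lt_add_of_pos_right a hL).le).2
    ((h v).integrable_mul (h v'))

theorem bx_pair (hL : 0 < L) (hT : 1 ≤ T) (v' : ℝ) :
    ∫ x in a..(a + L), bx v T x * bx v' T x ≤ T * if |v - v'| < 1 / T then 1 else 0 := by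
  have hT0 : 0 < T := by linarith
  split_ifs with h
  · have h1 : Integrable ((Set.Ioc (v - 1 / T) v).indicator fun _ => T * T) volume :=
      (integrable_indicator_iff measurableSet_Ioc).2 (integrableOn_const (by simp))
    refine (intervalIntegral.integral_mono_on (lt_add_of_pos_right a hL).le (bx_int hL)
      h1.intervalIntegrable fun x _ => ?_).trans ?_
    · rw [bx_eq, ← Set.indicator_mul_left]
      refine Set.indicator_le_indicator (mul_le_mul_of_nonneg_left ?_ hT0.le)
      rw [bx]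
      split_ifs
      exacts [le_rfl, hT0.le]
    · rw [intervalIntegral.integral_of_le (lt_add_of_pos_right a hL).le]
      refine (setIntegral_le_integral h1 (ae_of_all _ fun x =>
        Set.indicator_nonneg (fun _ _ => by positivity) x)).trans (le_of_eq ?_)
      rw [integral_indicator_const _ measurableSet_Ioc, Real.volume_real_Ioc_of_le
        (sub_le_self _ (by positivity)), smul_eq_mul]
      field_simp
      ring
  · have e : ∀ x, bx v T x * bx v' T x = 0 := fun x => by
      rw [bx, bx]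
      split_ifs with h1 h2
      · exact absurd (abs_lt.2 ⟨by linarith [h1.1, h2.2], by linarith [h1.2, h2.1]⟩) h
      all_goals simp
    simp [e]

end Coef

open Coef in
theorem coef : S_COEF := by
  intro Y _ w v a L T hT hL hw hv
  have eH : ∀ x, (Hf w v T x : ℂ) = ∑ σ, (w σ : ℂ) * (bx (v σ) T x : ℂ) := fun x => by
    simp only [Hf, bx, Complex.ofReal_sum, Complex.ofReal_mul]
  have hH : L2 a L fun x => (Hf w v T x : ℂ) := by
    simp only [eH]
    exact L2_sum _ _ fun _ => L2_bx
  have cH : ∀ i, cf a L (fun x => (Hf w v T x : ℂ)) i = Ph w v L i * hat T L i / L := fun i => by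
    simp only [eH]
    rw [cf_sum hL _ _ fun _ => L2_bx, Ph, sum_mul, sum_div]
    exact sum_congr rfl fun σ _ => by
      rw [cf_bx hL hT (hv σ).1 (hv σ).2, mul_assoc (w σ : ℂ), mul_div_assoc (w σ : ℂ)]
  have nrm : ∀ z : ℂ, ‖z / L‖ ^ 2 = ‖z‖ ^ 2 / L ^ 2 := fun z => by
    rw [norm_div, div_pow, Complex.norm_real, Real.norm_eq_abs, sq_abs]
  refine ⟨fun A => ?_, fun r ε h => ?_⟩
  · have h1 := sum_le_hasSum A (fun _ _ => sq_nonneg _) (pars hL hH)
    have h2 : ∫ x in a..(a + L), ‖(Hf w v T x : ℂ)‖ ^ 2 ≤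
        T * ∑ σ, ∑ σ', w σ * w σ' * (if |v σ - v σ'| < 1 / T then 1 else 0) := by
      have e : ∀ x, ‖(Hf w v T x : ℂ)‖ ^ 2 =
          ∑ σ, ∑ σ', w σ * w σ' * (bx (v σ) T x * bx (v σ') T x) := fun x => by
        rw [Complex.norm_real, Real.norm_eq_abs, sq_abs, sq, Hf, sum_mul_sum]
        exact sum_congr rfl fun σ _ => sum_congr rfl fun σ' _ => mul_mul_mul_comm _ _ _ _
      simp only [e, mul_sum]
      rw [intervalIntegral.integral_finsetSum fun σ _ => (IntervalIntegrable.sum univ fun σ' _ =>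
        (bx_int (v := v σ) (v' := v σ') (T := T) hL).const_mul (w σ * w σ')).congr
          fun x _ => by simp]
      refine sum_le_sum fun σ _ => ?_
      rw [intervalIntegral.integral_finsetSum fun σ' _ => (bx_int hL).const_mul _]
      refine sum_le_sum fun σ' _ => ?_
      rw [intervalIntegral.integral_const_mul, mul_left_comm]
      exact mul_le_mul_of_nonneg_left (bx_pair hL hT _) (mul_nonneg (hw σ) (hw σ'))
    simp only [cH, nrm, ← sum_div] at h1
    rw [div_le_div_iff₀ (by positivity) hL, sq L, ← mul_assoc] at h1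
    refine (le_of_mul_le_mul_right h1 hL).trans ?_
    rw [mul_comm, mul_assoc]
    exact mul_le_mul_of_nonneg_left h2 hL.le
  · have hP := L2_sum (a := a) (L := L) (Ioo (-(r : ℤ)) r)
      (fun i => Ph w v L i * hat T L i / L) L2_ee
    have hg : L2 a L fun x => (Hf w v T x : ℂ) - ∑ i ∈ Ioo (-(r : ℤ)) r,
      Ph w v L i * hat T L i / L * ee (2 * Real.pi * i * x / L) := hH.sub hP
    refine ⟨(intervalIntegrable_iff_integrableOn_Ioc_of_le (lt_add_of_pos_right a hL).le).2
      ((memLp_two_iff_integrable_sq_norm hg.1).1 hg), ?_⟩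
    have h1 := hasSum_le_of_sum_le (pars hL hg) (c := ε / L ^ 2) fun s => by
      refine le_trans (le_of_eq ?_) (div_le_div_of_nonneg_right
        (h (s.filter fun i => (r : ℤ) ≤ |i|) fun i hi => (mem_filter.1 hi).2) (sq_nonneg L))
      rw [sum_div, sum_filter]
      refine sum_congr rfl fun j _ => ?_
      rw [cf_sub hL hH hP, cH, cf_sum hL _ _ L2_ee]
      simp only [cf_ee hL, mul_ite, mul_one, mul_zero, sum_ite_eq', mem_Ioo, ← abs_lt]
      by_cases hj : (r : ℤ) ≤ |j|
      · rw [if_pos hj, if_neg (not_lt.2 hj), sub_zero, nrm]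
      · rw [if_neg hj, if_pos (not_le.1 hj)]
        simp
    rwa [sq L, ← div_div, div_le_div_iff_of_pos_right hL] at h1

end Pool.Agent.P.MP_b60056_nt.AA
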