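import Pool.Agent.P.MP_b60056_nt.AA.Api

namespace Pool.Agent.P.MP_b60056_nt.AA

open Finset MeasureTheory

namespace Collide

theorem dsum {Y : Type} [Fintype Y] (f : Y → ℕ) (W : Y → ℝ) (M : ℝ)
    (hM : ∀ n, ((univ.filter fun σ => f σ = n).card : ℝ) ≤ M) :
    ∑ σ, ∑ σ', W σ * W σ' * (if f σ' = f σ then 1 else 0) ≤ M * ∑ σ, W σ ^ 2 := by
  have h1 : ∑ σ, ∑ σ', W σ ^ 2 * (if f σ' = f σ then (1 : ℝ) else 0) ≤ M * ∑ σ, W σ ^ 2 := by
    rw [Finset.mul_sum]
    refine Finset.sum_le_sum fun σ _ => ?_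
    rw [← Finset.mul_sum, Finset.sum_boole, mul_comm]
    exact mul_le_mul_of_nonneg_right (hM _) (sq_nonneg _)
  have h2 : ∑ σ, ∑ σ', W σ' ^ 2 * (if f σ' = f σ then (1 : ℝ) else 0) ≤ M * ∑ σ, W σ ^ 2 := by
    rw [Finset.sum_comm]
    simpa only [eq_comm] using h1
  have h3 : 2 * ∑ σ, ∑ σ', W σ * W σ' * (if f σ' = f σ then (1 : ℝ) else 0) ≤
      ∑ σ, ∑ σ', W σ ^ 2 * (if f σ' = f σ then (1 : ℝ) else 0) +
      ∑ σ, ∑ σ', W σ' ^ 2 * (if f σ' = f σ then (1 : ℝ) else 0) := by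
    rw [← Finset.sum_add_distrib, Finset.mul_sum]
    refine Finset.sum_le_sum fun σ _ => ?_
    rw [← Finset.sum_add_distrib, Finset.mul_sum]
    refine Finset.sum_le_sum fun σ' _ => ?_
    split_ifs
    · nlinarith [sq_nonneg (W σ - W σ')]
    · simp
  linarith

theorem log_gap {n n' T : ℕ} (h0 : 0 < n) (h : n < n') (hT : n' ≤ T) :
    1 / (T : ℝ) ≤ Real.log n' - Real.log n := by
  have a0 : (0 : ℝ) < n := by exact_mod_cast h0
  have a1 : (n : ℝ) + 1 ≤ n' := by exact_mod_cast h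
  have a2 : (n' : ℝ) ≤ T := by exact_mod_cast hT
  have a3 : (0 : ℝ) < n' := by linarith
  have a4 := Real.log_le_sub_one_of_pos (div_pos a0 a3)
  rw [Real.log_div a0.ne' a3.ne'] at a4
  have a5 : 1 / (T : ℝ) ≤ 1 / n' := one_div_le_one_div_of_le a3 a2
  have a6 : (n : ℝ) / n' ≤ 1 - 1 / n' := by
    rw [le_sub_iff_add_le, ← add_div, div_le_one a3]
    exact a1
  linarith

theorem eq_of_close {n n' T : ℕ} (h0 : 0 < n) (h0' : 0 < n') (hT : n ≤ T) (hT' : n' ≤ T)
    (h : |Real.log n - Real.log n'| < 1 / (T : ℝ)) : n' = n := by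
  obtain ⟨h1, h2⟩ := abs_lt.1 h
  rcases lt_trichotomy n n' with e | e | e
  · linarith [log_gap h0 e hT']
  · exact e.symm
  · linarith [log_gap h0' e hT]

variable {w z k' : ℕ}

/-- The list of factors. -/
def emb (σ : Fin k' → St w z) : Fin k' ⊕ Fin k' → ℕ :=
  Sum.elim (fun j => ((σ j).1 : ℕ)) fun j => ((σ j).2 : ℕ)

theorem emb_inj : Function.Injective (emb : (Fin k' → St w z) → _) := fun σ σ' e =>
  funext fun j => Prod.ext (Subtype.ext (congrFun e (Sum.inl j)))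
    (Subtype.ext (congrFun e (Sum.inr j)))

theorem mem_Sa {y R a : ℕ} (h : a ∈ Sa y R) : y < a ∧ a ≤ 2 * y ∧ Om a ≤ R := by
  obtain ⟨h1, h2⟩ := Finset.mem_filter.1 h
  exact ⟨(Finset.mem_Ioc.1 h1).1, (Finset.mem_Ioc.1 h1).2, h2⟩

theorem emb_ok (σ : Fin k' → St w z) (i : Fin k' ⊕ Fin k') :
    0 < emb σ i ∧ Om (emb σ i) ≤ 13 * w := by
  rcases i with j | j
  · exact ⟨Nat.zero_lt_of_lt (mem_Sa (σ j).1.2).1, (mem_Sa (σ j).1.2).2.2⟩
  · exact ⟨Nat.zero_lt_of_lt (mem_Sa (σ j).2.2).1, (mem_Sa (σ j).2.2).2.2⟩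

/-- The product of all factors. -/
def nn (σ : Fin k' → St w z) : ℕ := ∏ i, emb σ i

theorem nn_eq (σ : Fin k' → St w z) : nn σ = ∏ j, ((σ j).1 : ℕ) * ((σ j).2 : ℕ) := by
  rw [nn, Fintype.prod_sum_type, Finset.prod_mul_distrib]
  rfl

theorem nn_pos (σ : Fin k' → St w z) : 0 < nn σ := Finset.prod_pos fun i _ => (emb_ok σ i).1

theorem nn_le (σ : Fin k' → St w z) : nn σ ≤ (4 * z ^ 2002) ^ k' := by
  rw [nn_eq]
  refine (Finset.prod_le_pow_card _ _ (4 * z ^ 2002) fun j _ => ?_).trans (by simp)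
  calc ((σ j).1 : ℕ) * ((σ j).2 : ℕ) ≤ (2 * z ^ 2001) * (2 * z) :=
        Nat.mul_le_mul (mem_Sa (σ j).1.2).2.1 (mem_Sa (σ j).2.2).2.1
    _ = 4 * z ^ 2002 := by rw [show 2002 = 2001 + 1 from rfl, pow_succ z 2001]; ring_nf

theorem le_nn (σ : Fin k' → St w z) : (z ^ 2002) ^ k' ≤ nn σ := by
  rw [nn_eq]
  refine le_trans (by simp) (Finset.pow_card_le_prod _ _ (z ^ 2002) fun j _ => ?_)
  rw [show 2002 = 2001 + 1 from rfl, pow_succ z 2001]
  exact Nat.mul_le_mul (mem_Sa (σ j).1.2).1.le (mem_Sa (σ j).2.2).1.le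

theorem log_nn (σ : Fin k' → St w z) : Real.log (nn σ) = ∑ j, pos (σ j) := by
  rw [nn, Nat.cast_prod, Real.log_prod (fun i _ => by exact_mod_cast (emb_ok σ i).1.ne'),
    Fintype.sum_sum_type, ← Finset.sum_add_distrib]
  rfl

theorem fiber (h2 : S_REP) (n : ℕ) : (univ.filter fun σ : Fin k' → St w z => nn σ = n).card ≤
    (k' + k') ^ ((k' + k') * (13 * w)) := by
  have h := h2 (Fin k' ⊕ Fin k') (univ.image (emb : (Fin k' → St w z) → _)) (13 * w) n
    (fun f hf i => by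
      obtain ⟨σ, -, rfl⟩ := Finset.mem_image.1 hf
      exact emb_ok σ i)
  rw [Fintype.card_sum, Fintype.card_fin] at h
  refine le_trans (Finset.card_le_card_of_injOn emb (fun σ hσ => ?_) emb_inj.injOn) h
  exact Finset.mem_coe.2 (Finset.mem_filter.2 ⟨Finset.mem_image_of_mem _ (mem_univ _),
    (Finset.mem_filter.1 (Finset.mem_coe.1 hσ)).2⟩)

theorem card_ge (a : z ^ 2001 ≤ 2 * (Sa (z ^ 2001) (13 * w)).card)
    (b : z ≤ 2 * (Sa z (13 * w)).card) :
    (4 * z ^ 2002) ^ k' ≤ 16 ^ k' * Fintype.card (Fin k' → St w z) := by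
  rw [Fintype.card_fun, Fintype.card_fin, Fintype.card_prod, Fintype.card_coe, Fintype.card_coe,
    ← mul_pow, show 2002 = 2001 + 1 from rfl, pow_succ z 2001]
  refine Nat.pow_le_pow_left ?_ _
  have := Nat.mul_le_mul a b
  generalize z ^ 2001 = y at *
  nlinarith

theorem ph_eq (k : ℕ) (ω : (Fin k' → St w z) → ℝ) (i : ℤ) :
    Ph (fun σ => ω σ / Fintype.card (Fin k' → St w z)) (fun σ => Real.log (nn σ)) (2 * k : ℕ) i =
      (starRingEnd ℂ) (Ft ω (chi w k z i)) := by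
  rw [Ft, conj_avc, avc, Finset.sum_div, Ph]
  refine Finset.sum_congr rfl fun σ _ => ?_
  simp only [chi]
  rw [← ee_sum, ← Finset.mul_sum, ← log_nn, map_mul, conj_ee, Complex.conj_ofReal,
    Complex.ofReal_div, Complex.ofReal_natCast, div_mul_eq_mul_div, div_mul_eq_mul_div]

theorem num {k : ℕ} (h : Par w k z) (e : k' + 1 = k) :
    ((2 * k : ℕ) : ℝ) * 16 ^ k' * ((k' + k') ^ ((k' + k') * (13 * w)) : ℕ) * Real.exp (k * w) ≤
      Real.exp (20 * k * (w : ℝ) ^ 2) := by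
  have hw := h.wR
  have hk := h.k_pos
  have e' : (k' : ℝ) + 1 = k := by exact_mod_cast e
  have a1 : ((2 * k : ℕ) : ℝ) ≤ Real.exp (k * w) := by
    have := Real.add_one_le_exp ((k : ℝ) * w)
    push_cast
    nlinarith
  have a2 : (16 : ℝ) ^ k' ≤ Real.exp (k * w) := by
    have := Real.add_one_le_exp (w : ℝ)
    calc (16 : ℝ) ^ k' ≤ Real.exp w ^ k' := pow_le_pow_left₀ (by norm_num) (by linarith) _
      _ = Real.exp (k' * w) := (Real.exp_nat_mul _ _).symm
      _ ≤ _ := Real.exp_le_exp.2 (by nlinarith)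
  have a3 : ((k' + k' : ℕ) : ℝ) ≤ Real.exp (0.7 * w) := by
    have b1 := h.log_k_le
    have b2 := Real.log_two_lt_d9
    have b3 : Real.log (2 * k) ≤ 0.7 * w := by
      rw [Real.log_mul (by norm_num) hk.ne']
      linarith
    have b4 := Real.exp_le_exp.2 b3
    rw [Real.exp_log (by linarith)] at b4
    push_cast
    linarith
  have a4 : (((k' + k') ^ ((k' + k') * (13 * w)) : ℕ) : ℝ) ≤ Real.exp (18.2 * k * (w : ℝ) ^ 2) := by
    rw [Nat.cast_pow]
    refine (pow_le_pow_left₀ (Nat.cast_nonneg _) a3 _).trans ?_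
    rw [← Real.exp_nat_mul]
    refine Real.exp_le_exp.2 ?_
    push_cast
    nlinarith [sq_nonneg (w : ℝ)]
  calc _ ≤ Real.exp (k * w) * Real.exp (k * w) * Real.exp (18.2 * k * (w : ℝ) ^ 2) *
        Real.exp (k * w) := by gcongr
    _ ≤ _ := by
      rw [← Real.exp_add, ← Real.exp_add, ← Real.exp_add]
      refine Real.exp_le_exp.2 ?_
      have : 0 ≤ (k : ℝ) * w * (w - 2) := mul_nonneg (by positivity) (by linarith)
      nlinarith

end Collide

open Collide in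
theorem collide (h1 : S_COEF) (h2 : S_REP) (h3 : S_F1) : S_COLLIDE := by
  intro w k z k' ω A h e h0 hω
  have hT : Tn k z = (4 * z ^ 2002) ^ k' := by rw [Tn, ← e, Nat.add_sub_cancel]
  have hz := h.z_pos
  have hz' : 0 < z := by exact_mod_cast hz
  have hT1 : (1 : ℝ) ≤ Tn k z := by exact_mod_cast h.z_le_Tn.trans' hz'
  have e' : (k' : ℝ) + 1 = k := by exact_mod_cast e
  have hL : (0 : ℝ) < (2 * k : ℕ) := by have := h.k_pos; push_cast; linarith
  have hc : (Tn k z : ℝ) ≤ 16 ^ k' * Fintype.card (Fin k' → St w z) := by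
    rw [hT]
    exact_mod_cast card_ge (h3 w k z h).1 (h3 w k z h).2.1
  have hN : (0 : ℝ) < Fintype.card (Fin k' → St w z) := by
    by_contra hn
    have : (16 : ℝ) ^ k' * Fintype.card (Fin k' → St w z) ≤ 0 :=
      mul_nonpos_of_nonneg_of_nonpos (by positivity) (not_lt.1 hn)
    linarith
  have h4 := (h1 (Fin k' → St w z) (fun σ => ω σ / Fintype.card (Fin k' → St w z))
    (fun σ => Real.log (nn σ)) (k' * (2002 * Real.log z) - 1) (2 * k : ℕ) (Tn k z) hT1 hL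
    (fun σ => div_nonneg (h0 σ) hN.le) (fun σ => by
      have b0 : (0 : ℝ) < nn σ := by exact_mod_cast nn_pos σ
      have b1 : ((z : ℝ) ^ 2002) ^ k' ≤ nn σ := by exact_mod_cast le_nn σ
      have b2 : (nn σ : ℝ) ≤ (4 * (z : ℝ) ^ 2002) ^ k' := by exact_mod_cast nn_le σ
      have b3 := Real.log_le_log (by positivity) b1
      have b4 := Real.log_le_log b0 b2
      rw [Real.log_pow, Real.log_pow] at b3
      rw [Real.log_pow, Real.log_mul (by norm_num) (by positivity), Real.log_pow,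
        show (4 : ℝ) = 2 ^ 2 by norm_num, Real.log_pow] at b4
      have b5 := Real.log_two_lt_d9
      have b6 : (0 : ℝ) ≤ k' := Nat.cast_nonneg _
      push_cast at b3 b4 ⊢
      constructor
      · linarith
      · nlinarith)).1 A
  have h5 : ∑ i ∈ A, ‖Ft ω (chi w k z i) * hat (Tn k z) (2 * k : ℕ) i‖ ^ 2 =
      ∑ i ∈ A, ‖Ph (fun σ => ω σ / Fintype.card (Fin k' → St w z)) (fun σ => Real.log (nn σ))
        (2 * k : ℕ) i * hat (Tn k z) (2 * k : ℕ) i‖ ^ 2 :=
    Finset.sum_congr rfl fun i _ => by rw [ph_eq, norm_mul, norm_mul, Complex.norm_conj]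
  have h6 := dsum (nn : (Fin k' → St w z) → ℕ) (fun σ => ω σ / Fintype.card (Fin k' → St w z))
    ((k' + k') ^ ((k' + k') * (13 * w)) : ℕ) fun n => by exact_mod_cast fiber h2 n
  have h7 : ∑ σ, (ω σ / Fintype.card (Fin k' → St w z)) ^ 2 =
      av (fun σ => ω σ ^ 2) / Fintype.card (Fin k' → St w z) := by
    rw [av, div_div, Finset.sum_div]
    exact Finset.sum_congr rfl fun σ _ => by rw [div_pow, sq (Fintype.card _ : ℝ)]
  rw [h7] at h6
  rw [h5]
  refine h4.trans (le_trans ?_ (num h e))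
  have h8 : ∑ σ, ∑ σ', ω σ / Fintype.card (Fin k' → St w z) *
      (ω σ' / Fintype.card (Fin k' → St w z)) *
      (if |Real.log (nn σ) - Real.log (nn σ')| < 1 / (Tn k z : ℝ) then 1 else 0) ≤
      ((k' + k') ^ ((k' + k') * (13 * w)) : ℕ) *
        (Real.exp (k * w) / Fintype.card (Fin k' → St w z)) := by
    refine le_trans (Finset.sum_le_sum fun σ _ => Finset.sum_le_sum fun σ' _ => ?_)
      (h6.trans (by gcongr))
    refine mul_le_mul_of_nonneg_left ?_
      (mul_nonneg (div_nonneg (h0 σ) hN.le) (div_nonneg (h0 σ') hN.le))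
    split_ifs with c1 c2
    · exact le_rfl
    · exact absurd (eq_of_close (nn_pos σ) (nn_pos σ') (hT ▸ nn_le σ) (hT ▸ nn_le σ') c1) c2
    · exact zero_le_one
    · exact le_rfl
  calc _ ≤ ((2 * k : ℕ) : ℝ) * (16 ^ k' * Fintype.card (Fin k' → St w z)) *
        (((k' + k') ^ ((k' + k') * (13 * w)) : ℕ) *
          (Real.exp (k * w) / Fintype.card (Fin k' → St w z))) :=
        mul_le_mul (mul_le_mul_of_nonneg_left hc hL.le) h8
          (Finset.sum_nonneg fun σ _ => Finset.sum_nonneg fun σ' _ => mul_nonneg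
            (mul_nonneg (div_nonneg (h0 σ) hN.le) (div_nonneg (h0 σ') hN.le))
            (by split_ifs <;> norm_num)) (by positivity)
    _ = _ := by field_simp

end Pool.Agent.P.MP_b60056_nt.AA
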