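import Pool.Agent.P.MP_b60056_nt.AA.Api

namespace Pool.Agent.P.MP_b60056_nt.AA

open Finset MeasureTheory

namespace Count

theorem prod_mem {y j R : ℕ} (hj : 1 ≤ j) {f : Fin j → ℕ}
    (hf : f ∈ Fintype.piFinset (fun _ : Fin j => Sa y R)) :
    ∏ i, f i ∈ Ioc (y ^ j) ((2 * y) ^ j) := by
  rw [Fintype.mem_piFinset] at hf
  have h : ∀ i, y < f i ∧ f i ≤ 2 * y := fun i => by
    have := hf i
    unfold Sa at this
    rw [mem_filter, mem_Ioc] at this
    exact this.1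
  rw [mem_Ioc]
  constructor
  · have h1 : ∏ _i : Fin j, (y + 1) ≤ ∏ i, f i :=
      Finset.prod_le_prod' fun i _ => (h i).1
    rw [Finset.prod_const, card_univ, Fintype.card_fin] at h1
    exact lt_of_lt_of_le (Nat.pow_lt_pow_left (Nat.lt_succ_self y) (by omega)) h1
  · have h1 : ∏ i, f i ≤ ∏ _i : Fin j, (2 * y) :=
      Finset.prod_le_prod' fun i _ => (h i).2
    rwa [Finset.prod_const, card_univ, Fintype.card_fin] at h1

theorem rep (h3 : S_REP) (y j R : ℕ) (hy : 1 ≤ y) (hj : 1 ≤ j) (hc : y ≤ 2 * (Sa y R).card) :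
    ∃ b : ℕ → ℝ, (∀ t : ℝ, Aa (Sa y R) t ^ j =
        ∑ n ∈ Ioc (y ^ j) ((2 * y) ^ j), (b n : ℂ) * ee (t * Real.log n)) ∧
      ((Ioc (y ^ j) ((2 * y) ^ j)).card : ℝ) * ∑ n ∈ Ioc (y ^ j) ((2 * y) ^ j), b n ^ 2 ≤
        4 ^ j * (j : ℝ) ^ (j * R) := by
  classical
  set A := Sa y R with hA
  set P := Fintype.piFinset (fun _ : Fin j => A) with hP
  have hcpos : 0 < A.card := by omega
  have hcR : (0 : ℝ) < A.card := by exact_mod_cast hcpos
  have hpos : ∀ f ∈ P, ∀ i, 0 < f i ∧ Om (f i) ≤ R := by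
    intro f hf i
    rw [hP, Fintype.mem_piFinset] at hf
    have := hf i
    rw [hA] at this
    unfold Sa at this
    rw [mem_filter, mem_Ioc] at this
    exact ⟨by omega, this.2⟩
  have hmaps : ∀ f ∈ P, ∏ i, f i ∈ Ioc (y ^ j) ((2 * y) ^ j) := fun f hf => prod_mem hj hf
  have hcardP : P.card = A.card ^ j := by
    rw [hP, Fintype.card_piFinset]; simp
  refine ⟨fun n => ((P.filter (fun f => ∏ i, f i = n)).card : ℝ) / (A.card : ℝ) ^ j, ?_, ?_⟩
  · intro t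
    unfold Aa
    rw [div_pow]
    have e1 : (∑ a ∈ A, ee (t * Real.log a)) ^ j =
        ∑ f ∈ P, ee (t * Real.log ((∏ i, f i : ℕ) : ℝ)) := by
      have e0 : (∑ a ∈ A, ee (t * Real.log a)) ^ j =
          ∏ _i : Fin j, ∑ a ∈ A, ee (t * Real.log a) := by simp
      rw [e0, Finset.prod_univ_sum]
      refine Finset.sum_congr rfl fun f hf => ?_
      rw [← ee_sum, ← Finset.mul_sum, Nat.cast_prod, Real.log_prod]
      intro i _
      exact_mod_cast (hpos f hf i).1.ne'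
    rw [e1, ← Finset.sum_fiberwise_of_maps_to hmaps, Finset.sum_div]
    refine Finset.sum_congr rfl fun n _ => ?_
    have e2 : ∑ f ∈ P with ∏ i, f i = n, ee (t * Real.log ((∏ i, f i : ℕ) : ℝ)) =
        ∑ _f ∈ P with ∏ i, _f i = n, ee (t * Real.log n) := by
      refine Finset.sum_congr rfl fun f hf => ?_
      rw [(mem_filter.1 hf).2]
    rw [e2, Finset.sum_const, nsmul_eq_mul]
    push_cast
    ring
  · have hsum : ∑ n ∈ Ioc (y ^ j) ((2 * y) ^ j),
        ((P.filter (fun f => ∏ i, f i = n)).card : ℝ) = (A.card : ℝ) ^ j := by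
      have := Finset.card_eq_sum_card_fiberwise (f := fun f : Fin j → ℕ => ∏ i, f i)
        (s := P) (t := Ioc (y ^ j) ((2 * y) ^ j)) (fun f hf => hmaps f hf)
      rw [hcardP] at this
      exact_mod_cast this.symm
    have hle : ∀ n, ((P.filter (fun f => ∏ i, f i = n)).card : ℝ) ≤ (j : ℝ) ^ (j * R) := by
      intro n
      have := h3 (Fin j) P R n hpos
      rw [Fintype.card_fin] at this
      exact_mod_cast this
    have hsq : ∑ n ∈ Ioc (y ^ j) ((2 * y) ^ j),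
        (((P.filter (fun f => ∏ i, f i = n)).card : ℝ) / (A.card : ℝ) ^ j) ^ 2 ≤
        (j : ℝ) ^ (j * R) / (A.card : ℝ) ^ j := by
      calc _ ≤ ∑ n ∈ Ioc (y ^ j) ((2 * y) ^ j), ((P.filter (fun f => ∏ i, f i = n)).card : ℝ) *
            ((j : ℝ) ^ (j * R) / ((A.card : ℝ) ^ j) ^ 2) := by
            refine Finset.sum_le_sum fun n _ => ?_
            rw [div_pow, ← mul_div_assoc, sq]
            exact div_le_div_of_nonneg_right
              (mul_le_mul_of_nonneg_left (hle n) (Nat.cast_nonneg _)) (by positivity)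
        _ = (j : ℝ) ^ (j * R) / (A.card : ℝ) ^ j := by
            rw [← Finset.sum_mul, hsum]
            field_simp
    have hD : ((Ioc (y ^ j) ((2 * y) ^ j)).card : ℝ) ≤ 4 ^ j * (A.card : ℝ) ^ j := by
      have h1 : (Ioc (y ^ j) ((2 * y) ^ j)).card ≤ (4 * A.card) ^ j := by
        rw [Nat.card_Ioc]
        exact le_trans (Nat.sub_le _ _) (Nat.pow_le_pow_left (by omega) _)
      rw [← mul_pow]
      exact_mod_cast h1
    calc _ ≤ (4 ^ j * (A.card : ℝ) ^ j) * ((j : ℝ) ^ (j * R) / (A.card : ℝ) ^ j) :=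
          mul_le_mul hD hsq (Finset.sum_nonneg fun _ _ => sq_nonneg _) (by positivity)
      _ = 4 ^ j * (j : ℝ) ^ (j * R) := by field_simp

theorem two_le {y j : ℕ} (hj : 1 ≤ j) : 2 * y ^ j ≤ (2 * y) ^ j := by
  rw [mul_pow]
  refine Nat.mul_le_mul_right _ ?_
  calc 2 = 2 ^ 1 := by norm_num
    _ ≤ 2 ^ j := Nat.pow_le_pow_right (by norm_num) hj

theorem card_eq {y j : ℕ} (hj : 1 ≤ j) :
    ((Ioc (y ^ j) ((2 * y) ^ j)).card : ℝ) = (((2 * y) ^ j : ℕ) : ℝ) - ((y ^ j : ℕ) : ℝ) := by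
  have := two_le (y := y) hj
  rw [Nat.card_Ioc, Nat.cast_sub (by omega)]

theorem card_pos' {y j : ℕ} (hy : 1 ≤ y) (hj : 1 ≤ j) :
    (0 : ℝ) < (Ioc (y ^ j) ((2 * y) ^ j)).card := by
  have h1 := two_le (y := y) hj
  have h2 : 1 ≤ y ^ j := Nat.one_le_pow _ _ hy
  have : 0 < (Ioc (y ^ j) ((2 * y) ^ j)).card := by rw [Nat.card_Ioc]; omega
  exact_mod_cast this

theorem norm_sum_le_card (I : Finset ℕ) (τ : ℝ) :
    ‖∑ n ∈ I, ee (τ * Real.log n)‖ ≤ I.card := by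
  refine (norm_sum_le _ _).trans ?_
  simp [norm_ee]

theorem harm (T : Finset ℤ) (N2 : ℕ) (hT : ∀ i ∈ T, |i| ≤ N2) {i : ℤ} (hi : i ∈ T) :
    ∑ i' ∈ T.erase i, |((i : ℝ) - i')|⁻¹ ≤ 2 * (1 + Real.log (2 * N2 + 1)) := by
  classical
  have hsub : T.erase i ⊆ (range (2 * N2 + 1)).image (fun d : ℕ => i + (d + 1)) ∪
      (range (2 * N2 + 1)).image (fun d : ℕ => i - (d + 1)) := by
    intro i' hi'
    rw [mem_erase] at hi'
    have h1 := abs_le.1 (hT i hi)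
    have h2 := abs_le.1 (hT i' hi'.2)
    rw [mem_union, mem_image, mem_image]
    rcases lt_or_gt_of_ne hi'.1 with h | h
    · right
      exact ⟨(i - i' - 1).toNat, by rw [mem_range]; omega, by omega⟩
    · left
      exact ⟨(i' - i - 1).toNat, by rw [mem_range]; omega, by omega⟩
  have hH : ∑ d ∈ range (2 * N2 + 1), ((d : ℝ) + 1)⁻¹ ≤ 1 + Real.log (2 * N2 + 1) := by
    have h := harmonic_le_one_add_log (2 * N2 + 1)
    unfold harmonic at h
    push_cast at h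
    exact h
  have hA : ∑ i' ∈ (range (2 * N2 + 1)).image (fun d : ℕ => i + (d + 1)), |((i : ℝ) - i')|⁻¹ ≤
      ∑ d ∈ range (2 * N2 + 1), ((d : ℝ) + 1)⁻¹ := by
    refine (Finset.sum_image_le_of_nonneg fun _ _ => by positivity).trans (le_of_eq ?_)
    refine Finset.sum_congr rfl fun d _ => ?_
    push_cast
    rw [show (i : ℝ) - (i + (d + 1)) = -((d : ℝ) + 1) by ring, abs_neg,
      abs_of_nonneg (by positivity)]
  have hB : ∑ i' ∈ (range (2 * N2 + 1)).image (fun d : ℕ => i - (d + 1)), |((i : ℝ) - i')|⁻¹ ≤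
      ∑ d ∈ range (2 * N2 + 1), ((d : ℝ) + 1)⁻¹ := by
    refine (Finset.sum_image_le_of_nonneg fun _ _ => by positivity).trans (le_of_eq ?_)
    refine Finset.sum_congr rfl fun d _ => ?_
    push_cast
    rw [show (i : ℝ) - (i - (d + 1)) = ((d : ℝ) + 1) by ring, abs_of_nonneg (by positivity)]
  have hU := Finset.sum_union_inter (s₁ := (range (2 * N2 + 1)).image (fun d : ℕ => i + (d + 1)))
    (s₂ := (range (2 * N2 + 1)).image (fun d : ℕ => i - (d + 1)))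
    (f := fun i' : ℤ => |((i : ℝ) - i')|⁻¹)
  have hI : 0 ≤ ∑ i' ∈ (range (2 * N2 + 1)).image (fun d : ℕ => i + (d + 1)) ∩
      (range (2 * N2 + 1)).image (fun d : ℕ => i - (d + 1)), |((i : ℝ) - i')|⁻¹ :=
    Finset.sum_nonneg fun _ _ => by positivity
  have hS := Finset.sum_le_sum_of_subset_of_nonneg (f := fun i' : ℤ => |((i : ℝ) - i')|⁻¹) hsub
    (fun _ _ _ => by positivity)
  linarith

theorem offdiag (h2 : S_EM) (z j : ℕ) (dec τ U : ℝ) (hz : 2 ^ 1000 ≤ z) (hj : 1 ≤ j)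
    (hV : ∀ τ : ℝ, (2 * (z : ℝ)) ^ (1000 * j) ≤ |τ| → |τ| ≤ U →
      ‖∑ n ∈ Ioc (z ^ j) ((2 * z) ^ j), ee (τ * Real.log n)‖ ≤
        ((2 * (z : ℝ)) ^ j - (z : ℝ) ^ j) * dec)
    (hdec : ((z : ℝ) ^ (1000 * j))⁻¹ ≤ dec) (hτ : τ ≠ 0) (hU : |τ| ≤ U) :
    ‖∑ n ∈ Ioc ((z ^ 2001) ^ j) ((2 * z ^ 2001) ^ j), ee (τ * Real.log n)‖ *
      ‖∑ n ∈ Ioc (z ^ j) ((2 * z) ^ j), ee (τ * Real.log n)‖ ≤
      ((Ioc ((z ^ 2001) ^ j) ((2 * z ^ 2001) ^ j)).card * (Ioc (z ^ j) ((2 * z) ^ j)).card) *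
        (3 / |τ| + dec) := by
  have hz1 : 1 ≤ z := le_trans Nat.one_le_two_pow hz
  have hzR : (0 : ℝ) < z := by exact_mod_cast hz1
  have hy1 : 1 ≤ z ^ 2001 := Nat.one_le_pow _ _ hz1
  have hd0 : 0 ≤ dec := le_trans (by positivity) hdec
  have hD1 := card_pos' hy1 hj
  have hD2 := card_pos' hz1 hj
  have ht : 0 ≤ 3 / |τ| := by positivity
  rcases le_total ((2 * (z : ℝ)) ^ (1000 * j)) |τ| with h | h
  · have h4 := hV τ h hU
    have h5 := card_eq (y := z) hj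
    push_cast at h5
    rw [← h5] at h4
    calc _ ≤ ((Ioc ((z ^ 2001) ^ j) ((2 * z ^ 2001) ^ j)).card : ℝ) *
          ((Ioc (z ^ j) ((2 * z) ^ j)).card * dec) :=
          mul_le_mul (norm_sum_le_card _ _) h4 (norm_nonneg _) hD1.le
      _ ≤ _ := by
          rw [mul_assoc]
          exact mul_le_mul_of_nonneg_left
            (mul_le_mul_of_nonneg_left (by linarith) hD2.le) hD1.le
  · have h4 := h2.2 ((z ^ 2001) ^ j) ((2 * z ^ 2001) ^ j) τ (Nat.one_le_pow _ _ hy1)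
      (two_le hj) hτ
    rw [← card_eq hj] at h4
    have h6 : |τ| / (((z ^ 2001) ^ j : ℕ) : ℝ) ≤ dec := by
      refine le_trans ?_ hdec
      have h7 : (2 * (z : ℝ)) ^ (1000 * j) ≤ (z : ℝ) ^ (1001 * j) := by
        rw [pow_mul, pow_mul]
        refine pow_le_pow_left₀ (by positivity) ?_ _
        have h8 : ((2 : ℝ)) ^ 1000 ≤ z := by exact_mod_cast hz
        rw [mul_pow, show (z : ℝ) ^ 1001 = z * z ^ 1000 from pow_succ' _ _]
        exact mul_le_mul_of_nonneg_right h8 (by positivity)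
      have h9 : (((z ^ 2001) ^ j : ℕ) : ℝ) = (z : ℝ) ^ (1001 * j) * (z : ℝ) ^ (1000 * j) := by
        rw [← pow_add, ← pow_mul, Nat.cast_pow]
        congr 1
        ring
      rw [h9, div_le_iff₀ (by positivity), mul_comm, mul_assoc,
        mul_inv_cancel₀ (by positivity), mul_one]
      exact h.trans h7
    calc _ ≤ (((Ioc ((z ^ 2001) ^ j) ((2 * z ^ 2001) ^ j)).card : ℝ) * (3 / |τ| + dec)) *
          (Ioc (z ^ j) ((2 * z) ^ j)).card := by
          refine mul_le_mul (h4.trans ?_) (norm_sum_le_card _ _) (norm_nonneg _)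
            (mul_nonneg hD1.le (add_nonneg ht hd0))
          exact mul_le_mul_of_nonneg_left (by linarith) hD1.le
      _ = _ := by ring

theorem hal2 (h1 : S_HAL) (I1 I2 : Finset ℕ) (b1 b2 : ℕ → ℝ) (T : Finset ℤ) (t : ℤ → ℝ)
    (C1 C2 B : ℝ) (hI1 : (0 : ℝ) < I1.card) (hI2 : (0 : ℝ) < I2.card)
    (hb1 : (I1.card : ℝ) * ∑ n ∈ I1, b1 n ^ 2 ≤ C1) (hb2 : (I2.card : ℝ) * ∑ n ∈ I2, b2 n ^ 2 ≤ C2)
    (hB : 0 ≤ B)
    (hG : ∀ i ∈ T, ∑ i' ∈ T, ‖∑ n ∈ I1, ee ((t i - t i') * Real.log n)‖ *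
      ‖∑ n ∈ I2, ee ((t i - t i') * Real.log n)‖ ≤ (I1.card * I2.card) * B) :
    ∑ i ∈ T, ‖(∑ n ∈ I1, (b1 n : ℂ) * ee (t i * Real.log n)) *
      ∑ n ∈ I2, (b2 n : ℂ) * ee (t i * Real.log n)‖ ^ 2 ≤ C1 * C2 * B := by
  have hD : (0 : ℝ) < I1.card * I2.card := mul_pos hI1 hI2
  have h := h1 ({n // n ∈ I1} × {n // n ∈ I2}) {i // i ∈ T}
    (fun x => b1 x.1 * b2 x.2) (fun _ => ((I1.card : ℝ) * I2.card)⁻¹)
    (fun i x => ee (t i * Real.log (x.1 : ℕ)) * ee (t i * Real.log (x.2 : ℕ))) (C1 * C2) B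
    (fun _ => inv_pos.2 hD) ?_ hB ?_
  · rw [← Finset.sum_coe_sort T]
    refine le_trans (le_of_eq ?_) h
    refine Finset.sum_congr rfl fun i _ => ?_
    congr 2
    rw [← Finset.sum_coe_sort I1, ← Finset.sum_coe_sort I2, Finset.sum_mul_sum,
      Fintype.sum_prod_type]
    refine Finset.sum_congr rfl fun x _ => Finset.sum_congr rfl fun y _ => ?_
    push_cast
    ring
  · have e : ∑ x : {n // n ∈ I1} × {n // n ∈ I2},
        (b1 x.1 * b2 x.2) ^ 2 / ((I1.card : ℝ) * I2.card)⁻¹ =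
        ((I1.card : ℝ) * ∑ n ∈ I1, b1 n ^ 2) * ((I2.card : ℝ) * ∑ n ∈ I2, b2 n ^ 2) := by
      rw [← Finset.sum_coe_sort I1, ← Finset.sum_coe_sort I2, Finset.mul_sum, Finset.mul_sum,
        Finset.sum_mul_sum, Fintype.sum_prod_type]
      refine Finset.sum_congr rfl fun x _ => Finset.sum_congr rfl fun y _ => ?_
      rw [div_inv_eq_mul]
      ring
    rw [e]
    have p1 : 0 ≤ (I1.card : ℝ) * ∑ n ∈ I1, b1 n ^ 2 :=
      mul_nonneg hI1.le (Finset.sum_nonneg fun _ _ => sq_nonneg _)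
    have p2 : 0 ≤ (I2.card : ℝ) * ∑ n ∈ I2, b2 n ^ 2 :=
      mul_nonneg hI2.le (Finset.sum_nonneg fun _ _ => sq_nonneg _)
    exact mul_le_mul hb1 hb2 p2 (p1.trans hb1)
  · intro i
    have e : ∀ i' : {i // i ∈ T}, ‖∑ x : {n // n ∈ I1} × {n // n ∈ I2},
        (((((I1.card : ℝ) * I2.card)⁻¹ : ℝ) : ℂ) *
          (ee (t i * Real.log (x.1 : ℕ)) * ee (t i * Real.log (x.2 : ℕ)))) *
          (starRingEnd ℂ) (ee (t i' * Real.log (x.1 : ℕ)) * ee (t i' * Real.log (x.2 : ℕ)))‖ =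
        ((I1.card : ℝ) * I2.card)⁻¹ * (‖∑ n ∈ I1, ee ((t i - t i') * Real.log n)‖ *
          ‖∑ n ∈ I2, ee ((t i - t i') * Real.log n)‖) := by
      intro i'
      have e2 : ∑ x : {n // n ∈ I1} × {n // n ∈ I2},
          (((((I1.card : ℝ) * I2.card)⁻¹ : ℝ) : ℂ) *
            (ee (t i * Real.log (x.1 : ℕ)) * ee (t i * Real.log (x.2 : ℕ)))) *
            (starRingEnd ℂ) (ee (t i' * Real.log (x.1 : ℕ)) * ee (t i' * Real.log (x.2 : ℕ))) =
          ((((I1.card : ℝ) * I2.card)⁻¹ : ℝ) : ℂ) * ((∑ n ∈ I1, ee ((t i - t i') * Real.log n)) *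
            ∑ n ∈ I2, ee ((t i - t i') * Real.log n)) := by
        rw [← Finset.sum_coe_sort I1, ← Finset.sum_coe_sort I2, Finset.sum_mul_sum,
          Fintype.sum_prod_type, Finset.mul_sum]
        refine Finset.sum_congr rfl fun x _ => ?_
        rw [Finset.mul_sum]
        refine Finset.sum_congr rfl fun y _ => ?_
        rw [sub_mul, sub_mul, ee_sub, ee_sub, map_mul]
        ring
      rw [e2, norm_mul, norm_mul, Complex.norm_real, Real.norm_of_nonneg (inv_pos.2 hD).le]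
    simp only [e]
    rw [← Finset.mul_sum, Finset.sum_coe_sort T (fun i' => ‖∑ n ∈ I1, ee ((t i - t i') * Real.log n)‖ *
      ‖∑ n ∈ I2, ee ((t i - t i') * Real.log n)‖), inv_mul_le_iff₀ hD]
    exact hG i i.2

end Count

open Pool.Agent.P.MP_b60056_nt.AA.Count in
theorem count (h1 : S_HAL) (h2 : S_EM) (h3 : S_REP) : S_COUNT := by
  classical
  intro z j R L N2 V dec T hz hj hL hc1 hc2 hT hV hdec hV0 hlow hCF
  have hz1 : 1 ≤ z := le_trans Nat.one_le_two_pow hz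
  have hzR : (0 : ℝ) < z := by exact_mod_cast hz1
  have hy1 : 1 ≤ z ^ 2001 := Nat.one_le_pow _ _ hz1
  have hLR : (0 : ℝ) < L := by exact_mod_cast hL
  have hd0 : 0 ≤ dec := le_trans (by positivity) hdec
  obtain ⟨b1, hb1, hs1⟩ := rep h3 (z ^ 2001) j R hy1 hj hc1
  obtain ⟨b2, hb2, hs2⟩ := rep h3 z j R hz1 hj hc2
  have hD1 := card_pos' hy1 hj
  have hD2 := card_pos' hz1 hj
  have hlog : 0 ≤ Real.log (2 * N2 + 1) :=
    Real.log_nonneg (by have : (0 : ℝ) ≤ N2 := Nat.cast_nonneg _; linarith)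
  have hpi := Real.pi_gt_three
  have key := hal2 h1 _ _ b1 b2 T (fun i => 2 * Real.pi * i / L) _ _
    (1 + L * (1 + Real.log (2 * N2 + 1)) + T.card * dec) hD1 hD2 hs1 hs2 (by positivity) ?_
  · have e : ∀ i : ℤ, ‖Aa (Sa (z ^ 2001) R) (2 * Real.pi * i / L) *
        Aa (Sa z R) (2 * Real.pi * i / L)‖ ^ (2 * j) =
        ‖(∑ n ∈ Ioc ((z ^ 2001) ^ j) ((2 * z ^ 2001) ^ j),
          (b1 n : ℂ) * ee (2 * Real.pi * i / L * Real.log n)) *
          ∑ n ∈ Ioc (z ^ j) ((2 * z) ^ j), (b2 n : ℂ) * ee (2 * Real.pi * i / L * Real.log n)‖ ^ 2 := by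
      intro i
      rw [← hb1, ← hb2, ← mul_pow, norm_pow, ← pow_mul, mul_comm j 2]
    have hlow2 : (T.card : ℝ) * V ^ (2 * j) ≤ ∑ i ∈ T, ‖Aa (Sa (z ^ 2001) R) (2 * Real.pi * i / L) *
        Aa (Sa z R) (2 * Real.pi * i / L)‖ ^ (2 * j) := by
      rw [← nsmul_eq_mul, ← Finset.sum_const]
      exact Finset.sum_le_sum fun i hi => pow_le_pow_left₀ hV0.le (hlow i hi) _
    simp only [← e] at key
    have e3 : (4 : ℝ) ^ j * (j : ℝ) ^ (j * R) * (4 ^ j * (j : ℝ) ^ (j * R)) =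
        16 ^ j * (j : ℝ) ^ (2 * j * R) := by
      rw [show (16 : ℝ) = 4 * 4 by norm_num, mul_pow, show 2 * j * R = j * R + j * R by ring,
        pow_add]
      ring
    rw [e3] at key
    have h5 := mul_le_mul_of_nonneg_left hCF (Nat.cast_nonneg T.card : (0 : ℝ) ≤ T.card)
    nlinarith
  · intro i hi
    rw [← Finset.add_sum_erase T _ hi]
    have hdiag : ‖∑ n ∈ Ioc ((z ^ 2001) ^ j) ((2 * z ^ 2001) ^ j),
          ee ((2 * Real.pi * i / L - 2 * Real.pi * i / L) * Real.log n)‖ *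
        ‖∑ n ∈ Ioc (z ^ j) ((2 * z) ^ j),
          ee ((2 * Real.pi * i / L - 2 * Real.pi * i / L) * Real.log n)‖ ≤
        ((Ioc ((z ^ 2001) ^ j) ((2 * z ^ 2001) ^ j)).card * (Ioc (z ^ j) ((2 * z) ^ j)).card) :=
      mul_le_mul (norm_sum_le_card _ _) (norm_sum_le_card _ _) (norm_nonneg _) hD1.le
    have hoff : ∀ i' ∈ T.erase i, ‖∑ n ∈ Ioc ((z ^ 2001) ^ j) ((2 * z ^ 2001) ^ j),
          ee ((2 * Real.pi * i / L - 2 * Real.pi * i' / L) * Real.log n)‖ *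
        ‖∑ n ∈ Ioc (z ^ j) ((2 * z) ^ j),
          ee ((2 * Real.pi * i / L - 2 * Real.pi * i' / L) * Real.log n)‖ ≤
        ((Ioc ((z ^ 2001) ^ j) ((2 * z ^ 2001) ^ j)).card * (Ioc (z ^ j) ((2 * z) ^ j)).card) *
          (L / 2 * |((i : ℝ) - i')|⁻¹ + dec) := by
      intro i' hi'
      rw [mem_erase] at hi'
      have hne : (i : ℝ) - i' ≠ 0 := sub_ne_zero.2 (by exact_mod_cast hi'.1.symm)
      have habs : 0 < |(i : ℝ) - i'| := abs_pos.2 hne
      have eτ : |2 * Real.pi * i / L - 2 * Real.pi * i' / L| = 2 * Real.pi * |(i : ℝ) - i'| / L := by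
        rw [show 2 * Real.pi * i / L - 2 * Real.pi * i' / L = (2 * Real.pi / L) * ((i : ℝ) - i') by
          ring, abs_mul, abs_of_pos (by positivity)]
        ring
      have hle : |(i : ℝ) - i'| ≤ 2 * N2 := by
        have a1 : |(i : ℝ)| ≤ N2 := by exact_mod_cast hT i hi
        have a2 : |(i' : ℝ)| ≤ N2 := by exact_mod_cast hT i' hi'.2
        have := abs_sub (i : ℝ) i'
        linarith
      refine (offdiag h2 z j dec _ (4 * Real.pi * N2 / L) hz hj hV hdec ?_ ?_).trans ?_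
      · rw [← abs_pos, eτ]; positivity
      · rw [eτ]
        refine div_le_div_of_nonneg_right ?_ hLR.le
        nlinarith
      · refine mul_le_mul_of_nonneg_left ?_ (mul_pos hD1 hD2).le
        have : 3 / (2 * Real.pi * |(i : ℝ) - i'| / L) ≤ L / 2 * |((i : ℝ) - i')|⁻¹ := by
          rw [div_le_iff₀ (by positivity)]
          have e4 : (L : ℝ) / 2 * |((i : ℝ) - i')|⁻¹ * (2 * Real.pi * |(i : ℝ) - i'| / L) =
              Real.pi := by field_simp
          rw [e4]; exact hpi.le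
        rw [eτ]; linarith
    have hs := Finset.sum_le_sum hoff
    rw [← Finset.mul_sum, Finset.sum_add_distrib, ← Finset.mul_sum, Finset.sum_const,
      nsmul_eq_mul] at hs
    have hh := harm T N2 hT hi
    have hcard : ((T.erase i).card : ℝ) ≤ T.card := by exact_mod_cast Finset.card_erase_le
    have hin : (L : ℝ) / 2 * ∑ i' ∈ T.erase i, |((i : ℝ) - i')|⁻¹ + (T.erase i).card * dec ≤
        L * (1 + Real.log (2 * N2 + 1)) + T.card * dec := by
      have a1 := mul_le_mul_of_nonneg_left hh (show (0 : ℝ) ≤ L / 2 by positivity)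
      have a2 := mul_le_mul_of_nonneg_right hcard hd0
      linarith
    have hfin := mul_le_mul_of_nonneg_left hin (mul_pos hD1 hD2).le
    linarith

end Pool.Agent.P.MP_b60056_nt.AA
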