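import Pool.Agent.P.MP_b60056_nt.AA.Api

/-! The decay of the long exponential sums in the range of the parameters. -/

namespace Pool.Agent.P.MP_b60056_nt.AA

open Finset

theorem dec (h1 : S_VINO) : S_DEC := by
  intro w k z j h hj hjk
  have hw := h.wR
  have hw0 := h.w_pos
  have hk0 := h.k_pos
  have hz0 := h.z_pos
  have hζ := h.log_big
  have hz1 := h.hz1
  have hj1 : (1 : ℝ) ≤ j := by exact_mod_cast hj
  have hjk' : (j : ℝ) ≤ k := by exact_mod_cast hjk
  set ζ := Real.log z with hζd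
  have hE : (j : ℝ) ^ 3 * (w : ℝ) ^ 9 / k ≤ j * ζ / 6 := by
    have a1 : (j : ℝ) ^ 3 * (w : ℝ) ^ 9 / k ≤ j * (k * (w : ℝ) ^ 9) := by
      rw [div_le_iff₀ hk0]
      have a2 : (j : ℝ) ^ 2 ≤ (k : ℝ) ^ 2 := pow_le_pow_left₀ (by positivity) hjk' 2
      calc (j : ℝ) ^ 3 * (w : ℝ) ^ 9 = j * (w : ℝ) ^ 9 * (j : ℝ) ^ 2 := by ring
        _ ≤ j * (w : ℝ) ^ 9 * (k : ℝ) ^ 2 := mul_le_mul_of_nonneg_left a2 (by positivity)
        _ = _ := by ring
    have a3 : k * (w : ℝ) ^ 9 * 6 ≤ ζ := by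
      refine le_trans ?_ hz1
      rw [pow_succ (w : ℝ) 9, ← mul_assoc]
      exact mul_le_mul_of_nonneg_left (by linarith) (by positivity)
    refine a1.trans ?_
    rw [mul_div_assoc]
    exact mul_le_mul_of_nonneg_left (by linarith) (by positivity)
  have hjζ : ζ ≤ j * ζ := le_mul_of_one_le_left (by linarith) hj1
  have hzp : ∀ n : ℕ, (z : ℝ) ^ n = Real.exp (n * ζ) := fun n => by
    rw [Real.exp_nat_mul, hζd, h.exp_log]
  constructor
  · rw [hzp, ← Real.exp_neg]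
    have a1 : Real.exp (-(((1000 * j : ℕ) : ℝ) * ζ)) ≤
        Real.exp (-((j : ℝ) ^ 3 * (w : ℝ) ^ 9 / k)) := by
      refine Real.exp_le_exp.2 ?_
      push_cast
      linarith
    linarith [Real.exp_pos (-((j : ℝ) ^ 3 * (w : ℝ) ^ 9 / k))]
  intro τ hτ1 hτ2
  have l2 := Real.log_two_lt_d9
  have l2' := Real.log_two_gt_d9
  have hN : (((2 * z) ^ j : ℕ) : ℝ) = (2 * (z : ℝ)) ^ j := by push_cast; rfl
  have hM : ((z ^ j : ℕ) : ℝ) = (z : ℝ) ^ j := by push_cast; rfl
  have hN0 : (0 : ℝ) < ((2 * z) ^ j : ℕ) := by rw [hN]; positivity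
  have hL : Real.log ((2 * z) ^ j : ℕ) = j * (Real.log 2 + ζ) := by
    rw [hN, Real.log_pow, Real.log_mul two_ne_zero hz0.ne']
  have hL1 : j * ζ ≤ Real.log ((2 * z) ^ j : ℕ) := by
    rw [hL]
    exact mul_le_mul_of_nonneg_left (by linarith) (by positivity)
  have hK1 : 8012 ≤ 8012 * (k : ℝ) / j := by
    rw [le_div_iff₀ (by positivity)]
    linarith
  have hK2 : 8012 * (k : ℝ) / j ≤ 8012 * k := div_le_self (by positivity) hj1
  have h2 := h1 (z ^ j) ((2 * z) ^ j) τ (8012 * (k : ℝ) / j) ?_ ?_ (by linarith) ?_ ?_ ?_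
  · rw [hM] at h2
    rw [← hN]
    refine h2.trans (mul_le_mul_of_nonneg_left ?_ ?_)
    · have a1 : Real.exp (-Real.log ((2 * z) ^ j : ℕ) / (10 ^ 11 * (8012 * (k : ℝ) / j) ^ 2)) ≤
          Real.exp (-((j : ℝ) ^ 3 * (w : ℝ) ^ 9 / k)) := by
        refine Real.exp_le_exp.2 ?_
        rw [neg_div, neg_le_neg_iff, le_div_iff₀ (by positivity)]
        refine le_trans ?_ hL1
        have e : (j : ℝ) ^ 3 * (w : ℝ) ^ 9 / k * (10 ^ 11 * (8012 * (k : ℝ) / j) ^ 2) =
            j * (k * (w : ℝ) ^ 9 * (10 ^ 11 * 8012 ^ 2)) := by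
          field_simp
        rw [e]
        refine mul_le_mul_of_nonneg_left (le_trans ?_ hz1) (by positivity)
        rw [pow_succ (w : ℝ) 9, ← mul_assoc (k : ℝ) _ (w : ℝ)]
        exact mul_le_mul_of_nonneg_left (by linarith) (by positivity)
      have a2 : 6 / (((2 * z) ^ j : ℕ) : ℝ) ^ (1 / 3 : ℝ) ≤
          Real.exp (-((j : ℝ) ^ 3 * (w : ℝ) ^ 9 / k)) := by
        rw [Real.rpow_def_of_pos hN0, div_le_iff₀ (Real.exp_pos _), ← Real.exp_add]
        refine le_trans ?_ (Real.add_one_le_exp _)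
        linarith
      linarith
    · rw [hN, sub_nonneg]
      exact pow_le_pow_left₀ hz0.le (by linarith) j
  · rw [mul_pow]
    exact Nat.mul_le_mul_right _ (Nat.le_self_pow (by omega) 2)
  · rw [Real.rpow_def_of_pos hN0, hM, hzp, hL]
    refine Real.exp_le_exp.2 ?_
    rw [mul_assoc]
    exact mul_le_mul_of_nonneg_left (by linarith) (by positivity)
  · rwa [hN, ← pow_mul, mul_comm j]
  · refine hτ2.trans ?_
    have a1 : (Tn k z : ℝ) ≤ (z : ℝ) ^ (2003 * k) := by exact_mod_cast h.Tn_le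
    refine (pow_le_pow_left₀ (by positivity) a1 4).trans ?_
    rw [← pow_mul, hzp, Real.rpow_def_of_pos hN0]
    refine Real.exp_le_exp.2 (le_trans (le_of_eq ?_) (mul_le_mul_of_nonneg_right hL1 (by linarith)))
    push_cast
    field_simp
    norm_num
  · have a1 : Real.log (8012 * (k : ℝ) / j) ≤ w := by
      refine (Real.log_le_log (by linarith) hK2).trans ?_
      rw [Real.log_mul (by norm_num) hk0.ne']
      have := Real.log_le_sub_one_of_pos (show (0 : ℝ) < 8012 by norm_num)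
      linarith [h.log_k_le]
    have a2 : 10 ^ 6 * (8012 * (k : ℝ) / j) * Real.log (8012 * (k : ℝ) / j) ≤
        10 ^ 6 * (8012 * (k : ℝ)) * w :=
      mul_le_mul (by linarith) a1 (Real.log_nonneg (by linarith)) (by positivity)
    have a3 : w * (w : ℝ) ≤ (w : ℝ) ^ 10 := by
      rw [← sq]
      exact pow_le_pow_right₀ h.one_le_w (by norm_num)
    have a4 : 10 ^ 6 * 8012 * (w : ℝ) ≤ w * w := mul_le_mul_of_nonneg_right (by linarith) hw0.le
    have a5 := mul_le_mul_of_nonneg_left (a4.trans a3) hk0.le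
    linarith

end Pool.Agent.P.MP_b60056_nt.AA
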