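import Pool.Agent.P.MP_b60056_nt.AA.Api

namespace Pool.Agent.P.MP_b60056_nt.AA

open Finset

namespace Diss

theorem cls {x η : ℝ} {N : ℕ} (h1 : 2 * η ≤ x) (h2 : x < 2 ^ (N + 1) * η) :
    ∃ i : Fin N, 2 ^ (i.val + 1) * η ≤ x ∧ x ≤ 2 * (2 ^ (i.val + 1) * η) := by
  induction N with
  | zero => norm_num at h2; linarith
  | succ N ih =>
    rcases lt_or_ge x (2 ^ (N + 1) * η) with h | h
    · obtain ⟨i, hi⟩ := ih h
      exact ⟨i.castSucc, hi⟩
    · refine ⟨Fin.last N, h, h2.le.trans_eq ?_⟩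
      rw [Fin.val_last]
      ring

theorem fib {P : Type} [Fintype P] {N : ℕ} (c : P → Fin N) (π : P → ℝ) (h0 : ∀ p, 0 ≤ π p)
    (h1 : ∑ p, π p = 1) (hN : 1 ≤ N) : ∃ (i : Fin N) (π' : {p // c p = i} → ℝ),
      (∀ p, 0 ≤ π' p) ∧ ∑ p, π' p = 1 ∧
      ∀ F : P → ℝ, (∀ p, 0 ≤ F p) → ∑ p, π' p * F p ≤ N * ∑ p, π p * F p := by
  have hN' : (0 : ℝ) < N := by exact_mod_cast hN
  obtain ⟨i, -, hi⟩ := exists_le_of_sum_le (s := univ) (f := fun _ : Fin N => (N : ℝ)⁻¹)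
    (g := fun i => ∑ p : {p // c p = i}, π p) ⟨⟨0, hN⟩, mem_univ _⟩
    (by rw [Fintype.sum_fiberwise, h1]; simp [hN'.ne'])
  have hm := (inv_pos.2 hN').trans_le hi
  refine ⟨i, fun p => (∑ p : {p // c p = i}, π p)⁻¹ * π p,
    fun p => mul_nonneg (inv_pos.2 hm).le (h0 p), by rw [← mul_sum, inv_mul_cancel₀ hm.ne'],
    fun F hF => ?_⟩
  simp only [mul_assoc, ← mul_sum]
  refine mul_le_mul (inv_le_of_inv_le₀ hN' hi) ?_
    (sum_nonneg fun p _ => mul_nonneg (h0 _) (hF _)) hN'.le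
  rw [← Fintype.sum_fiberwise c fun p => π p * F p]
  exact single_le_sum (f := fun i => ∑ p : {p // c p = i}, π p * F p)
    (fun j _ => sum_nonneg fun p _ => mul_nonneg (h0 _) (hF _)) (mem_univ i)

end Diss

theorem diss (h1 : S_TRIG) (h2 : S_DISS1) : S_DISS := by
  intro S P _ _ _ χ u u' τ κ π U n Nd N1 η0 η2 δ2 ζ J a1 a2 a3 a4 a5 a6 a7 a8 a9 b1 b2 b3 b4 b5 b6
    c1 c2 c3 c4 c5 c6 c7 c8 c9 d1 d2 d3
  classical
  obtain ⟨δ, hδ⟩ : ∃ δ : P → S → ℝ, δ = fun p s => (u p s * starRingEnd ℂ (u' p s)).arg :=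
    ⟨_, rfl⟩
  obtain ⟨a, ha⟩ : ∃ a : P → S → ℝ, a = fun p s => (1 - (u p s).re) + (1 - (u' p s).re) :=
    ⟨_, rfl⟩
  obtain ⟨d, hd⟩ : ∃ d : P → S → ℝ, d = fun p s => (u p s).im - (u' p s).im := ⟨_, rfl⟩
  have t : ∀ p s, δ p s ^ 2 ≤ 10 * a p s ∧ |d p s| ≤ |δ p s| ∧
      |d p s - δ p s| ≤ 5 * a p s * |δ p s| ∧ |δ p s| ≤ Real.pi ∧
      ee (δ p s) = κ p * χ (τ p) s := fun p s => by
    rw [hδ, ha, hd, ← a5]
    exact h1 _ _ (a3 p s).1 (a3 p s).2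
  have e0 : ∀ p s, 0 ≤ a p s := fun p s => by nlinarith [(t p s).1, sq_nonneg (δ p s)]
  have e1 : ∀ p, av (a p) ≤ 2 * η2 := fun p => ha ▸ a8 p
  have e2 : ∀ p, av (fun s => δ p s ^ 2) ≤ 20 * η2 := fun p => by
    have := av_mono fun s => (t p s).1
    rw [av_mul_left] at this
    linarith [e1 p]
  have e3 : ∀ p, 2 * η0 ≤ av (fun s => δ p s ^ 2) := fun p => by
    have f1 : av (fun s => 2 - 2 * (κ p * χ (τ p) s).re) ≤ av fun s => δ p s ^ 2 :=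
      av_mono fun s => by
        rw [← (t p s).2.2.2.2, ee_re]
        linarith [Real.one_sub_sq_div_two_le_cos (x := δ p s)]
    rw [av_sub, av_const, av_mul_left, ← avc_re, avc_mul_left] at f1
    have f2 := Complex.re_le_norm (κ p * avc (χ (τ p)))
    rw [norm_mul, a4, one_mul] at f2
    linarith [a7 p]
  have e4 : ∀ p, av (δ p) ^ 2 ≤ η0 := fun p => by
    have f1 : |av fun s => d p s - δ p s| ≤ av fun s => 16 * a p s :=
      (abs_av_le _).trans (av_mono fun s => by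
        nlinarith [(t p s).2.2.1, (t p s).2.2.2.1, e0 p s, Real.pi_lt_d2])
    rw [av_sub, show av (d p) = 0 from hd ▸ a9 p, zero_sub, abs_neg, av_mul_left] at f1
    have := sq_le_sq' (abs_le.1 (f1.trans (by linarith [e1 p] : _ ≤ 32 * η2))).1
      (abs_le.1 (f1.trans (by linarith [e1 p] : _ ≤ 32 * η2))).2
    linarith
  choose c hc using fun p => Diss.cls (N := Nd) (e3 p) (by rw [pow_succ]; linarith [e2 p])
  obtain ⟨i, π', g1, g2, g3⟩ := Diss.fib c π b1 b2 c7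
  obtain ⟨η, hη⟩ : ∃ η, η = 2 ^ (i.val + 1) * η0 := ⟨_, rfl⟩
  have g4 : 2 * η0 ≤ η := by
    rw [hη, pow_succ]
    nlinarith [one_le_pow₀ (n := i.val) (one_le_two (α := ℝ))]
  have g5 : ∀ p : {p // c p = i}, η ≤ av (fun s => δ p s ^ 2) ∧ av (fun s => δ p s ^ 2) ≤ 2 * η :=
    fun p => by
      have := hc p
      rwa [p.2, ← hη] at this
  obtain ⟨p⟩ : Nonempty {p // c p = i} := by
    by_contra e
    rw [not_nonempty_iff] at e
    simp at g2
  have g6 : η ≤ 20 * η2 := (g5 p).1.trans (e2 p)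
  have g7 : (1 : ℝ) ≤ Nd := by exact_mod_cast c7
  have g8 : (0 : ℝ) ≤ n := Nat.cast_nonneg n
  refine h2 S {p // c p = i} χ (fun p => δ p) (fun p => a p) (fun p => d p) (fun p => τ p)
    (fun p => κ p) π' _ U n N1 η (Nd * (2 * η2)) (Nd * (2 * δ2)) ζ J a1 a2 (fun p => a4 p)
    (fun p s => (t p s).2.2.2.2) (fun p => a6 p)
    (fun p s => ⟨(t p s).1, (t p s).2.1, (t p s).2.2.1, (t p s).2.2.2.1⟩) g1 g2
    (fun p => ⟨(g5 p).1, (g5 p).2, by linarith [e4 p]⟩) (fun s hs => ?_) b3 (fun f => ?_) b5 b6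
    (by linarith) (by positivity) (by positivity) c4 c5 c6 (by linarith) ?_ (by linarith)
    (by linarith)
  · refine (g3 (fun p => a p s) fun p => e0 p s).trans (mul_le_mul_of_nonneg_left ?_ (by linarith))
    rw [ha]
    exact not_lt.1 fun e => hs (mem_filter.2 ⟨mem_univ _, e⟩)
  · refine (g3 (fun p => av (fun s => f s * d p s) ^ 2) fun p => sq_nonneg _).trans ?_
    rw [mul_assoc, hd]
    exact mul_le_mul_of_nonneg_left (b4 f) (by linarith)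
  · nlinarith [mul_le_mul_of_nonneg_left g6 g8, mul_nonneg (mul_nonneg g8 c2.le) (sub_nonneg.2 g7)]

end Pool.Agent.P.MP_b60056_nt.AA
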