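import Pool.Agent.P.MP_b60056_nt.AA.Api

/-! The dissociativity step at one dyadic level. -/

namespace Pool.Agent.P.MP_b60056_nt.AA

open Finset

namespace Diss1

variable {S : Type} [Fintype S]

/-- The integer `(sg x + sg y) / 2`. -/
def bz (x y : Bool) : ℤ := if x = y then (if x then 1 else -1) else 0

theorem bz_cast (x y : Bool) : (bz x y : ℝ) = (sg x + sg y) / 2 := by
  cases x <;> cases y <;> simp [bz, sg]

theorem bz_abs (x y : Bool) : |bz x y| ≤ 1 := by
  cases x <;> cases y <;> simp [bz]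

theorem chi_zero {c : ℤ → ℂ} (h1 : ∀ i, ‖c i‖ = 1) (h2 : ∀ i i', c (i + i') = c i * c i') :
    c 0 = 1 := by
  have h0 : c 0 ≠ 0 := norm_ne_zero_iff.1 (by rw [h1]; exact one_ne_zero)
  exact mul_left_cancel₀ h0 (by rw [← h2, add_zero, mul_one])

theorem chi_sum {c : ℤ → ℂ} (h1 : ∀ i, ‖c i‖ = 1) (h2 : ∀ i i', c (i + i') = c i * c i')
    {ι : Type} (A : Finset ι) (t : ι → ℤ) : c (∑ i ∈ A, t i) = ∏ i ∈ A, c (t i) := by
  induction A using Finset.cons_induction with
  | empty => simpa using chi_zero h1 h2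
  | cons a A ha ih => rw [sum_cons, prod_cons, h2, ih]

theorem ee_bz {c : ℤ → ℂ} (h1 : ∀ i, ‖c i‖ = 1) (h2 : ∀ i i', c (i + i') = c i * c i')
    {x : ℝ} {k : ℂ} {t : ℤ} (h : ee x = k * c t) (u v : Bool) :
    ee (bz u v * x) = k ^ bz u v * c (bz u v * t) := by
  have h0 := chi_zero h1 h2
  have h3 : c (-t) = (c t)⁻¹ := eq_inv_of_mul_eq_one_left (by rw [← h2, neg_add_cancel, h0])
  have h4 : ee (-x) = (ee x)⁻¹ :=
    eq_inv_of_mul_eq_one_left (by rw [← ee_add, neg_add_cancel, ee_zero])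
  cases u <;> cases v <;> simp [bz, h0, ee_zero, h3, h4, h, mul_comm]

omit [Fintype S] in
theorem repr {n : ℕ} {χ : ℤ → S → ℂ} (h1 : ∀ i s, ‖χ i s‖ = 1)
    (h2 : ∀ i i' s, χ (i + i') s = χ i s * χ i' s) {δ : Fin n → S → ℝ} {κ : Fin n → ℂ}
    {τ : Fin n → ℤ} (hκ : ∀ i, ‖κ i‖ = 1) (h : ∀ i s, ee (δ i s) = κ i * χ (τ i) s)
    (ε ε' : Fin n → Bool) : ∃ K : ℂ, ‖K‖ = 1 ∧ ∀ s, ee ((psi δ ε s + psi δ ε' s) / 2) =
      K * χ (∑ i, bz (ε i) (ε' i) * τ i) s := by
  refine ⟨∏ i, κ i ^ bz (ε i) (ε' i), by simp [norm_prod, hκ], fun s => ?_⟩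
  have e : (psi δ ε s + psi δ ε' s) / 2 = ∑ i, bz (ε i) (ε' i) * δ i s := by
    rw [psi, psi, ← sum_add_distrib, sum_div]
    exact sum_congr rfl fun i _ => by rw [bz_cast]; ring
  rw [e, ee_sum, chi_sum (c := fun i => χ i s) (fun i => h1 i s) (fun i i' => h2 i i' s),
    ← prod_mul_distrib]
  exact prod_congr rfl fun i _ =>
    ee_bz (c := fun i => χ i s) (fun i => h1 i s) (fun i i' => h2 i i' s) (h i s) _ _

theorem half_le [Nonempty S] {f g : S → ℝ} {K : ℂ} {c : S → ℂ} (hK : ‖K‖ = 1)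
    (h : ∀ s, ee ((f s + g s) / 2) = K * c s) (hf : av (fun s => f s ^ 2) ≤ 1)
    (hg : av (fun s => g s ^ 2) ≤ 1) : 1 / 2 ≤ ‖avc c‖ := by
  have e : ‖avc c‖ = ‖avc fun s => ee ((f s + g s) / 2)‖ := by
    rw [avc_congr h, avc_mul_left, norm_mul, hK, one_mul]
  rw [e]
  refine le_trans ?_ (Complex.re_le_norm _)
  rw [avc_re]
  have h1 : av (fun s => 1 - (f s ^ 2 + g s ^ 2) / 4) ≤ av fun s => (ee ((f s + g s) / 2)).re :=
    av_mono fun s => by
      rw [ee_re]
      have := Real.one_sub_sq_div_two_le_cos (x := (f s + g s) / 2)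
      nlinarith [sq_nonneg (f s - g s)]
  rw [av_sub, av_const, av_div, av_add] at h1
  linarith

theorem fibre {E T : Type} [DecidableEq T] (A : Finset E) (U : Finset T) (f : E → T)
    (h : ∀ x ∈ A, f x ∈ U) {n : ℕ} {J : ℝ} (hA : 2 ^ n ≤ 2 * A.card) (hU : (U.card : ℝ) ≤ Real.exp J)
    (hn : 10 ^ 6 * (J + 1) ≤ n) :
    ∃ t, 2 ^ n * Real.exp (-(n : ℝ) / 10 ^ 6) < (A.filter fun x => f x = t).card := by
  by_contra hc
  push Not at hc
  have h1 : (A.card : ℝ) ≤ U.card * (2 ^ n * Real.exp (-(n : ℝ) / 10 ^ 6)) := by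
    rw [card_eq_sum_card_fiberwise h, Nat.cast_sum, ← nsmul_eq_mul]
    exact sum_le_card_nsmul _ _ _ fun t _ => hc t
  have h2 : (2 : ℝ) ^ n ≤ 2 * A.card := by exact_mod_cast hA
  have h3 : Real.exp J * Real.exp (-(n : ℝ) / 10 ^ 6) * Real.exp 1 ≤ 1 := by
    rw [← Real.exp_add, ← Real.exp_add, Real.exp_le_one_iff]
    linarith
  have h4 := Real.exp_one_gt_d9
  have h5 : (0 : ℝ) < 2 ^ n := by positivity
  have h6 := Real.exp_pos (-(n : ℝ) / 10 ^ 6)
  have h7 := Real.exp_pos J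
  have h8 : Real.exp J * Real.exp (-(n : ℝ) / 10 ^ 6) < 1 / 2 := by
    nlinarith [mul_pos h7 h6]
  have h9 := mul_le_mul_of_nonneg_right hU (mul_pos h5 h6).le
  nlinarith

theorem av_psi {n : ℕ} (F : Fin n → S → ℝ) (ε : Fin n → Bool) :
    av (psi F ε) = ∑ i, sg (ε i) * av (F i) := by
  unfold psi
  rw [av_sum]
  exact sum_congr rfl fun i _ => av_mul_left _ _

theorem lower [Nonempty S] {n : ℕ} {δ A B : Fin n → S → ℝ}
    (h : ∀ i s, δ i s - av (δ i) = A i s + B i s) (ε ε' : Fin n → Bool) (c : ℝ) :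
    av (fun s => (psi B ε s - psi B ε' s) ^ 2) / 8 - av (fun s => psi A ε s ^ 2) / 2 -
      av (fun s => psi A ε' s ^ 2) / 2 ≤ av fun s => ((psi δ ε s - psi δ ε' s) / 2 - c) ^ 2 := by
  refine le_trans ?_ (av_var_le _ c)
  have e : ∀ ε s, psi δ ε s - av (psi δ ε) = psi A ε s + psi B ε s := fun ε s => by
    rw [av_psi, psi, psi, psi, ← sum_sub_distrib, ← sum_add_distrib]
    exact sum_congr rfl fun i _ => by rw [← mul_sub, h, mul_add]
  rw [← av_div, ← av_div, ← av_div, ← av_sub, ← av_sub, av_div 2, av_sub (psi δ ε)]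
  refine av_mono fun s => ?_
  have e2 : (psi δ ε s - psi δ ε' s) / 2 - (av (psi δ ε) - av (psi δ ε')) / 2 =
      (psi A ε s + psi B ε s - (psi A ε' s + psi B ε' s)) / 2 := by
    rw [← e, ← e]; ring
  rw [e2]
  nlinarith [sq_nonneg (psi B ε s - psi B ε' s + 2 * (psi A ε s - psi A ε' s)),
    sq_nonneg (psi A ε s + psi A ε' s)]

theorem av_swap [Nonempty S] (f h : S → ℝ) :
    av (fun s => f s * (h s - av h)) = av fun s => (f s - av f) * h s := by
  simp only [mul_sub, sub_mul, av_sub, av_mul_left, av_mul_right]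

theorem flat [Nonempty S] {P : Type} [Fintype P] {π : P → ℝ} {d e w : P → S → ℝ} {β0 C D : ℝ}
    (hπ : ∀ p, 0 ≤ π p) (hw : ∀ p s, w p s ^ 2 = w p s) (hβ : 0 ≤ β0) (hC : 0 ≤ C) (hD : 0 ≤ D)
    (he : ∀ p, av (fun s => e p s ^ 2) ≤ C) (hs : ∀ s, ∑ p, π p * w p s ≤ D)
    (hd : ∀ f : S → ℝ, ∑ p, π p * av (fun s => f s * d p s) ^ 2 ≤ β0 * av (fun s => f s ^ 2))
    (f : S → ℝ) :
    ∑ p, π p * av (fun s => f s * (d p s + w p s * e p s -
      av fun s => d p s + w p s * e p s)) ^ 2 ≤ (2 * β0 + 2 * C * D) * av (fun s => f s ^ 2) := by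
  have hv : av (fun s => (f s - av f) ^ 2) ≤ av fun s => f s ^ 2 := by
    simpa using av_var_le f 0
  simp only [fun p => av_swap f fun s => d p s + w p s * e p s]
  have h1 := hd fun s => f s - av f
  generalize (fun s => f s ^ 2) = F at hv ⊢
  generalize hg : (fun s => f s - av f) = g
  have hg' : ∀ s, f s - av f = g s := fun s => congrFun hg s
  simp only [hg'] at hv h1 ⊢
  have h2 : ∀ p, av (fun s => g s * (d p s + w p s * e p s)) ^ 2 ≤
      2 * av (fun s => g s * d p s) ^ 2 + 2 * C * av fun s => w p s * g s ^ 2 := fun p => by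
    have e1 : av (fun s => g s * (d p s + w p s * e p s)) =
        av (fun s => g s * d p s) + av fun s => g s * w p s * e p s := by
      rw [← av_add]
      exact av_congr fun s => by ring
    have e2 := av_cs (fun s => g s * w p s) (e p)
    have e3 : av (fun s => (g s * w p s) ^ 2) = av fun s => w p s * g s ^ 2 :=
      av_congr fun s => by rw [mul_pow, hw, mul_comm]
    have e4 := mul_le_mul_of_nonneg_left (he p) (av_nonneg fun s => sq_nonneg (g s * w p s))
    rw [e3] at e2 e4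
    rw [e1]
    nlinarith [sq_nonneg (av (fun s => g s * d p s) - av fun s => g s * w p s * e p s)]
  have h3 : ∑ p, π p * av (fun s => w p s * g s ^ 2) ≤ D * av fun s => g s ^ 2 := by
    simp only [← av_mul_left, ← av_sum]
    refine av_mono fun s => ?_
    simp only [← mul_assoc, ← sum_mul]
    exact mul_le_mul_of_nonneg_right (hs s) (sq_nonneg _)
  have h4 : ∑ p, π p * av (fun s => g s * (d p s + w p s * e p s)) ^ 2 ≤
      2 * ∑ p, π p * av (fun s => g s * d p s) ^ 2 +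
        2 * C * ∑ p, π p * av (fun s => w p s * g s ^ 2) := by
    rw [mul_sum, mul_sum, ← sum_add_distrib]
    exact sum_le_sum fun p _ => (mul_le_mul_of_nonneg_left (h2 p) (hπ p)).trans_eq (by ring)
  have h5 := mul_le_mul_of_nonneg_left h3 hC
  have h6 := mul_le_mul_of_nonneg_left hv hβ
  have h7 := mul_le_mul_of_nonneg_left hv (mul_nonneg hC hD)
  nlinarith

theorem upper {n η φ ζ : ℝ} (hn : 1 ≤ n) (hη : 0 < η) (hζ : 0 ≤ ζ)
    (h1 : n * φ ≤ 2 / 10 ^ 16) (h2 : n * η ≤ 1 / 10 ^ 14) (h3 : n ^ 2 * ζ ≤ η / 10 ^ 5) :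
    (n * Real.pi + 1) ^ 2 * ζ + 4 * (36 * n * η) * (18 * n * φ / (1 / 10 ^ 6) + 2 * (36 * n * η)) +
      12 * (36 * n ^ 2 * η * φ / (1 / 10 ^ 6)) + 12 * (360 * n ^ 2 * η * φ) +
      3 * (36 * n ^ 2 * η * φ / (1 / 10 ^ 6)) + 6 * (1080 * n * η * (1 / 10 ^ 6 + n * φ)) ≤
      7 / 1000 * (n * η) := by
  have h4 : n * Real.pi + 1 ≤ 5 * n := by nlinarith [Real.pi_le_four]
  have h5 : (n * Real.pi + 1) ^ 2 * ζ ≤ 25 * (n ^ 2 * ζ) := by
    have := pow_le_pow_left₀ (by positivity) h4 2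
    nlinarith
  have h6 : η ≤ n * η := le_mul_of_one_le_left hη.le hn
  have h7 : 0 < n * η := by positivity
  have h8 := mul_le_mul_of_nonneg_left h1 h7.le
  have h9 := mul_le_mul_of_nonneg_left h2 h7.le
  nlinarith

end Diss1

open Diss1 in
theorem diss1 (h1 : S_LOW) (h2 : S_UP) (h3 : S_SAMPLE) : S_DISS1 := by
  intro S P _ _ _ _ χ δ a d τ κ π Z U n N1 η φ β0 ζ J c1 c2 hκ hee hτ hδ hπ hπ1 hη2 hφ2 hZ hfl
    hU hUJ hη hφ hβ hζ hJ hn n1 n2 n3 n4
  have hn6 : (10 : ℝ) ^ 6 ≤ n := by nlinarith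
  have hn1 : (1 : ℝ) ≤ n := le_trans (by norm_num) hn6
  have hζη : ζ ≤ η / 10 ^ 17 := by nlinarith [mul_le_mul hn6 hn6 (by norm_num) (by linarith)]
  have hη1 : η ≤ 1 / 10 ^ 14 := (le_mul_of_one_le_left hη.le hn1).trans n2
  have ha : ∀ p s, 0 ≤ a p s := fun p s => by nlinarith [(hδ p s).1, sq_nonneg (δ p s)]
  let w : P → S → ℝ := fun p s => if 1 / 10 ^ 6 ≤ a p s ∧ s ∉ Z then 1 else 0
  let e : P → S → ℝ := fun p s => δ p s - d p s
  let l : P → S → ℝ := fun p s => (1 - w p s) * e p s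
  let A : P → S → ℝ := fun p s => l p s - av (l p)
  let B : P → S → ℝ := fun p s => d p s + w p s * e p s - av fun s => d p s + w p s * e p s
  have hd2 : ∀ p s, d p s ^ 2 ≤ δ p s ^ 2 := fun p s => sq_le_sq.2 (hδ p s).2.1
  have he : ∀ p s, e p s ^ 2 ≤ 4 * δ p s ^ 2 := fun p s => by
    simp only [e]
    nlinarith [hd2 p s, sq_nonneg (δ p s + d p s)]
  have hAB : ∀ p s, δ p s - av (δ p) = A p s + B p s := fun p s => by
    have : av (δ p) = av (l p) + av fun s => d p s + w p s * e p s := by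
      rw [← av_add]
      exact av_congr fun s => by simp only [l, e]; ring
    simp only [A, B, this, l, e]
    ring
  have hA : ∀ p, av (fun s => A p s ^ 2) ≤ 1 / 5000 * η := fun p => by
    have e1 : av (fun s => A p s ^ 2) ≤
        av fun s => 25 / 10 ^ 12 * δ p s ^ 2 + 64 * if s ∈ Z then 1 else 0 := by
      refine (av_var_le (l p) 0).trans (av_mono fun s => ?_)
      simp only [l, w, sub_zero]
      by_cases hs : s ∈ Z
      · have := sq_le_sq' (abs_le.1 ((hδ p s).2.2.2.trans Real.pi_le_four)).1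
          (abs_le.1 ((hδ p s).2.2.2.trans Real.pi_le_four)).2
        simp only [hs, not_true, and_false, if_false, if_true]
        nlinarith [he p s, sq_nonneg (δ p s)]
      by_cases hl : 1 / 10 ^ 6 ≤ a p s
      · simp only [hs, hl, not_false_iff, and_self, if_false, if_true]
        nlinarith [sq_nonneg (δ p s)]
      · simp only [hs, hl, false_and, if_false]
        have e2 : |e p s| ≤ 5 / 10 ^ 6 * |δ p s| := by
          rw [abs_sub_comm]
          refine (hδ p s).2.2.1.trans (mul_le_mul_of_nonneg_right ?_ (abs_nonneg _))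
          linarith
        have e3 := pow_le_pow_left₀ (abs_nonneg _) e2 2
        rw [mul_pow, sq_abs, sq_abs] at e3
        nlinarith
    rw [av_add, av_mul_left, av_mul_left, av_indicator, filter_mem_eq_inter, univ_inter] at e1
    have e2 : (Z.card : ℝ) / Fintype.card S ≤ ζ :=
      div_le_of_le_mul₀ (Nat.cast_nonneg _) hζ hZ
    linarith [(hη2 p).2.1]
  have hB : ∀ p, η / 5 ≤ av (fun s => B p s ^ 2) ∧ av (fun s => B p s ^ 2) ≤ 18 * η := fun p => by
    constructor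
    · have e1 : av (fun s => (δ p s - av (δ p)) ^ 2) ≤
          av fun s => 2 * A p s ^ 2 + 2 * B p s ^ 2 := av_mono fun s => by
        rw [hAB]
        nlinarith [sq_nonneg (A p s - B p s)]
      rw [av_var, av_add, av_mul_left, av_mul_left] at e1
      linarith [(hη2 p).1, (hη2 p).2.2, hA p]
    · have e1 : av (fun s => B p s ^ 2) ≤ av fun s => δ p s ^ 2 := by
        refine (av_var_le (fun s => d p s + w p s * e p s) 0).trans (av_mono fun s => ?_)
        simp only [w, e]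
        split_ifs
        · exact le_of_eq (by ring)
        · simpa using hd2 p s
      linarith [(hη2 p).2.1]
  have hF := flat (π := π) (d := d) (e := e) (w := w) (C := 8 * η) (D := 10 ^ 6 * φ) hπ
    (fun p s => by simp only [w]; split_ifs <;> norm_num) hβ.le (by positivity) (by positivity)
    (fun p => by
      have := av_mono (he p)
      rw [av_mul_left] at this
      linarith [(hη2 p).2.1])
    (fun s => by
      by_cases hs : s ∈ Z
      · simp only [w, hs, not_true, and_false, if_false, mul_zero, sum_const_zero]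
        positivity
      · refine le_trans ?_ (mul_le_mul_of_nonneg_left (hφ2 s hs) (by norm_num))
        rw [mul_sum]
        refine sum_le_sum fun p _ => ?_
        rw [mul_left_comm]
        refine mul_le_mul_of_nonneg_left ?_ (hπ p)
        simp only [w]
        split_ifs with h
        · linarith [h.1]
        · exact mul_nonneg (by norm_num) (ha p s)) hfl
  obtain ⟨q, E, hE, hq⟩ := h3 S P π δ a A B Z n η φ (1 / 5000) _ (1 / 10 ^ 6)
    (by exact_mod_cast hn1) hη hφ (by norm_num) (by positivity) (by norm_num) hπ hπ1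
    (fun p s => (hδ p s).1) (fun p => (hη2 p).2.1) hA (fun p => (hB p).2) hφ2 hF
  obtain ⟨ε0, hε0⟩ : E.Nonempty := card_pos.1 (by have := Nat.two_pow_pos n; omega)
  have hR := repr c1 c2 (δ := fun i => δ (q i)) (fun i => hκ (q i)) (fun i => hee (q i)) ε0
  obtain ⟨t, ht⟩ := fibre E U (fun ε => ∑ i, bz (ε0 i) (ε i) * τ (q i)) (fun ε hε => by
    obtain ⟨K, k1, k2⟩ := hR ε
    refine hU _ ((abs_sum_le_sum_abs _ _).trans ?_) (half_le k1 k2
      ((hq ε0 hε0).1.h1.trans (by linarith)) ((hq ε hε).1.h1.trans (by linarith)))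
    refine (sum_le_card_nsmul _ _ (N1 : ℤ) fun i _ => ?_).trans_eq (by simp)
    rw [abs_mul]
    exact (mul_le_of_le_one_left (abs_nonneg _) (bz_abs _ _)).trans (hτ _)) hE hUJ hn
  obtain ⟨ε, hε, ε', hε', hlow⟩ := h1 S n (fun i => B (q i)) η _ hη (fun i => hB (q i)) ht
    fun ε hε => (hq ε (mem_filter.1 hε).1).2.2.trans (by
      have e1 : n * (2 * β0 + 2 * (8 * η) * (10 ^ 6 * φ)) ≤ η / (324 * 900) := by
        nlinarith [mul_le_mul_of_nonneg_left n1 hη.le]
      nlinarith [mul_le_mul_of_nonneg_left e1 (show 0 ≤ n * η by positivity)])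
  rw [mem_filter] at hε hε'
  obtain ⟨K, k1, k2⟩ := hR ε
  obtain ⟨K', k1', k2'⟩ := hR ε'
  have hc : ∀ s, ee ((psi (fun i => δ (q i)) ε s - psi (fun i => δ (q i)) ε' s) / 2) * K' = K := by
    intro s
    have h0 : χ t s ≠ 0 := norm_ne_zero_iff.1 (by rw [c1]; exact one_ne_zero)
    refine mul_right_cancel₀ h0 ?_
    have e1 := k2 s
    have e2 := k2' s
    rw [hε.2] at e1
    rw [hε'.2] at e2
    rw [mul_assoc, ← e1, ← e2, ← ee_add]
    congr 1
    ring
  obtain ⟨c, hcu⟩ := h2 S n _ _ _ Z _ _ _ _ _ _ _ ζ ε ε' (fun i s => (hδ (q i) s).2.2.2) hZ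
    (hq ε hε.1).1 (hq ε' hε'.1).1 (by nlinarith) fun s s' =>
      mul_right_cancel₀ (norm_ne_zero_iff.1 (by rw [k1']; exact one_ne_zero))
        ((hc s).trans (hc s').symm)
  have e1 := lower (fun i => hAB (q i)) ε ε' c
  have e2 := upper hn1 hη hζ n1 n2 n4
  have e3 := (hq ε hε.1).2.1
  have e4 := (hq ε' hε'.1).2.1
  have e5 : 0 < n * η := by positivity
  linarith

end Pool.Agent.P.MP_b60056_nt.AA
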