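import Pool.Agent.P.MP_b60056_nt.AA.Api

namespace Pool.Agent.P.MP_b60056_nt.AA

open Finset Filter

namespace Dyad

theorem grow : ∃ W : ℕ, 10 ^ 30 ≤ W ∧ ∀ w : ℕ, W ≤ w → 2 * (w : ℝ) ^ 106 ≤ 2 ^ w := by
  obtain ⟨W, h⟩ := eventually_atTop.1 ((tendsto_pow_const_div_const_pow_of_one_lt 106
    (one_lt_two (α := ℝ))).eventually (eventually_le_nhds (show (0 : ℝ) < 1 / 2 by norm_num)))
  refine ⟨max W (10 ^ 30), le_max_right _ _, fun w hw => ?_⟩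
  have := h w ((le_max_left _ _).trans hw)
  rw [div_le_iff₀ (by positivity)] at this
  linarith

theorem exz {a : ℝ} (ha : 0 ≤ a) : ∃ z : ℕ, 0 < z ∧ a ≤ Real.log z ∧ Real.log z ≤ a + 1 := by
  have h1 := Nat.le_ceil (Real.exp a)
  have h2 := (Real.exp_pos a).trans_le h1
  refine ⟨⌈Real.exp a⌉₊, by exact_mod_cast h2, (Real.le_log_iff_exp_le h2).2 h1,
    (Real.log_le_iff_le_exp h2).2 ?_⟩
  rw [Real.exp_add]
  nlinarith [Nat.ceil_lt_add_one (Real.exp_pos a).le, Real.one_le_exp ha, Real.add_one_le_exp 1]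

theorem root {l k : ℝ} (hl : 0 ≤ l) (hk : 0 ≤ k) (h : l ^ 5 ≤ k ^ 11) :
    l ^ (1 / 11 : ℝ) ≤ k ^ (1 / 5 : ℝ) := by
  refine le_of_pow_le_pow_left₀ (n := 55) (by norm_num) (by positivity) ?_
  rw [← Real.rpow_natCast, ← Real.rpow_natCast, ← Real.rpow_mul hl, ← Real.rpow_mul hk]
  norm_num
  exact_mod_cast h

theorem bounds {R w L k : ℝ} (hw : 10 ^ 30 ≤ w) (h1 : w ^ 106 ≤ R) (h2 : R * w ^ 5 ≤ L)
    (h3 : L ≤ R * w ^ 5 + 1) (h0 : 0 ≤ k) (h4 : k * (2002 * L + 2) ≤ R ^ 2 + 1)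
    (h5 : R ^ 2 + 1 < (k + 1) * (2002 * L + 2)) :
    k * w ^ 5 ≤ R ∧ 2 * R ≤ k * w ^ 6 ∧ L ≤ 2 * (R * w ^ 5) := by
  have a1 : 1 ≤ w := by linarith
  have a2 : w ^ 6 ≤ R := (pow_le_pow_right₀ a1 (by norm_num)).trans h1
  have a3 : 1 ≤ w ^ 5 := one_le_pow₀ a1
  rw [pow_succ w 5] at a2 ⊢
  generalize w ^ 5 = v at *
  have a4 : 10 ^ 30 * v ≤ R := by nlinarith
  have a5 : 10 ^ 30 ≤ R := by nlinarith
  have a6 : R ≤ R * v := by nlinarith
  have a7 : R * R < (k + 1) * (2003 * (R * v)) := by nlinarith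
  have a8 : R < (k + 1) * 2003 * v := lt_of_mul_lt_mul_left (a := R) (by linarith) (by linarith)
  have a9 : 1 ≤ k := by nlinarith
  refine ⟨le_of_mul_le_mul_left (a := R) ?_ (by linarith), ?_, by linarith⟩
  · nlinarith [mul_le_mul_of_nonneg_left h2 h0]
  · nlinarith [mul_nonneg (mul_nonneg h0 (by linarith : 0 ≤ v)) (sub_nonneg.2 hw)]

end Dyad

theorem dyad (h1 : S_MAIN) : S_DYAD := by
  obtain ⟨W, hW, hg⟩ := Dyad.grow
  refine ⟨⌈Real.exp ((2 ^ W) ^ 2)⌉₊, fun X B hX hB hm => ?_⟩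
  have x1 : Real.exp ((2 ^ W) ^ 2) ≤ X := Nat.ceil_le.1 hX
  have x2 : (0 : ℝ) < X := (Real.exp_pos _).trans_le x1
  have x3 := (Real.le_log_iff_exp_le x2).2 x1
  have x4 : 0 < Real.log X := lt_of_lt_of_le (by positivity) x3
  obtain ⟨R, hR⟩ : ∃ R, R = √(Real.log X) := ⟨_, rfl⟩
  have r1 : R ^ 2 = Real.log X := by rw [hR, Real.sq_sqrt x4.le]
  have r2 : 2 ^ W ≤ R := hR ▸ Real.le_sqrt_of_sq_le x3
  have r3 : 1 ≤ R := (one_le_pow₀ one_le_two).trans r2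
  obtain ⟨n, n1, n2⟩ := exists_nat_pow_near r3 one_lt_two
  obtain ⟨w, hw⟩ : ∃ w, w = n + 1 := ⟨_, rfl⟩
  rw [← hw] at n2
  have w1 : W ≤ w := ((pow_lt_pow_iff_right₀ one_lt_two).1 (r2.trans_lt n2)).le
  have w2 : (10 : ℝ) ^ 30 ≤ w := by exact_mod_cast hW.trans w1
  have w3 : (w : ℝ) ^ 106 ≤ R := by
    have := hg w w1
    rw [hw, pow_succ (2 : ℝ), ← hw] at this
    linarith
  have w4 : (1 : ℝ) ≤ w := by linarith
  have w5 : (w : ℝ) ≤ Real.log (Real.log X) := by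
    have := Real.log_le_log (by positivity) n1
    rw [← r1, Real.log_pow]
    rw [Real.log_pow] at this
    have e : (w : ℝ) = n + 1 := by exact_mod_cast hw
    push_cast
    nlinarith [Real.log_two_gt_d9]
  obtain ⟨z, z0, z1, z2⟩ := Dyad.exz (a := R * w ^ 5) (by positivity)
  have z3 : 0 < 2002 * Real.log z + 2 := by linarith [Real.log_natCast_nonneg z]
  obtain ⟨k, hk⟩ : ∃ k, k = ⌊(R ^ 2 + 1) / (2002 * Real.log z + 2)⌋₊ := ⟨_, rfl⟩
  have k1 : k * (2002 * Real.log z + 2) ≤ R ^ 2 + 1 :=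
    (le_div_iff₀ z3).1 (hk ▸ Nat.floor_le (by positivity))
  have k2 : R ^ 2 + 1 < (k + 1) * (2002 * Real.log z + 2) :=
    (div_lt_iff₀ z3).1 (hk ▸ Nat.lt_floor_add_one _)
  have k0 : (0 : ℝ) ≤ k := Nat.cast_nonneg k
  obtain ⟨b1, b2, b3⟩ := Dyad.bounds w2 w3 z1 z2 k0 k1 k2
  have b4 : R ≤ k * w ^ 6 := by linarith
  refine (h1 w k z X B ⟨hW.trans w1, ?_, ?_, ?_, ?_⟩ (by linarith) (by linarith) hB
    fun m hm' ⟨h, e1, e2, e3⟩ => hm m hm' ⟨h, e1, ?_, e3⟩).trans ?_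
  · have : (w : ℝ) ^ 100 * w ^ 6 ≤ k * w ^ 6 := by rw [← pow_add]; exact w3.trans b4
    exact_mod_cast le_of_mul_le_mul_right this (by positivity)
  · have : (k : ℝ) ≤ 2 ^ w :=
      ((le_mul_of_one_le_right k0 (one_le_pow₀ w4)).trans b1).trans n2.le
    exact_mod_cast this
  · refine le_trans ?_ z1
    rw [show (k : ℝ) * w ^ 10 = k * w ^ 5 * w ^ 5 by ring]
    gcongr
  · refine b3.trans ?_
    rw [show (k : ℝ) * w ^ 11 = k * w ^ 6 * w ^ 5 by ring, ← mul_assoc]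
    gcongr
  · have m1 : Real.log X ≤ Real.log m :=
      Real.log_le_log x2 (by exact_mod_cast (mem_Ico.1 (hB hm')).1)
    have m2 : R * w ^ 6 ≤ √(Real.log m) * Real.log (Real.log m) ^ 6 := by
      have := w5.trans (Real.log_le_log x4 m1)
      rw [hR]
      gcongr
    refine (show (h : ℝ) ≤ z ^ 4100 by exact_mod_cast e2).trans ?_
    rw [← Real.log_le_iff_le_exp (by positivity), Real.log_pow]
    refine le_trans ?_ m2
    push_cast
    nlinarith [mul_nonneg (show 0 ≤ R * w ^ 5 by positivity) (sub_nonneg.2 w2)]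
  · refine mul_le_mul_of_nonneg_left (Real.exp_le_exp.2 (neg_le_neg (Dyad.root x4.le k0 ?_))) x2.le
    refine le_of_mul_le_mul_right (a := R) ?_ (by linarith)
    calc Real.log X ^ 5 * R = R ^ 11 := by rw [← r1]; ring
      _ ≤ ((k : ℝ) * w ^ 6) ^ 11 := by gcongr
      _ = (k : ℝ) ^ 11 * w ^ 66 := by ring
      _ ≤ (k : ℝ) ^ 11 * R := by
        gcongr
        exact (pow_le_pow_right₀ w4 (by norm_num)).trans w3

end Pool.Agent.P.MP_b60056_nt.AA
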