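import Pool.Agent.P.MP_b60056_nt.AA.Api

namespace Pool.Agent.P.MP_b60056_nt.AA

open Finset

namespace Em

noncomputable def G (t x : ℝ) : ℂ := x * ee (t * Real.log x)

noncomputable def c (t : ℝ) : ℂ := 1 + t * Complex.I

theorem c_sq (t : ℝ) : ‖c t‖ ^ 2 = 1 + t ^ 2 := by
  rw [Complex.sq_norm, Complex.normSq_apply]
  simp [c, sq]

theorem deriv (t : ℝ) {x : ℝ} (hx : x ≠ 0) : HasDerivAt (G t) (c t * ee (t * Real.log x)) x := by
  have h1 : HasDerivAt (fun x : ℝ => ((t * Real.log x : ℝ) : ℂ) * Complex.I)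
      (((t * x⁻¹ : ℝ) : ℂ) * Complex.I) x :=
    ((Real.hasDerivAt_log hx).const_mul t).ofReal_comp.mul_const _
  refine ((hasDerivAt_id x).ofReal_comp.mul h1.cexp).congr_deriv ?_
  have : (x : ℂ) ≠ 0 := Complex.ofReal_ne_zero.2 hx
  simp only [c, ee, id]
  push_cast
  field_simp

theorem step (t : ℝ) {a : ℝ} (ha : 0 < a) :
    ‖G t (a + 1) - G t a - c t * ee (t * Real.log (a + 1))‖ ≤ ‖c t‖ * (|t| / a) := by
  have h := norm_image_sub_le_of_norm_deriv_le_segment' (a := a) (b := a + 1)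
    (f := fun x => G t x - x * (c t * ee (t * Real.log (a + 1))))
    (f' := fun x => c t * ee (t * Real.log x) - c t * ee (t * Real.log (a + 1)))
    (C := ‖c t‖ * (|t| / a)) (fun x hx => by
      refine ((deriv t (ha.trans_le hx.1).ne').sub ?_).hasDerivWithinAt
      simpa using (hasDerivAt_id x).ofReal_comp.mul_const (c t * ee (t * Real.log (a + 1))))
    (fun x hx => by
      have hx0 := ha.trans_le hx.1
      rw [← mul_sub, norm_mul]
      refine mul_le_mul_of_nonneg_left ((norm_ee_sub_le _ _).trans ?_) (norm_nonneg _)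
      rw [← mul_sub, abs_mul, div_eq_mul_inv, abs_sub_comm,
        abs_of_nonneg (sub_nonneg.2 (Real.log_le_log hx0 hx.2.le))]
      refine mul_le_mul_of_nonneg_left ?_ (abs_nonneg _)
      have h1 := Real.log_le_log ha hx.1
      have h2 := Real.log_le_sub_one_of_pos (div_pos (add_pos ha one_pos) ha)
      rw [Real.log_div (by positivity) ha.ne', add_div, div_self ha.ne', one_div] at h2
      linarith) (a + 1) ⟨by linarith, le_rfl⟩
  rw [add_sub_cancel_left, mul_one] at h
  refine le_of_eq_of_le (congrArg norm ?_) h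
  push_cast
  ring

theorem tele (t : ℝ) {M N : ℕ} (hM : 1 ≤ M) (h : M ≤ N) :
    ‖G t N - G t M - c t * ∑ n ∈ Ioc M N, ee (t * Real.log n)‖ ≤
      ‖c t‖ * (((N : ℝ) - M) * (|t| / M)) := by
  induction N, h using Nat.le_induction with
  | base => simp
  | succ N h ih =>
    have h0 : (0 : ℝ) < M := Nat.cast_pos.2 hM
    have h1 : (M : ℝ) ≤ N := Nat.cast_le.2 h
    have h2 := (step t (h0.trans_le h1)).trans (mul_le_mul_of_nonneg_left
      (div_le_div_of_nonneg_left (abs_nonneg t) h0 h1) (norm_nonneg _))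
    rw [sum_Ioc_succ_top h, Nat.cast_succ]
    refine le_of_eq_of_le (congrArg norm ?_) ((norm_add_le_of_le ih h2).trans_eq (by ring))
    ring

theorem bound (t : ℝ) {M N : ℕ} (hM : 1 ≤ M) (h : M ≤ N) {B : ℝ}
    (hB : ‖G t N - G t M‖ ≤ ‖c t‖ * B) :
    ‖∑ n ∈ Ioc M N, ee (t * Real.log n)‖ ≤ B + ((N : ℝ) - M) * (|t| / M) := by
  have h0 : 0 < ‖c t‖ := (norm_nonneg _).lt_of_ne' fun e => by
    have := c_sq t
    rw [e] at this
    nlinarith [sq_nonneg t]
  refine le_of_mul_le_mul_left ?_ h0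
  rw [← norm_mul, mul_add, ← sub_sub_cancel (G t N - G t M) (c t * _)]
  exact norm_sub_le_of_le hB (tele t hM h)

theorem norm_G (t : ℝ) (n : ℕ) : ‖G t n‖ = n := by
  rw [G, norm_mul, norm_ee, mul_one, Complex.norm_real, Real.norm_natCast]

theorem two (t : ℝ) : ‖2 * ee (t * Real.log 2) - 1‖ ≤ ‖c t‖ * (1 - min (t ^ 2) 1 / 110) := by
  have hm : min (t ^ 2) 1 ≤ 1 := min_le_right _ _
  refine abs_le_of_sq_le_sq' ?_ (mul_nonneg (norm_nonneg _) (by linarith)) |>.2
  have h1 : ‖2 * ee (t * Real.log 2) - 1‖ ^ 2 = 5 - 4 * Real.cos (t * Real.log 2) := by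
    rw [Complex.sq_norm, Complex.normSq_apply]
    simp only [Complex.sub_re, Complex.mul_re, Complex.sub_im, Complex.mul_im, ee_re, ee_im,
      Complex.re_ofNat, Complex.im_ofNat, Complex.one_re, Complex.one_im]
    nlinarith [Real.sin_sq_add_cos_sq (t * Real.log 2)]
  have h2 := Real.one_sub_sq_div_two_le_cos (x := t * Real.log 2)
  have h3 : Real.log 2 ^ 2 ≤ 0.4805 := by
    nlinarith [Real.log_two_lt_d9, Real.log_two_gt_d9]
  have h4 := mul_le_mul_of_nonneg_left h3 (sq_nonneg t)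
  rw [h1, mul_pow, c_sq]
  rw [mul_pow] at h2
  have h5 := sq_nonneg t
  rcases le_total (t ^ 2) 1 with h | h
  · rw [min_eq_left h]
    nlinarith [mul_nonneg h5 (sub_nonneg.2 h), mul_nonneg (mul_nonneg h5 h5) h5, mul_nonneg h5 h5]
  · rw [min_eq_right h]
    nlinarith

end Em

open Em in
theorem em : S_EM := by
  refine ⟨fun y t hy => ?_, fun M N t hM h ht => ?_⟩
  · have h0 : (0 : ℝ) < y := Nat.cast_pos.2 hy
    refine (bound t hy (by omega) (B := y * (1 - min (t ^ 2) 1 / 110)) ?_).trans_eq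
      (by push_cast; ring)
    have h1 : G t (2 * y : ℕ) - G t y = G t y * (2 * ee (t * Real.log 2) - 1) := by
      rw [G, G, Nat.cast_mul, Nat.cast_ofNat, Real.log_mul two_ne_zero h0.ne', mul_add, ee_add]
      push_cast
      ring
    rw [h1, norm_mul, norm_G, mul_left_comm]
    exact mul_le_mul_of_nonneg_left (two t) h0.le
  · have h1 : 2 * (M : ℝ) ≤ N := by exact_mod_cast h
    have h0 : (0 : ℝ) < M := Nat.cast_pos.2 hM
    have h2 : |t| ≤ ‖c t‖ := abs_le_of_sq_le_sq (by rw [c_sq]; linarith) (norm_nonneg _)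
    have h3 := abs_pos.2 ht
    refine (bound t hM (by omega) (B := ((N : ℝ) - M) * (3 / |t|)) ?_).trans_eq (by ring)
    refine (norm_sub_le _ _).trans ?_
    rw [norm_G, norm_G]
    refine le_trans ?_ (mul_le_mul_of_nonneg_right h2 (mul_nonneg (by linarith) (by positivity)))
    rw [mul_left_comm, mul_div_cancel₀ _ h3.ne']
    linarith

end Pool.Agent.P.MP_b60056_nt.AA
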