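import Pool.Agent.P.MP_b60056_nt.AA.Api

/-! The characteristic function is not close to one. -/

namespace Pool.Agent.P.MP_b60056_nt.AA

open Finset MeasureTheory

namespace F1

theorem norm_sum_le_card (A : Finset ℕ) (t : ℝ) : ‖∑ a ∈ A, ee (t * Real.log a)‖ ≤ A.card :=
  (norm_sum_le _ _).trans (by simp [norm_ee])

theorem norm_Aa (A : Finset ℕ) (t : ℝ) : ‖Aa A t‖ ≤ 1 := by
  rw [Aa, norm_div, Complex.norm_natCast]
  exact div_le_one_of_le₀ (norm_sum_le_card A t) (Nat.cast_nonneg _)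

theorem card_add (y R : ℕ) :
    ((Sa y R).card : ℝ) + ((Ioc y (2 * y)).filter (fun a => R < Om a)).card = y := by
  have h := Finset.card_filter_add_card_filter_not (s := Ioc y (2 * y)) (fun a => Om a ≤ R)
  simp only [not_le, Nat.card_Ioc] at h
  rw [show 2 * y - y = y by omega] at h
  exact_mod_cast h

theorem trim {y R : ℕ} {t η : ℝ} (hy : 1 ≤ y) (h0 : 0 ≤ η) (h1 : η ≤ 1)
    (hd : (((Ioc y (2 * y)).filter (fun a => R < Om a)).card : ℝ) ≤ y * (η / 4))
    (hs : ‖∑ n ∈ Ioc y (2 * y), ee (t * Real.log n)‖ ≤ y * (1 - 7 / 4 * η)) :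
    ‖Aa (Sa y R) t‖ ≤ 1 - η := by
  have h2 := card_add y R
  have h3 := norm_sum_le_card ((Ioc y (2 * y)).filter (fun a => R < Om a)) t
  have h4 := Finset.sum_filter_add_sum_filter_not (Ioc y (2 * y)) (fun a => Om a ≤ R)
    fun n => ee (t * Real.log n)
  simp only [not_le] at h4
  have hy' : (1 : ℝ) ≤ y := by exact_mod_cast hy
  have h5 := norm_sub_le (∑ n ∈ Ioc y (2 * y), ee (t * Real.log n))
    (∑ n ∈ (Ioc y (2 * y)).filter (fun a => R < Om a), ee (t * Real.log n))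
  rw [← eq_sub_iff_add_eq.2 h4] at h5
  have h6 : (0 : ℝ) ≤ ((Ioc y (2 * y)).filter (fun a => R < Om a)).card := Nat.cast_nonneg _
  rw [Aa, norm_div, Complex.norm_natCast, div_le_iff₀ (by nlinarith)]
  unfold Sa at h2 ⊢
  nlinarith [mul_nonneg h0 h6]

variable {w k z : ℕ}

theorem w9 (h : Par w k z) : (10 : ℝ) ^ 30 ≤ (w : ℝ) ^ 9 :=
  h.wR.trans (le_self_pow₀ h.one_le_w (by norm_num))

theorem eta_le (h : Par w k z) : (w : ℝ) ^ 9 / k ≤ 1 / 220 := by
  rw [div_le_div_iff₀ h.k_pos (by norm_num)]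
  have h1 := h.pow_le_k (e := 10) (by norm_num)
  have h2 := mul_le_mul_of_nonneg_left h.wR (pow_nonneg h.w_pos.le 9)
  linarith [pow_nonneg h.w_pos.le 9]

theorem removed (h2 : S_OMEGA) (h : Par w k z) {y : ℕ} (hy : 1 ≤ y) (hy' : y ≤ z ^ 2001) :
    (((Ioc y (2 * y)).filter (fun a => 13 * w < Om a)).card : ℝ) ≤ y * ((w : ℝ) ^ 9 / k / 4) := by
  have h3 := h2 y (5 * w) (4 * w) hy
  rw [show 5 * w + 2 * (4 * w) = 13 * w by ring, pow_mul', pow_mul'] at h3
  refine h3.trans (mul_le_mul_of_nonneg_left ?_ (Nat.cast_nonneg _))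
  have hk : (k : ℝ) ≤ 2 ^ w := by exact_mod_cast h.hk2
  have hk0 := h.k_pos
  have hk1 := h.k_big
  generalize (2 : ℝ) ^ w = P at hk
  have hP : 1 ≤ P := by linarith
  have hy0 : (0 : ℝ) < y := by exact_mod_cast hy
  have h4 : Real.log (2 * y) ≤ 1 + 2001 * Real.log z := by
    have h5 : Real.log y ≤ Real.log ((z : ℝ) ^ 2001) :=
      Real.log_le_log hy0 (by exact_mod_cast hy')
    rw [Real.log_pow] at h5
    rw [Real.log_mul two_ne_zero hy0.ne']
    have := Real.log_two_lt_d9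
    push_cast at h5
    linarith
  have h5 : 1 + Real.log (2 * y) ≤ P ^ 4 := by
    have h6 := h.log_le_sq
    have h7 := h.log_big
    have h8 : (k : ℝ) ^ 2 ≤ P ^ 4 :=
      (pow_le_pow_left₀ hk0.le hk 2).trans (pow_le_pow_right₀ hP (by norm_num))
    linarith
  have h6 : 2 * (1 + Real.log (2 * y)) / P ^ 5 ≤ 2 / k := by
    rw [div_le_div_iff₀ (by positivity) hk0]
    have := mul_le_mul h5 hk hk0.le (by positivity)
    linarith
  have h7 : 4 / P ^ 4 ≤ 4 / k :=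
    div_le_div_of_nonneg_left (by norm_num) hk0 (hk.trans (le_self_pow₀ hP (by norm_num)))
  have h8 : 24 / (k : ℝ) ≤ (w : ℝ) ^ 9 / k :=
    div_le_div_of_nonneg_right (le_trans (by norm_num) (w9 h)) hk0.le
  have e : (2 : ℝ) / k + 4 / k = 24 / k / 4 := by ring
  linarith

theorem small (h1 : S_EM) (h : Par w k z) {t : ℝ} (ht : 220 * (w : ℝ) ^ 9 / k ≤ t ^ 2)
    (ht' : |t| ≤ (2 * (z : ℝ)) ^ 1000) :
    ‖∑ n ∈ Ioc (z ^ 2001) (2 * z ^ 2001), ee (t * Real.log n)‖ ≤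
      (z ^ 2001 : ℕ) * (1 - 7 / 4 * ((w : ℝ) ^ 9 / k)) := by
  have hz := h.z_pos
  have hkz : (k : ℝ) ≤ z := by exact_mod_cast h.k_le_z
  have hk := h.k_big
  refine (h1.1 _ t (Nat.one_le_pow _ _ (by exact_mod_cast hz))).trans
    (mul_le_mul_of_nonneg_left ?_ (Nat.cast_nonneg _))
  have h2 : 220 * ((w : ℝ) ^ 9 / k) ≤ min (t ^ 2) 1 :=
    le_min (by rwa [← mul_div_assoc]) (by linarith [eta_le h])
  have h3 : |t| / (z ^ 2001 : ℕ) ≤ 1 / k := by
    push_cast
    rw [div_le_div_iff₀ (by positivity) h.k_pos, one_mul]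
    have h4 : (2 * (z : ℝ)) ^ 1000 ≤ (z * z) ^ 1000 :=
      pow_le_pow_left₀ (by positivity) (by nlinarith) _
    calc |t| * k ≤ ((z : ℝ) * z) ^ 1000 * z :=
          mul_le_mul (ht'.trans h4) hkz h.k_pos.le (by positivity)
      _ = _ := by ring
  have h4 : 4 / (k : ℝ) ≤ (w : ℝ) ^ 9 / k :=
    div_le_div_of_nonneg_right (le_trans (by norm_num) (w9 h)) h.k_pos.le
  have e : (4 : ℝ) / k = 4 * (1 / k) := by ring
  linarith

theorem exp_neg_le {x : ℝ} (h0 : 0 ≤ x) (h1 : x ≤ 1) : Real.exp (-x) ≤ 1 - x / 2 := by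
  rw [Real.exp_neg, inv_le_iff_one_le_mul₀ (Real.exp_pos _)]
  have := mul_le_mul_of_nonneg_left (Real.add_one_le_exp x) (show 0 ≤ 1 - x / 2 by linarith)
  nlinarith

theorem large (h3 : S_VINO) (h : Par w k z) {t : ℝ} (ht : (2 * (z : ℝ)) ^ 1000 ≤ |t|)
    (ht' : |t| ≤ (z : ℝ) ^ (8012 * k)) :
    ‖∑ n ∈ Ioc z (2 * z), ee (t * Real.log n)‖ ≤ z * (1 - 7 / 4 * ((w : ℝ) ^ 9 / k)) := by
  have hz := h.z_pos
  have hk := h.k_big
  have hk0 := h.k_pos
  have hw := h.wR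
  have hl := h.log_big
  have hN : (0 : ℝ) < (2 * z : ℕ) := by push_cast; linarith
  have l2 := Real.log_two_lt_d9
  have eN : Real.log (2 * z : ℕ) = Real.log 2 + Real.log z := by
    push_cast; exact Real.log_mul two_ne_zero hz.ne'
  have hlN : (k : ℝ) * w * (w : ℝ) ^ 9 ≤ Real.log (2 * z : ℕ) := by
    have := Real.log_two_gt_d9
    have h4 := h.hz1
    rw [pow_succ', ← mul_assoc] at h4
    linarith
  have h9 := w9 h
  have hkw : (0 : ℝ) ≤ k * w := by positivity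
  have h4 := h3 z (2 * z) t (8012 * k) le_rfl
    (by rw [Real.rpow_def_of_pos hN]; exact h.exp_le_z (by rw [eN]; linarith)) (by linarith)
    (by exact_mod_cast ht)
    (by
      rw [show (8012 : ℝ) * k = (8012 * k : ℕ) by push_cast; rfl, Real.rpow_natCast]
      exact ht'.trans (pow_le_pow_left₀ hz.le (by push_cast; linarith) _))
    (by
      have h5 : Real.log (8012 * k) ≤ w := by
        rw [Real.log_mul (by norm_num) hk0.ne']
        have := Real.log_le_sub_one_of_pos (show (0 : ℝ) < 8012 by norm_num)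
        linarith [h.log_k_le]
      have h6 := mul_le_mul_of_nonneg_left h5 (show (0 : ℝ) ≤ 10 ^ 6 * (8012 * k) by positivity)
      have h7 := mul_le_mul_of_nonneg_left h9 hkw
      linarith)
  refine h4.trans ?_
  rw [show ((2 * z : ℕ) : ℝ) - z = z by push_cast; ring]
  refine mul_le_mul_of_nonneg_left ?_ hz.le
  have h5 : 4 * ((w : ℝ) ^ 9 / k) ≤ Real.log (2 * z : ℕ) / (10 ^ 11 * (8012 * k) ^ 2) := by
    rw [← mul_div_assoc, div_le_div_iff₀ hk0 (by positivity)]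
    have h6 := mul_le_mul_of_nonneg_right hlN hk0.le
    have h7 := mul_le_mul_of_nonneg_right hw (show (0 : ℝ) ≤ k ^ 2 * (w : ℝ) ^ 9 by positivity)
    have h8 : (0 : ℝ) ≤ k ^ 2 * (w : ℝ) ^ 9 := by positivity
    nlinarith
  have h6 := exp_neg_le (x := 4 * ((w : ℝ) ^ 9 / k)) (by positivity) (by linarith [eta_le h])
  have h7 : Real.exp (-Real.log (2 * z : ℕ) / (10 ^ 11 * (8012 * k) ^ 2)) ≤
      Real.exp (-(4 * ((w : ℝ) ^ 9 / k))) := Real.exp_le_exp.2 (by rw [neg_div]; linarith)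
  have h8 : 6 / ((2 * z : ℕ) : ℝ) ^ (1 / 3 : ℝ) ≤ 6 / (24 * k) := by
    refine div_le_div_of_nonneg_left (by norm_num) (by positivity) ?_
    rw [Real.rpow_def_of_pos hN]
    have h10 := Real.add_one_le_exp (Real.log (2 * z : ℕ) * (1 / 3))
    have h11 := mul_le_mul_of_nonneg_left h9 hkw
    have h12 := mul_le_mul_of_nonneg_left h.one_le_w hk0.le
    linarith
  have h10 : 1 / (k : ℝ) ≤ (w : ℝ) ^ 9 / k :=
    div_le_div_of_nonneg_right (le_trans (by norm_num) h9) hk0.le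
  have e : (6 : ℝ) / (24 * k) = 1 / k / 4 := by field_simp; norm_num
  linarith

end F1

open F1 in
theorem f1 (h1 : S_EM) (h2 : S_OMEGA) (h3 : S_VINO) : S_F1 := by
  intro w k z h
  have hz : 1 ≤ z := by exact_mod_cast h.z_pos
  have hy : 1 ≤ z ^ 2001 := Nat.one_le_pow _ _ hz
  have r1 := removed h2 h hy le_rfl
  have r2 := removed h2 h hz (Nat.le_self_pow (by norm_num) z)
  have he := eta_le h
  have h0 : 0 ≤ (w : ℝ) ^ 9 / k := by positivity
  have key : ∀ y : ℕ, (((Ioc y (2 * y)).filter (fun a => 13 * w < Om a)).card : ℝ) ≤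
      y * ((w : ℝ) ^ 9 / k / 4) → y ≤ 2 * (Sa y (13 * w)).card := fun y hy => by
    have h4 := card_add y (13 * w)
    have h5 := mul_le_mul_of_nonneg_left he (Nat.cast_nonneg (α := ℝ) y)
    have h6 : (y : ℝ) ≤ 2 * (Sa y (13 * w)).card := by
      linarith [Nat.cast_nonneg (α := ℝ) y]
    exact_mod_cast h6
  refine ⟨key _ r1, key _ r2, fun i hi hi' => ?_⟩
  have ht : |2 * Real.pi * i / (2 * k : ℕ)| ≤ (z : ℝ) ^ (8012 * k) := by
    have h4 : |(i : ℝ)| ≤ (z : ℝ) ^ (8012 * k) := by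
      have h5 : Tn k z ^ 4 ≤ z ^ (8012 * k) :=
        (Nat.pow_le_pow_left h.Tn_le 4).trans (by rw [← pow_mul]; exact le_of_eq (by ring_nf))
      have h6 : |i| ≤ ((z ^ (8012 * k) : ℕ) : ℤ) := hi'.trans (by exact_mod_cast h5)
      exact_mod_cast h6
    refine le_trans ?_ h4
    have hk := h.k_big
    rw [abs_div, abs_mul, abs_of_pos (by positivity : 0 < 2 * Real.pi), Nat.abs_cast,
      div_le_iff₀ (by push_cast; linarith)]
    push_cast
    nlinarith [Real.pi_le_four, abs_nonneg (i : ℝ)]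
  rw [Az, norm_mul]
  rcases le_total |2 * Real.pi * i / (2 * k : ℕ)| ((2 * (z : ℝ)) ^ 1000) with c | c
  · exact (mul_le_of_le_one_right (norm_nonneg _) (norm_Aa _ _)).trans
      (trim hy h0 (by linarith) r1 (small h1 h hi c))
  · exact (mul_le_of_le_one_left (norm_nonneg _) (norm_Aa _ _)).trans
      (trim hz h0 (by linarith) r2 (large h3 h c ht))

end Pool.Agent.P.MP_b60056_nt.AA
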