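import Pool.Agent.P.MP_b60056_nt.AA.Api

namespace Pool.Agent.P.MP_b60056_nt.AA

open Finset MeasureTheory

namespace F23

variable {w k z : ℕ}

theorem cf_le (h : Par w k z) {j : ℕ} (h1 : 1 ≤ j) (h2 : j ≤ k) :
    16 ^ j * (j : ℝ) ^ (2 * j * (13 * w)) ≤ Real.exp (19 * j * (w : ℝ) ^ 2) := by
  have hj : (1 : ℝ) ≤ j := by exact_mod_cast h1
  have hw := h.wR
  have e1 : (16 : ℝ) ≤ Real.exp 15 := by linarith [Real.add_one_le_exp (15 : ℝ)]
  have e2 : (j : ℝ) ≤ Real.exp (0.6932 * w) := by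
    rw [← Real.log_le_iff_le_exp (by linarith)]
    exact (Real.log_le_log (by linarith) (by exact_mod_cast h2)).trans h.log_k_le
  calc 16 ^ j * (j : ℝ) ^ (2 * j * (13 * w))
      ≤ Real.exp 15 ^ j * Real.exp (0.6932 * w) ^ (2 * j * (13 * w)) := by gcongr
    _ = Real.exp (j * (15 + 18.0232 * (w : ℝ) ^ 2)) := by
      rw [← Real.exp_nat_mul, ← Real.exp_nat_mul, ← Real.exp_add]
      congr 1
      push_cast
      ring
    _ ≤ _ := by
      refine Real.exp_le_exp.2 ?_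
      have : (15 : ℝ) + 18.0232 * (w : ℝ) ^ 2 ≤ 19 * (w : ℝ) ^ 2 := by nlinarith
      nlinarith

theorem b0_le (h : Par w k z) :
    1 + ((2 * k : ℕ) : ℝ) * (1 + Real.log (2 * ((Tn k z ^ 4 : ℕ) : ℝ) + 1)) ≤
      Real.exp (4 * w) := by
  have hk := h.k_big
  have hz := h.z_pos
  have hl := h.log_big
  have t1 : (1 : ℝ) ≤ Tn k z := by
    exact_mod_cast (le_trans Nat.one_le_two_pow h.two_pow_le_z).trans h.z_le_Tn
  have t2 : Real.log (Tn k z) ≤ 2003 * k * Real.log z := by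
    have : (Tn k z : ℝ) ≤ (z : ℝ) ^ (2003 * k) := by exact_mod_cast h.Tn_le
    have := Real.log_le_log (by linarith) this
    rw [Real.log_pow] at this
    push_cast at this
    exact this
  have t3 : (1 : ℝ) ≤ (Tn k z : ℝ) ^ 4 := one_le_pow₀ t1
  have t4 : Real.log (2 * (Tn k z : ℝ) ^ 4 + 1) ≤ 2 + 4 * Real.log (Tn k z) := by
    have := Real.log_le_log (by positivity) (show 2 * (Tn k z : ℝ) ^ 4 + 1 ≤ 3 * (Tn k z : ℝ) ^ 4 by
      linarith)
    rw [Real.log_mul (by norm_num) (by positivity), Real.log_pow] at this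
    have h3 := Real.log_le_sub_one_of_pos (show (0 : ℝ) < 3 by norm_num)
    push_cast at this
    linarith
  have t5 : 8012 * k * Real.log z ≤ (k : ℝ) ^ 3 := by
    have := h.log_le_sq
    nlinarith
  have t6 : (k : ℝ) ^ 5 ≤ Real.exp (4 * w) := by
    rw [← Real.log_le_iff_le_exp (by positivity), Real.log_pow]
    have := h.log_k_le
    have := h.w_pos
    push_cast
    linarith
  refine le_trans ?_ t6
  push_cast
  have t7 : 1 + Real.log (2 * (Tn k z : ℝ) ^ 4 + 1) ≤ 3 + (k : ℝ) ^ 3 := by linarith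
  have t8 : (10 : ℝ) ≤ (k : ℝ) ^ 3 := le_trans (by linarith) (le_self_pow₀ (by linarith) (by norm_num))
  calc 1 + 2 * (k : ℝ) * (1 + Real.log (2 * (Tn k z : ℝ) ^ 4 + 1))
      ≤ 1 + 2 * (k : ℝ) * (3 + (k : ℝ) ^ 3) := by gcongr
    _ ≤ k * (4 * (k : ℝ) ^ 3) := by nlinarith
    _ ≤ k * (k * (k : ℝ) ^ 3) := by gcongr; linarith
    _ = _ := by ring

theorem core (h1 : S_COUNT) (h2 : S_F1) (h3 : S_DEC) (h : Par w k z) {j : ℕ} (j1 : 1 ≤ j)
    (j2 : j ≤ k) {v : ℝ} (hv : 20 * (w : ℝ) ^ 2 + 2 * v ≤ (j : ℝ) ^ 2 * (w : ℝ) ^ 9 / k)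
    (A : Finset ℤ) (hA : ∀ i ∈ A, |i| ≤ Tn k z ^ 4 ∧ Real.exp (-v) ≤ ‖Az w k z i‖) :
    ∑ i ∈ A, ‖Az w k z i‖ ^ (2 * j) ≤ Real.exp (20 * j * (w : ℝ) ^ 2) := by
  have hj : (1 : ℝ) ≤ j := by exact_mod_cast j1
  have hw := h.wR
  have hk := h.k_big
  have c := cf_le h j1 j2
  obtain ⟨f1, f2, -⟩ := h2 w k z h
  obtain ⟨d1, d2⟩ := h3 w k z j h j1 j2
  have hw2 : 1 + 4 * (w : ℝ) ≤ j * (w : ℝ) ^ 2 := by nlinarith
  have e2 : (2 : ℝ) ≤ Real.exp 1 := by linarith [Real.add_one_le_exp (1 : ℝ)]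
  refine (h1 z j (13 * w) (2 * k) (Tn k z ^ 4) (Real.exp (-v)) _ A h.two_pow_le_z j1 (by omega) f1 f2
    (fun i hi => by exact_mod_cast (hA i hi).1) (fun τ t1 t2 => d2 τ t1 (t2.trans ?_)) d1
    (Real.exp_pos _) (fun i hi => (hA i hi).2) ?_).trans ?_
  · push_cast
    rw [div_le_iff₀ (by linarith)]
    have : 4 * Real.pi ≤ 2 * k := by linarith [Real.pi_le_four]
    rw [mul_comm ((Tn k z : ℝ) ^ 4)]
    gcongr
  · calc 2 * (16 ^ j * (j : ℝ) ^ (2 * j * (13 * w))) *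
          (2 * Real.exp (-((j : ℝ) ^ 3 * (w : ℝ) ^ 9 / k)))
        ≤ Real.exp 1 * Real.exp (19 * j * (w : ℝ) ^ 2) *
          (Real.exp 1 * Real.exp (-((j : ℝ) ^ 3 * (w : ℝ) ^ 9 / k))) := by gcongr
      _ ≤ _ := by
        rw [← Real.exp_nat_mul, ← Real.exp_add, ← Real.exp_add, ← Real.exp_add]
        refine Real.exp_le_exp.2 ?_
        have := mul_le_mul_of_nonneg_left hv (show (0 : ℝ) ≤ j by linarith)
        have e : (j : ℝ) * ((j : ℝ) ^ 2 * (w : ℝ) ^ 9 / k) = (j : ℝ) ^ 3 * (w : ℝ) ^ 9 / k := by ring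
        push_cast
        linarith
  · have b := b0_le h
    have b1 : (0 : ℝ) ≤ 1 + ((2 * k : ℕ) : ℝ) * (1 + Real.log (2 * ((Tn k z ^ 4 : ℕ) : ℝ) + 1)) := by
      have : 0 ≤ Real.log (2 * ((Tn k z ^ 4 : ℕ) : ℝ) + 1) :=
        Real.log_nonneg (le_add_of_nonneg_left (by positivity))
      positivity
    calc _ ≤ Real.exp 1 * Real.exp (19 * j * (w : ℝ) ^ 2) * Real.exp (4 * w) := by gcongr
      _ ≤ _ := by
        rw [← Real.exp_add, ← Real.exp_add]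
        exact Real.exp_le_exp.2 (by linarith)

theorem ceil_spec {x : ℝ} (hx : 1 ≤ x) : ∃ j : ℕ, 1 ≤ j ∧ x ≤ j ∧ (j : ℝ) ≤ 2 * x :=
  ⟨⌈x⌉₊, Nat.ceil_pos.2 (by linarith), Nat.le_ceil x,
    by linarith [Nat.ceil_lt_add_one (show 0 ≤ x by linarith)]⟩

end F23

open F23 in
theorem f23 (h1 : S_COUNT) (h2 : S_F1) (h3 : S_DEC) : S_F23 := by
  intro w k z h
  have hw := h.wR
  have hk := h.k_big
  have hw0 := h.w_pos
  have hk0 := h.k_pos
  have w2 : (10 : ℝ) ^ 30 ≤ (w : ℝ) ^ 2 := hw.trans (le_self_pow₀ h.one_le_w (by norm_num))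
  have w3 : (10 : ℝ) ^ 30 ≤ (w : ℝ) ^ 3 := hw.trans (le_self_pow₀ h.one_le_w (by norm_num))
  refine ⟨fun A hA => ?_, fun A m1 hm hA => ?_⟩
  · have s1 : 100 * (w : ℝ) ^ 3 ≤ √k := by
      refine Real.le_sqrt_of_sq_le (le_trans ?_ (h.pow_le_k (e := 7) (by norm_num)))
      have : (0 : ℝ) < (w : ℝ) ^ 6 := by positivity
      nlinarith
    have s2 : √(k : ℝ) ^ 2 = k := Real.sq_sqrt hk0.le
    obtain ⟨j, j1, j2, j3⟩ := ceil_spec ((one_le_div (by positivity)).2 s1)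
    rw [div_le_iff₀ (by positivity)] at j2
    rw [← mul_div_assoc, le_div_iff₀ (by positivity)] at j3
    have hj : (1 : ℝ) ≤ j := by exact_mod_cast j1
    have j4 : j ≤ k := by
      have : (j : ℝ) ≤ k := by nlinarith
      exact_mod_cast this
    have := core h1 h2 h3 h j1 j4 (v := 1) (by
      rw [le_div_iff₀ hk0]
      have e1 : (k : ℝ) ≤ (j * (100 * (w : ℝ) ^ 3)) ^ 2 := by
        rw [← s2]
        gcongr
      have e2 : (20 * (w : ℝ) ^ 2 + 2 * 1) * 10000 ≤ (w : ℝ) ^ 3 := by nlinarith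
      calc (20 * (w : ℝ) ^ 2 + 2 * 1) * k
          ≤ (20 * (w : ℝ) ^ 2 + 2 * 1) * (j * (100 * (w : ℝ) ^ 3)) ^ 2 := by gcongr
        _ = (20 * (w : ℝ) ^ 2 + 2 * 1) * 10000 * ((j : ℝ) ^ 2 * (w : ℝ) ^ 6) := by ring
        _ ≤ (w : ℝ) ^ 3 * ((j : ℝ) ^ 2 * (w : ℝ) ^ 6) := by gcongr
        _ = _ := by ring) A fun i hi => ⟨(hA i hi).1, le_trans (by
          rw [Real.exp_neg, one_div]
          exact inv_anti₀ two_pos (by linarith [Real.add_one_le_exp (1 : ℝ)])) (hA i hi).2⟩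
    have e3 : (A.card : ℝ) * Real.exp (-1) ^ (2 * j) ≤ ∑ i ∈ A, ‖Az w k z i‖ ^ (2 * j) := by
      rw [← nsmul_eq_mul]
      refine Finset.card_nsmul_le_sum _ _ _ fun i hi => pow_le_pow_left₀ (Real.exp_pos _).le
        (le_trans ?_ (hA i hi).2) _
      rw [Real.exp_neg, one_div]
      exact inv_anti₀ two_pos (by linarith [Real.add_one_le_exp (1 : ℝ)])
    have e4 := e3.trans this
    rw [← Real.exp_nat_mul, ← le_div_iff₀ (Real.exp_pos _), ← Real.exp_sub] at e4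
    refine e4.trans (Real.exp_le_exp.2 ?_)
    rw [le_div_iff₀ hw0]
    push_cast
    have : (j : ℝ) * (2 * w) ≤ j * (w : ℝ) ^ 3 := by
      gcongr
      nlinarith
    nlinarith
  · obtain ⟨j, j1, j2, j3⟩ := ceil_spec ((one_le_div (by positivity)).2
      (h.pow_le_k (e := 3) (by norm_num)))
    rw [div_le_iff₀ (by positivity)] at j2
    rw [← mul_div_assoc, le_div_iff₀ (by positivity)] at j3
    have hj : (1 : ℝ) ≤ j := by exact_mod_cast j1
    have j4 : 2 * j ≤ k := by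
      have : 2 * (j : ℝ) ≤ k := by nlinarith
      exact_mod_cast this
    have := core h1 h2 h3 h j1 (by omega) (v := 11 * k * (w : ℝ) ^ 2) (by
      rw [le_div_iff₀ hk0]
      have e1 : (k : ℝ) ^ 2 ≤ (j * (w : ℝ) ^ 3) ^ 2 := by gcongr
      have e2 : 20 * (w : ℝ) ^ 2 + 2 * (11 * k * (w : ℝ) ^ 2) ≤ k * (w : ℝ) ^ 3 := by
        have : (20 : ℝ) + 22 * k ≤ k * w := by nlinarith
        nlinarith
      calc (20 * (w : ℝ) ^ 2 + 2 * (11 * k * (w : ℝ) ^ 2)) * k ≤ k * (w : ℝ) ^ 3 * k := by gcongr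
        _ = (k : ℝ) ^ 2 * (w : ℝ) ^ 3 := by ring
        _ ≤ (j * (w : ℝ) ^ 3) ^ 2 * (w : ℝ) ^ 3 := by gcongr
        _ = _ := by ring) A fun i hi => ⟨(hA i hi).1, (hA i hi).2.1⟩
    have e3 : ∀ i ∈ A, ‖Az w k z i‖ ^ (2 * m1) ≤
        Real.exp (-(0.69 * (k - 2 * j))) * ‖Az w k z i‖ ^ (2 * j) := fun i hi => by
      obtain ⟨r, hr⟩ : ∃ r, 2 * m1 = r + 2 * j := ⟨2 * m1 - 2 * j, by omega⟩
      have hr' : (k : ℝ) - 2 * j ≤ r := by
        have : k ≤ r + 2 * j := by omega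
        have : (k : ℝ) ≤ r + 2 * j := by exact_mod_cast this
        linarith
      rw [hr, pow_add]
      gcongr
      calc ‖Az w k z i‖ ^ r ≤ Real.exp (-0.69) ^ r := by
            refine pow_le_pow_left₀ (norm_nonneg _) ((hA i hi).2.2.trans ?_) r
            rw [← Real.log_le_iff_le_exp (by norm_num), one_div, Real.log_inv]
            linarith [Real.log_two_gt_d9]
        _ ≤ _ := by
            rw [← Real.exp_nat_mul]
            exact Real.exp_le_exp.2 (by linarith)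
    refine (Finset.sum_le_sum e3).trans ?_
    rw [← Finset.mul_sum]
    refine (mul_le_mul_of_nonneg_left this (Real.exp_pos _).le).trans ?_
    rw [← Real.exp_add]
    refine Real.exp_le_exp.2 ?_
    have e4 : 1000 * (20 * (w : ℝ) ^ 2 + 2) ≤ (w : ℝ) ^ 3 := by nlinarith
    have e5 := mul_le_mul_of_nonneg_left e4 (show (0 : ℝ) ≤ j by linarith)
    linarith

end Pool.Agent.P.MP_b60056_nt.AA
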