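import Pool.Agent.P.MP_b60056_nt.AA.Api

/-! Summation over dyadic blocks. -/

namespace Pool.Agent.P.MP_b60056_nt.AA

open Finset MeasureTheory

namespace Final

theorem root_le {L : ℝ} (hL : 4096 ≤ L) : L ^ (1 / 12 : ℝ) ≤ (L / 2) ^ (1 / 11 : ℝ) := by
  have h0 : 0 < L := by linarith
  rw [Real.rpow_def_of_pos h0, Real.rpow_def_of_pos (by linarith), Real.log_div h0.ne' two_ne_zero]
  refine Real.exp_le_exp.2 ?_
  have := Real.log_le_log (by norm_num) hL
  rw [show (4096 : ℝ) = 2 ^ 12 by norm_num, Real.log_pow] at this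
  push_cast at this
  linarith

theorem blocks (p : ℕ → Prop) [DecidablePred p] {X0 X : ℕ}
    (h : ∀ (Y : ℕ) (B : Finset ℕ), X0 ≤ Y → B ⊆ Ico Y (2 * Y) → (∀ m ∈ B, p m) →
      (B.card : ℝ) ≤ Y * Real.exp (-(Real.log Y) ^ (1 / 11 : ℝ)))
    (h0 : X0 ^ 2 ≤ X) (hL : 4096 ≤ Real.log X) (i : ℕ) :
    (((range (2 ^ i)).filter p).card : ℝ) ≤
      2 ^ i * Real.exp (-(Real.log X) ^ (1 / 12 : ℝ)) + 2 * √X := by
  have hX : (1 : ℝ) ≤ X := by
    by_contra e
    have : X = 0 := by have : X < 1 := by exact_mod_cast not_le.1 e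
                       omega
    rw [this, Nat.cast_zero, Real.log_zero] at hL
    linarith
  have triv : ∀ j : ℕ, (2 : ℝ) ^ j ≤ 2 * √X → (((range (2 ^ j)).filter p).card : ℝ) ≤
      2 ^ j * Real.exp (-(Real.log X) ^ (1 / 12 : ℝ)) + 2 * √X := fun j hj => by
    have h1 : (((range (2 ^ j)).filter p).card : ℝ) ≤ 2 ^ j := by
      exact_mod_cast (card_filter_le _ _).trans (card_range _).le
    exact (h1.trans hj).trans (le_add_of_nonneg_left (by positivity))
  induction i with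
  | zero => exact triv 0 (by rw [pow_zero]; linarith [Real.one_le_sqrt.2 hX])
  | succ i ih =>
    by_cases e : (2 ^ i) ^ 2 ≤ X
    · refine triv _ ?_
      rw [pow_succ']
      exact mul_le_mul_of_nonneg_left (Real.le_sqrt_of_sq_le (by exact_mod_cast e)) zero_le_two
    · have h1 : X0 ≤ 2 ^ i := (pow_le_pow_iff_left₀ (Nat.zero_le _) (Nat.zero_le _) two_ne_zero).1
        (h0.trans (not_le.1 e).le)
      have h2 := h (2 ^ i) ((Ico (2 ^ i) (2 * 2 ^ i)).filter p) h1 (filter_subset _ _)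
        fun m hm => (mem_filter.1 hm).2
      have h3 : Real.log X / 2 ≤ Real.log ((2 ^ i : ℕ) : ℝ) := by
        have := Real.log_le_log (by linarith) (Nat.cast_le.2 (not_le.1 e).le :
          (X : ℝ) ≤ (((2 ^ i) ^ 2 : ℕ) : ℝ))
        rw [Nat.cast_pow, Real.log_pow] at this
        push_cast at this ⊢
        linarith
      have h4 : Real.exp (-(Real.log ((2 ^ i : ℕ) : ℝ)) ^ (1 / 11 : ℝ)) ≤
          Real.exp (-(Real.log X) ^ (1 / 12 : ℝ)) :=
        Real.exp_le_exp.2 (neg_le_neg ((root_le hL).trans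
          (Real.rpow_le_rpow (by linarith) h3 (by norm_num))))
      have h5 := h2.trans (mul_le_mul_of_nonneg_left h4 (Nat.cast_nonneg _))
      have h6 : ((range (2 ^ (i + 1))).filter p).card ≤ ((range (2 ^ i)).filter p).card +
          ((Ico (2 ^ i) (2 * 2 ^ i)).filter p).card := by
        refine le_trans (card_le_card fun m hm => ?_) (card_union_le _ _)
        simp only [mem_union, mem_filter, mem_range, mem_Ico, pow_succ'] at hm ⊢
        by_cases e' : m < 2 ^ i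
        exacts [Or.inl ⟨e', hm.2⟩, Or.inr ⟨⟨not_lt.1 e', hm.1⟩, hm.2⟩]
      have h7 := (Nat.cast_le (α := ℝ)).2 h6
      rw [Nat.cast_add] at h7
      rw [Nat.cast_pow, Nat.cast_ofNat] at h5
      rw [pow_succ (2 : ℝ)]
      linarith

end Final

theorem final (h1 : S_DYAD) : S_FINAL := by
  classical
  obtain ⟨X0, h⟩ := h1
  obtain ⟨X1, hX1⟩ := exists_nat_ge (Real.exp 4096)
  refine ⟨4 + Real.exp (Real.log ((X0 ^ 2 + X1 : ℕ) : ℝ) ^ (1 / 12 : ℝ)), fun X hX => ?_⟩
  have hX' : (2 : ℝ) ≤ X := by exact_mod_cast hX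
  have hE := Real.exp_pos (-(Real.log X) ^ (1 / 12 : ℝ))
  generalize hp : (fun m : ℕ => ¬ ∃ h : ℕ, 0 < h ∧
    (h : ℝ) ≤ Real.exp (Real.sqrt (Real.log m) * Real.log (Real.log m) ^ 6) ∧ Good m h) = p
  have hp' : ∀ m : ℕ, (¬ ∃ h : ℕ, 0 < h ∧ (h : ℝ) ≤
      Real.exp (Real.sqrt (Real.log m) * Real.log (Real.log m) ^ 6) ∧ Good m h) = p m :=
    fun m => congrFun hp m
  simp only [hp'] at h ⊢
  by_cases e : X0 ^ 2 + X1 ≤ X
  · have hL : 4096 ≤ Real.log X := (Real.le_log_iff_exp_le (by linarith)).2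
      (hX1.trans (Nat.cast_le.2 (by omega)))
    have h2 := Final.blocks p h (show X0 ^ 2 ≤ X by omega) hL (Nat.log 2 X + 1)
    have h3 : Set.ncard {m : ℕ | 2 ≤ m ∧ m ≤ X ∧ p m} ≤
        ((range (2 ^ (Nat.log 2 X + 1))).filter p).card := by
      rw [← Set.ncard_coe_finset]
      refine Set.ncard_le_ncard (fun m hm => ?_) (finite_toSet _)
      exact mem_coe.2 (mem_filter.2 ⟨mem_range.2
        (hm.2.1.trans_lt (Nat.lt_pow_succ_log_self one_lt_two X)), hm.2.2⟩)
    have h4 : (2 : ℝ) ^ (Nat.log 2 X + 1) ≤ 2 * X := by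
      rw [pow_succ']
      exact_mod_cast Nat.mul_le_mul_left 2 (Nat.pow_log_le_self 2 (by omega))
    have h5 : √X ≤ X * Real.exp (-(Real.log X) ^ (1 / 12 : ℝ)) := by
      have h6 : (Real.log X) ^ (1 / 12 : ℝ) ≤ Real.log X / 2 :=
        (Final.root_le hL).trans (Real.rpow_le_self_of_one_le (by linarith) (by norm_num))
      rw [Real.sqrt_eq_rpow, Real.rpow_def_of_pos (by linarith)]
      nth_rw 2 [← Real.exp_log (show (0 : ℝ) < X by linarith)]
      rw [← Real.exp_add]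
      exact Real.exp_le_exp.2 (by linarith)
    have h6 := ((Nat.cast_le (α := ℝ)).2 h3).trans h2
    have h7 := mul_le_mul_of_nonneg_right h4 hE.le
    have h8 : 0 ≤ Real.exp (Real.log ((X0 ^ 2 + X1 : ℕ) : ℝ) ^ (1 / 12 : ℝ)) * X *
      Real.exp (-(Real.log X) ^ (1 / 12 : ℝ)) := by positivity
    linarith
  · have h3 : Set.ncard {m : ℕ | 2 ≤ m ∧ m ≤ X ∧ p m} ≤ X := by
      refine le_trans (Set.ncard_le_ncard (t := (Icc 1 X : Finset ℕ)) (fun m hm => ?_)
        (finite_toSet _)) (by rw [Set.ncard_coe_finset]; simp)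
      exact mem_coe.2 (mem_Icc.2 ⟨one_le_two.trans hm.1, hm.2.1⟩)
    have h4 : 1 ≤ Real.exp (Real.log ((X0 ^ 2 + X1 : ℕ) : ℝ) ^ (1 / 12 : ℝ)) *
        Real.exp (-(Real.log X) ^ (1 / 12 : ℝ)) := by
      rw [← Real.exp_add]
      refine Real.one_le_exp (sub_nonneg.2 (Real.rpow_le_rpow (Real.log_nonneg (by linarith))
        (Real.log_le_log (by linarith) (Nat.cast_le.2 (not_le.1 e).le)) (by norm_num)))
    have h5 := (Nat.cast_le (α := ℝ)).2 h3
    have h6 := mul_le_mul_of_nonneg_left h4 (Nat.cast_nonneg (α := ℝ) X)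
    have h7 : 0 ≤ X * Real.exp (-(Real.log X) ^ (1 / 12 : ℝ)) := by positivity
    linarith

end Pool.Agent.P.MP_b60056_nt.AA
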