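import Pool.Agent.P.MP_b60056_nt.AA.Api

namespace Pool.Agent.P.MP_b60056_nt.AA

open Finset MeasureTheory

namespace Game

/-- Separation of a convex set from an open orthant. -/
theorem sep {P : Type} [Fintype P] {B : Set (P → ℝ)} (hB : Convex ℝ B) (hne : B.Nonempty)
    (hd : ∀ x ∈ B, ¬ ∀ p, 2 < x p) :
    ∃ π : P → ℝ, (∀ p, 0 ≤ π p) ∧ ∑ p, π p = 1 ∧ ∀ x ∈ B, ∑ p, π p * x p ≤ 2 := by
  classical
  have hO : IsOpen {x : P → ℝ | ∀ p, 2 < x p} := by
    rw [Set.ofPred_forall]
    exact isOpen_iInter_of_finite fun p => isOpen_lt continuous_const (continuous_apply p)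
  have hC : Convex ℝ {x : P → ℝ | ∀ p, 2 < x p} := fun x hx y hy s t hs ht hst p =>
    convex_Ioi (2 : ℝ) (hx p) (hy p) hs ht hst
  obtain ⟨f, u, h1, h2⟩ := geometric_hahn_banach_open hC hO hB
    (Set.disjoint_left.2 fun x hx hx' => hd x hx' hx)
  let c : P → ℝ := fun p => -f fun j => if p = j then 1 else 0
  have hf : ∀ x, f x = -∑ p, c p * x p := fun x => by
    rw [show f x = _ from LinearMap.pi_apply_eq_sum_univ (f : (P → ℝ) →ₗ[ℝ] ℝ) x,
      ← Finset.sum_neg_distrib]
    exact Finset.sum_congr rfl fun p _ => by simp [c, mul_comm]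
  have hc : ∀ p, 0 ≤ c p := fun p => by
    by_contra hn
    have hn : 0 < -c p := by linarith
    have ht : 0 ≤ (|u| + |3 * ∑ q, c q|) / -c p := by positivity
    have := h1 (fun q => 3 + if q = p then (|u| + |3 * ∑ q, c q|) / -c p else 0) fun q => by
      dsimp only
      split_ifs <;> linarith
    rw [hf] at this
    simp only [mul_add, Finset.sum_add_distrib, mul_ite, mul_zero, Finset.sum_ite_eq',
      Finset.mem_univ, if_true, ← Finset.sum_mul] at this
    have e : c p * ((|u| + |3 * ∑ q, c q|) / -c p) = -(|u| + |3 * ∑ q, c q|) := by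
      have : c p ≠ 0 := by linarith
      field_simp
    rw [e] at this
    linarith [le_abs_self u, le_abs_self (3 * ∑ q, c q)]
  have h3 : ∀ ε > (0 : ℝ), -((∑ p, c p) * (2 + ε)) < u := fun ε hε => by
    have := h1 (fun _ => 2 + ε) fun _ => by linarith
    rwa [hf, ← Finset.sum_mul] at this
  have hσ : 0 < ∑ p, c p := by
    refine (Finset.sum_nonneg fun p _ => hc p).lt_of_ne fun h0 => ?_
    have h4 := (Finset.sum_eq_zero_iff_of_nonneg fun p _ => hc p).1 h0.symm
    obtain ⟨x, hx⟩ := hne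
    have h5 := h2 x hx
    have h6 := h3 1 one_pos
    rw [hf, Finset.sum_eq_zero fun p hp => by rw [h4 p hp, zero_mul]] at h5
    rw [← h0] at h6
    linarith
  have h4 : -(2 * ∑ p, c p) ≤ u := by
    by_contra hn
    have := h3 ((-(2 * ∑ p, c p) - u) / ∑ p, c p) (div_pos (by linarith) hσ)
    rw [mul_add, mul_div_cancel₀ _ hσ.ne'] at this
    linarith
  refine ⟨fun p => c p / ∑ p, c p, fun p => div_nonneg (hc p) hσ.le, ?_, fun x hx => ?_⟩
  · rw [← Finset.sum_div, div_self hσ.ne']
  · have := h2 x hx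
    rw [hf] at this
    simp only [div_mul_eq_mul_div]
    rw [← Finset.sum_div, div_le_iff₀ hσ]
    linarith

variable {S P : Type} [Fintype S]

/-- The payoff vectors. -/
def Pay (a d : P → S → ℝ) (LH η δ2 : ℝ) : Set (P → ℝ) :=
  {x | ∃ ω : S → ℝ, (∀ s, 0 ≤ ω s ∧ ω s ≤ LH) ∧ av ω = 1 ∧
    ∃ (N : ℕ) (g : Fin N → S → ℝ), (∀ j, av (g j) = 0) ∧ ∑ j, av (fun s => g j s ^ 2) ≤ 1 ∧
      ∀ p, x p = av (fun s => ω s * a p s) / η + (∑ j, av (fun s => g j s * d p s) ^ 2) / δ2}

theorem sq_scale {t : ℝ} (ht : 0 ≤ t) (g : S → ℝ) :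
    av (fun s => (√t * g s) ^ 2) = t * av (fun s => g s ^ 2) := by
  rw [← av_mul_left]
  exact av_congr fun s => by rw [mul_pow, Real.sq_sqrt ht]

theorem mul_scale {t : ℝ} (ht : 0 ≤ t) (g d : S → ℝ) :
    av (fun s => √t * g s * d s) ^ 2 = t * av (fun s => g s * d s) ^ 2 := by
  simp only [mul_assoc]
  rw [av_mul_left, mul_pow, Real.sq_sqrt ht]

theorem convex_Pay (a d : P → S → ℝ) (LH η δ2 : ℝ) : Convex ℝ (Pay a d LH η δ2) := by
  rintro x ⟨ω, h1, h2, N, g, h3, h4, h5⟩ y ⟨ω', h1', h2', N', g', h3', h4', h5'⟩ s t hs ht hst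
  refine ⟨fun z => s * ω z + t * ω' z, fun z => ⟨?_, ?_⟩, ?_, N + N',
    Fin.append (fun j z => √s * g j z) (fun j z => √t * g' j z), fun j => ?_, ?_, fun p => ?_⟩
  · exact add_nonneg (mul_nonneg hs (h1 z).1) (mul_nonneg ht (h1' z).1)
  · calc s * ω z + t * ω' z ≤ s * LH + t * LH := by gcongr; exacts [(h1 z).2, (h1' z).2]
      _ = LH := by rw [← add_mul, hst, one_mul]
  · rw [av_add, av_mul_left, av_mul_left, h2, h2', mul_one, mul_one, hst]
  · induction j using Fin.addCases with
    | left j => rw [Fin.append_left, av_mul_left, h3, mul_zero]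
    | right j => rw [Fin.append_right, av_mul_left, h3', mul_zero]
  · simp only [Fin.sum_univ_add, Fin.append_left, Fin.append_right, sq_scale hs, sq_scale ht,
      ← Finset.mul_sum]
    nlinarith
  · simp only [Fin.sum_univ_add, Fin.append_left, Fin.append_right, mul_scale hs, mul_scale ht,
      ← Finset.mul_sum, Pi.add_apply, Pi.smul_apply, smul_eq_mul, h5, h5']
    simp only [add_mul, mul_assoc, av_add, av_mul_left]
    ring

end Game

open Game in
theorem game : S_GAME := by
  intro S P _ _ _ a d LH η δ2 hL hη hδ ha hd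
  classical
  have hS : (0 : ℝ) < Fintype.card S := by exact_mod_cast Fintype.card_pos
  by_cases h : ∃ x ∈ Pay a d LH η δ2, ∀ p, 2 < x p
  · obtain ⟨x, ⟨ω, h1, h2, N, g, h3, h4, h5⟩, hx⟩ := h
    refine Or.inl ⟨ω, h1, h2, N, g, h3, h4, fun p => ?_⟩
    by_contra hn
    rw [not_or, not_le, not_le, ← div_lt_one hη, ← div_lt_one hδ] at hn
    have := hx p
    rw [h5] at this
    linarith [hn.1, hn.2]
  obtain ⟨π, p1, p2, p3⟩ := sep (convex_Pay a d LH η δ2)
    ⟨_, fun _ => 1, fun _ => ⟨zero_le_one, hL⟩, av_const 1, 0, Fin.elim0, fun j => j.elim0,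
      by simp, fun _ => rfl⟩ fun x hx hx' => h ⟨x, hx, hx'⟩
  refine Or.inr ⟨π, p1, p2, ?_, fun f => ?_⟩
  · by_contra hn
    set Z := univ.filter (fun s => 2 * η < ∑ p, π p * a p s) with hZ
    have hn : (Fintype.card S : ℝ) < LH * Z.card := not_le.1 hn
    have hZ0 : (0 : ℝ) < Z.card := by
      by_contra h0
      nlinarith
    let ω : S → ℝ := fun s => Fintype.card S / Z.card *
      if 2 * η < ∑ p, π p * a p s then 1 else 0
    have w0 : ∀ s, 0 ≤ ω s := fun s => by
      dsimp only [ω]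
      split_ifs <;> positivity
    have w1 : av ω = 1 := by
      rw [av_mul_left, av_indicator, ← hZ]
      field_simp
    have := p3 _ ⟨ω, fun s => ⟨w0 s, by
      have : (Fintype.card S : ℝ) / Z.card ≤ LH := (div_le_iff₀ hZ0).2 hn.le
      dsimp only [ω]
      split_ifs <;> linarith⟩, w1, 0, Fin.elim0, fun j => j.elim0, by simp, fun _ => rfl⟩
    simp only [Finset.univ_eq_empty, Finset.sum_empty, zero_div, add_zero, ← mul_div_assoc,
      ← Finset.sum_div, ← av_mul_left] at this
    rw [div_le_iff₀ hη, ← av_sum] at this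
    have e : av (fun s => ω s * (∑ p, π p * a p s - 2 * η)) ≤ 0 := by
      simp only [mul_sub, av_sub, av_mul_right, w1]
      simp only [Finset.mul_sum, mul_left_comm (ω _)]
      linarith
    obtain ⟨s0, hs0⟩ := Finset.card_pos.1 (Nat.cast_pos.1 hZ0)
    have hs0 := (Finset.mem_filter.1 hs0).2
    refine absurd e (not_le.2 (div_pos (Finset.sum_pos' (fun s _ => ?_) ⟨s0, mem_univ _, ?_⟩) hS))
    · dsimp only [ω]
      split_ifs with hs
      · exact mul_nonneg (by positivity) (by linarith)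
      · simp
    · dsimp only [ω]
      rw [if_pos hs0]
      exact mul_pos (by positivity) (by linarith)
  · have e1 : ∀ p, av (fun s => f s * d p s) = av (fun s => (f s - av f) * d p s) := fun p => by
      simp only [sub_mul, av_sub, av_mul_left, hd, mul_zero, sub_zero]
    have e2 : av (fun s => (f s - av f) ^ 2) ≤ av (fun s => f s ^ 2) := by
      simpa using av_var_le f 0
    have e3 : 0 ≤ av (fun s => (f s - av f) ^ 2) := av_nonneg fun s => sq_nonneg _
    simp only [e1]
    refine le_trans ?_ (mul_le_mul_of_nonneg_left e2 (by positivity))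
    set v := av (fun s => (f s - av f) ^ 2) with hv
    rcases e3.eq_or_lt with h0 | h0
    · rw [← h0, mul_zero]
      refine Finset.sum_nonpos fun p _ => mul_nonpos_of_nonneg_of_nonpos (p1 p) ?_
      have := av_cs (fun s => f s - av f) (d p)
      rwa [← hv, ← h0, zero_mul] at this
    · have hi : 0 ≤ v⁻¹ := by positivity
      have := p3 _ ⟨fun _ => 1, fun _ => ⟨zero_le_one, hL⟩, av_const 1, 1,
        fun _ s => √v⁻¹ * (f s - av f), fun _ => by
          rw [av_mul_left, av_sub, av_const, sub_self, mul_zero],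
        by rw [Fin.sum_univ_one, sq_scale hi, ← hv, inv_mul_cancel₀ h0.ne'], fun _ => rfl⟩
      simp only [Fin.sum_univ_one, mul_scale hi] at this
      have e4 : ∑ p, π p * av (fun s => (f s - av f) * d p s) ^ 2 / (δ2 * v) ≤ 2 := by
        refine le_trans (Finset.sum_le_sum fun p _ => ?_) this
        have : 0 ≤ av (fun s => 1 * a p s) / η :=
          div_nonneg (av_nonneg fun s => by rw [one_mul]; exact ha p s) hη.le
        rw [mul_div_assoc]
        refine mul_le_mul_of_nonneg_left (le_trans (le_of_eq ?_) (le_add_of_nonneg_left this))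
          (p1 p)
        field_simp
      rw [← Finset.sum_div, div_le_iff₀ (by positivity)] at e4
      linarith

end Pool.Agent.P.MP_b60056_nt.AA
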