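import Pool.Agent.P.MP_b60056_nt.AA.Api

/-! Gaussian weight: integrability, exponential tilt and even moments. -/

namespace Pool.Agent.P.MP_b60056_nt.AA

open MeasureTheory Finset

namespace Gauss

variable {ι : Type} [Fintype ι]

lemma gw_eq (x : ι → ℝ) : gw x = ∏ j, Real.exp (-(1 / 2) * x j ^ 2) := by
  rw [gw, ← Real.exp_sum, ← Finset.mul_sum]
  congr 1
  ring

lemma gw_pos (x : ι → ℝ) : 0 < gw x := Real.exp_pos _

lemma gw_cont : Continuous (fun x : ι → ℝ => gw x) := by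
  unfold gw
  fun_prop

lemma gw_int : Integrable (fun x : ι → ℝ => gw x) := by
  simp only [gw_eq]
  exact Integrable.fintype_prod (f := fun (_ : ι) (t : ℝ) => Real.exp (-(1 / 2) * t ^ 2))
    fun _ => integrable_exp_neg_mul_sq (by norm_num)

lemma gw_ipos : 0 < ∫ x : ι → ℝ, gw x := by
  unfold gw
  exact integral_exp_pos gw_int

lemma tilt_eq (c x : ι → ℝ) :
    Real.exp (∑ j, c j * x j) * gw x = Real.exp ((∑ j, c j ^ 2) / 2) * gw (x - c) := by
  rw [gw, gw, ← Real.exp_add, ← Real.exp_add]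
  congr 1
  have : ∑ j, (x - c) j ^ 2 = ∑ j, x j ^ 2 - 2 * ∑ j, c j * x j + ∑ j, c j ^ 2 := by
    rw [Finset.mul_sum, ← Finset.sum_sub_distrib, ← Finset.sum_add_distrib]
    refine Finset.sum_congr rfl fun j _ => ?_
    simp only [Pi.sub_apply]
    ring
  rw [this]
  ring

lemma tilt_int (c : ι → ℝ) :
    Integrable (fun x : ι → ℝ => Real.exp (∑ j, c j * x j) * gw x) := by
  simp only [tilt_eq]
  exact (gw_int.comp_sub_right c).const_mul _

lemma tilt_val (c : ι → ℝ) : ∫ x : ι → ℝ, Real.exp (∑ j, c j * x j) * gw x =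
    Real.exp ((∑ j, c j ^ 2) / 2) * ∫ x : ι → ℝ, gw x := by
  simp only [tilt_eq]
  rw [integral_const_mul, integral_sub_right_eq_self (fun x : ι → ℝ => gw x) c]

lemma two_fact (n : ℕ) (hn : 2 ≤ n) : 2 * n.factorial ≤ n ^ n := by
  induction n, hn using Nat.le_induction with
  | base => decide
  | succ n _ ih =>
    rw [Nat.factorial_succ, pow_succ]
    calc 2 * ((n + 1) * n.factorial) = 2 * n.factorial * (n + 1) := by ring
      _ ≤ n ^ n * (n + 1) := Nat.mul_le_mul_right _ ih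
      _ ≤ (n + 1) ^ n * (n + 1) := Nat.mul_le_mul_right _ (Nat.pow_le_pow_left (Nat.le_succ n) n)

lemma pow_le (y l : ℝ) (q : ℕ) (hl : 0 < l) :
    y ^ (2 * q) ≤ ((2 * q).factorial : ℝ) / l ^ (2 * q) * (Real.exp (l * y) + Real.exp (-l * y)) := by
  have h1 := Real.pow_div_factorial_le_exp |l * y| (abs_nonneg _) (2 * q)
  have h2 : Real.exp |l * y| ≤ Real.exp (l * y) + Real.exp (-l * y) := by
    rcases abs_cases (l * y) with h | h
    · rw [h.1]; linarith [Real.exp_pos (-l * y)]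
    · rw [h.1, neg_mul]; linarith [Real.exp_pos (l * y)]
  have h3 : |l * y| ^ (2 * q) = l ^ (2 * q) * y ^ (2 * q) := by
    rw [pow_mul, sq_abs, ← pow_mul, mul_pow]
  have hf : (0 : ℝ) < ((2 * q).factorial : ℝ) := by exact_mod_cast Nat.factorial_pos _
  have hp : 0 < l ^ (2 * q) := pow_pos hl _
  rw [h3, div_le_iff₀ hf] at h1
  rw [div_mul_eq_mul_div, le_div_iff₀ hp]
  nlinarith [mul_le_mul_of_nonneg_right h2 hf.le]

lemma dom (c : ι → ℝ) (q : ℕ) (l : ℝ) (hl : 0 < l) (x : ι → ℝ) :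
    (∑ j, c j * x j) ^ (2 * q) * gw x ≤ ((2 * q).factorial : ℝ) / l ^ (2 * q) *
      (Real.exp (∑ j, (l * c j) * x j) * gw x + Real.exp (∑ j, (-l * c j) * x j) * gw x) := by
  have e1 : ∀ t : ℝ, ∑ j, (t * c j) * x j = t * ∑ j, c j * x j := fun t => by
    rw [Finset.mul_sum]; exact Finset.sum_congr rfl fun j _ => by ring
  rw [e1, e1, ← add_mul, ← mul_assoc]
  exact mul_le_mul_of_nonneg_right (pow_le _ l q hl) (gw_pos x).le

lemma mom_nonneg (c : ι → ℝ) (q : ℕ) (x : ι → ℝ) : 0 ≤ (∑ j, c j * x j) ^ (2 * q) * gw x :=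
  mul_nonneg (by rw [pow_mul]; positivity) (gw_pos x).le

lemma mom_int (c : ι → ℝ) (q : ℕ) :
    Integrable (fun x : ι → ℝ => (∑ j, c j * x j) ^ (2 * q) * gw x) := by
  refine Integrable.mono' (((tilt_int fun j => 1 * c j).add (tilt_int fun j => -1 * c j)).const_mul
    (((2 * q).factorial : ℝ) / 1 ^ (2 * q))) ?_ (Filter.Eventually.of_forall fun x => ?_)
  · exact (Continuous.mul (by fun_prop) gw_cont).aestronglyMeasurable
  · rw [Real.norm_of_nonneg (mom_nonneg c q x)]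
    exact dom c q 1 one_pos x

lemma mom_le (c : ι → ℝ) (q : ℕ) (l : ℝ) (hl : 0 < l) :
    ∫ x : ι → ℝ, (∑ j, c j * x j) ^ (2 * q) * gw x ≤ ((2 * q).factorial : ℝ) / l ^ (2 * q) *
      (2 * Real.exp (l ^ 2 * (∑ j, c j ^ 2) / 2) * ∫ x : ι → ℝ, gw x) := by
  have hi := (tilt_int fun j => l * c j).add (tilt_int fun j => -l * c j)
  refine (integral_mono (mom_int c q) (hi.const_mul (((2 * q).factorial : ℝ) / l ^ (2 * q)))
    (fun x => dom c q l hl x)).trans (le_of_eq ?_)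
  rw [integral_const_mul]
  congr 1
  simp only [Pi.add_apply]
  rw [integral_add (tilt_int fun j => l * c j) (tilt_int fun j => -l * c j), tilt_val, tilt_val]
  have e1 : ∑ j, (l * c j) ^ 2 = l ^ 2 * ∑ j, c j ^ 2 := by
    rw [Finset.mul_sum]; exact Finset.sum_congr rfl fun j _ => by ring
  have e2 : ∑ j, (-l * c j) ^ 2 = l ^ 2 * ∑ j, c j ^ 2 := by
    rw [Finset.mul_sum]; exact Finset.sum_congr rfl fun j _ => by ring
  rw [e1, e2]
  ring

lemma mom_bound (c : ι → ℝ) (q : ℕ) :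
    ∫ x : ι → ℝ, (∑ j, c j * x j) ^ (2 * q) * gw x ≤
      (6 * q * ∑ j, c j ^ 2) ^ q * ∫ x : ι → ℝ, gw x := by
  rcases Nat.eq_zero_or_pos q with rfl | hq
  · simp
  have hC0 : 0 ≤ ∑ j, c j ^ 2 := Finset.sum_nonneg fun j _ => sq_nonneg _
  rcases hC0.eq_or_lt with hC | hC
  · have hc : ∀ j, c j = 0 := fun j =>
      pow_eq_zero_iff two_ne_zero |>.1
        ((Finset.sum_eq_zero_iff_of_nonneg fun j _ => sq_nonneg (c j)).1 hC.symm j (mem_univ j))
    simp [hc, hq.ne']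
  set C := ∑ j, c j ^ 2 with hCdef
  have hq' : (0 : ℝ) < q := by exact_mod_cast hq
  have hpos : 0 < 2 * (q : ℝ) / C := by positivity
  have hl : 0 < Real.sqrt (2 * q / C) := Real.sqrt_pos.2 hpos
  have hsq : Real.sqrt (2 * q / C) ^ 2 = 2 * q / C := Real.sq_sqrt hpos.le
  refine (mom_le c q _ hl).trans ?_
  rw [← mul_assoc]
  refine mul_le_mul_of_nonneg_right ?_ gw_ipos.le
  rw [pow_mul, hsq, ← hCdef]
  have e1 : 2 * (q : ℝ) / C * C / 2 = q := by field_simp
  have hf : 2 * ((2 * q).factorial : ℝ) ≤ (2 * (q : ℝ)) ^ (2 * q) := by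
    exact_mod_cast two_fact (2 * q) (by omega)
  have he : Real.exp q ≤ 3 ^ q := by
    rw [← Real.exp_one_pow]
    exact pow_le_pow_left₀ (Real.exp_pos 1).le (Real.exp_one_lt_three).le q
  rw [e1, div_mul_eq_mul_div, div_le_iff₀ (pow_pos hpos q), ← mul_pow]
  have e2 : 6 * (q : ℝ) * C * (2 * q / C) = (2 * q) ^ 2 * 3 := by field_simp; ring
  rw [e2, mul_pow, ← pow_mul]
  calc ((2 * q).factorial : ℝ) * (2 * Real.exp q) = 2 * ((2 * q).factorial : ℝ) * Real.exp q := by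
        ring
    _ ≤ (2 * (q : ℝ)) ^ (2 * q) * 3 ^ q :=
        mul_le_mul hf he (Real.exp_pos _).le (by positivity)

end Gauss

theorem gauss : S_GAUSS := fun _ _ =>
  ⟨Gauss.gw_int, Gauss.gw_ipos, fun c => ⟨Gauss.tilt_int c, Gauss.tilt_val c⟩,
    fun c q => ⟨Gauss.mom_int c q, Gauss.mom_bound c q⟩⟩

end Pool.Agent.P.MP_b60056_nt.AA
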