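import Pool.Agent.P.MP_b60056_nt.AA.Api

namespace Pool.Agent.P.MP_b60056_nt.AA

open Finset
open scoped ComplexConjugate

theorem hal : S_HAL := by
  intro X T _ _ b W χ C B hW hC hB hG
  set D : T → ℂ := fun t => ∑ x, (b x : ℂ) * χ t x with hD
  set G : T → T → ℂ := fun t t' => ∑ x, (W x : ℂ) * χ t x * conj (χ t' x) with hGd
  set Y : X → ℂ := fun x => ∑ t, conj (D t) * χ t x with hY
  change ∑ t, ‖D t‖ ^ 2 ≤ _
  have hsym : ∀ t t', ‖G t t'‖ = ‖G t' t‖ := fun t t' => by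
    rw [← Complex.norm_conj]
    simp only [hGd, map_sum, map_mul, Complex.conj_ofReal, Complex.conj_conj, mul_right_comm]
  have e1 : ((∑ t, ‖D t‖ ^ 2 : ℝ) : ℂ) = ∑ x, b x * Y x := by
    simp only [hY, mul_sum, mul_left_comm (b _ : ℂ)]
    rw [sum_comm]
    push_cast
    exact sum_congr rfl fun t _ => by rw [← mul_sum, Complex.conj_mul']
  have e2 : ((∑ x, W x * ‖Y x‖ ^ 2 : ℝ) : ℂ) = ∑ t, ∑ t', conj (D t) * D t' * G t t' := by
    push_cast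
    have a : ∀ x, (W x : ℂ) * (‖Y x‖ : ℂ) ^ 2 =
        ∑ t, ∑ t', conj (D t) * D t' * (W x * χ t x * conj (χ t' x)) := fun x => by
      rw [← Complex.mul_conj', hY, map_sum, sum_mul_sum, mul_sum]
      refine sum_congr rfl fun t _ => ?_
      rw [mul_sum]
      exact sum_congr rfl fun t' _ => by rw [map_mul, Complex.conj_conj]; ring
    simp only [a, hGd, mul_sum]
    rw [sum_comm]
    exact sum_congr rfl fun t _ => sum_comm
  have h0 : 0 ≤ ∑ t, ‖D t‖ ^ 2 := by positivity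
  have h1 : ∑ t, ‖D t‖ ^ 2 ≤ ∑ x, ‖b x * Y x‖ := by
    rw [← Real.norm_of_nonneg h0, ← Complex.norm_real, e1]
    exact norm_sum_le _ _
  have h2 : (∑ x, ‖b x * Y x‖) ^ 2 ≤ (∑ x, b x ^ 2 / W x) * ∑ x, W x * ‖Y x‖ ^ 2 :=
    sum_sq_le_sum_mul_sum_of_sq_le_mul _ (fun x _ => div_nonneg (sq_nonneg _) (hW x).le)
      (fun x _ => mul_nonneg (hW x).le (sq_nonneg _)) fun x _ => by
        rw [norm_mul, mul_pow, Complex.norm_real, Real.norm_eq_abs, sq_abs, ← mul_assoc,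
          div_mul_cancel₀ _ (hW x).ne']
  have h3 : 0 ≤ ∑ x, W x * ‖Y x‖ ^ 2 := sum_nonneg fun x _ => mul_nonneg (hW x).le (sq_nonneg _)
  have h4 : ∑ t, ∑ t', ‖D t‖ ^ 2 * ‖G t t'‖ ≤ B * ∑ t, ‖D t‖ ^ 2 := by
    rw [mul_sum]
    exact sum_le_sum fun t _ => by
      rw [← mul_sum, mul_comm]; exact mul_le_mul_of_nonneg_right (hG t) (sq_nonneg _)
  have h5 : ∑ x, W x * ‖Y x‖ ^ 2 ≤ B * ∑ t, ‖D t‖ ^ 2 := by
    have a : ∑ x, W x * ‖Y x‖ ^ 2 ≤
        ∑ t, ∑ t', (‖D t‖ ^ 2 * ‖G t t'‖ + ‖D t'‖ ^ 2 * ‖G t' t‖) / 2 := by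
      rw [← Real.norm_of_nonneg h3, ← Complex.norm_real, e2]
      refine norm_sum_le_of_le _ fun t _ => norm_sum_le_of_le _ fun t' _ => ?_
      rw [norm_mul, norm_mul, Complex.norm_conj, hsym t' t]
      nlinarith [mul_nonneg (sq_nonneg (‖D t‖ - ‖D t'‖)) (norm_nonneg (G t t'))]
    simp only [← sum_div, sum_add_distrib] at a
    rw [sum_comm (f := fun t t' => ‖D t'‖ ^ 2 * ‖G t' t‖)] at a
    linarith
  have hC0 : 0 ≤ C := (sum_nonneg fun x _ => div_nonneg (sq_nonneg _) (hW x).le).trans hC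
  have h6 := ((pow_le_pow_left₀ h0 h1 2).trans h2).trans (mul_le_mul hC h5 h3 hC0)
  rcases h0.eq_or_lt with h | h
  · rw [← h]; positivity
  · exact le_of_mul_le_mul_right (by linarith) h

end Pool.Agent.P.MP_b60056_nt.AA
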