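import Pool.Agent.P.MP_b60056_nt.AA.Api

namespace Pool.Agent.P.MP_b60056_nt.AA

open Finset MeasureTheory

theorem hat_ : S_HAT := by
  intro T L i hT hL
  have hn : ‖(T : ℂ)‖ = T := by rw [Complex.norm_real, Real.norm_of_nonneg hT.le]
  refine ⟨?_, ?_, fun hi => ?_⟩
  · unfold hat
    have h := intervalIntegral.norm_integral_le_of_norm_le_const (a := 0) (b := 1 / T) (C := 1)
      (f := fun x : ℝ => ee (2 * Real.pi * i * x / L)) fun x _ => (norm_ee _).le
    rw [sub_zero, one_mul, abs_of_pos (by positivity)] at h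
    rw [norm_mul, hn]
    refine (mul_le_mul_of_nonneg_left h hT.le).trans (le_of_eq ?_)
    field_simp
  · unfold hat
    have hT' : (T : ℂ) ≠ 0 := by exact_mod_cast hT.ne'
    simp [ee_zero, hT']
  · unfold hat
    have hi' : (i : ℝ) ≠ 0 := by exact_mod_cast hi
    have hp := Real.pi_pos
    set c : ℝ := 2 * Real.pi * i / L with hc
    have hc0 : c ≠ 0 := by positivity
    have hc1 : (c : ℂ) * Complex.I ≠ 0 :=
      mul_ne_zero (by exact_mod_cast hc0) Complex.I_ne_zero
    have e : ∀ x : ℝ, ee (2 * Real.pi * i * x / L) = Complex.exp ((c * Complex.I) * x) := by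
      intro x
      unfold ee
      congr 1
      rw [hc]
      push_cast
      ring
    have h1 : ∀ x : ℝ, ‖Complex.exp ((c * Complex.I) * x)‖ = 1 := fun x => by
      rw [← e, norm_ee]
    have h2 : ‖(c : ℂ) * Complex.I‖ = 2 * (Real.pi * |(i : ℝ)|) / L := by
      rw [norm_mul, Complex.norm_I, mul_one, Complex.norm_real, Real.norm_eq_abs, hc, abs_div,
        abs_mul, abs_of_pos hL, abs_of_pos (by positivity : 0 < 2 * Real.pi), mul_assoc]
    have h3 := norm_sub_le (Complex.exp ((c * Complex.I) * (1 / T : ℝ)))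
      (Complex.exp ((c * Complex.I) * (0 : ℝ)))
    rw [h1, h1] at h3
    have h4 : 0 < |(i : ℝ)| := abs_pos.2 hi'
    simp only [e]
    rw [integral_exp_mul_complex hc1, norm_mul, hn, norm_div, h2]
    refine (mul_le_mul_of_nonneg_left (div_le_div_of_nonneg_right h3 (by positivity))
      hT.le).trans (le_of_eq ?_)
    field_simp
    norm_num

end Pool.Agent.P.MP_b60056_nt.AA
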