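import Pool.Agent.P.MP_b60056_nt.AA.Api

namespace Pool.Agent.P.MP_b60056_nt.AA

open Finset

namespace Low

variable {S : Type} [Fintype S] {n : ℕ} (B : Fin n → S → ℝ)

noncomputable def o (ε : Fin n → Bool) (i : Fin n) : ℝ :=
  ∑ j ∈ univ.erase i, sg (ε j) * av (fun s => B i s * B j s)

theorem inner_eq (ε ε' : Fin n → Bool) : av (fun s => psi B ε' s * psi B ε s) =
    ∑ i, sg (ε' i) * (sg (ε i) * av (fun s => B i s ^ 2) + o B ε i) := by
  simp only [psi, sum_mul, mul_assoc]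
  rw [av_sum]
  refine sum_congr rfl fun i _ => ?_
  rw [av_mul_left]
  simp only [mul_sum, mul_left_comm (B i _), sq]
  rw [av_sum, ← add_sum_erase _ _ (mem_univ i)]
  simp only [av_mul_left, o]

variable {B} {η : ℝ} {ε : Fin n → Bool}

theorem diag (hη : 0 < η) (hB : ∀ i, η / 5 ≤ av (fun s => B i s ^ 2))
    (h : offG B ε ≤ n * η ^ 2 / 900) : n * η / 6 ≤ av (fun s => psi B ε s * psi B ε s) := by
  refine le_of_mul_le_mul_left ?_ hη
  have h1 : ∑ i, (11 / 60 * η ^ 2 - 15 * o B ε i ^ 2) ≤ η * av (fun s => psi B ε s * psi B ε s) := by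
    rw [inner_eq, mul_sum]
    refine sum_le_sum fun i _ => ?_
    have := mul_le_mul_of_nonneg_left (hB i) hη.le
    cases ε i <;> simp only [sg, if_true, Bool.false_eq_true, if_false]
    · nlinarith [sq_nonneg (o B ε i - η / 30)]
    · nlinarith [sq_nonneg (o B ε i + η / 30)]
  rw [sum_sub_distrib, ← mul_sum, ← mul_sum, sum_const, card_univ, Fintype.card_fin,
    nsmul_eq_mul] at h1
  change ∑ i, o B ε i ^ 2 ≤ _ at h
  linarith

theorem wsq (hB : ∀ i, av (fun s => B i s ^ 2) ≤ 18 * η) (h : offG B ε ≤ n * η ^ 2 / 900) :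
    ∑ i, (sg (ε i) * av (fun s => B i s ^ 2) + o B ε i) ^ 2 ≤ 649 * (n * η ^ 2) := by
  have h1 : ∑ i, (sg (ε i) * av (fun s => B i s ^ 2) + o B ε i) ^ 2 ≤
      ∑ i, (648 * η ^ 2 + 2 * o B ε i ^ 2) := sum_le_sum fun i _ => by
    have a := pow_le_pow_left₀ (av_nonneg fun s => sq_nonneg (B i s)) (hB i) 2
    have b : (sg (ε i) * av (fun s => B i s ^ 2)) ^ 2 = av (fun s => B i s ^ 2) ^ 2 := by
      rw [mul_pow, sg_sq, one_mul]
    nlinarith [sq_nonneg (sg (ε i) * av (fun s => B i s ^ 2) - o B ε i)]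
  rw [sum_add_distrib, ← mul_sum, ← mul_sum, sum_const, card_univ, Fintype.card_fin,
    nsmul_eq_mul] at h1
  change ∑ i, o B ε i ^ 2 ≤ _ at h
  have : 0 ≤ n * η ^ 2 := by positivity
  linarith

end Low

open Low in
theorem low (h1 : S_RAD) : S_LOW := by
  intro S _ n B η E hη hB hE hoff
  obtain ⟨ε, hε⟩ : E.Nonempty := card_pos.1 (Nat.cast_pos.1 (lt_trans (by positivity) hE))
  rcases Nat.eq_zero_or_pos n with rfl | hn
  · exact ⟨ε, hε, ε, hε, le_trans (by simp) (av_nonneg fun s => sq_nonneg _)⟩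
  have hn' : (0 : ℝ) < n := Nat.cast_pos.2 hn
  have h2 := (h1 n _).2.2 _ (n * η / 24) (by positivity) (wsq (fun i => (hB i).2) (hoff ε hε))
    (by positivity)
  have h3 : -(n * η / 24) ^ 2 / (2 * (649 * (n * η ^ 2))) ≤ -(n : ℝ) / 10 ^ 6 := by
    rw [div_le_div_iff₀ (by positivity) (by positivity)]
    nlinarith [mul_pos (mul_pos hn' hn') (mul_pos hη hη)]
  obtain ⟨ε', hε', h4⟩ := exists_mem_notMem_of_card_lt_card (Nat.cast_lt.1 ((h2.trans
    (mul_le_mul_of_nonneg_left (Real.exp_le_exp.2 h3) (by positivity))).trans_lt hE))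
  rw [mem_filter, ← inner_eq, not_and, not_le] at h4
  refine ⟨ε, hε, ε', hε', ?_⟩
  have e : (fun s => (psi B ε s - psi B ε' s) ^ 2) = fun s => psi B ε s * psi B ε s +
      psi B ε' s * psi B ε' s - 2 * (psi B ε' s * psi B ε s) := funext fun s => by ring
  rw [e, av_sub, av_add, av_mul_left]
  linarith [h4 (mem_univ _), diag hη (fun i => (hB i).1) (hoff ε hε),
    diag hη (fun i => (hB i).1) (hoff ε' hε')]

end Pool.Agent.P.MP_b60056_nt.AA
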