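import Pool.Agent.P.MP_b60056_nt.AA.Api

namespace Pool.Agent.P.MP_b60056_nt.AA

open Finset MeasureTheory

namespace Main

theorem mem_Sa {y R a : ℕ} (h : a ∈ Sa y R) : y < a ∧ a ≤ 2 * y :=
  mem_Ioc.1 (mem_filter.1 h).1

theorem log_Sa {y R a : ℕ} (hy : 0 < y) (h : a ∈ Sa y R) :
    Real.log y ≤ Real.log a ∧ Real.log a ≤ Real.log y + 0.7 := by
  obtain ⟨h1, h2⟩ := mem_Sa h
  have hy' : (0 : ℝ) < y := by exact_mod_cast hy
  have h1' : (y : ℝ) ≤ a := by exact_mod_cast h1.le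
  have h2' : (a : ℝ) ≤ 2 * y := by exact_mod_cast h2
  refine ⟨Real.log_le_log hy' h1', ?_⟩
  have h3 := Real.log_le_log (hy'.trans_le h1') h2'
  rw [Real.log_mul two_ne_zero hy'.ne'] at h3
  have := Real.log_two_lt_d9
  linarith

theorem pos_bd {w z : ℕ} (hz : 0 < z) (s : St w z) :
    2002 * Real.log z ≤ pos s ∧ pos s ≤ 2002 * Real.log z + 1.4 := by
  have h1 := log_Sa (pow_pos hz 2001) s.1.2
  have h2 := log_Sa hz s.2.2
  rw [Nat.cast_pow, Real.log_pow] at h1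
  unfold pos
  push_cast at h1
  constructor <;> linarith [h1.1, h1.2, h2.1, h2.2]

theorem exp_pos' {w z : ℕ} (s : St w z) : Real.exp (pos s) = ((s.1 : ℕ) : ℝ) * ((s.2 : ℕ) : ℝ) := by
  have h1 : (0 : ℝ) < (s.1 : ℕ) := by exact_mod_cast (Nat.zero_le _).trans_lt (mem_Sa s.1.2).1
  have h2 : (0 : ℝ) < (s.2 : ℕ) := by exact_mod_cast (Nat.zero_le _).trans_lt (mem_Sa s.2.2).1
  unfold pos
  rw [Real.exp_add, Real.exp_log h1, Real.exp_log h2]

theorem ph_eq {w k z k' : ℕ} (ω : (Fin k' → St w z) → ℝ) (i : ℤ) :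
    Ph (fun σ : St w z × (Fin k' → St w z) =>
        ω σ.2 / ((Fintype.card (St w z) : ℝ) * Fintype.card (Fin k' → St w z)))
      (fun σ => pos σ.1 + ∑ j, pos (σ.2 j)) (2 * k : ℕ) i =
      (starRingEnd ℂ) (avc (chi w k z i) * Ft ω (chi w k z i)) := by
  unfold Ft
  rw [← avc_prod, conj_avc]
  unfold Ph avc
  rw [sum_div]
  refine sum_congr rfl fun σ _ => ?_
  unfold chi
  rw [← ee_sum, mul_left_comm, ← ee_add, map_mul, conj_ee, Complex.conj_ofReal, ← mul_sum,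
    ← mul_add, Fintype.card_prod (St w z) (Fin k' → St w z)]
  push_cast
  rw [div_mul_eq_mul_div, div_mul_eq_mul_div]

theorem good_of (h3 : S_BLOCK) {w z k' : ℕ} (hz : 0 < z) (r' m h0 : ℕ) (s0 : St w z)
    (σ : Fin k' → St w z)
    (h1 : (m : ℝ) ≤ Real.exp (r' * Real.log 2 + (pos s0 + ∑ j, pos (σ j))))
    (h2 : Real.exp (r' * Real.log 2 + (pos s0 + ∑ j, pos (σ j))) ≤ m + h0) :
    Good m (h0 + (r' + 2 * (k' + 1)) * (2 * z ^ 2001) + 1) := by
  let τ : Option (Fin k') → St w z := fun o => o.elim s0 σ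
  let f : Fin r' ⊕ (Option (Fin k') ⊕ Option (Fin k')) → ℕ :=
    Sum.elim (fun _ => 2) (Sum.elim (fun o => ((τ o).1 : ℕ)) (fun o => ((τ o).2 : ℕ)))
  have hP : z ≤ z ^ 2001 := Nat.le_self_pow (by norm_num) z
  have hf : ∀ i, 1 ≤ f i ∧ f i ≤ 2 * z ^ 2001 := by
    rintro (i | o | o)
    · change 1 ≤ 2 ∧ 2 ≤ 2 * z ^ 2001
      omega
    · have := mem_Sa (τ o).1.2
      change 1 ≤ ((τ o).1 : ℕ) ∧ ((τ o).1 : ℕ) ≤ 2 * z ^ 2001
      omega
    · have := mem_Sa (τ o).2.2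
      change 1 ≤ ((τ o).2 : ℕ) ∧ ((τ o).2 : ℕ) ≤ 2 * z ^ 2001
      omega
  have he : Real.exp (r' * Real.log 2 + (pos s0 + ∑ j, pos (σ j))) = ((∏ i, f i : ℕ) : ℝ) := by
    rw [Real.exp_add, Real.exp_add, Real.exp_nat_mul, Real.exp_log two_pos, Real.exp_sum,
      Fintype.prod_sum_type, Fintype.prod_sum_type, Fintype.prod_option, Fintype.prod_option]
    simp only [exp_pos', f, τ, Sum.elim_inl, Sum.elim_inr, Option.elim_none, Option.elim_some,
      prod_const, card_univ, Fintype.card_fin, prod_mul_distrib]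
    push_cast
    ring
  rw [he] at h1 h2
  have h4 := h3 _ f (2 * z ^ 2001) m h0 hf (by exact_mod_cast h1) (by exact_mod_cast h2)
  have hc : Fintype.card (Fin r' ⊕ (Option (Fin k') ⊕ Option (Fin k'))) = r' + 2 * (k' + 1) := by
    simp only [Fintype.card_sum, Fintype.card_option, Fintype.card_fin]
    ring
  rwa [hc] at h4

theorem size {z h0 c : ℕ} (hz : 8 ≤ z) (h1 : h0 ≤ 1 + 4 * z ^ 4005) (h2 : c ≤ z) :
    h0 + c * (2 * z ^ 2001) + 1 ≤ z ^ 4100 := by
  have a1 : c * (2 * z ^ 2001) ≤ 2 * z ^ 4005 := by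
    calc c * (2 * z ^ 2001) ≤ z * (2 * z ^ 2001) := Nat.mul_le_mul_right _ h2
      _ = 2 * (z ^ 2001 * z) := by rw [mul_left_comm, mul_comm z]
      _ = 2 * z ^ (2001 + 1) := by rw [pow_succ z 2001]
      _ ≤ 2 * z ^ 4005 := Nat.mul_le_mul_left _ (Nat.pow_le_pow_right (by omega) (by norm_num))
  have a2 : 1 ≤ z ^ 4005 := Nat.one_le_pow _ _ (by omega)
  have a3 : z ^ 4005 * 8 ≤ z ^ 4100 := by
    calc z ^ 4005 * 8 ≤ z ^ 4005 * z := Nat.mul_le_mul_left _ hz
      _ = z ^ (4005 + 1) := (pow_succ z 4005).symm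
      _ ≤ z ^ 4100 := Nat.pow_le_pow_right (by omega) (by norm_num)
  generalize z ^ 4005 = P at h1 a1 a2 a3
  generalize z ^ 4100 = Q at a3 ⊢
  generalize c * (2 * z ^ 2001) = R at a1 ⊢
  omega

theorem ratio {w k z X : ℕ} (hp : Par w k z) (hX : 1 ≤ X)
    (h : Real.log X ≤ (k + 1) * (2002 * Real.log z + 2) - 1) :
    (X : ℝ) / Tn k z ≤ ((z ^ 4005 : ℕ) : ℝ) := by
  have hk : 1 ≤ k := by
    have := hp.k_pos
    exact_mod_cast this
  have h1 : Real.exp (((2002 * (k - 1) : ℕ) : ℝ) * Real.log z) ≤ Tn k z := by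
    rw [Real.exp_nat_mul, hp.exp_log]
    exact_mod_cast hp.le_Tn
  have h2 : ((z ^ 4005 : ℕ) : ℝ) = Real.exp (((4005 : ℕ) : ℝ) * Real.log z) := by
    rw [Real.exp_nat_mul, hp.exp_log, Nat.cast_pow]
  have hX' : (0 : ℝ) < X := by exact_mod_cast hX
  rw [div_le_iff₀ ((Real.exp_pos _).trans_le h1), h2]
  refine le_trans ?_ (mul_le_mul_of_nonneg_left h1 (Real.exp_pos _).le)
  rw [← Real.exp_add, ← Real.exp_log hX', Real.exp_le_exp, Nat.cast_mul, Nat.cast_sub hk]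
  have h3 := hp.k_le_log
  have h4 := hp.wR
  have h5 := hp.k_big
  have h6 : (k : ℝ) * 4 ≤ k * w := mul_le_mul_of_nonneg_left (by linarith) hp.k_pos.le
  push_cast
  nlinarith

end Main

theorem main_ (h1 : S_HIGH) (h2 : S_WINDOW) (h3 : S_BLOCK) : S_MAIN := by
  intro w k z X B hp hX1 hX2 hB hbad
  obtain ⟨k', r, ω, ε, hk, hr, hω0, hω1, hr2, hε, hA⟩ := h1 w k z hp
  have hz : 0 < z := by exact_mod_cast hp.z_pos
  have hkb := hp.k_big
  have hlb := hp.log_big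
  have hkR : (k : ℝ) = k' + 1 := by rw [← hk]; push_cast; rfl
  have hne : (Fintype.card (St w z) : ℝ) ≠ 0 := by
    intro h0
    have h4 : Fintype.card (St w z) = 0 := by exact_mod_cast h0
    have h5 : k' ≠ 0 := by
      rintro rfl
      rw [hkR] at hkb
      norm_num at hkb
    have h6 : Fintype.card (Fin k' → St w z) = 0 := by
      rw [Fintype.card_fun, h4, Fintype.card_fin, zero_pow h5]
    unfold av at hω1
    rw [h6] at hω1
    simp at hω1
  have hT : (1 : ℝ) ≤ Tn k z := by exact_mod_cast hz.trans_le hp.z_le_Tn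
  have hL : ((2 * k : ℕ) : ℝ) = 2 * k := by push_cast; rfl
  obtain ⟨v1, hv1, hv2, hW⟩ := h2 (St w z × (Fin k' → St w z))
    (fun σ => ω σ.2 / ((Fintype.card (St w z) : ℝ) * Fintype.card (Fin k' → St w z)))
    (fun σ => pos σ.1 + ∑ j, pos (σ.2 j)) (2002 * k * Real.log z - 1) (2 * k : ℕ) (Tn k z) ε r hT
    (by rw [hL]; linarith) hr (fun σ => div_nonneg (hω0 _) (by positivity))
    (by
      rw [Fintype.sum_prod_type]
      simp only [← sum_div, sum_const, card_univ, nsmul_eq_mul]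
      rw [mul_div_mul_left _ _ hne]
      exact hω1)
    (fun σ => by
      have a1 := Main.pos_bd hz σ.1
      have a2 := card_nsmul_le_sum univ (fun j => pos (σ.2 j)) _
        fun j _ => (Main.pos_bd hz (σ.2 j)).1
      have a3 := sum_le_card_nsmul univ (fun j => pos (σ.2 j)) _
        fun j _ => (Main.pos_bd hz (σ.2 j)).2
      rw [card_univ, Fintype.card_fin, nsmul_eq_mul] at a2 a3
      rw [hL]
      rw [hkR] at hkb ⊢
      constructor <;> nlinarith [a1.1, a1.2])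
    hr2 (fun A hA' => by
      refine le_of_eq_of_le (sum_congr rfl fun i _ => ?_) (hA A hA')
      rw [Main.ph_eq, norm_mul, norm_mul (_ * _), Complex.norm_conj])
  rw [hL] at hv2 hW
  have hl2 := Real.log_two_gt_d9
  have hl2' := Real.log_two_lt_d9
  have hl2p : 0 < Real.log 2 := by linarith
  have hX0 : 1 ≤ X := by
    rcases Nat.eq_zero_or_pos X with rfl | h
    · rw [Nat.cast_zero, Real.log_zero] at hX1
      nlinarith
    · exact h
  have hXR : (0 : ℝ) < X := by exact_mod_cast hX0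
  have hd : 0 ≤ (Real.log X - v1) / Real.log 2 := div_nonneg (by nlinarith) hl2p.le
  have hf1 := (le_div_iff₀ hl2p).1 (Nat.floor_le hd)
  have hf2 := (div_lt_iff₀ hl2p).1 (Nat.lt_floor_add_one ((Real.log X - v1) / Real.log 2))
  generalize ⌊(Real.log X - v1) / Real.log 2⌋₊ = r' at hf1 hf2
  have hc : r' + 2 * (k' + 1) ≤ z := by
    have a1 : (k : ℝ) ≤ Real.log z :=
      (le_mul_of_one_le_right hp.k_pos.le hp.one_le_w).trans hp.k_le_log
    have a2 := Real.quadratic_le_exp_of_nonneg (show 0 ≤ Real.log z by linarith)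
    rw [hp.exp_log] at a2
    have a3 : (r' : ℝ) * (1 / 2) ≤ r' * Real.log 2 :=
      mul_le_mul_of_nonneg_left (by linarith) (Nat.cast_nonneg _)
    have a4 : (r' : ℝ) * Real.log 2 ≤ 2002 * Real.log z + 2 * k + 2 := by nlinarith
    have a5 : (r' : ℝ) + 2 * k ≤ z := by nlinarith
    rw [hk]
    exact_mod_cast a5
  have h8 : 8 ≤ z :=
    le_trans (Nat.pow_le_pow_right (n := 2) (by norm_num) (show 3 ≤ 1000 by norm_num))
      hp.two_pow_le_z
  have hh : ⌈1 + 4 * (X : ℝ) / Tn k z⌉₊ ≤ 1 + 4 * z ^ 4005 := by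
    rw [Nat.ceil_le, Nat.cast_add, Nat.cast_mul, mul_div_assoc]
    have := Main.ratio hp hX0 hX2
    generalize ((z ^ 4005 : ℕ) : ℝ) = P at this ⊢
    push_cast
    linarith
  have key := hW (r' * Real.log 2) (1 + 4 * X / Tn k z) X B hX0 (by linarith)
    (by rw [Real.log_mul two_ne_zero hXR.ne']; linarith) le_rfl hB (fun m hm σ hσ =>
      hbad m hm ⟨_, Nat.succ_pos _, Main.size h8 hh hc,
        Main.good_of h3 hz r' m _ σ.1 σ.2 hσ.1 (hσ.2.trans (by
          have := Nat.le_ceil (1 + 4 * (X : ℝ) / Tn k z)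
          linarith))⟩)
  refine key.trans ?_
  rw [mul_comm (X : ℝ)]
  exact mul_le_mul_of_nonneg_right (by linarith) hXR.le

end Pool.Agent.P.MP_b60056_nt.AA
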