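import Pool.Agent.P.MP_b60056_nt.AA.Api

namespace Pool.Agent.P.MP_b60056_nt.AA

open Finset MeasureTheory

namespace Num

theorem roots {w k : ℕ} (hw : 10 ^ 30 ≤ w) (hk : w ^ 100 ≤ k) :
    ∃ y u : ℝ, (k : ℝ) = y ^ 4 ∧ Real.sqrt k = y ^ 2 ∧ (k : ℝ) ^ (3 / 4 : ℝ) = y ^ 3 ∧
      (k : ℝ) ^ (1 / 4 : ℝ) = y ∧ (k : ℝ) ^ (1 / 5 : ℝ) = u ∧ (w : ℝ) ^ 25 ≤ y ∧ u + 5 * w ≤ y := by
  have hk0 : (0 : ℝ) ≤ k := Nat.cast_nonneg k
  have hW : (10 : ℝ) ^ 30 ≤ w := by exact_mod_cast hw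
  obtain ⟨x, hx0, hx⟩ : ∃ x : ℝ, 0 ≤ x ∧ ∀ n : ℕ, x ^ n = (k : ℝ) ^ ((n : ℝ) / 20) :=
    ⟨(k : ℝ) ^ (1 / 20 : ℝ), Real.rpow_nonneg hk0 _, fun n => by
      rw [← Real.rpow_natCast, ← Real.rpow_mul hk0]
      congr 1
      ring⟩
  have h20 : x ^ 20 = k := by
    rw [hx]
    norm_num
  have h5 : (w : ℝ) ^ 5 ≤ x := by
    refine le_of_pow_le_pow_left₀ (n := 20) (by norm_num) hx0 ?_
    rw [h20, ← pow_mul]
    exact_mod_cast hk
  have h1 : (1 : ℝ) ≤ w := le_trans (by norm_num) hW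
  have hwx : (w : ℝ) ≤ x := (le_self_pow₀ h1 (by norm_num)).trans h5
  refine ⟨x ^ 5, x ^ 4, by rw [← pow_mul, h20], ?_, ?_, ?_, ?_, ?_, ?_⟩
  · rw [← h20, ← pow_mul, show x ^ 20 = (x ^ (5 * 2)) ^ 2 by ring, Real.sqrt_sq (by positivity)]
  · rw [← pow_mul, hx]
    norm_num
  · rw [hx]
    norm_num
  · rw [hx]
    norm_num
  · rw [show (w : ℝ) ^ 25 = ((w : ℝ) ^ 5) ^ 5 by ring]
    exact pow_le_pow_left₀ (by positivity) h5 5
  · have h4 : x ≤ x ^ 4 := le_self_pow₀ (h1.trans hwx) (by norm_num)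
    have h6 : 6 * x ^ 4 ≤ x * x ^ 4 := mul_le_mul_of_nonneg_right (by linarith) (by positivity)
    rw [show x ^ 5 = x * x ^ 4 by ring]
    linarith

section

variable {W y : ℝ} (hW : 10 ^ 30 ≤ W) (hy : W ^ 25 ≤ y)

include hW

theorem one_le : 1 ≤ W := le_trans (by norm_num) hW

theorem le_pw {a : ℕ} (ha : a ≠ 0) : 10 ^ 30 ≤ W ^ a := hW.trans (le_self_pow₀ (one_le hW) ha)

include hy

theorem pw {a : ℕ} (ha : a ≤ 25) : W ^ a ≤ y := (pow_le_pow_right₀ (one_le hW) ha).trans hy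

theorem le_y : W ≤ y := by simpa using pw hW hy (a := 1) (by norm_num)

theorem y_le_J : y ≤ y ^ 2 / W := by
  have h1 := one_le hW
  have h2 := le_y hW hy
  rw [le_div_iff₀ (by linarith), sq]
  exact mul_le_mul_of_nonneg_left h2 (by linarith)

theorem ok {K : ℝ} {w r n m1 m2 m : ℕ} (hw : (w : ℝ) = W) (hK : y ^ 4 ≤ 2 ^ w) (hK1 : K = y ^ 4)
    (hr : 1 ≤ r) (hn1 : 10 ^ 6 * (y ^ 2 / W + 1) ≤ n) (hn2 : n ≤ 3 * 10 ^ 6 * (y ^ 2 / W))
    (hm : y ^ 4 ≤ 201 * m) (hm0 : 1 ≤ m) (hmq : 24 * m ^ 2 ≤ 4 ^ (2 * w)) (hmm : 72 * m ≤ m1) :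
    NumOK r n w m1 m2 m (2 * w) (w + 1) (W ^ 9 / K) (100 / (W * y ^ 2)) (W ^ 4 / y ^ 3)
      (y ^ 2 / W) y (K ^ 5) := by
  subst hK1
  have h1 := one_le hW
  have h2 := le_y hW hy
  have h3 := y_le_J hW hy
  have hW0 : 0 < W := by linarith
  have hy0 : 0 < y := by linarith
  have hy1 : 1 ≤ y := by linarith
  have hy2 : 1 ≤ y ^ 2 := one_le_pow₀ hy1
  have he : 100 / (W * y ^ 2) ≤ 1 / 20 := by
    rw [div_le_div_iff₀ (by positivity) (by norm_num)]
    nlinarith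
  have hnW : (n : ℝ) * W ≤ 3 * 10 ^ 6 * y ^ 2 := by
    rw [← mul_div_assoc, le_div_iff₀ hW0] at hn2
    exact hn2
  have hmd : W ^ 4 * y / 201 ≤ m * (W ^ 4 / y ^ 3) := by
    have e : W ^ 4 * y / 201 = y ^ 4 / 201 * (W ^ 4 / y ^ 3) := by field_simp
    rw [e]
    exact mul_le_mul_of_nonneg_right (by linarith) (by positivity)
  refine ⟨hr, by positivity, by positivity, by linarith, by positivity,
    one_le_pow₀ (one_le_pow₀ hy1), by positivity, hn1, ?_, ?_, ?_, ?_, ?_, ?_, hm0, even_two_mul w,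
    hmq, hmm, hy1, by linarith, ?_, ?_, ?_⟩
  · rw [← hw] at h1
    exact_mod_cast h1
  · have a : 1 ≤ 2 ^ w * (W ^ 9 / y ^ 4) := by
      rw [← mul_div_assoc, le_div_iff₀ (by positivity), one_mul]
      exact hK.trans (le_mul_of_one_le_right (by positivity) (one_le_pow₀ h1))
    linarith
  · rw [hw]
    refine (mul_le_mul_of_nonneg_right hnW (by positivity)).trans ?_
    have e : 3 * 10 ^ 6 * y ^ 2 * (100 / (W * y ^ 2)) = 3 * 10 ^ 8 / W := by
      field_simp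
      norm_num
    rw [e, div_le_div_iff₀ hW0 (by norm_num)]
    linarith
  · rw [hw]
    refine (mul_le_mul_of_nonneg_right hnW (by positivity)).trans ?_
    have e : 3 * 10 ^ 6 * y ^ 2 * (W ^ 4 / y ^ 3) ^ 2 = W ^ 8 / y ^ 4 * (3 * 10 ^ 6) := by
      field_simp
    have e' : W ^ 9 / y ^ 4 / 10 ^ 7 = W ^ 8 / y ^ 4 * (W / 10 ^ 7) := by field_simp
    rw [e, e']
    exact mul_le_mul_of_nonneg_left (by linarith) (by positivity)
  · have a1 : (n : ℝ) ≤ y ^ 2 := by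
      refine le_of_mul_le_mul_right (hnW.trans ?_) hW0
      rw [mul_comm (y ^ 2)]
      exact mul_le_mul_of_nonneg_right (by linarith) (by positivity)
    have a2 : (n : ℝ) ^ 2 ≤ (y ^ 2) ^ 2 := pow_le_pow_left₀ (Nat.cast_nonneg n) a1 2
    refine (mul_le_mul_of_nonneg_right a2 (by positivity)).trans ?_
    have e : (y ^ 2) ^ 2 * ((y ^ 4) ^ 5)⁻¹ = 1 / y ^ 4 * (1 / y ^ 12) := by field_simp
    have e' : W ^ 9 / y ^ 4 / 10 ^ 5 = 1 / y ^ 4 * (W ^ 9 / 10 ^ 5) := by field_simp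
    rw [e, e']
    refine mul_le_mul_of_nonneg_left ?_ (by positivity)
    have a3 : 1 / y ^ 12 ≤ 1 := by
      rw [div_le_one (by positivity)]
      exact one_le_pow₀ hy1
    have a4 := le_pw hW (a := 9) (by norm_num)
    linarith
  · have e : 1024 * (100 / (W * y ^ 2)) ^ 2 = 1024 * 10 ^ 4 / W ^ 2 / y ^ 4 := by
      field_simp
      norm_num
    rw [e]
    refine div_le_div_of_nonneg_right ?_ (by positivity)
    have a4 := le_pw hW (a := 9) (by norm_num)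
    have a5 : 1024 * 10 ^ 4 / W ^ 2 ≤ 1024 * 10 ^ 4 := div_le_self (by norm_num) (one_le_pow₀ h1)
    linarith
  · refine lt_of_lt_of_le ?_ hmd
    push_cast
    rw [hw]
    have a4 := le_pw hW (a := 3) (by norm_num)
    have e : W ^ 4 * y / 201 = W ^ 3 / 201 * (W * y) := by ring
    have e' : 1200 * (2 * W) * y = 2400 * (W * y) := by ring
    rw [e, e']
    exact mul_lt_mul_of_pos_right (by linarith) (by positivity)
  · rw [← mul_pow]
    refine le_trans ?_ (pow_le_pow_left₀ (by positivity) hmd 2)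
    push_cast
    rw [hw]
    have a1 : 10 * (y ^ 2 / W) + 1 ≤ 11 * (y ^ 2 / W) := by linarith
    refine (mul_le_mul_of_nonneg_left a1 (by positivity)).trans ?_
    have e : 2 * 10 ^ 9 * (2 * W) ^ 3 * (11 * (y ^ 2 / W)) = 176 * 10 ^ 9 * (W ^ 2 * y ^ 2) := by
      field_simp
      norm_num
    have e' : (W ^ 4 * y / 201) ^ 2 = W ^ 6 / 201 ^ 2 * (W ^ 2 * y ^ 2) := by ring
    have a4 := le_pw hW (a := 6) (by norm_num)
    rw [e, e']
    exact mul_le_mul_of_nonneg_right (by linarith) (by positivity)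
  · have a1 : 1 ≤ W ^ 4 / y ^ 3 * 2 ^ w := by
      refine le_trans ?_ (mul_le_mul_of_nonneg_left hK (by positivity))
      have e : W ^ 4 / y ^ 3 * y ^ 4 = W ^ 4 * y := by field_simp
      rw [e]
      exact one_le_mul_of_one_le_of_one_le (one_le_pow₀ h1) hy1
    rw [pow_succ (2 : ℝ) w, ← mul_assoc]
    linarith

theorem r_ok {r : ℝ} (h1 : 5 * W ^ 5 * y ^ 2 ≤ r) (h2 : r ≤ 6 * W ^ 5 * y ^ 2) :
    220 * W ^ 9 / y ^ 4 ≤ (2 * Real.pi * r / (2 * y ^ 4)) ^ 2 ∧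
      8 * r * (2 * Real.pi * r / (2 * y ^ 4)) ^ 2 ≤ 1 / 2 ∧ r ≤ y ^ 4 := by
  have a1 := one_le hW
  have a2 := le_y hW hy
  have hW0 : 0 < W := by linarith
  have hy0 : 0 < y := by linarith
  have hr0 : 0 ≤ r := le_trans (by positivity) h1
  have p3 := Real.pi_gt_three
  have p4 := Real.pi_lt_four
  have e0 : 2 * Real.pi * r / (2 * y ^ 4) = Real.pi * r / y ^ 4 := by field_simp
  rw [e0]
  have b1 : 3 * (5 * W ^ 5 * y ^ 2) / y ^ 4 ≤ Real.pi * r / y ^ 4 :=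
    div_le_div_of_nonneg_right (mul_le_mul p3.le h1 (by positivity) (by positivity))
      (by positivity)
  have b2 : Real.pi * r / y ^ 4 ≤ 4 * (6 * W ^ 5 * y ^ 2) / y ^ 4 :=
    div_le_div_of_nonneg_right (mul_le_mul p4.le h2 hr0 (by norm_num)) (by positivity)
  refine ⟨le_trans ?_ (pow_le_pow_left₀ (by positivity) b1 2), ?_, h2.trans ?_⟩
  · have e : (3 * (5 * W ^ 5 * y ^ 2) / y ^ 4) ^ 2 = 225 * W * W ^ 9 / y ^ 4 := by
      field_simp
      norm_num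
    rw [e]
    exact div_le_div_of_nonneg_right
      (mul_le_mul_of_nonneg_right (by linarith) (by positivity)) (by positivity)
  · refine (mul_le_mul (mul_le_mul_of_nonneg_left h2 (by norm_num))
      (pow_le_pow_left₀ (by positivity) b2 2) (by positivity) (by positivity)).trans ?_
    have e : 8 * (6 * W ^ 5 * y ^ 2) * (4 * (6 * W ^ 5 * y ^ 2) / y ^ 4) ^ 2 =
        27648 * W ^ 15 / (y * y) := by
      field_simp
      norm_num
    rw [e, div_le_iff₀ (by positivity)]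
    have c1 := pw hW hy (a := 15) (by norm_num)
    nlinarith
  · have c1 := pw hW hy (a := 5) (by norm_num)
    rw [show y ^ 4 = y * y * y ^ 2 by ring]
    exact mul_le_mul_of_nonneg_right (by nlinarith) (by positivity)

theorem last {u : ℝ} {w r m1 m2 : ℕ} (hw : (w : ℝ) = W) (hK : y ^ 4 ≤ 2 ^ w) (hu : u + 5 * W ≤ y)
    (hr : r ≤ y ^ 4) (hm1 : y ^ 4 ≤ 2 * m1) (hm2 : y ^ 4 ≤ 5 * m2) :
    16 * y ^ 4 * (epsA r m1 m2 (w + 1) (100 / (W * y ^ 2)) (y ^ 2 / W) y +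
      3 * Real.exp (-y ^ 4 / 2)) ≤ Real.exp (-u) := by
  have a1 := one_le hW
  have a2 := le_y hW hy
  have a3 := y_le_J hW hy
  have hW0 : 0 < W := by linarith
  have hy0 : 0 < y := by linarith
  have e : y ^ 4 * (100 / (W * y ^ 2)) = 100 * (y ^ 2 / W) := by field_simp
  have b0 : 0 ≤ 100 / (W * y ^ 2) := by positivity
  have b1 := mul_le_mul_of_nonneg_right hm1 b0
  have b2 := mul_le_mul_of_nonneg_right hm2 b0
  rw [e] at b1 b2
  have c1 : Real.exp (y ^ 2 / W - 2 * m1 * (100 / (W * y ^ 2))) ≤ Real.exp (-y) :=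
    Real.exp_le_exp.2 (by linarith)
  have c2 : Real.exp (y ^ 2 / W - m2 * (100 / (W * y ^ 2)) / 8) ≤ Real.exp (-y) :=
    Real.exp_le_exp.2 (by linarith)
  have c3 : Real.exp (-19 * (y ^ 2 / W)) ≤ Real.exp (-y) := Real.exp_le_exp.2 (by linarith)
  have c4 : Real.exp (-y ^ 4 / 2) ≤ Real.exp (-y) := by
    have d : y ≤ y ^ 3 := le_self_pow₀ (by linarith) (by norm_num)
    refine Real.exp_le_exp.2 ?_
    rw [show y ^ 4 = y * y ^ 3 by ring]
    nlinarith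
  have p1 : (2 : ℝ) ^ w ≤ Real.exp W := by
    rw [← hw, ← mul_one (w : ℝ), Real.exp_nat_mul]
    exact pow_le_pow_left₀ (by norm_num) (by linarith [Real.add_one_le_exp (1 : ℝ)]) w
  have p2 : Real.exp 2 ≤ Real.exp W := Real.exp_le_exp.2 (by linarith)
  have p3 : 10 ^ 30 ≤ Real.exp W := by linarith [Real.add_one_le_exp W]
  have p5 : Real.exp W ^ 5 * Real.exp (-y) ≤ Real.exp (-u) := by
    rw [← Real.exp_nat_mul, ← Real.exp_add]
    exact Real.exp_le_exp.2 (by push_cast; linarith)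
  refine le_trans ?_ p5
  unfold epsA
  have hE := Real.exp_pos (-y)
  have p6 : (2 : ℝ) ^ (w + 1 + 2) ≤ 8 * Real.exp W := by
    rw [add_assoc, pow_add, show (2 : ℝ) ^ (1 + 2) = 8 by norm_num]
    linarith
  have h2 := Real.exp_pos 2
  have h19 := Real.exp_pos (-19 * (y ^ 2 / W))
  have hP1 : 1 ≤ Real.exp W := by linarith
  have q1 : Real.exp (-19 * (y ^ 2 / W)) + 2 ^ (w + 1 + 2) * Real.exp (-y) ≤
      9 * Real.exp W * Real.exp (-y) := by nlinarith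
  have q2 : (r : ℝ) * (4 * Real.exp 2 * (Real.exp (-19 * (y ^ 2 / W)) +
      2 ^ (w + 1 + 2) * Real.exp (-y))) ≤
      Real.exp W * (4 * Real.exp W * (9 * Real.exp W * Real.exp (-y))) :=
    mul_le_mul (hr.trans (hK.trans p1))
      (mul_le_mul (by linarith) q1 (by positivity) (by positivity)) (by positivity) (by positivity)
  have hyP := hK.trans p1
  have h4 := Real.exp_pos (-y ^ 4 / 2)
  generalize Real.exp W = P at *
  generalize Real.exp (-y) = E at *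
  have q3 : E ≤ P ^ 3 * E := le_mul_of_one_le_left hE.le (one_le_pow₀ hP1)
  refine le_trans (mul_le_mul (b := 16 * P) (d := 41 * (P ^ 3 * E)) (by linarith) (by nlinarith)
    (by positivity) (by positivity)) ?_
  have e2 : 16 * P * (41 * (P ^ 3 * E)) = 656 * (P ^ 4 * E) := by ring
  have e3 : P ^ 5 * E = P * (P ^ 4 * E) := by ring
  rw [e2, e3]
  exact mul_le_mul_of_nonneg_right (by linarith) (by positivity)

end

theorem mass {w k m2 m : ℕ} (hW : (10 : ℝ) ^ 30 ≤ w) (hk : k ≤ 2 ^ w) (hk1 : 1 ≤ k)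
    (h2 : 4 * m2 ≤ k) (h : m ≤ k) : ((k : ℝ) ^ 5) ^ m2 * (4 * 24 ^ m) ≤ Real.exp (k * w) := by
  have a1 : (k : ℝ) ≤ Real.exp (w * 0.7) := by
    rw [Real.exp_nat_mul]
    refine le_trans (by exact_mod_cast hk) (pow_le_pow_left₀ (by norm_num : (0 : ℝ) ≤ 2) ?_ w)
    rw [← Real.exp_log two_pos]
    exact Real.exp_le_exp.2 (by linarith [Real.log_two_lt_d9])
  have a2 : ((k : ℝ) ^ 5) ^ m2 ≤ Real.exp (((5 * m2 : ℕ) : ℝ) * (w * 0.7)) := by
    rw [Real.exp_nat_mul, pow_mul]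
    exact pow_le_pow_left₀ (by positivity) (pow_le_pow_left₀ (Nat.cast_nonneg k) a1 5) m2
  have a3 : (24 : ℝ) ^ m ≤ Real.exp (m * 23) := by
    rw [Real.exp_nat_mul]
    exact pow_le_pow_left₀ (by norm_num) (by linarith [Real.add_one_le_exp (23 : ℝ)]) m
  have a4 : (4 : ℝ) ≤ Real.exp 3 := by linarith [Real.add_one_le_exp (3 : ℝ)]
  refine (mul_le_mul a2 (mul_le_mul a4 a3 (by positivity) (by positivity)) (by positivity)
    (by positivity)).trans ?_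
  rw [← Real.exp_add, ← Real.exp_add, Real.exp_le_exp]
  have b1 : 4 * (m2 : ℝ) ≤ k := by exact_mod_cast h2
  have b2 : (m : ℝ) ≤ k := by exact_mod_cast h
  have b3 : (1 : ℝ) ≤ k := by exact_mod_cast hk1
  have b4 := mul_le_mul_of_nonneg_right b1 (show (0 : ℝ) ≤ w by positivity)
  have b5 := mul_le_mul_of_nonneg_left hW (show (0 : ℝ) ≤ k by positivity)
  push_cast
  nlinarith

end Num

theorem num : S_NUM := by
  intro w k hw hk1 hk2
  obtain ⟨y, u, e1, e2, e3, e4, e5, hy, hu⟩ := Num.roots hw hk1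
  have hW : (10 : ℝ) ^ 30 ≤ w := by exact_mod_cast hw
  have hkb : 10 ^ 30 ≤ k := hw.trans ((Nat.le_self_pow (by norm_num) w).trans hk1)
  have hK : y ^ 4 ≤ 2 ^ w := by
    rw [← e1]
    exact_mod_cast hk2
  have a1 := Num.one_le hW
  have a2 := Num.le_y hW hy
  have a3 := Num.y_le_J hW hy
  have hy1 : 1 ≤ y := by linarith
  have hrp : 1 ≤ (w : ℝ) ^ 5 * y ^ 2 :=
    one_le_mul_of_one_le_of_one_le (one_le_pow₀ a1) (one_le_pow₀ hy1)
  have hr1 := Nat.le_ceil (5 * (w : ℝ) ^ 5 * y ^ 2)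
  have hr2 := Nat.ceil_lt_add_one (show 0 ≤ 5 * (w : ℝ) ^ 5 * y ^ 2 by positivity)
  have hn1 := Nat.le_ceil (10 ^ 6 * (y ^ 2 / (w : ℝ) + 1))
  have hn2 := Nat.ceil_lt_add_one (show 0 ≤ 10 ^ 6 * (y ^ 2 / (w : ℝ) + 1) by positivity)
  generalize ⌈5 * (w : ℝ) ^ 5 * y ^ 2⌉₊ = r at hr1 hr2
  generalize ⌈10 ^ 6 * (y ^ 2 / (w : ℝ) + 1)⌉₊ = n at hn1 hn2
  have hn3 : (n : ℝ) ≤ 3 * 10 ^ 6 * (y ^ 2 / w) := by linarith
  obtain ⟨r1, r2, r3⟩ := Num.r_ok hW hy hr1 (by linarith)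
  have hL : ((2 * k : ℕ) : ℝ) = 2 * y ^ 4 := by
    rw [← e1]
    push_cast
    rfl
  have hm1 : k ≤ 2 * (k - 1 - k / 4 - k / 200) := by omega
  refine ⟨r, n, k - 1 - k / 4 - k / 200, k / 4, k / 200, by omega, hm1, ?_, ?_, ?_, ?_,
    Num.mass hW hk2 (by omega) (by omega) (by omega), ?_⟩
  · have b1 : y ^ 2 / w ≤ y ^ 2 := div_le_self (by positivity) a1
    have b2 : y ≤ y ^ 2 := le_self_pow₀ hy1 (by norm_num)
    have b3 : 2 * (n : ℝ) ≤ k := by
      rw [e1, show y ^ 4 = y ^ 2 * y ^ 2 by ring]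
      nlinarith
    exact_mod_cast b3
  · rw [e2, e3, e4]
    refine Num.ok hW hy rfl hK e1 ?_ hn1 hn3 ?_ (by omega) ?_ (by omega)
    · have b : (1 : ℝ) ≤ r := by linarith
      exact_mod_cast b
    · rw [← e1]
      have b : k ≤ 201 * (k / 200) := by omega
      exact_mod_cast b
    · calc 24 * (k / 200) ^ 2 ≤ (200 * (k / 200)) ^ 2 := by
            rw [mul_pow]
            exact Nat.mul_le_mul_right _ (by norm_num)
        _ ≤ (4 ^ w) ^ 2 := Nat.pow_le_pow_left ((Nat.mul_div_le k 200).trans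
            (hk2.trans (Nat.pow_le_pow_left (by norm_num) w))) 2
        _ = 4 ^ (2 * w) := by rw [← pow_mul, mul_comm]
  · rw [hL, e1]
    exact r1
  · rw [hL]
    exact r2
  · rw [e2, e4, e5, e1]
    refine Num.last hW hy rfl hK hu r3 ?_ ?_
    · rw [← e1]
      exact_mod_cast hm1
    · rw [← e1]
      have b : k ≤ 5 * (k / 4) := by omega
      exact_mod_cast b

end Pool.Agent.P.MP_b60056_nt.AA
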