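import Pool.Agent.P.MP_b60056_nt.AA.Api

namespace Pool.Agent.P.MP_b60056_nt.AA

open Finset MeasureTheory

namespace Omega

theorem two_pow_le {b : ℕ} (hb : b ≠ 0) : 2 ^ Om b ≤ b := by
  conv_rhs => rw [← Nat.prod_primeFactorsList hb]
  exact List.pow_card_le_prod _ 2 fun p hp => (Nat.prime_of_mem_primeFactorsList hp).two_le

theorem sqfree_le {a : ℕ} (ha : a ≠ 0) (hs : Squarefree a) : 2 ^ Om a ≤ a.divisors.card := by
  have h1 : Om a = a.primeFactors.card := by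
    unfold Om
    rw [ArithmeticFunction.cardFactors_apply, ← Nat.toFinset_factors,
      List.toFinset_card_of_nodup ((Nat.squarefree_iff_nodup_primeFactorsList ha).1 hs)]
  rw [h1, Nat.card_divisors ha]
  refine Finset.pow_card_le_prod _ _ 2 fun p hp => ?_
  have : a.factorization p ≠ 0 := by
    rw [← Finsupp.mem_support_iff, Nat.support_factorization]; exact hp
  omega

theorem split {a R1 R2 : ℕ} (ha : 0 < a) (h : R1 + 2 * R2 < Om a) :
    2 ^ R1 ≤ a.divisors.card ∨ ∃ b, 2 ^ R2 ≤ b ∧ b ^ 2 ∣ a := by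
  obtain ⟨c, b, hc, hb, rfl, hs⟩ := Nat.sq_mul_squarefree_of_pos ha
  rcases le_or_gt (2 ^ R2) b with h1 | h1
  · exact Or.inr ⟨b, h1, dvd_mul_right _ _⟩
  left
  have h2 : Om b < R2 :=
    (Nat.pow_lt_pow_iff_right (by norm_num)).1 ((two_pow_le hb.ne').trans_lt h1)
  have h3 : Om (b ^ 2 * c) = Om b + Om b + Om c := by
    unfold Om
    rw [sq, ArithmeticFunction.cardFactors_mul (by positivity) hc.ne',
      ArithmeticFunction.cardFactors_mul hb.ne' hb.ne']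
  calc 2 ^ R1 ≤ 2 ^ Om c := Nat.pow_le_pow_right (by norm_num) (by omega)
    _ ≤ c.divisors.card := sqfree_le hc.ne' hs
    _ ≤ _ := card_le_card (Nat.divisors_subset_of_dvd ha.ne' (dvd_mul_left _ _))

theorem sum_div (n : ℕ) : ∑ a ∈ Ioc 0 n, (a.divisors.card : ℝ) ≤ n * (1 + Real.log n) := by
  have h1 := ArithmeticFunction.sum_Ioc_sigma0_eq_sum_div n
  simp only [ArithmeticFunction.sigma_zero_apply] at h1
  have h2 := harmonic_le_one_add_log n
  simp only [harmonic_eq_sum_Icc, Rat.cast_sum, Rat.cast_inv, Rat.cast_natCast] at h2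
  calc ∑ a ∈ Ioc 0 n, (a.divisors.card : ℝ) = ∑ d ∈ Ioc 0 n, ((n / d : ℕ) : ℝ) := by
        exact_mod_cast h1
    _ ≤ ∑ d ∈ Icc 1 n, (n : ℝ) * (d : ℝ)⁻¹ :=
        sum_le_sum fun d _ => by rw [← div_eq_mul_inv]; exact Nat.cast_div_le
    _ ≤ _ := by
        rw [← mul_sum]
        exact mul_le_mul_of_nonneg_left h2 (Nat.cast_nonneg n)

theorem many (n D : ℕ) :
    (((Ioc 0 n).filter (fun a => D ≤ a.divisors.card)).card : ℝ) * D ≤ n * (1 + Real.log n) := by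
  refine le_trans ?_ (sum_div n)
  calc (((Ioc 0 n).filter (fun a => D ≤ a.divisors.card)).card : ℝ) * D
      = ∑ _a ∈ (Ioc 0 n).filter (fun a => D ≤ a.divisors.card), (D : ℝ) := by
        rw [sum_const, nsmul_eq_mul]
    _ ≤ ∑ a ∈ (Ioc 0 n).filter (fun a => D ≤ a.divisors.card), (a.divisors.card : ℝ) :=
        sum_le_sum fun a ha => by exact_mod_cast (mem_filter.1 ha).2
    _ ≤ _ := sum_le_sum_of_subset_of_nonneg (filter_subset _ _) fun _ _ _ => Nat.cast_nonneg _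

theorem sqs (n D : ℕ) :
    (((Ioo D (n + 1)).biUnion (fun b => (Ioc 0 n).filter (fun a => b ^ 2 ∣ a))).card : ℝ) ≤
      n * (2 / (D + 1)) := by
  calc (((Ioo D (n + 1)).biUnion (fun b => (Ioc 0 n).filter (fun a => b ^ 2 ∣ a))).card : ℝ)
      ≤ ∑ b ∈ Ioo D (n + 1), (((Ioc 0 n).filter (fun a => b ^ 2 ∣ a)).card : ℝ) := by
        exact_mod_cast card_biUnion_le
    _ ≤ ∑ b ∈ Ioo D (n + 1), (n : ℝ) * ((b : ℝ) ^ 2)⁻¹ := sum_le_sum fun b _ => by
        rw [Nat.Ioc_filter_dvd_card_eq_div, ← div_eq_mul_inv]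
        exact_mod_cast (Nat.cast_div_le (α := ℝ) (m := n) (n := b ^ 2))
    _ ≤ _ := by
        rw [← mul_sum]
        exact mul_le_mul_of_nonneg_left (sum_Ioo_inv_sq_le D (n + 1)) (Nat.cast_nonneg n)

end Omega

open Omega in
theorem omega_ : S_OMEGA := by
  intro y R1 R2 hy
  have hp : 1 ≤ 2 ^ R2 := Nat.one_le_two_pow
  have hsub : (Ioc y (2 * y)).filter (fun a => R1 + 2 * R2 < Om a) ⊆
      (Ioc 0 (2 * y)).filter (fun a => 2 ^ R1 ≤ a.divisors.card) ∪
      (Ioo (2 ^ R2 - 1) (2 * y + 1)).biUnion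
        (fun b => (Ioc 0 (2 * y)).filter (fun a => b ^ 2 ∣ a)) := by
    intro a ha
    obtain ⟨h1, h2⟩ := mem_filter.1 ha
    obtain ⟨h3, h4⟩ := mem_Ioc.1 h1
    have h5 : a ∈ Ioc 0 (2 * y) := mem_Ioc.2 ⟨by omega, h4⟩
    rcases split (by omega) h2 with h | ⟨b, hb, hd⟩
    · exact mem_union_left _ (mem_filter.2 ⟨h5, h⟩)
    · have h6 : b ≤ a := Nat.le_of_dvd (by omega) ((dvd_pow_self b two_ne_zero).trans hd)
      exact mem_union_right _ (mem_biUnion.2 ⟨b, mem_Ioo.2 ⟨by omega, by omega⟩,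
        mem_filter.2 ⟨h5, hd⟩⟩)
  have h1 := many (2 * y) (2 ^ R1)
  have h2 := sqs (2 * y) (2 ^ R2 - 1)
  have h3 := (Nat.cast_le (α := ℝ)).2 ((card_le_card hsub).trans (card_union_le _ _))
  rw [Nat.cast_sub hp] at h2
  push_cast at h1 h2 h3
  rw [sub_add_cancel] at h2
  rw [← le_div_iff₀ (by positivity)] at h1
  refine h3.trans ((add_le_add h1 h2).trans (le_of_eq ?_))
  ring

end Pool.Agent.P.MP_b60056_nt.AA
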