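import Pool.Agent.P.MP_b60056_nt.AA.Api

namespace Pool.Agent.P.MP_b60056_nt.AA

open Finset

namespace Pack

theorem exists_net {T : Type} (A : Finset T) (r : T → T → Prop) (hs : ∀ a b, r a b → r b a) :
    ∃ Y ⊆ A, (∀ a ∈ Y, ∀ b ∈ Y, a ≠ b → r a b) ∧ ∀ a ∈ A, ∃ b ∈ Y, a = b ∨ ¬ r a b := by
  classical
  obtain ⟨P, hP⟩ : ∃ P : Finset T → Prop, P = fun Y => ∀ a ∈ Y, ∀ b ∈ Y, a ≠ b → r a b := ⟨_, rfl⟩
  obtain ⟨Y, hY, hm⟩ := exists_max_image (A.powerset.filter P) card ⟨∅, by simp [hP]⟩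
  simp only [mem_filter, mem_powerset] at hY hm
  subst hP
  refine ⟨Y, hY.1, hY.2, fun a ha => ?_⟩
  by_contra hn
  push Not at hn
  have h1 : a ∉ Y := fun h => (hn a h).1 rfl
  have := hm (insert a Y) ⟨insert_subset ha hY.1, ?_⟩
  · rw [card_insert_of_notMem h1] at this
    omega
  · intro b hb c hc hbc
    rcases mem_insert.1 hb with rfl | hb' <;> rcases mem_insert.1 hc with rfl | hc'
    · exact absurd rfl hbc
    · exact (hn c hc').2
    · exact hs _ _ (hn b hb').2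
    · exact hY.2 b hb' c hc' hbc

theorem aux (h1 : S_PACK1) {S ι T : Type} [Fintype S] [Fintype ι] (ϖ : S → ℝ) (a : S → ι → ℝ)
    (q : ℕ) (x : T → ι → ℝ) {β : ℝ} (hq : 1 ≤ q) (h0 : ∀ s, 0 ≤ ϖ s) (hav : av ϖ ≤ 4)
    (ha : ∀ s, ∑ j, a s j ^ 2 ≤ 4) (hβ : 0 < β) (n : ℕ) : ∀ (A : Finset T) (δ : ℝ), 0 < δ →
    (∀ t ∈ A, ∀ t' ∈ A, t ≠ t' → δ ^ 2 ≤ ∑ j, (x t j - x t' j) ^ 2 ∧
      ∑ j, (x t j - x t' j) ^ 2 < (δ * 2 ^ n) ^ 2 ∧
      (β * ∑ j, (x t j - x t' j) ^ 2) ^ (2 * q) ≤ Pq ϖ a q (fun j => x t j - x t' j)) →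
    (A.card : ℝ) ≤ 2 ^ n * Real.exp (4608 * q / (β ^ 2 * δ ^ 2)) := by
  classical
  induction n with
  | zero =>
    intro A δ hδ h
    have : A.card ≤ 1 := card_le_one.2 fun t ht t' ht' => by
      by_contra hn
      obtain ⟨h2, h3, -⟩ := h t ht t' ht' hn
      rw [pow_zero, mul_one] at h3
      linarith
    rw [pow_zero, one_mul]
    exact le_trans (by exact_mod_cast this) (Real.one_le_exp (by positivity))
  | succ n ih =>
    intro A δ hδ h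
    obtain ⟨Y, hY, hsep, hnet⟩ := exists_net A
      (fun t t' => (2 * δ) ^ 2 ≤ ∑ j, (x t j - x t' j) ^ 2) fun t t' h => by
        simpa only [sub_sq_comm (x t' _)] using h
    have hYc := ih Y (2 * δ) (by positivity) fun t ht t' ht' hne => ⟨hsep t ht t' ht' hne, by
      rw [show 2 * δ * 2 ^ n = δ * 2 ^ (n + 1) by ring]
      exact (h t (hY ht) t' (hY ht') hne).2⟩
    have hB : ∀ y ∈ Y, ((A.filter fun t => ∑ j, (x t j - x y j) ^ 2 ≤ (2 * δ) ^ 2).card : ℝ) ≤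
        2 * Real.exp (864 * q * (2 * δ) ^ 2 / (β * δ ^ 2) ^ 2) := fun y _ => by
      refine h1 S ι T ϖ a q _ x (x y) _ _ hq h0 hav ha (by positivity)
        (fun t ht => (mem_filter.1 ht).2) fun t ht t' ht' hne => ?_
      obtain ⟨h2, -, h3⟩ := h t (mem_filter.1 ht).1 t' (mem_filter.1 ht').1 hne
      refine le_trans ?_ h3
      gcongr
    have hsub : A ⊆ Y.biUnion fun y => A.filter fun t =>
        ∑ j, (x t j - x y j) ^ 2 ≤ (2 * δ) ^ 2 := fun t ht => by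
      obtain ⟨y, hy, h2⟩ := hnet t ht
      refine mem_biUnion.2 ⟨y, hy, mem_filter.2 ⟨ht, ?_⟩⟩
      rcases h2 with rfl | h2
      · simpa using sq_nonneg (2 * δ)
      · exact (not_le.1 h2).le
    calc (A.card : ℝ) ≤ ∑ y ∈ Y,
          ((A.filter fun t => ∑ j, (x t j - x y j) ^ 2 ≤ (2 * δ) ^ 2).card : ℝ) := by
          exact_mod_cast (card_le_card hsub).trans card_biUnion_le
      _ ≤ Y.card * (2 * Real.exp (864 * q * (2 * δ) ^ 2 / (β * δ ^ 2) ^ 2)) := by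
          simpa only [nsmul_eq_mul] using sum_le_card_nsmul _ _ _ hB
      _ ≤ 2 ^ n * Real.exp (4608 * q / (β ^ 2 * (2 * δ) ^ 2)) *
          (2 * Real.exp (864 * q * (2 * δ) ^ 2 / (β * δ ^ 2) ^ 2)) := by gcongr
      _ = _ := by
          rw [show 4608 * q / (β ^ 2 * δ ^ 2) = 4608 * q / (β ^ 2 * (2 * δ) ^ 2) +
            864 * q * (2 * δ) ^ 2 / (β * δ ^ 2) ^ 2 by field_simp; norm_num, Real.exp_add]
          ring

end Pack

theorem pack (h1 : S_PACK1) : S_PACK := by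
  intro S ι T _ _ ϖ a q I A x δ β hq h0 hav ha hδ hβ h
  refine Pack.aux h1 ϖ a q x hq h0 hav ha hβ (I + 1) A δ hδ fun t ht t' ht' hne => ?_
  obtain ⟨h2, h3, h4⟩ := h t ht t' ht' hne
  refine ⟨h2, h3.trans_lt ?_, h4⟩
  gcongr
  · exact one_lt_two
  · exact Nat.lt_succ_self I

end Pool.Agent.P.MP_b60056_nt.AA
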