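import Pool.Agent.P.MP_b60056_nt.AA.Api

/-! Gaussian packing bound. -/

namespace Pool.Agent.P.MP_b60056_nt.AA

open Finset MeasureTheory

namespace Pack1

variable {S ι : Type} [Fintype S] [Fintype ι] {ϖ : S → ℝ} {a : S → ι → ℝ} {q : ℕ}

theorem gw_pos (x : ι → ℝ) : 0 < gw x := Real.exp_pos _

theorem cont (ϖ : S → ℝ) (a : S → ι → ℝ) (q : ℕ) : Continuous (Pq ϖ a q) := by
  unfold Pq av
  fun_prop

theorem nonneg (h : ∀ s, 0 ≤ ϖ s) (e : ι → ℝ) : 0 ≤ Pq ϖ a q e :=
  av_nonneg fun s => mul_nonneg (h s) ((even_two_mul q).pow_nonneg _)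

theorem smul (c : ℝ) (e : ι → ℝ) : Pq ϖ a q (c • e) = (c ^ 2) ^ q * Pq ϖ a q e := by
  rw [Pq, Pq, ← av_mul_left]
  refine av_congr fun s => ?_
  have : ∑ j, a s j * (c • e) j = c * ∑ j, a s j * e j := by
    rw [Finset.mul_sum]
    exact Finset.sum_congr rfl fun j _ => by rw [Pi.smul_apply, smul_eq_mul]; ring
  rw [this, mul_pow, pow_mul c]; ring

theorem neg (e : ι → ℝ) : Pq ϖ a q (-e) = Pq ϖ a q e := by
  rw [← neg_one_smul ℝ e, smul]; simp

theorem add_le (h : ∀ s, 0 ≤ ϖ s) (u v : ι → ℝ) :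
    Pq ϖ a q (u + v) ≤ 2 ^ (2 * q - 1) * (Pq ϖ a q u + Pq ϖ a q v) := by
  rw [Pq, Pq, Pq, ← av_add, ← av_mul_left]
  refine av_mono fun s => ?_
  have : ∑ j, a s j * (u + v) j = ∑ j, a s j * u j + ∑ j, a s j * v j := by
    simp only [Pi.add_apply, mul_add, Finset.sum_add_distrib]
  rw [this, ← mul_add, mul_left_comm]
  exact mul_le_mul_of_nonneg_left (even_two_mul q).add_pow_le (h s)

theorem moment (h1 : S_GAUSS) (h : ∀ s, 0 ≤ ϖ s) (h4 : av ϖ ≤ 4)
    (ha : ∀ s, ∑ j, a s j ^ 2 ≤ 4) :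
    Integrable (fun x => Pq ϖ a q x * gw x) ∧
      ∫ x, Pq ϖ a q x * gw x ≤ 4 * (24 * q) ^ q * ∫ x : ι → ℝ, gw x := by
  obtain ⟨-, g1, -, g2⟩ := h1 ι
  have e : (fun x => Pq ϖ a q x * gw x) = fun x => ∑ s,
      ϖ s / Fintype.card S * ((∑ j, a s j * x j) ^ (2 * q) * gw x) := by
    funext x
    rw [Pq, av, Finset.sum_div, Finset.sum_mul]
    exact Finset.sum_congr rfl fun s _ => by ring
  rw [e]
  refine ⟨integrable_finsetSum _ fun s _ => (g2 (a s) q).1.const_mul _, ?_⟩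
  rw [integral_finsetSum _ fun s _ => (g2 (a s) q).1.const_mul _]
  calc _ ≤ ∑ s, ϖ s / Fintype.card S * ((24 * q) ^ q * ∫ x : ι → ℝ, gw x) := by
        refine Finset.sum_le_sum fun s _ => ?_
        rw [integral_const_mul]
        refine mul_le_mul_of_nonneg_left ((g2 (a s) q).2.trans
          (mul_le_mul_of_nonneg_right (pow_le_pow_left₀ (by positivity) ?_ _) g1.le))
          (div_nonneg (h s) (Nat.cast_nonneg _))
        nlinarith [ha s, Nat.cast_nonneg (α := ℝ) q]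
    _ = av ϖ * ((24 * q) ^ q * ∫ x : ι → ℝ, gw x) := by
        rw [← Finset.sum_mul, ← Finset.sum_div, av]
    _ ≤ _ := by rw [mul_assoc]; exact mul_le_mul_of_nonneg_right h4 (by positivity)

theorem half (h1 : S_GAUSS) (hq : 1 ≤ q) (h : ∀ s, 0 ≤ ϖ s) (h4 : av ϖ ≤ 4)
    (ha : ∀ s, ∑ j, a s j ^ 2 ≤ 4) :
    (∫ x : ι → ℝ, gw x) / 2 ≤ ∫ x in {x | Pq ϖ a q x ≤ (192 * q) ^ q}, gw x := by
  obtain ⟨m1, m2⟩ := moment (q := q) h1 h h4 ha
  obtain ⟨g0, g1, -, -⟩ := h1 ι
  have hK : MeasurableSet {x | Pq ϖ a q x ≤ (192 * q) ^ q} :=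
    (isClosed_le (cont ϖ a q) continuous_const).measurableSet
  have h2 := integral_add_compl hK g0
  have h3 : (192 * q : ℝ) ^ q * ∫ x in {x | Pq ϖ a q x ≤ (192 * q) ^ q}ᶜ, gw x ≤
      ∫ x, Pq ϖ a q x * gw x := by
    rw [← integral_const_mul]
    refine (setIntegral_mono_on (g0.const_mul _).integrableOn m1.integrableOn hK.compl
      fun x (hx : ¬ _ ≤ _) => mul_le_mul_of_nonneg_right (not_le.1 hx).le (gw_pos x).le).trans
      (setIntegral_le_integral m1 (ae_of_all _ fun x => mul_nonneg (nonneg h x) (gw_pos x).le))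
  have h5 : (0 : ℝ) < (24 * q) ^ q := by positivity
  have h6 : 8 * (24 * q : ℝ) ^ q ≤ (192 * q) ^ q := by
    rw [show (192 * q : ℝ) = 8 * (24 * q) by ring, mul_pow 8]
    exact mul_le_mul_of_nonneg_right (le_self_pow₀ (by norm_num) (by omega)) h5.le
  have h7 : 0 ≤ ∫ x in {x | Pq ϖ a q x ≤ (192 * q) ^ q}ᶜ, gw x :=
    integral_nonneg fun x => (gw_pos x).le
  have h8 := (mul_le_mul_of_nonneg_right h6 h7).trans (h3.trans m2)
  have h9 : 2 * ∫ x in {x | Pq ϖ a q x ≤ (192 * q) ^ q}ᶜ, gw x ≤ ∫ x : ι → ℝ, gw x :=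
    le_of_mul_le_mul_left (a := 4 * (24 * q : ℝ) ^ q) (by linarith) (by positivity)
  linarith

theorem shift (h1 : S_GAUSS) {K : Set (ι → ℝ)} (hK : MeasurableSet K)
    (hs : ∀ x, -x ∈ K ↔ x ∈ K) (y : ι → ℝ) :
    gw y * ∫ x in K, gw x ≤ ∫ x in (fun x => x - y) ⁻¹' K, gw x := by
  obtain ⟨g0, -, g2, -⟩ := h1 ι
  have e1 : ∫ x in (fun x => x - y) ⁻¹' K, gw x =
      gw y * ∫ x in K, Real.exp (∑ j, (-y) j * x j) * gw x := by
    rw [← integral_const_mul, ← integral_indicator hK,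
      ← integral_indicator (hK.preimage (by fun_prop)), ← integral_add_left_eq_self _ y]
    refine integral_congr_ae (ae_of_all _ fun x => ?_)
    by_cases hx : x ∈ K
    · simp only
      rw [Set.indicator_of_mem hx, Set.indicator_of_mem (by simpa using hx), gw, gw, gw,
        ← Real.exp_add, ← Real.exp_add]
      congr 1
      simp only [Pi.add_apply, Pi.neg_apply, add_sq, Finset.sum_add_distrib, neg_mul,
        Finset.sum_neg_distrib, mul_assoc, ← Finset.mul_sum]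
      ring
    · simp only
      rw [Set.indicator_of_notMem hx, Set.indicator_of_notMem (by simpa using hx)]
  have e2 : ∫ x in K, Real.exp (∑ j, (-y) j * x j) * gw x =
      ∫ x in K, Real.exp (∑ j, y j * x j) * gw x := by
    rw [← integral_indicator hK, ← integral_indicator hK, ← integral_neg_eq_self]
    refine integral_congr_ae (ae_of_all _ fun x => ?_)
    by_cases hx : x ∈ K
    · simp only
      rw [Set.indicator_of_mem hx, Set.indicator_of_mem ((hs x).2 hx)]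
      simp [gw]
    · simp only
      rw [Set.indicator_of_notMem hx, Set.indicator_of_notMem fun e => hx ((hs x).1 e)]
  have e3 : 2 * ∫ x in K, gw x ≤ (∫ x in K, Real.exp (∑ j, (-y) j * x j) * gw x) +
      ∫ x in K, Real.exp (∑ j, y j * x j) * gw x := by
    rw [← integral_const_mul, ← integral_add (g2 _).1.integrableOn (g2 _).1.integrableOn]
    refine integral_mono (g0.const_mul _).integrableOn
      ((g2 _).1.integrableOn.add (g2 _).1.integrableOn) fun x => ?_
    simp only [Pi.neg_apply, neg_mul, Finset.sum_neg_distrib, ← add_mul]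
    refine mul_le_mul_of_nonneg_right ?_ (gw_pos x).le
    linarith [Real.add_one_le_exp (∑ j, y j * x j), Real.add_one_le_exp (-∑ j, y j * x j)]
  rw [e1]
  exact mul_le_mul_of_nonneg_left (by linarith) (gw_pos y).le

end Pack1

open Pack1 in
theorem pack1 (h1 : S_GAUSS) : S_PACK1 := by
  intro S ι T _ _ ϖ a q A x x0 R θ hq h h4 ha hθ hR hA
  have hh := half h1 hq h h4 ha
  set K := {x | Pq ϖ a q x ≤ (192 * q) ^ q} with hKd
  have hK : MeasurableSet K := (isClosed_le (cont ϖ a q) continuous_const).measurableSet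
  have hq' : (1 : ℝ) ≤ q := by exact_mod_cast hq
  obtain ⟨r, hr⟩ : ∃ r : ℝ, r ^ 2 = 1728 * q / θ ^ 2 := ⟨√_, Real.sq_sqrt (by positivity)⟩
  obtain ⟨g0, g1, -, -⟩ := h1 ι
  have hd : (A : Set T).Pairwise (Function.onFun Disjoint
      fun t => (fun z => z - r • (x t - x0)) ⁻¹' K) := fun t ht t' ht' e =>
    Set.disjoint_left.2 fun z z1 z2 => by
      have h2 := add_le (a := a) (q := q) h (z - r • (x t' - x0)) (-(z - r • (x t - x0)))
      rw [neg, show z - r • (x t' - x0) + -(z - r • (x t - x0)) = r • (x t - x t') by module,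
        smul] at h2
      have h3 : (r ^ 2) ^ q * θ ^ (2 * q) ≤ (r ^ 2) ^ q * Pq ϖ a q (x t - x t') :=
        mul_le_mul_of_nonneg_left (hA t ht t' ht' e) (by positivity)
      have h5 : (2 : ℝ) ^ (2 * q - 1) * (Pq ϖ a q (z - r • (x t' - x0)) +
          Pq ϖ a q (z - r • (x t - x0))) ≤ 2 ^ (2 * q - 1) * (2 * (192 * q) ^ q) :=
        mul_le_mul_of_nonneg_left (by rw [two_mul]; exact add_le_add z2 z1) (by positivity)
      have h6 := h3.trans (h2.trans h5)
      rw [pow_mul θ, ← mul_pow, hr, div_mul_cancel₀ _ (by positivity), ← mul_assoc, ← pow_succ,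
        show 2 * q - 1 + 1 = 2 * q by omega, pow_mul, ← mul_pow] at h6
      exact absurd h6 (not_le.2 (pow_lt_pow_left₀ (by linarith) (by positivity) (by omega)))
  have h2 := setIntegral_le_integral (s := ⋃ t ∈ A, (fun z => z - r • (x t - x0)) ⁻¹' K) g0
    (ae_of_all _ fun x => (gw_pos x).le)
  rw [integral_biUnion_finset A (fun t _ => hK.preimage (by fun_prop)) hd
    fun t _ => g0.integrableOn] at h2
  have h3 : ∑ _t ∈ A, Real.exp (-(864 * q * R ^ 2 / θ ^ 2)) * ((∫ x : ι → ℝ, gw x) / 2) ≤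
      ∫ x : ι → ℝ, gw x := by
    refine (Finset.sum_le_sum fun t ht => ?_).trans h2
    refine le_trans (mul_le_mul (Real.exp_le_exp.2 ?_) hh (by positivity) (Real.exp_pos _).le)
      (shift h1 hK (fun z => by simp only [hKd, Set.mem_ofPred_eq, neg]) _)
    simp only [Pi.smul_apply, Pi.sub_apply, smul_eq_mul, mul_pow, ← Finset.mul_sum]
    have h5 := mul_le_mul_of_nonneg_left (hR t ht) (sq_nonneg r)
    have h6 : r ^ 2 * R ^ 2 = 2 * (864 * q * R ^ 2 / θ ^ 2) := by rw [hr]; ring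
    linarith
  rw [Finset.sum_const, nsmul_eq_mul, Real.exp_neg] at h3
  have h5 := Real.exp_pos (864 * q * R ^ 2 / θ ^ 2)
  rw [← div_le_iff₀ h5]
  refine le_of_mul_le_mul_right (a := (∫ x : ι → ℝ, gw x) / 2) ?_ (by positivity)
  rw [div_eq_mul_inv (A.card : ℝ), mul_assoc]
  linarith

end Pool.Agent.P.MP_b60056_nt.AA
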