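import Pool.Agent.P.MP_b60056_nt.AA.Api

/-! Moments and tails of Rademacher sums. -/

namespace Pool.Agent.P.MP_b60056_nt.AA

open Finset MeasureTheory

namespace Rad

theorem av_succ {n : ℕ} (x : Fin (n + 1) → ℝ) (g : ℝ → ℝ) :
    av (fun ε : Fin (n + 1) → Bool => g (∑ i, sg (ε i) * x i)) =
      av (fun ε : Fin n → Bool => (g (x 0 + ∑ i, sg (ε i) * x i.succ) +
        g (-x 0 + ∑ i, sg (ε i) * x i.succ)) / 2) := by
  unfold av
  rw [← (Fin.consEquiv fun _ : Fin (n + 1) => Bool).sum_comp, Fintype.sum_prod_type,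
    Fintype.sum_bool, ← Finset.sum_div, Finset.sum_add_distrib]
  simp only [Fin.consEquiv_apply, Fin.sum_univ_succ, Fin.cons_zero, Fin.cons_succ, sg, if_true,
    one_mul, Fintype.card_fun, Fintype.card_bool, Fintype.card_fin]
  simp only [Bool.false_eq_true, if_false, neg_one_mul]
  push_cast
  rw [pow_succ, div_div, mul_comm (2 : ℝ)]

theorem two : ∀ (n : ℕ) (x : Fin n → ℝ),
    av (fun ε : Fin n → Bool => (∑ i, sg (ε i) * x i) ^ 2) = ∑ i, x i ^ 2
  | 0, x => by simp [av]
  | n + 1, x => by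
    rw [av_succ x (· ^ 2), Fin.sum_univ_succ, ← two n fun i => x i.succ,
      ← av_const (S := Fin n → Bool) (x 0 ^ 2), ← av_add]
    exact av_congr fun ε => by ring

theorem four : ∀ (n : ℕ) (x : Fin n → ℝ),
    av (fun ε : Fin n → Bool => (∑ i, sg (ε i) * x i) ^ 4) ≤ 3 * (∑ i, x i ^ 2) ^ 2
  | 0, x => by simp [av]
  | n + 1, x => by
    have e : av (fun ε : Fin (n + 1) → Bool => (∑ i, sg (ε i) * x i) ^ 4) =
        av (fun ε : Fin n → Bool => (∑ i, sg (ε i) * x i.succ) ^ 4) +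
          (6 * x 0 ^ 2 * ∑ i : Fin n, x i.succ ^ 2 + x 0 ^ 4) := by
      rw [av_succ x (· ^ 4), ← two n fun i => x i.succ, ← av_mul_left,
        ← av_const (S := Fin n → Bool) (x 0 ^ 4), ← av_add, ← av_add]
      exact av_congr fun ε => by ring
    have h := four n fun i => x i.succ
    rw [e, Fin.sum_univ_succ fun i => x i ^ 2]
    nlinarith [sq_nonneg (x 0 ^ 2)]

theorem mgf (n : ℕ) (x : Fin n → ℝ) (l : ℝ) :
    av (fun ε : Fin n → Bool => Real.exp (l * ∑ i, sg (ε i) * x i)) ≤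
      Real.exp (l ^ 2 * (∑ i, x i ^ 2) / 2) := by
  simp only [Finset.mul_sum, Real.exp_sum, Finset.sum_div]
  rw [av_pi fun i b => Real.exp (l * (sg b * x i))]
  refine Finset.prod_le_prod (fun i _ => av_nonneg fun _ => (Real.exp_pos _).le) fun i _ => ?_
  have h := Real.cosh_le_exp_half_sq (l * x i)
  rw [Real.cosh_eq, mul_pow] at h
  simpa [av, sg] using h

end Rad

theorem rad : S_RAD := by
  refine fun n x => ⟨Rad.two n x, Rad.four n x, fun v y hv hx hy => ?_⟩
  have h1 : av (fun ε : Fin n → Bool => if y ≤ ∑ i, sg (ε i) * x i then (1 : ℝ) else 0) ≤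
      av (fun ε : Fin n → Bool =>
        Real.exp (-(y / v * y)) * Real.exp (y / v * ∑ i, sg (ε i) * x i)) := av_mono fun ε => by
    rw [← Real.exp_add]
    split_ifs with h
    · refine Real.one_le_exp ?_
      nlinarith [mul_le_mul_of_nonneg_left h (div_nonneg hy hv.le)]
    · exact (Real.exp_pos _).le
  rw [av_indicator, av_mul_left, div_le_iff₀' (by positivity)] at h1
  refine h1.trans ?_
  simp only [Fintype.card_fun, Fintype.card_bool, Fintype.card_fin, Nat.cast_pow, Nat.cast_ofNat]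
  refine mul_le_mul_of_nonneg_left ((mul_le_mul_of_nonneg_left (Rad.mgf n x _)
    (Real.exp_pos _).le).trans ?_) (by positivity)
  rw [← Real.exp_add, Real.exp_le_exp]
  have h2 := mul_le_mul_of_nonneg_left hx (sq_nonneg (y / v))
  have h3 : -(y / v * y) + (y / v) ^ 2 * v / 2 = -y ^ 2 / (2 * v) := by field_simp; ring
  linarith

end Pool.Agent.P.MP_b60056_nt.AA
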