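import Pool.Agent.P.MP_b60056_nt.AA.Api

namespace Pool.Agent.P.MP_b60056_nt.AA

open Finset MeasureTheory

namespace Sample

variable {P : Type} [Fintype P] {n : ℕ}

noncomputable def EE (π : P → ℝ) (F : (Fin n → P) → ℝ) : ℝ := by
  classical exact ∑ q : Fin n → P, (∏ i, π (q i)) * F q

theorem EE_mono {π : P → ℝ} (h0 : ∀ p, 0 ≤ π p) {F G : (Fin n → P) → ℝ} (h : ∀ q, F q ≤ G q) :
    EE π F ≤ EE π G :=
  Finset.sum_le_sum fun q _ =>
    mul_le_mul_of_nonneg_left (h q) (Finset.prod_nonneg fun _ _ => h0 _)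

theorem EE_add (π : P → ℝ) (F G : (Fin n → P) → ℝ) :
    EE π (fun q => F q + G q) = EE π F + EE π G := by
  unfold EE; simp only [mul_add, Finset.sum_add_distrib]

theorem EE_mul (π : P → ℝ) (c : ℝ) (F : (Fin n → P) → ℝ) :
    EE π (fun q => c * F q) = c * EE π F := by
  unfold EE; rw [Finset.mul_sum]; exact Finset.sum_congr rfl fun q _ => by ring

theorem EE_mul' (π : P → ℝ) (c : ℝ) (F : (Fin n → P) → ℝ) :
    EE π (fun q => F q * c) = EE π F * c := by
  unfold EE; rw [Finset.sum_mul]; exact Finset.sum_congr rfl fun q _ => by ring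

theorem EE_sum (π : P → ℝ) {ι : Type} (T : Finset ι) (F : ι → (Fin n → P) → ℝ) :
    EE π (fun q => ∑ i ∈ T, F i q) = ∑ i ∈ T, EE π (F i) := by
  unfold EE; simp only [Finset.mul_sum]; rw [Finset.sum_comm]

theorem EE_av (π : P → ℝ) {S : Type} [Fintype S] (F : (Fin n → P) → S → ℝ) :
    EE π (fun q => av (F q)) = av (fun s => EE π (fun q => F q s)) := by
  unfold EE
  rw [av_sum]
  exact Finset.sum_congr rfl fun q _ => (av_mul_left _ _).symm

theorem EE_prod (π : P → ℝ) (h : Fin n → P → ℝ) :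
    EE π (fun q => ∏ l, h l (q l)) = ∏ l, ∑ p, π p * h l p := by
  classical
  unfold EE
  rw [Finset.prod_univ_sum, Fintype.piFinset_univ]
  refine Finset.sum_congr (by congr) fun q _ => ?_
  rw [Finset.prod_mul_distrib]

theorem EE_const {π : P → ℝ} (h1 : ∑ p, π p = 1) (c : ℝ) : EE π (fun _ : Fin n → P => c) = c := by
  have h := EE_prod (n := n) π (fun _ _ => 1)
  simp only [Finset.prod_const_one, mul_one, h1] at h
  have h2 := EE_mul π c (fun _ : Fin n → P => 1)
  simpa [h] using h2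

theorem EE_one {π : P → ℝ} (h1 : ∑ p, π p = 1) (F : P → ℝ) (i : Fin n) :
    EE π (fun q => F (q i)) = ∑ p, π p * F p := by
  have h := EE_prod π (fun l p => if l = i then F p else 1)
  rw [Finset.prod_eq_single i (fun l _ hl => by simp [hl, h1]) (by simp)] at h
  simpa using h

theorem EE_two0 {π : P → ℝ} (h1 : ∑ p, π p = 1) (F G : P → ℝ) {i j : Fin n} (hij : i ≠ j) :
    EE π (fun q => F (q i) * G (q j)) = (∑ p, π p * F p) * ∑ p, π p * G p := by
  have h := EE_prod π (fun l p => (if l = i then F p else 1) * (if l = j then G p else 1))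
  rw [Finset.prod_eq_mul i j hij (fun l _ hl => by simp [hl.1, hl.2, h1]) (by simp) (by simp)] at h
  simp only [Finset.prod_mul_distrib, Finset.prod_ite_eq', Finset.mem_univ, if_true, hij,
    hij.symm, if_false, mul_one, one_mul] at h
  exact h

theorem EE_two {π : P → ℝ} (h1 : ∑ p, π p = 1) (F : P → P → ℝ) {i j : Fin n} (hij : i ≠ j) :
    EE π (fun q => F (q i) (q j)) = ∑ p, π p * ∑ p', π p' * F p p' := by
  classical
  have h : (fun q : Fin n → P => F (q i) (q j)) =
      fun q => ∑ p, (if q i = p then (1 : ℝ) else 0) * F p (q j) := by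
    funext q; simp
  rw [h, EE_sum]
  refine Finset.sum_congr rfl fun p _ => ?_
  rw [EE_two0 h1 (fun x => if x = p then (1 : ℝ) else 0) (F p) hij]
  simp

theorem exists_le_EE {π : P → ℝ} (h0 : ∀ p, 0 ≤ π p) (h1 : ∑ p, π p = 1)
    (F : (Fin n → P) → ℝ) : ∃ q, F q ≤ EE π F := by
  classical
  have hP : Nonempty P := by
    by_contra h
    rw [not_nonempty_iff] at h
    simp at h1
  obtain ⟨q, -, hq⟩ := Finset.exists_min_image (univ : Finset (Fin n → P)) F univ_nonempty
  refine ⟨q, ?_⟩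
  rw [← EE_const (n := n) h1 (F q)]
  exact EE_mono h0 fun q' => hq q' (mem_univ _)

theorem markov {π : P → ℝ} (h0 : ∀ p, 0 ≤ π p) (h1 : ∑ p, π p = 1)
    (Y : Fin 9 → (Fin n → P) → (Fin n → Bool) → ℝ) (b : Fin 9 → ℝ) (hb : ∀ k, 0 < b k)
    (hY : ∀ k q ε, 0 ≤ Y k q ε) (hE : ∀ k, EE π (fun q => av (Y k q)) ≤ b k) :
    ∃ (q : Fin n → P) (E : Finset (Fin n → Bool)), 2 ^ n ≤ 2 * E.card ∧
      ∀ ε ∈ E, ∀ k, Y k q ε ≤ 18 * b k := by
  classical
  let X : (Fin n → P) → (Fin n → Bool) → ℝ := fun q ε => ∑ k, (b k)⁻¹ * Y k q ε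
  have hX0 : ∀ k q ε, 0 ≤ (b k)⁻¹ * Y k q ε := fun k q ε =>
    mul_nonneg (inv_nonneg.2 (hb k).le) (hY k q ε)
  have hX : EE π (fun q => av (X q)) ≤ 9 := by
    have : (fun q => av (X q)) = fun q => ∑ k, (b k)⁻¹ * av (Y k q) := by
      funext q
      simp only [X]
      rw [av_sum]
      exact Finset.sum_congr rfl fun k _ => av_mul_left _ _
    rw [this, EE_sum]
    calc ∑ k, EE π (fun q => (b k)⁻¹ * av (Y k q)) ≤ ∑ _k : Fin 9, (1 : ℝ) := by
          refine Finset.sum_le_sum fun k _ => ?_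
          rw [EE_mul, inv_mul_le_iff₀ (hb k), mul_one]
          exact hE k
      _ = 9 := by simp
  obtain ⟨q, hq⟩ := exists_le_EE h0 h1 (fun q => av (X q))
  replace hq := hq.trans hX
  refine ⟨q, univ.filter (fun ε => X q ε ≤ 18), ?_, fun ε hε k => ?_⟩
  · have h2 : av (fun ε => 18 * if ¬ X q ε ≤ 18 then (1 : ℝ) else 0) ≤ av (X q) := by
      refine av_mono fun ε => ?_
      split_ifs with h
      · simpa using Finset.sum_nonneg fun k _ => hX0 k q ε
      · simpa using (not_le.1 h).le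
    rw [av_mul_left, av_indicator] at h2
    have h3 := Finset.card_filter_add_card_filter_not (s := (univ : Finset (Fin n → Bool)))
      (fun ε => X q ε ≤ 18)
    have h4 : Fintype.card (Fin n → Bool) = 2 ^ n := by simp
    rw [Finset.card_univ, h4] at h3
    rw [h4] at h2
    have h5 : (0 : ℝ) < ((2 ^ n : ℕ) : ℝ) := by positivity
    have h6 := h2.trans hq
    rw [← mul_div_assoc, div_le_iff₀ h5] at h6
    have h7 : 18 * (univ.filter (fun ε => ¬ X q ε ≤ 18)).card ≤ 9 * 2 ^ n := by exact_mod_cast h6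
    omega
  · have h2 : X q ε ≤ 18 := (Finset.mem_filter.1 hε).2
    have h3 : (b k)⁻¹ * Y k q ε ≤ X q ε :=
      Finset.single_le_sum (f := fun k => (b k)⁻¹ * Y k q ε) (fun k _ => hX0 k q ε) (mem_univ k)
    have h4 := h3.trans h2
    rwa [inv_mul_le_iff₀ (hb k), mul_comm] at h4

theorem filt (T : Finset (Fin n)) (x : Fin n → ℝ) (ε : Fin n → Bool) :
    ∑ i ∈ T, sg (ε i) * x i = ∑ i, sg (ε i) * (if i ∈ T then x i else 0) := by
  simp only [mul_ite, mul_zero]
  rw [Finset.sum_ite_mem, Finset.univ_inter]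

theorem filt2 (T : Finset (Fin n)) (x : Fin n → ℝ) :
    ∑ i, (if i ∈ T then x i else 0) ^ 2 = ∑ i ∈ T, x i ^ 2 := by
  simp only [ite_pow, ne_eq, OfNat.ofNat_ne_zero, not_false_eq_true, zero_pow]
  rw [Finset.sum_ite_mem, Finset.univ_inter]

theorem rad2 (h1 : S_RAD) (T : Finset (Fin n)) (x : Fin n → ℝ) :
    av (fun ε : Fin n → Bool => (∑ i ∈ T, sg (ε i) * x i) ^ 2) = ∑ i ∈ T, x i ^ 2 := by
  simp only [filt T x]
  rw [(h1 n _).1, filt2]

theorem rad4 (h1 : S_RAD) (T : Finset (Fin n)) (x : Fin n → ℝ) :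
    av (fun ε : Fin n → Bool => (∑ i ∈ T, sg (ε i) * x i) ^ 4) ≤ 3 * (∑ i ∈ T, x i ^ 2) ^ 2 := by
  simp only [filt T x]
  rw [← filt2]
  exact (h1 n _).2.1

theorem pair_le (T : Finset (Fin n)) (U : Fin n → Finset (Fin n)) (f g : Fin n → ℝ)
    (hf : ∀ i, 0 ≤ f i) (hg : ∀ i, 0 ≤ g i) (hU : ∀ i ∈ T, i ∉ U i) :
    ∑ i ∈ T, ∑ j ∈ U i, f i * g j ≤ ∑ i, ∑ j ∈ univ.erase i, f i * g j := by
  refine le_trans (Finset.sum_le_sum fun i hi => ?_)
    (Finset.sum_le_sum_of_subset_of_nonneg (subset_univ T) fun i _ _ =>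
      Finset.sum_nonneg fun j _ => mul_nonneg (hf i) (hg j))
  refine Finset.sum_le_sum_of_subset_of_nonneg (fun j hj => ?_) fun j _ _ =>
    mul_nonneg (hf i) (hg j)
  exact Finset.mem_erase.2 ⟨fun h => hU i hi (h ▸ hj), mem_univ _⟩

theorem off_nonneg {S : Type} [DecidableEq S] (Z : Finset S) (s : S) : 0 ≤ off Z s := by
  unfold off; split_ifs <;> norm_num

theorem off_le {S : Type} [DecidableEq S] (Z : Finset S) (s : S) : off Z s ≤ 1 := by
  unfold off; split_ifs <;> norm_num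

theorem sum_erase_le {c : ℝ} (hc : 0 ≤ c) (F : Fin n → Fin n → ℝ)
    (h : ∀ i j, i ≠ j → F i j ≤ c) : ∑ i, ∑ j ∈ univ.erase i, F i j ≤ n ^ 2 * c := by
  calc ∑ i, ∑ j ∈ univ.erase i, F i j ≤ ∑ _i : Fin n, ∑ _j : Fin n, c := by
        refine Finset.sum_le_sum fun i _ => ?_
        refine le_trans (Finset.sum_le_sum fun j hj => h i j (Finset.ne_of_mem_erase hj).symm) ?_
        exact Finset.sum_le_sum_of_subset_of_nonneg (subset_univ _) fun _ _ _ => hc
    _ = n ^ 2 * c := by simp; ring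

theorem av_wsum {S : Type} [Fintype S] {π : P → ℝ} (h0 : ∀ p, 0 ≤ π p) (h1 : ∑ p, π p = 1)
    (F : P → S → ℝ) {c : ℝ} (hF : ∀ p, av (F p) ≤ c) : av (fun s => ∑ p, π p * F p s) ≤ c := by
  rw [av_sum]
  calc ∑ p, av (fun s => π p * F p s) ≤ ∑ p, π p * c := by
        refine Finset.sum_le_sum fun p _ => ?_
        rw [av_mul_left]
        exact mul_le_mul_of_nonneg_left (hF p) (h0 p)
    _ = c := by rw [← Finset.sum_mul, h1, one_mul]

theorem pairs {S : Type} [Fintype S] [DecidableEq S] {π : P → ℝ} (h0 : ∀ p, 0 ≤ π p)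
    (h1 : ∑ p, π p = 1) (Z : Finset S) (F G : P → S → ℝ) {c1 c2 : ℝ} (hc1 : 0 ≤ c1) (hc2 : 0 ≤ c2)
    (hF0 : ∀ p s, 0 ≤ F p s) (hF : ∀ p, av (F p) ≤ c1)
    (hG : ∀ s, s ∉ Z → ∑ p, π p * G p s ≤ c2) :
    EE π (fun q : Fin n → P => av (fun s =>
      (∑ i, ∑ j ∈ univ.erase i, F (q i) s * G (q j) s) * off Z s)) ≤ n ^ 2 * (c1 * c2) := by
  have h2 : (fun q : Fin n → P => av (fun s =>
      (∑ i, ∑ j ∈ univ.erase i, F (q i) s * G (q j) s) * off Z s)) =
      fun q => ∑ i, ∑ j ∈ univ.erase i, av (fun s => F (q i) s * G (q j) s * off Z s) := by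
    funext q
    simp only [Finset.sum_mul, av_sum]
  rw [h2, EE_sum]
  simp only [EE_sum]
  refine sum_erase_le (mul_nonneg hc1 hc2) _ fun i j hij => ?_
  rw [EE_av]
  calc av (fun s => EE π fun q : Fin n → P => F (q i) s * G (q j) s * off Z s)
      ≤ av (fun s => (∑ p, π p * F p s) * c2) := by
        refine av_mono fun s => ?_
        have h3 : 0 ≤ ∑ p, π p * F p s := Finset.sum_nonneg fun p _ => mul_nonneg (h0 p) (hF0 p s)
        rw [EE_mul', EE_two0 h1 (fun p => F p s) (fun p => G p s) hij]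
        unfold off
        split_ifs with hs
        · rw [mul_zero]; exact mul_nonneg h3 hc2
        · rw [mul_one]; exact mul_le_mul_of_nonneg_left (hG s hs) h3
    _ ≤ c1 * c2 := by
        rw [av_mul_right]
        exact mul_le_mul_of_nonneg_right (av_wsum h0 h1 F hF) hc2

theorem sq_bd {S : Type} [Fintype S] (h1 : S_RAD) (T : S → Finset (Fin n)) (x : Fin n → S → ℝ)
    {c : ℝ} (hx : ∀ i, av (fun s => x i s ^ 2) ≤ c) :
    av (fun ε : Fin n → Bool => av (fun s => (∑ i ∈ T s, sg (ε i) * x i s) ^ 2)) ≤ n * c := by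
  rw [av_comm]
  calc av (fun s => av (fun ε : Fin n → Bool => (∑ i ∈ T s, sg (ε i) * x i s) ^ 2))
      ≤ av (fun s => ∑ i, x i s ^ 2) := by
        refine av_mono fun s => ?_
        rw [rad2 h1 (T s) (fun i => x i s)]
        exact Finset.sum_le_sum_of_subset_of_nonneg (subset_univ _) fun _ _ _ => sq_nonneg _
    _ ≤ ∑ _i : Fin n, c := by
        rw [av_sum]; exact Finset.sum_le_sum fun i _ => hx i
    _ = n * c := by simp

noncomputable def ind (lam x : ℝ) : ℝ := if lam ≤ x then 1 else 0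

theorem ind_nonneg (lam x : ℝ) : 0 ≤ ind lam x := by
  unfold ind; split_ifs <;> norm_num

theorem ind_le {lam x : ℝ} (hl : 0 < lam) (hx : 0 ≤ x) : ind lam x ≤ x / lam := by
  unfold ind; split_ifs with h
  · rwa [le_div_iff₀ hl, one_mul]
  · positivity

theorem card_eq {S : Type} (a : Fin n → S → ℝ) (lam : ℝ) (s : S) (U : Finset (Fin n))
    (hU : U ⊆ Hv a lam s) : (U.card : ℝ) = ∑ j ∈ U, ind lam (a j s) := by
  rw [Finset.sum_congr rfl (g := fun _ => (1 : ℝ)) fun j hj => ?_]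
  · simp
  · have := hU hj
    simp only [Hv, Finset.mem_filter, mem_univ, true_and] at this
    simp [ind, this]

theorem h8_eq (H : Finset (Fin n)) (f : Fin n → ℝ) :
    (∑ i ∈ H, f i) * ((H.card : ℝ) - 1) = ∑ i ∈ H, f i * ((H.erase i).card : ℝ) := by
  rw [Finset.sum_mul]
  refine Finset.sum_congr rfl fun i hi => ?_
  rw [← Finset.card_erase_add_one hi]
  push_cast; ring

theorem markov9 {π : P → ℝ} (h0 : ∀ p, 0 ≤ π p) (h1 : ∑ p, π p = 1)
    (Y0 Y1 Y2 Y3 Y4 Y5 Y6 Y7 Y8 : (Fin n → P) → (Fin n → Bool) → ℝ)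
    (b0 b1 b2 b3 b4 b5 b6 b7 b8 : ℝ)
    (k0 : 0 < b0 ∧ (∀ q ε, 0 ≤ Y0 q ε) ∧ EE π (fun q => av (Y0 q)) ≤ b0)
    (k1 : 0 < b1 ∧ (∀ q ε, 0 ≤ Y1 q ε) ∧ EE π (fun q => av (Y1 q)) ≤ b1)
    (k2 : 0 < b2 ∧ (∀ q ε, 0 ≤ Y2 q ε) ∧ EE π (fun q => av (Y2 q)) ≤ b2)
    (k3 : 0 < b3 ∧ (∀ q ε, 0 ≤ Y3 q ε) ∧ EE π (fun q => av (Y3 q)) ≤ b3)
    (k4 : 0 < b4 ∧ (∀ q ε, 0 ≤ Y4 q ε) ∧ EE π (fun q => av (Y4 q)) ≤ b4)
    (k5 : 0 < b5 ∧ (∀ q ε, 0 ≤ Y5 q ε) ∧ EE π (fun q => av (Y5 q)) ≤ b5)
    (k6 : 0 < b6 ∧ (∀ q ε, 0 ≤ Y6 q ε) ∧ EE π (fun q => av (Y6 q)) ≤ b6)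
    (k7 : 0 < b7 ∧ (∀ q ε, 0 ≤ Y7 q ε) ∧ EE π (fun q => av (Y7 q)) ≤ b7)
    (k8 : 0 < b8 ∧ (∀ q ε, 0 ≤ Y8 q ε) ∧ EE π (fun q => av (Y8 q)) ≤ b8) :
    ∃ (q : Fin n → P) (E : Finset (Fin n → Bool)), 2 ^ n ≤ 2 * E.card ∧
      ∀ ε ∈ E, Y0 q ε ≤ 18 * b0 ∧ Y1 q ε ≤ 18 * b1 ∧ Y2 q ε ≤ 18 * b2 ∧ Y3 q ε ≤ 18 * b3 ∧
        Y4 q ε ≤ 18 * b4 ∧ Y5 q ε ≤ 18 * b5 ∧ Y6 q ε ≤ 18 * b6 ∧ Y7 q ε ≤ 18 * b7 ∧
        Y8 q ε ≤ 18 * b8 := by
  obtain ⟨q, E, hE, h⟩ := markov h0 h1 ![Y0, Y1, Y2, Y3, Y4, Y5, Y6, Y7, Y8]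
    ![b0, b1, b2, b3, b4, b5, b6, b7, b8]
    (fun k => by
      fin_cases k
      exacts [k0.1, k1.1, k2.1, k3.1, k4.1, k5.1, k6.1, k7.1, k8.1])
    (fun k => by
      fin_cases k
      exacts [k0.2.1, k1.2.1, k2.2.1, k3.2.1, k4.2.1, k5.2.1, k6.2.1, k7.2.1, k8.2.1])
    (fun k => by
      fin_cases k
      exacts [k0.2.2, k1.2.2, k2.2.2, k3.2.2, k4.2.2, k5.2.2, k6.2.2, k7.2.2, k8.2.2])
  exact ⟨q, E, hE, fun ε hε => ⟨h ε hε 0, h ε hε 1, h ε hε 2, h ε hε 3, h ε hε 4, h ε hε 5,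
    h ε hε 6, h ε hε 7, h ε hε 8⟩⟩

theorem light_sq (T : Finset (Fin n)) (f : Fin n → ℝ) {c : ℝ} (hc : 0 ≤ c) (hf : ∀ i, 0 ≤ f i)
    (hT : ∀ i ∈ T, f i ≤ c) :
    (∑ i ∈ T, f i) ^ 2 ≤ c * ∑ i, f i + ∑ i, ∑ j ∈ univ.erase i, f i * f j := by
  have h1 : (∑ i ∈ T, f i) ^ 2 = ∑ i ∈ T, f i * f i + ∑ i ∈ T, ∑ j ∈ T.erase i, f i * f j := by
    rw [sq, Finset.sum_mul_sum, ← Finset.sum_add_distrib]
    exact Finset.sum_congr rfl fun i hi => (Finset.add_sum_erase T (fun j => f i * f j) hi).symm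
  rw [h1]
  refine add_le_add ?_ (pair_le T (fun i => T.erase i) f f hf hf fun i _ => Finset.notMem_erase i T)
  rw [Finset.mul_sum]
  refine le_trans (Finset.sum_le_sum fun i hi => mul_le_mul_of_nonneg_right (hT i hi) (hf i)) ?_
  exact Finset.sum_le_sum_of_subset_of_nonneg (subset_univ _) fun i _ _ => mul_nonneg hc (hf i)

end Sample

open Sample in
theorem sample (h1 : S_RAD) : S_SAMPLE := by
  intro S P _ _ _ π δ a A B Z n η φ α β lam hn hη hφ hα hβ hlam h0 hs hδa hδ hA hB hZ hf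
  have hn0 : (0 : ℝ) < n := by exact_mod_cast hn
  have ha0 : ∀ p s, 0 ≤ a p s := fun p s => by nlinarith [hδa p s, sq_nonneg (δ p s)]
  have hZ1 : ∀ s, s ∉ Z → ∑ p, π p * δ p s ^ 2 ≤ 10 * φ := fun s hz => by
    refine le_trans ?_ (mul_le_mul_of_nonneg_left (hZ s hz) (by norm_num : (0 : ℝ) ≤ 10))
    rw [Finset.mul_sum]
    refine Finset.sum_le_sum fun p _ => ?_
    nlinarith [mul_le_mul_of_nonneg_left (hδa p s) (h0 p)]
  have hZ2 : ∀ s, s ∉ Z → ∑ p, π p * ind lam (a p s) ≤ φ / lam := fun s hz => by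
    refine le_trans ?_ (div_le_div_of_nonneg_right (hZ s hz) hlam.le)
    rw [Finset.sum_div]
    refine Finset.sum_le_sum fun p _ => ?_
    rw [mul_div_assoc]
    exact mul_le_mul_of_nonneg_left (ind_le hlam (ha0 p s)) (h0 p)
  have hP1 := pairs (n := n) h0 hs Z (fun p s => δ p s ^ 2) (fun p s => δ p s ^ 2)
    (c1 := 2 * η) (c2 := 10 * φ) (by positivity) (by positivity) (fun p s => sq_nonneg _) hδ hZ1
  have hP2 := pairs (n := n) h0 hs Z (fun p s => δ p s ^ 2) (fun p s => ind lam (a p s))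
    (c1 := 2 * η) (c2 := φ / lam) (by positivity) (by positivity) (fun p s => sq_nonneg _) hδ hZ2
  have hcst : ∀ (F : (Fin n → P) → ℝ) (c : ℝ), (∀ q, F q ≤ c) → EE π F ≤ c := fun F c h =>
    (EE_mono h0 h).trans (EE_const hs c).le
  obtain ⟨q, E, hE, h⟩ := markov9 (n := n) h0 hs
    (fun q ε => av (fun s => psi (fun i => δ (q i)) ε s ^ 2))
    (fun q ε => av (fun s => Lt (fun i => δ (q i)) (fun i => a (q i)) lam ε s ^ 4 * off Z s))
    (fun q ε => av (fun s => (∑ i ∈ Hv (fun i => a (q i)) lam s, δ (q i) s ^ 2) *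
      Lt (fun i => δ (q i)) (fun i => a (q i)) lam ε s ^ 2 * off Z s))
    (fun q ε => av (fun s => ((Hv (fun i => a (q i)) lam s).card : ℝ) *
      Lt (fun i => δ (q i)) (fun i => a (q i)) lam ε s ^ 2 * off Z s))
    (fun q _ => av (fun s => (∑ i ∈ Hv (fun i => a (q i)) lam s, δ (q i) s ^ 2) *
      (((Hv (fun i => a (q i)) lam s).card : ℝ) - 1) * off Z s))
    (fun q _ => av (fun s => ((Hv (fun i => a (q i)) lam s).card : ℝ) * off Z s))
    (fun q ε => av (fun s => Lt (fun i => δ (q i)) (fun i => a (q i)) lam ε s ^ 2))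
    (fun q ε => av (fun s => psi (fun i => A (q i)) ε s ^ 2))
    (fun q ε => offG (fun i => B (q i)) ε)
    (n * (2 * η)) (60 * n * η * (lam + n * φ)) (n ^ 2 * (2 * η * (10 * φ)))
    (n ^ 2 * (2 * η * (φ / lam))) (n ^ 2 * (2 * η * (φ / lam))) (n * (φ / lam)) (n * (2 * η))
    (n * (α * η)) (n ^ 2 * (β * (18 * η)))
    ⟨by positivity, fun q ε => av_nonneg fun s => sq_nonneg _, hcst _ _ fun q =>
      sq_bd h1 (fun _ => univ) (fun i => δ (q i)) fun i => hδ _⟩
    ⟨by positivity, fun q ε => av_nonneg fun s => mul_nonneg (by positivity) (off_nonneg _ _), by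
      have h2 : ∀ q : Fin n → P, av (fun ε : Fin n → Bool => av (fun s =>
          Lt (fun i => δ (q i)) (fun i => a (q i)) lam ε s ^ 4 * off Z s)) ≤
          3 * (10 * lam * (n * (2 * η))) + 3 * av (fun s =>
            (∑ i, ∑ j ∈ univ.erase i, δ (q i) s ^ 2 * δ (q j) s ^ 2) * off Z s) := by
        intro q
        rw [av_comm]
        calc av (fun s => av (fun ε : Fin n → Bool =>
              Lt (fun i => δ (q i)) (fun i => a (q i)) lam ε s ^ 4 * off Z s))
            ≤ av (fun s => 3 * (10 * lam * ∑ i, δ (q i) s ^ 2) + 3 *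
              ((∑ i, ∑ j ∈ univ.erase i, δ (q i) s ^ 2 * δ (q j) s ^ 2) * off Z s)) := by
              refine av_mono fun s => ?_
              rw [av_mul_right]
              have h3 := rad4 h1 (univ.filter (fun i => a (q i) s < lam)) (fun i => δ (q i) s)
              have h4 := light_sq (univ.filter (fun i => a (q i) s < lam))
                (fun i => δ (q i) s ^ 2) (c := 10 * lam) (by positivity) (fun i => sq_nonneg _)
                fun i hi => by
                  have := (Finset.mem_filter.1 hi).2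
                  linarith [hδa (q i) s]
              have h5 : 0 ≤ 10 * lam * ∑ i, δ (q i) s ^ 2 := by positivity
              have h6 := mul_le_mul_of_nonneg_right
                (h3.trans (mul_le_mul_of_nonneg_left h4 (by norm_num))) (off_nonneg Z s)
              have h7 := mul_le_mul_of_nonneg_left (off_le Z s) h5
              refine le_trans h6 ?_
              nlinarith
          _ ≤ _ := by
              rw [av_add, av_mul_left, av_mul_left, av_mul_left, av_sum]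
              have h3 : ∑ i, av (fun s => δ (q i) s ^ 2) ≤ n * (2 * η) :=
                (Finset.sum_le_sum fun i _ => hδ (q i)).trans (by simp)
              have h4 := mul_le_mul_of_nonneg_left h3 (by positivity : 0 ≤ 10 * lam)
              linarith
      refine (EE_mono h0 h2).trans ?_
      rw [EE_add, EE_const hs, EE_mul]
      nlinarith⟩
    ⟨by positivity, fun q ε => av_nonneg fun s => mul_nonneg (by positivity) (off_nonneg _ _), by
      refine (EE_mono h0 fun q => ?_).trans hP1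
      rw [av_comm]
      refine av_mono fun s => ?_
      rw [av_mul_right, av_mul_left]
      refine mul_le_mul_of_nonneg_right ?_ (off_nonneg Z s)
      have h3 := rad2 h1 (univ.filter (fun i => a (q i) s < lam)) (fun i => δ (q i) s)
      refine le_trans (le_of_eq (congrArg _ h3)) ?_
      rw [Finset.sum_mul_sum]
      refine pair_le _ (fun _ => univ.filter (fun i => a (q i) s < lam)) _ _
        (fun i => sq_nonneg _) (fun i => sq_nonneg _) fun i hi hi' => ?_
      exact absurd (Finset.mem_filter.1 hi').2 (not_lt.2 (Finset.mem_filter.1 hi).2)⟩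
    ⟨by positivity, fun q ε => av_nonneg fun s => mul_nonneg (by positivity) (off_nonneg _ _), by
      refine (EE_mono h0 fun q => ?_).trans hP2
      rw [av_comm]
      refine av_mono fun s => ?_
      rw [av_mul_right, av_mul_left]
      refine mul_le_mul_of_nonneg_right ?_ (off_nonneg Z s)
      have h3 := rad2 h1 (univ.filter (fun i => a (q i) s < lam)) (fun i => δ (q i) s)
      refine le_trans (le_of_eq (congrArg _ h3)) ?_
      rw [card_eq (fun i => a (q i)) lam s _ subset_rfl, mul_comm, Finset.sum_mul_sum]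
      refine pair_le _ (fun _ => Hv (fun i => a (q i)) lam s) _ _
        (fun i => sq_nonneg _) (fun i => ind_nonneg _ _) fun i hi hi' => ?_
      exact absurd (Finset.mem_filter.1 hi).2 (not_lt.2 (Finset.mem_filter.1 hi').2)⟩
    ⟨by positivity, fun q ε => av_nonneg fun s => mul_nonneg (by
        rw [h8_eq]; exact Finset.sum_nonneg fun i _ => by positivity) (off_nonneg _ _), by
      refine (EE_mono h0 fun q => ?_).trans hP2
      rw [av_const]
      refine av_mono fun s => ?_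
      refine mul_le_mul_of_nonneg_right ?_ (off_nonneg Z s)
      rw [h8_eq]
      refine le_trans (le_of_eq (Finset.sum_congr rfl fun i _ => ?_))
        (pair_le (Hv (fun i => a (q i)) lam s) (fun i => (Hv (fun i => a (q i)) lam s).erase i)
          (fun i => δ (q i) s ^ 2) (fun j => ind lam (a (q j) s))
          (fun i => sq_nonneg _) (fun i => ind_nonneg _ _) fun i _ => Finset.notMem_erase i _)
      rw [card_eq (fun i => a (q i)) lam s _ (Finset.erase_subset i _), Finset.mul_sum]⟩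
    ⟨by positivity, fun q ε => av_nonneg fun s => mul_nonneg (by positivity) (off_nonneg _ _), by
      simp only [av_const]
      rw [EE_av]
      refine le_trans (av_mono fun s => ?_) (av_const_le (by positivity))
      rw [EE_mul']
      unfold off
      split_ifs with hz
      · rw [mul_zero]; positivity
      · rw [mul_one]
        calc EE π (fun q : Fin n → P => ((Hv (fun i => a (q i)) lam s).card : ℝ))
            ≤ EE π (fun q : Fin n → P => ∑ i, ind lam (a (q i) s)) := by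
              refine EE_mono h0 fun q => ?_
              rw [card_eq (fun i => a (q i)) lam s _ subset_rfl]
              exact Finset.sum_le_sum_of_subset_of_nonneg (subset_univ _)
                fun _ _ _ => ind_nonneg _ _
          _ ≤ ∑ _i : Fin n, φ / lam := by
              rw [EE_sum]
              refine Finset.sum_le_sum fun i _ => ?_
              rw [EE_one hs (fun p => ind lam (a p s)) i]
              exact hZ2 s hz
          _ = n * (φ / lam) := by simp⟩
    ⟨by positivity, fun q ε => av_nonneg fun s => sq_nonneg _, hcst _ _ fun q =>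
      sq_bd h1 (fun s => univ.filter (fun i => a (q i) s < lam)) (fun i => δ (q i)) fun i => hδ _⟩
    ⟨by positivity, fun q ε => av_nonneg fun s => sq_nonneg _, hcst _ _ fun q =>
      sq_bd h1 (fun _ => univ) (fun i => A (q i)) fun i => hA _⟩
    ⟨by positivity, fun q ε => Finset.sum_nonneg fun i _ => sq_nonneg _, by
      have h2 : (fun q : Fin n → P => av (fun ε => offG (fun i => B (q i)) ε)) =
          fun q => ∑ i, ∑ j ∈ univ.erase i, av (fun s => B (q j) s * B (q i) s) ^ 2 := by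
        funext q
        unfold offG
        rw [av_sum]
        refine Finset.sum_congr rfl fun i _ => ?_
        rw [rad2 h1 (univ.erase i) (fun j => av (fun s => B (q i) s * B (q j) s))]
        simp only [mul_comm]
      rw [h2, EE_sum]
      simp only [EE_sum]
      refine sum_erase_le (by positivity) _ fun i j hij => ?_
      rw [EE_two hs (fun p p' => av (fun s => B p s * B p' s) ^ 2) hij.symm]
      calc ∑ p, π p * ∑ p', π p' * av (fun s => B p s * B p' s) ^ 2
          ≤ ∑ p, π p * (β * (18 * η)) := by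
            refine Finset.sum_le_sum fun p _ => mul_le_mul_of_nonneg_left ?_ (h0 p)
            exact (hf (B p)).trans (mul_le_mul_of_nonneg_left (hB p) hβ.le)
        _ = β * (18 * η) := by rw [← Finset.sum_mul, hs, one_mul]⟩
  refine ⟨q, E, hE, fun ε hε => ?_⟩
  obtain ⟨g0, g1, g2, g3, g4, g5, g6, g7, g8⟩ := h ε hε
  exact ⟨⟨g0.trans_eq (by ring), g1.trans_eq (by ring), g2.trans_eq (by ring),
    g3.trans_eq (by ring), g4.trans_eq (by ring), g5.trans_eq (by ring), g6.trans_eq (by ring)⟩,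
    g7.trans_eq (by ring), g8.trans_eq (by ring)⟩

end Pool.Agent.P.MP_b60056_nt.AA
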