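import Pool.Agent.P.MP_b60056_nt.AA.Api

/-! Shifting the contour in a Gaussian integral. -/

namespace Pool.Agent.P.MP_b60056_nt.AA

open Finset MeasureTheory

namespace Shift

theorem diff_int {α : Type} [TopologicalSpace α] [MeasurableSpace α] [OpensMeasurableSpace α]
    [SecondCountableTopology α] (μ : Measure α) (F : α → ℂ → ℂ) (hc : Continuous F.uncurry)
    (hd : ∀ a, Differentiable ℂ (F a))
    (hb : ∀ R : ℝ, ∃ g : α → ℝ, Integrable g μ ∧ ∀ a ζ, ‖ζ‖ ≤ R → ‖F a ζ‖ ≤ g a) :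
    Differentiable ℂ (fun ζ => ∫ a, F a ζ ∂μ) := by
  intro ζ0
  obtain ⟨g, hg, hF⟩ := hb (‖ζ0‖ + 2)
  have hm : ∀ ζ, AEStronglyMeasurable (fun a => F a ζ) μ := fun ζ =>
    (hc.comp (continuous_id.prodMk continuous_const)).aestronglyMeasurable
  refine (hasDerivAt_integral_of_dominated_loc_of_deriv_le (μ := μ) (F := fun ζ a => F a ζ)
    (F' := fun ζ a => deriv (F a) ζ) (bound := g) (Metric.ball_mem_nhds ζ0 one_pos)
    (Filter.Eventually.of_forall hm)
    (hg.mono' (hm ζ0) (Filter.Eventually.of_forall fun a => hF a ζ0 (by linarith))) ?_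
    (Filter.Eventually.of_forall fun a ζ hζ => ?_) hg
    (Filter.Eventually.of_forall fun a ζ _ => (hd a ζ).hasDerivAt)).2.differentiableAt
  · exact ((measurable_deriv_with_param hc).comp
      (measurable_id.prodMk measurable_const)).aestronglyMeasurable
  · have h := Complex.norm_deriv_le_of_forall_mem_sphere_norm_le (c := ζ) (C := g a) one_pos
      (hd a).diffContOnCl fun z hz => hF a z (by
        have h1 : ‖z - ζ‖ = 1 := mem_sphere_iff_norm.mp hz
        have h2 : ‖ζ - ζ0‖ < 1 := mem_ball_iff_norm.mp hζ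
        have h3 := norm_add_le (z - ζ) (ζ - ζ0)
        have h4 := norm_add_le (z - ζ + (ζ - ζ0)) ζ0
        rw [show z - ζ + (ζ - ζ0) + ζ0 = z by ring] at h4
        linarith)
    rwa [div_one] at h

variable {ι : Type} [Fintype ι]

/-- The shifted integrand. -/
noncomputable def F (H : (ι → ℂ) → ℂ) (b x : ι → ℝ) (ζ : ℂ) : ℂ :=
  H (fun j => (x j : ℂ) + ζ * b j) * Complex.exp (-(∑ j, ((x j : ℂ) + ζ * b j) ^ 2) / 2)

theorem F_real (H : (ι → ℂ) → ℂ) (b x : ι → ℝ) (t : ℝ) :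
    F H b x t = H (fun j => ((x + t • b) j : ℂ)) * (gw (x + t • b) : ℂ) := by
  simp [F, gw]

theorem norm_F {H : (ι → ℂ) → ℂ} {b : ι → ℝ} {Bd : ℝ → ℝ}
    (h : ∀ (x : ι → ℝ) (s : ℝ),
      ‖H (fun j => (x j : ℂ) + ((s * b j : ℝ) : ℂ) * Complex.I)‖ ≤ Bd s) (x : ι → ℝ) (ζ : ℂ) :
    ‖F H b x ζ‖ ≤ Bd ζ.im * Real.exp (ζ.im ^ 2 * (∑ j, b j ^ 2) / 2) * gw (x + ζ.re • b) := by
  have h1 : (fun j => (x j : ℂ) + ζ * b j) =
      fun j => (((x + ζ.re • b) j : ℝ) : ℂ) + ((ζ.im * b j : ℝ) : ℂ) * Complex.I := by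
    funext j
    apply Complex.ext <;> simp
  have h2 : (-(∑ j, ((x j : ℂ) + ζ * b j) ^ 2) / 2).re =
      ζ.im ^ 2 * (∑ j, b j ^ 2) / 2 + -(∑ j, (x + ζ.re • b) j ^ 2) / 2 := by
    rw [Complex.div_ofNat_re, Complex.neg_re, Complex.re_sum, mul_sum, ← add_div, ← sub_eq_add_neg,
      ← sum_sub_distrib, ← sum_neg_distrib]
    congr 1
    refine sum_congr rfl fun j _ => ?_
    simp [sq]
    ring
  rw [F, norm_mul, Complex.norm_exp, h2, Real.exp_add, mul_assoc, gw, h1]
  exact mul_le_mul_of_nonneg_right (h _ _) (by positivity)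

theorem gw_le (b x : ι → ℝ) {a R : ℝ} (ha : |a| ≤ R) :
    gw (x + a • b) ≤ Real.exp (∑ j, (R * b j) * x j) * gw x +
      Real.exp (∑ j, (-R * b j) * x j) * gw x := by
  have h1 : -(∑ j, (x + a • b) j ^ 2) / 2 ≤ -a * (∑ j, b j * x j) + -(∑ j, x j ^ 2) / 2 := by
    have : ∑ j, (x j ^ 2 + 2 * a * (b j * x j)) ≤ ∑ j, (x + a • b) j ^ 2 :=
      sum_le_sum fun j _ => by
        simp only [Pi.add_apply, Pi.smul_apply, smul_eq_mul]
        nlinarith [sq_nonneg (a * b j)]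
    rw [sum_add_distrib, ← mul_sum] at this
    linarith
  have h2 : ∀ c : ℝ, ∑ j, (c * b j) * x j = c * ∑ j, b j * x j := fun c => by
    rw [mul_sum]
    exact sum_congr rfl fun j _ => mul_assoc _ _ _
  rw [h2, h2, ← add_mul]
  refine (Real.exp_le_exp.mpr h1).trans ?_
  rw [Real.exp_add]
  refine mul_le_mul_of_nonneg_right ?_ (Real.exp_pos _).le
  obtain ⟨h3, h4⟩ := abs_le.mp ha
  rcases le_total 0 (∑ j, b j * x j) with h5 | h5
  · exact (Real.exp_le_exp.mpr (by nlinarith)).trans (le_add_of_nonneg_right (Real.exp_pos _).le)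
  · exact (Real.exp_le_exp.mpr (by nlinarith)).trans (le_add_of_nonneg_left (Real.exp_pos _).le)

end Shift

open Shift in
theorem shift (h1 : S_GAUSS) : S_SHIFT := by
  intro ι _ H b Bd hH hBd h
  obtain ⟨hint, -, hexp, -⟩ := h1 ι
  have hc : Continuous (F H b).uncurry := by
    have := hH.continuous
    unfold F Function.uncurry
    fun_prop
  have hd : ∀ x, Differentiable ℂ (F H b x) := fun x => by
    unfold F
    fun_prop
  have hb : ∀ R : ℝ, ∃ g : (ι → ℝ) → ℝ, Integrable g ∧ ∀ x ζ, ‖ζ‖ ≤ R → ‖F H b x ζ‖ ≤ g x := by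
    intro R
    obtain ⟨C, hC⟩ := (isCompact_Icc (a := -R) (b := R)).exists_bound_of_continuousOn
      (f := fun s => Bd s * Real.exp (s ^ 2 * (∑ j, b j ^ 2) / 2)) (by fun_prop)
    refine ⟨fun x => |C| * (Real.exp (∑ j, (R * b j) * x j) * gw x +
      Real.exp (∑ j, (-R * b j) * x j) * gw x),
      ((hexp _).1.add (hexp _).1).const_mul _, fun x ζ hζ => (norm_F h x ζ).trans ?_⟩
    refine mul_le_mul ?_ (gw_le b x ((Complex.abs_re_le_norm ζ).trans hζ)) (Real.exp_pos _).le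
      (abs_nonneg C)
    exact (le_abs_self _).trans ((hC _ (abs_le.mp ((Complex.abs_im_le_norm ζ).trans hζ))).trans
      (le_abs_self C))
  have hD := diff_int volume (F H b) hc hd hb
  have hreal : ∀ t : ℝ, ∫ x, F H b x t = ∫ x : ι → ℝ, H (fun j => (x j : ℂ)) * (gw x : ℂ) := by
    intro t
    simp_rw [F_real]
    exact integral_add_right_eq_self (fun x : ι → ℝ => H (fun j => (x j : ℂ)) * (gw x : ℂ)) (t • b)
  have heq : (fun ζ => ∫ x, F H b x ζ) =
      fun _ => ∫ x : ι → ℝ, H (fun j => (x j : ℂ)) * (gw x : ℂ) := by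
    refine AnalyticOnNhd.eq_of_frequently_eq (z₀ := 0)
      (fun z _ => hD.analyticAt z) analyticOnNhd_const ?_
    have ht : Filter.Tendsto (fun t : ℝ => (t : ℂ)) (nhdsWithin 0 {0}ᶜ) (nhdsWithin 0 {0}ᶜ) := by
      refine tendsto_nhdsWithin_iff.mpr ⟨?_, ?_⟩
      · exact (Complex.continuous_ofReal.tendsto' 0 0 Complex.ofReal_zero).mono_left
          nhdsWithin_le_nhds
      · filter_upwards [self_mem_nhdsWithin] with t ht
        simpa using ht
    exact ht.frequently (Filter.Eventually.of_forall hreal).frequently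
  rw [← congrFun heq Complex.I, ← integral_const_mul]
  refine norm_integral_le_of_norm_le (hint.const_mul _) (Filter.Eventually.of_forall fun x => ?_)
  simpa using norm_F h x Complex.I

end Pool.Agent.P.MP_b60056_nt.AA
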