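import Pool.Agent.P.MP_b60056_nt.AA.Api

namespace Pool.Agent.P.MP_b60056_nt.AA

open Finset

namespace Sum

variable {S ι : Type} [Fintype S] [Fintype ι] {ϖ : S → ℝ} {a : S → ι → ℝ} {m q : ℕ}

/-- No shift gains more than `G`. -/
def Bad (ϖ : S → ℝ) (a : S → ι → ℝ) (m q : ℕ) (G : ℝ) (x : ι → ℝ) : Prop :=
  ∀ e : ι → ℝ, m * ∑ j, e j * x j - 200 * q * ∑ j, e j ^ 2 -
    (30 * (q : ℝ)) ^ (2 * q) * Pq ϖ a q e ≤ G

theorem Pq_smul (τ : ℝ) (D : ι → ℝ) :
    Pq ϖ a q (fun j => τ * D j) = τ ^ (2 * q) * Pq ϖ a q D := by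
  rw [Pq, Pq, ← av_mul_left]
  refine av_congr fun s => ?_
  have : ∑ j, a s j * (τ * D j) = τ * ∑ j, a s j * D j := by
    rw [mul_sum]
    exact sum_congr rfl fun j _ => by ring
  rw [this, mul_pow]
  ring

theorem Pq_nonneg (h : ∀ s, 0 ≤ ϖ s) (e : ι → ℝ) : 0 ≤ Pq ϖ a q e :=
  av_nonneg fun s => mul_nonneg (h s) (by rw [pow_mul]; positivity)

theorem Pq_le (hq : 1 ≤ q) (h : ∀ s, 0 ≤ ϖ s) (h4 : av ϖ ≤ 4) (ha : ∀ s, ∑ j, a s j ^ 2 ≤ 4)
    (e : ι → ℝ) : Pq ϖ a q e ≤ (16 * ∑ j, e j ^ 2) ^ q := by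
  have hN : 0 ≤ ∑ j, e j ^ 2 := by positivity
  have h1 : Pq ϖ a q e ≤ av fun s => ϖ s * (4 * ∑ j, e j ^ 2) ^ q := by
    refine av_mono fun s => mul_le_mul_of_nonneg_left ?_ (h s)
    rw [pow_mul]
    refine pow_le_pow_left₀ (by positivity) ((sum_mul_sq_le_sq_mul_sq _ _ _).trans ?_) q
    exact mul_le_mul_of_nonneg_right (ha s) hN
  rw [av_mul_right] at h1
  have h2 : (4 : ℝ) ≤ 4 ^ q := le_self_pow₀ (by norm_num) (by omega)
  calc Pq ϖ a q e ≤ 4 ^ q * (4 * ∑ j, e j ^ 2) ^ q :=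
        h1.trans (mul_le_mul_of_nonneg_right (h4.trans h2) (by positivity))
    _ = _ := by rw [← mul_pow]; ring_nf

theorem bad_zero (h : ∀ s, 0 ≤ ϖ s) {G : ℝ} (hG : 0 ≤ G) : Bad ϖ a m q G (fun _ => 0) := by
  intro e
  have h1 : 0 ≤ (30 * (q : ℝ)) ^ (2 * q) * Pq ϖ a q e := mul_nonneg (by positivity) (Pq_nonneg h e)
  have h2 : 0 ≤ 200 * (q : ℝ) * ∑ j, e j ^ 2 := by positivity
  simp only [mul_zero, sum_const_zero]
  linarith

theorem pair (hm : 1 ≤ m) (hq : 1 ≤ q) {G : ℝ} (hG : 1 ≤ G) {x x' : ι → ℝ}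
    (h : Bad ϖ a m q G x) (h' : Bad ϖ a m q G x')
    (hN : 40000 * q * G ≤ (m : ℝ) ^ 2 * ∑ j, (x j - x' j) ^ 2) :
    (m / (300 * q * G) * ∑ j, (x j - x' j) ^ 2) ^ (2 * q) ≤ Pq ϖ a q (fun j => x j - x' j) := by
  have hm' : (1 : ℝ) ≤ m := by exact_mod_cast hm
  have hq' : (1 : ℝ) ≤ q := by exact_mod_cast hq
  set N := ∑ j, (x j - x' j) ^ 2 with hNd
  have hN0 : 0 < N := by
    by_contra h0
    have : (m : ℝ) ^ 2 * N ≤ 0 := mul_nonpos_of_nonneg_of_nonpos (by positivity) (not_lt.1 h0)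
    have : 0 < 40000 * (q : ℝ) * G := by positivity
    linarith
  set τ := 10 * G / (m * N) with hτ
  have h1 := h fun j => τ * (x j - x' j)
  have h2 := h' fun j => -τ * (x j - x' j)
  rw [Pq_smul] at h1 h2
  rw [(even_two_mul q).neg_pow] at h2
  have e1 : ∑ j, (τ * (x j - x' j)) ^ 2 = τ ^ 2 * N := by
    rw [hNd, mul_sum]
    exact sum_congr rfl fun j _ => by ring
  have e2 : ∑ j, (-τ * (x j - x' j)) ^ 2 = τ ^ 2 * N := by
    rw [hNd, mul_sum]
    exact sum_congr rfl fun j _ => by ring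
  have e3 : ∑ j, τ * (x j - x' j) * x j + ∑ j, -τ * (x j - x' j) * x' j = τ * N := by
    rw [hNd, mul_sum, ← sum_add_distrib]
    exact sum_congr rfl fun j _ => by ring
  have e4 : m * (τ * N) = 10 * G := by
    rw [hτ]
    field_simp
  have e5 : 400 * q * (τ ^ 2 * N) ≤ G := by
    have : 400 * q * (τ ^ 2 * N) = G * (40000 * q * G / ((m : ℝ) ^ 2 * N)) := by
      rw [hτ]
      field_simp
      ring
    rw [this]
    exact mul_le_of_le_one_right (by linarith) ((div_le_one (by positivity)).2 hN)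
  rw [e1] at h1
  rw [e2] at h2
  have h3 : 1 ≤ (30 * q * τ) ^ (2 * q) * Pq ϖ a q (fun j => x j - x' j) := by
    rw [mul_pow, mul_assoc]
    have e6 := congrArg (fun z => (m : ℝ) * z) e3
    simp only [mul_add] at e6
    linarith
  have e7 : m / (300 * q * G) * N = (30 * q * τ)⁻¹ := by
    rw [hτ]
    field_simp
    ring
  have hτ0 : 0 < τ := by positivity
  rw [e7, inv_pow, inv_le_iff_one_le_mul₀' (by positivity)]
  exact h3

theorem exists_step {P : ℕ → Prop} (h0 : ¬ P 0) {n : ℕ} (hn : P n) :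
    ∃ i < n, ¬ P i ∧ P (i + 1) := by
  induction n with
  | zero => exact absurd hn h0
  | succ n ih =>
    by_cases h : P n
    · obtain ⟨i, hi, h'⟩ := ih h
      exact ⟨i, by omega, h'⟩
    · exact ⟨n, by omega, h, hn⟩

theorem level (G0 : ℝ) (h : 1 ≤ G0) (i : ℕ) :
    Real.exp ((G0 + (i + 1 : ℕ)) / 4) * Real.exp (-(2 * (G0 + i))) ≤
      Real.exp (-G0) * (1 / 2) ^ i := by
  have h1 : Real.exp (-1) ≤ 1 / 2 := by
    rw [Real.exp_neg, one_div]
    exact inv_anti₀ (by norm_num) (by linarith [Real.add_one_le_exp 1])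
  have h2 : (0 : ℝ) ≤ i := Nat.cast_nonneg i
  calc _ ≤ Real.exp (-G0) * Real.exp (-1) ^ i := by
        rw [← Real.exp_nat_mul, ← Real.exp_add, ← Real.exp_add]
        refine Real.exp_le_exp.2 ?_
        push_cast
        linarith
    _ ≤ _ := by gcongr

end Sum

theorem sum_ (h1 : S_PACK) : S_SUM := by
  classical
  intro S ι T _ _ ϖ a m q I A x φ C0 δ G0 J J' hm hq hϖ h4 ha hδ hC hφ hb hsep hA hG0 hJ hmd hbig
  have hm' : (1 : ℝ) ≤ m := by exact_mod_cast hm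
  have hq' : (1 : ℝ) ≤ q := by exact_mod_cast hq
  have hN : ∀ G N : ℝ, 1 ≤ G → G ≤ J' + 1 → δ ^ 2 ≤ N → 40000 * q * G ≤ (m : ℝ) ^ 2 * N := by
    intro G N g1 g2 g3
    have e1 : (q : ℝ) ≤ (q : ℝ) ^ 3 := le_self_pow₀ hq' (by norm_num)
    calc 40000 * q * G ≤ 2 * 10 ^ 9 * (q : ℝ) ^ 3 * (J' + 1) := by gcongr; norm_num
      _ ≤ (m : ℝ) ^ 2 * δ ^ 2 := hbig
      _ ≤ _ := by gcongr
  have hnot : ∀ t ∈ A, ∀ G, ¬ Sum.Bad ϖ a m q G (x t) →
      φ t ^ 2 ≤ C0 ^ 2 * Real.exp (-(2 * G)) := by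
    intro t ht G hG
    obtain ⟨e, he⟩ := not_forall.1 hG
    have e1 : φ t ≤ C0 * Real.exp (-G) :=
      (hb t ht e).trans (mul_le_mul_of_nonneg_left (Real.exp_le_exp.2 (by linarith [not_le.1 he])) hC)
    calc φ t ^ 2 ≤ (C0 * Real.exp (-G)) ^ 2 := pow_le_pow_left₀ (hφ t ht).1 e1 2
      _ = _ := by rw [mul_pow, ← Real.exp_nat_mul]; ring_nf
  have hzero : ∀ t ∈ A, ¬ Sum.Bad ϖ a m q G0 (x t) := by
    intro t ht hbad
    have e0 := (hφ t ht).2
    have e1 := Sum.pair hm hq hG0 hbad (Sum.bad_zero hϖ (by linarith))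
      (hN G0 _ hG0 (by linarith) (by simpa using e0))
    simp only [sub_zero] at e1
    have e2 := e1.trans (Sum.Pq_le hq hϖ h4 ha _)
    set N := ∑ j, x t j ^ 2
    have hN0 : 0 < N := lt_of_lt_of_le (by positivity) e0
    rw [pow_mul, pow_le_pow_iff_left₀ (by positivity) (by positivity) (by omega)] at e2
    have e3 : 4 < m / (300 * q * G0) * δ := by
      rw [div_mul_eq_mul_div, lt_div_iff₀ (by positivity)]
      linarith
    set β := m / (300 * q * G0)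
    have e4 : 16 < β ^ 2 * N := by
      have : β ^ 2 * δ ^ 2 ≤ β ^ 2 * N := by gcongr
      nlinarith
    nlinarith
  have hcount : ∀ G : ℝ, 1 ≤ G → G ≤ J' + 1 →
      ((A.filter fun t => Sum.Bad ϖ a m q G (x t)).card : ℝ) ≤ 2 ^ (I + 1) * Real.exp (G / 4) := by
    intro G g1 g2
    refine (h1 S ι T ϖ a q I _ x δ (m / (300 * q * G)) hq hϖ h4 ha hδ (by positivity)
      fun t ht t' ht' hne => ?_).trans ?_
    · obtain ⟨k1, k2⟩ := mem_filter.1 ht
      obtain ⟨k3, k4⟩ := mem_filter.1 ht'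
      obtain ⟨k5, k6⟩ := hsep t k1 t' k3 hne
      exact ⟨k5, k6, Sum.pair hm hq g1 k2 k4 (hN G _ g1 g2 k5)⟩
    · refine mul_le_mul_of_nonneg_left (Real.exp_le_exp.2 ?_) (by positivity)
      have e1 : 4608 * q / ((m / (300 * q * G)) ^ 2 * δ ^ 2) =
          G / 4 * (1658880000 * (q : ℝ) ^ 3 * G / ((m : ℝ) ^ 2 * δ ^ 2)) := by
        field_simp
        ring
      rw [e1]
      refine mul_le_of_le_one_right (by positivity) ((div_le_one (by positivity)).2 ?_)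
      refine le_trans ?_ hbig
      gcongr
      norm_num
  set n := ⌈J' - G0⌉₊ with hn
  have hn1 : J' - G0 ≤ n := Nat.le_ceil _
  have hn2 : (n : ℝ) < J' - G0 + 1 := Nat.ceil_lt_add_one (by linarith)
  have hpt : ∀ t ∈ A, φ t ^ 2 ≤ C0 ^ 2 * (Real.exp (-(2 * J')) + ∑ i ∈ range n,
      if Sum.Bad ϖ a m q (G0 + (i + 1 : ℕ)) (x t) then Real.exp (-(2 * (G0 + i))) else 0) := by
    intro t ht
    have e0 : ∀ i ∈ range n, 0 ≤
        if Sum.Bad ϖ a m q (G0 + (i + 1 : ℕ)) (x t) then Real.exp (-(2 * (G0 + i))) else 0 :=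
      fun i _ => by split_ifs <;> positivity
    by_cases hbad : Sum.Bad ϖ a m q (G0 + n) (x t)
    · obtain ⟨i, hi, k1, k2⟩ := Sum.exists_step
        (P := fun i : ℕ => Sum.Bad ϖ a m q (G0 + i) (x t)) (by simpa using hzero t ht) hbad
      refine (hnot t ht _ k1).trans (mul_le_mul_of_nonneg_left ?_ (by positivity))
      have e1 := single_le_sum e0 (mem_range.2 hi)
      rw [if_pos k2] at e1
      exact e1.trans (le_add_of_nonneg_left (by positivity))
    · refine (hnot t ht _ hbad).trans (mul_le_mul_of_nonneg_left ?_ (by positivity))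
      exact (Real.exp_le_exp.2 (by linarith)).trans (le_add_of_nonneg_right (sum_nonneg e0))
  refine (sum_le_sum hpt).trans ?_
  rw [← mul_sum, sum_add_distrib, sum_comm]
  refine mul_le_mul_of_nonneg_left (add_le_add ?_ ?_) (by positivity)
  · rw [sum_const, nsmul_eq_mul, sub_eq_add_neg, Real.exp_add]
    gcongr
  · calc _ ≤ ∑ i ∈ range n, 2 ^ (I + 1) * Real.exp (-G0) * (1 / 2 : ℝ) ^ i := by
          refine sum_le_sum fun i hi => ?_
          have e1 : ((i + 1 : ℕ) : ℝ) ≤ n := by exact_mod_cast mem_range.1 hi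
          have e2 : (0 : ℝ) ≤ (i + 1 : ℕ) := Nat.cast_nonneg _
          rw [← sum_filter, sum_const, nsmul_eq_mul]
          refine (mul_le_mul_of_nonneg_right (hcount _ (by linarith) (by linarith))
            (by positivity)).trans ?_
          rw [mul_assoc, mul_assoc]
          exact mul_le_mul_of_nonneg_left (Sum.level G0 hG0 i) (by positivity)
      _ ≤ 2 ^ (I + 1) * Real.exp (-G0) * 2 := by
          rw [← mul_sum]
          exact mul_le_mul_of_nonneg_left (sum_geometric_two_le n) (by positivity)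
      _ = _ := by ring

end Pool.Agent.P.MP_b60056_nt.AA
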