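import Pool.Agent.P.MP_b60056_nt.AA.Api

namespace Pool.Agent.P.MP_b60056_nt.AA

open Finset MeasureTheory

namespace Tilt

variable {S : Type} [Fintype S]

theorem integral_av {X : Type} [MeasureSpace X] (f : S → X → ℝ) (h : ∀ s, Integrable (f s)) :
    ∫ x, av (fun s => f s x) = av fun s => ∫ x, f s x := by
  unfold av
  rw [integral_div, integral_finsetSum _ fun s _ => h s]

theorem integral_avc {X : Type} [MeasureSpace X] (f : S → X → ℂ) (h : ∀ s, Integrable (f s)) :
    ∫ x, avc (fun s => f s x) = avc fun s => ∫ x, f s x := by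
  unfold avc
  rw [integral_div, integral_finsetSum _ fun s _ => h s]

theorem integrable_av {X : Type} [MeasureSpace X] (f : S → X → ℝ) (h : ∀ s, Integrable (f s)) :
    Integrable fun x => av fun s => f s x :=
  (integrable_finsetSum _ fun s _ => h s).div_const _

theorem le_card_mul_av [Nonempty S] {f : S → ℝ} (h : ∀ s, 0 ≤ f s) (s : S) :
    f s ≤ Fintype.card S * av f := by
  have : (Fintype.card S : ℝ) ≠ 0 := by exact_mod_cast Fintype.card_ne_zero
  rw [av, mul_div_cancel₀ _ this]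
  exact single_le_sum (fun s _ => h s) (mem_univ s)

theorem exists_nu [Nonempty S] (l : S → ℝ) (h0 : ∀ s, 0 ≤ l s) (h1 : av l ≤ 1) :
    ∃ ν : S → ℝ, (∀ s, 1 / 2 ≤ ν s) ∧ av ν = 1 ∧ av (fun s => ν s ^ 2) ≤ 4 ∧
      ∀ s, l s ≤ 4 * ν s ^ 2 := by
  have r0 : 0 ≤ av fun s => √(l s) := av_nonneg fun s => Real.sqrt_nonneg _
  have r1 : av (fun s => √(l s)) ≤ 1 := by
    have := av_sq_le fun s => √(l s)
    rw [av_congr fun s => Real.sq_sqrt (h0 s)] at this
    nlinarith
  set Z := 1 + av fun s => √(l s) with hZ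
  have Z1 : 1 ≤ Z := by linarith
  have half : ∀ s, (1 + √(l s)) / 2 ≤ (1 + √(l s)) / Z := fun s =>
    div_le_div_of_nonneg_left (by positivity) (by linarith) (by linarith)
  refine ⟨fun s => (1 + √(l s)) / Z, fun s => ?_, ?_, ?_, fun s => ?_⟩
  · linarith [half s, Real.sqrt_nonneg (l s)]
  · rw [av_div, av_add, av_const, div_self (by linarith)]
  · refine (av_mono (g := fun s => 2 + 2 * l s) fun s => ?_).trans ?_
    · have h2 : (1 + √(l s)) / Z ≤ 1 + √(l s) := div_le_self (by positivity) Z1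
      have h3 := pow_le_pow_left₀ (by positivity) h2 2
      nlinarith [Real.sq_sqrt (h0 s), sq_nonneg (1 - √(l s))]
    · rw [av_add, av_const, av_mul_left]; linarith
  · have h3 := pow_le_pow_left₀ (by positivity) (half s) 2
    nlinarith [Real.sq_sqrt (h0 s), Real.sqrt_nonneg (l s)]

theorem I_nonneg {q : ℕ} (hq : Even q) (q0 : q ≠ 0) (y : ℝ) : 0 ≤ 1 + y + y ^ q := by
  rcases le_total (-1) y with h | h
  · linarith [hq.pow_nonneg y]
  · have := le_self_pow₀ (show 1 ≤ -y by linarith) q0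
    rw [hq.neg_pow] at this
    linarith

theorem I_sq {q : ℕ} (q0 : q ≠ 0) (y : ℝ) : (1 + y + y ^ q) ^ 2 ≤ 6 + 6 * y ^ (2 * q) := by
  have h : y ^ 2 ≤ 1 + y ^ (2 * q) := by
    rw [pow_mul]
    rcases le_total 1 (y ^ 2) with h | h
    · linarith [le_self_pow₀ h q0]
    · linarith [pow_nonneg (sq_nonneg y) q]
  have e : y ^ (2 * q) = (y ^ q) ^ 2 := by ring
  nlinarith [sq_nonneg (1 - y), sq_nonneg (1 - y ^ q), sq_nonneg (y - y ^ q)]

theorem cs {X : Type} [MeasureSpace X] {h w : X → ℝ} (w0 : ∀ x, 0 ≤ w x) (hw : Integrable w)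
    (hJ : 0 < ∫ x, w x) (i1 : Integrable fun x => h x * w x)
    (i2 : Integrable fun x => h x ^ 2 * w x) :
    (∫ x, h x * w x) ^ 2 ≤ (∫ x, w x) * ∫ x, h x ^ 2 * w x := by
  obtain ⟨t, ht⟩ : ∃ t, t * ∫ x, w x = ∫ x, h x * w x := ⟨_, div_mul_cancel₀ _ hJ.ne'⟩
  have := integral_mono (i1.const_mul (2 * t)) (i2.add (hw.const_mul (t ^ 2))) fun x => by
    have := mul_nonneg (sq_nonneg (h x - t)) (w0 x)
    simp only [Pi.add_apply]
    linarith
  simp only [Pi.add_apply] at this
  rw [integral_add i2 (hw.const_mul _), integral_const_mul, integral_const_mul, ← ht] at this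
  rw [← ht]
  nlinarith

end Tilt

open AA.Tilt in
theorem tilt (h1 : S_GAUSS) (h2 : S_SHIFT) (h3 : S_PT) : S_TILT := by
  intro S _ _ N g m q hg hg2 hm hq hmq
  have q2 : 2 ≤ q := by
    by_contra h
    have : 4 ^ q ≤ 4 ^ 1 := Nat.pow_le_pow_right (by norm_num) (by omega)
    nlinarith
  have q0 : q ≠ 0 := by omega
  have qR : (2 : ℝ) ≤ q := by exact_mod_cast q2
  have mR : (1 : ℝ) ≤ m := by exact_mod_cast hm
  have hmqR : 24 * (m : ℝ) ^ 2 ≤ 4 ^ q := by exact_mod_cast hmq
  obtain ⟨ν, n1, n2, n3, n4⟩ := exists_nu (fun s => ∑ j, g j s ^ 2)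
    (fun s => sum_nonneg fun _ _ => sq_nonneg _) (by rw [av_sum]; exact hg2)
  have n0 : ∀ s, 0 < ν s := fun s => by linarith [n1 s]
  obtain ⟨a, ha⟩ : ∃ a : S → Fin N → ℝ, ∀ s j, ν s * a s j = g j s :=
    ⟨fun s j => g j s / ν s, fun s j => mul_div_cancel₀ _ (n0 s).ne'⟩
  have a4 : ∀ s, ∑ j, a s j ^ 2 ≤ 4 := fun s => by
    have := n4 s
    simp only [← ha, mul_pow, ← mul_sum] at this
    nlinarith [pow_pos (n0 s) 2]
  have a0 : ∀ y : Fin N → ℝ, ∀ f : S → ℝ,
      av (fun s => ν s * (∑ j, a s j * y j) * f s) = ∑ j, y j * av fun s => g j s * f s := by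
    intro y f
    simp only [← av_mul_left]
    rw [← av_sum]
    refine av_congr fun s => ?_
    rw [mul_sum, sum_mul]
    exact sum_congr rfl fun j _ => by rw [← ha]; ring
  have a1 : ∀ y : Fin N → ℝ, av (fun s => ν s * ∑ j, a s j * y j) = 0 := fun y => by
    simpa [hg] using a0 y fun _ => 1
  obtain ⟨κ, κ0, hκ⟩ : ∃ κ : ℝ, 0 < κ ∧ κ ^ 2 * (400 * q) = 1 :=
    ⟨√(400 * q)⁻¹, by positivity, by
      rw [Real.sq_sqrt (by positivity), inv_mul_cancel₀ (by positivity)]⟩
  obtain ⟨i0, J0, -, hmom⟩ := h1 (Fin N)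
  have w0 : ∀ x : Fin N → ℝ, 0 ≤ gw x := fun x => (Real.exp_pos _).le
  let G : (Fin N → ℝ) → S → ℝ := fun x s => ∑ j, κ * a s j * x j
  have G0 : ∀ x, av (fun s => ν s * G x s) = 0 := fun x => by
    rw [← a1 fun j => κ * x j]
    exact av_congr fun s => congrArg _ (sum_congr rfl fun j _ => by ring)
  let P : (Fin N → ℝ) → ℝ := fun x => av fun s => ν s ^ 2 * G x s ^ (2 * q)
  have P0 : ∀ x, 0 ≤ P x := fun x => av_nonneg fun s =>
    mul_nonneg (sq_nonneg _) ((even_two_mul q).pow_nonneg _)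
  let wt : (Fin N → ℝ) → ℝ := fun x => Real.exp (-(12 * m ^ 2 * 2 ^ q) * P x)
  let F : (Fin m → S) → (Fin N → ℝ) → ℝ := fun σ x =>
    wt x * ∏ i, ν (σ i) * (1 + G x (σ i) + G x (σ i) ^ q)
  have F0 : ∀ σ x, 0 ≤ F σ x := fun σ x => mul_nonneg (Real.exp_pos _).le
    (prod_nonneg fun i _ => mul_nonneg (n0 _).le (I_nonneg hq q0 _))
  let H : (S → ℂ) → (Fin N → ℂ) → ℂ := fun u ξ =>
    Complex.exp (-(12 * (m : ℂ) ^ 2 * 2 ^ q) *
      avc (fun s => (ν s : ℂ) ^ 2 * (∑ j, (κ * a s j : ℝ) * ξ j) ^ (2 * q))) *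
    avc (fun s => (ν s : ℂ) * (1 + ∑ j, (κ * a s j : ℝ) * ξ j +
      (∑ j, (κ * a s j : ℝ) * ξ j) ^ q) * u s) ^ m
  have HF : ∀ u (x : Fin N → ℝ), H u (fun j => x j) = avc fun σ => (F σ x : ℂ) * ∏ i, u (σ i) := by
    intro u x
    have e : ∀ s, ∑ j, ((κ * a s j : ℝ) : ℂ) * x j = (G x s : ℂ) := fun s => by
      simp only [G]; push_cast; rfl
    simp only [H, e]
    simp only [F, wt, P, Complex.ofReal_mul, Complex.ofReal_prod, mul_assoc, ← prod_mul_distrib]
    rw [avc_mul_left, avc_pi fun _ s => (ν s : ℂ) * (((1 + G x s + G x s ^ q : ℝ) : ℂ) * u s)]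
    simp only [Complex.ofReal_exp, Complex.ofReal_mul, ← avc_ofReal, prod_const, card_univ,
      Fintype.card_fin]
    push_cast
    rfl
  have HB : ∀ (u : S → ℂ) (e x : Fin N → ℝ) (t : ℝ), (∀ s, ‖u s‖ = 1) →
      av (fun s => 1 - (u s).re) ≤ 1 / 2 →
      ‖H u fun j => (x j : ℂ) + ((t * (e j / κ) : ℝ) : ℂ) * Complex.I‖ ≤
        Real.exp (1 + 72 * m * av (fun s => 1 - (u s).re) -
          m * av (fun s => ν s * (∑ j, a s j * (t * e j)) * (u s).im) +
          24 * (m : ℝ) ^ 2 * 2 ^ q * (1 + 8 * q) ^ (2 * q) *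
            av fun s => ν s ^ 2 * (∑ j, a s j * (t * e j)) ^ (2 * q)) := by
    intro u e x t u1 u2
    have e' : ∀ s, ∑ j, ((κ * a s j : ℝ) : ℂ) * ((x j : ℂ) + ((t * (e j / κ) : ℝ) : ℂ) * Complex.I) =
        (G x s : ℂ) + ((∑ j, a s j * (t * e j) : ℝ) : ℂ) * Complex.I := fun s => by
      have : (κ : ℂ) ≠ 0 := by exact_mod_cast κ0.ne'
      simp only [G]
      push_cast
      rw [sum_mul, ← sum_add_distrib]
      exact sum_congr rfl fun j _ => by field_simp
    simp only [H, e']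
    exact h3 S ν (G x) _ u m q hm (by omega) n1 n2 n3 (G0 x) (a1 _) u1 u2
  have avF : ∀ x, av (fun σ => F σ x) ≤ Real.exp 1 := fun x => by
    have := HB (fun _ => 1) (fun _ => 0) x 0 (by simp) (by simp [av_zero])
    simp only [zero_mul, Complex.ofReal_zero, add_zero, HF, prod_const_one, mul_one, avc_ofReal,
      Complex.norm_real, Complex.one_re, sub_self, av_zero, mul_zero, sum_const_zero,
      zero_pow (show 2 * q ≠ 0 by omega), sub_zero] at this
    exact (le_abs_self _).trans this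
  have Fc : ∀ σ, Continuous (F σ) := fun σ => by
    simp only [F, wt, P, G, av]; fun_prop
  have Fb : ∀ σ x, F σ x ≤ Fintype.card (Fin m → S) * Real.exp 1 := fun σ x =>
    (le_card_mul_av (fun σ => F0 σ x) σ).trans
      (mul_le_mul_of_nonneg_left (avF x) (Nat.cast_nonneg _))
  have iF : ∀ σ n, Integrable fun x => F σ x ^ n * gw x := fun σ n =>
    i0.bdd_mul (c := (Fintype.card (Fin m → S) * Real.exp 1) ^ n)
      ((Fc σ).pow n).aestronglyMeasurable (Filter.Eventually.of_forall fun x => by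
        rw [Real.norm_of_nonneg (pow_nonneg (F0 σ x) n)]
        exact pow_le_pow_left₀ (F0 σ x) (Fb σ x) n)
  have iF1 : ∀ σ, Integrable fun x => F σ x * gw x := fun σ => by simpa using iF σ 1
  obtain ⟨Z, hZ⟩ : ∃ Z, Z = av fun σ => ∫ x, F σ x * gw x := ⟨_, rfl⟩
  have hJZ : ∫ x : Fin N → ℝ, gw x ≤ 2 * Z := by
    have iP : ∀ s, Integrable fun x => ν s ^ 2 * (G x s ^ (2 * q) * gw x) := fun s =>
      (hmom _ q).1.const_mul _
    have e1 : ∫ x, av (fun s => ν s ^ 2 * (G x s ^ (2 * q) * gw x)) ≤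
        4 * (0.06 ^ q * ∫ x : Fin N → ℝ, gw x) := by
      rw [integral_av _ iP]
      refine (av_mono (g := fun s => ν s ^ 2 * (0.06 ^ q * ∫ x : Fin N → ℝ, gw x))
        fun s => ?_).trans ?_
      · rw [integral_const_mul]
        refine mul_le_mul_of_nonneg_left ((hmom _ q).2.trans ?_) (sq_nonneg _)
        refine mul_le_mul_of_nonneg_right (pow_le_pow_left₀ (by positivity) ?_ q) J0.le
        simp only [mul_pow, ← mul_sum]
        nlinarith [mul_le_mul_of_nonneg_left (a4 s) (show 0 ≤ q * κ ^ 2 by positivity)]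
      · rw [av_mul_right]
        exact mul_le_mul_of_nonneg_right n3 (by positivity)
    have e2 := integral_mono (i0.sub ((integrable_av _ iP).const_mul (12 * m ^ 2 * 2 ^ q)))
      (integrable_av _ iF1) fun x => by
        simp only [Pi.sub_apply, ← mul_assoc, av_mul_right]
        have b1 : 1 ≤ av fun s => ν s * (1 + G x s + G x s ^ q) := by
          simp only [mul_add, mul_one, av_add, n2, G0]
          linarith [av_nonneg fun s => mul_nonneg (n0 s).le (hq.pow_nonneg (G x s))]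
        have b2 : av (fun σ => F σ x) = wt x * (av fun s => ν s * (1 + G x s + G x s ^ q)) ^ m := by
          simp only [F]
          rw [av_mul_left, av_pi fun _ s => ν s * (1 + G x s + G x s ^ q)]
          simp
        have b3 : -(12 * m ^ 2 * 2 ^ q) * P x + 1 ≤ av fun σ => F σ x := by
          rw [b2]
          exact (Real.add_one_le_exp _).trans
            (le_mul_of_one_le_right (Real.exp_pos _).le (one_le_pow₀ b1))
        have := mul_le_mul_of_nonneg_right b3 (w0 x)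
        simp only [P] at this
        linarith
    simp only [Pi.sub_apply] at e2
    rw [integral_sub i0 ((integrable_av _ iP).const_mul _), integral_const_mul,
      integral_av _ iF1, ← hZ] at e2
    have e3 : (4 : ℝ) ^ q * 2 ^ q * 0.06 ^ q ≤ 0.48 ^ 2 := by
      rw [← mul_pow, ← mul_pow]
      exact pow_le_pow_of_le_one (by norm_num) (by norm_num) q2 |>.trans' (by norm_num)
    have e4 := mul_le_mul_of_nonneg_left e1 (show (0 : ℝ) ≤ 12 * m ^ 2 * 2 ^ q by positivity)
    have e5 := mul_le_mul_of_nonneg_right hmqR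
      (show 0 ≤ 2 ^ q * 0.06 ^ q * ∫ x : Fin N → ℝ, gw x by positivity)
    have e6 := mul_le_mul_of_nonneg_right e3 J0.le
    linarith
  have Z0 : 0 < Z := by linarith
  refine ⟨fun σ => (∫ x, F σ x * gw x) / Z, fun s => ν s ^ 2, a,
    fun σ => div_nonneg (integral_nonneg fun x => mul_nonneg (F0 σ x) (w0 x)) Z0.le,
    by rw [av_div, ← hZ, div_self Z0.ne'], ?_, fun s => sq_nonneg _, n3, a4, fun u e u1 u2 => ?_⟩
  · simp only [div_pow]
    rw [av_div, div_le_iff₀ (by positivity)]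
    refine (av_mono fun σ => cs w0 i0 J0 (iF1 σ) (iF σ 2)).trans ?_
    rw [av_mul_left, ← integral_av _ fun σ => iF σ 2]
    have e1 := integral_mono (integrable_av _ fun σ => iF σ 2) (i0.const_mul (24 ^ m)) fun x => by
      simp only [av_mul_right]
      refine mul_le_mul_of_nonneg_right ?_ (w0 x)
      simp only [F, mul_pow, ← prod_pow]
      rw [av_mul_left, av_pi fun _ s => ν s ^ 2 * (1 + G x s + G x s ^ q) ^ 2, prod_const, card_univ,
        Fintype.card_fin]
      have b1 : av (fun s => ν s ^ 2 * (1 + G x s + G x s ^ q) ^ 2) ≤ 24 * Real.exp (P x) := by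
        refine (av_mono (g := fun s => 6 * ν s ^ 2 + 6 * (ν s ^ 2 * G x s ^ (2 * q)))
          fun s => ?_).trans ?_
        · linarith [mul_le_mul_of_nonneg_left (I_sq q0 (G x s)) (sq_nonneg (ν s))]
        · rw [av_add, av_mul_left, av_mul_left]
          linarith [Real.add_one_le_exp (P x), P0 x]
      have b2 := pow_le_pow_left₀ (av_nonneg fun s => by positivity) b1 m
      refine (mul_le_mul_of_nonneg_left b2 (sq_nonneg _)).trans ?_
      rw [mul_pow, mul_left_comm]
      refine mul_le_of_le_one_right (by positivity) ?_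
      simp only [wt]
      rw [← Real.exp_nat_mul, ← Real.exp_nat_mul, ← Real.exp_add, Real.exp_le_one_iff]
      have b3 : (m : ℝ) ≤ m ^ 2 * 2 ^ q :=
        (le_self_pow₀ mR two_ne_zero).trans
          (le_mul_of_one_le_right (by positivity) (one_le_pow₀ one_le_two))
      push_cast
      nlinarith [mul_le_mul_of_nonneg_right b3 (P0 x), mul_nonneg (by positivity :
        (0 : ℝ) ≤ m ^ 2 * 2 ^ q) (P0 x)]
    rw [integral_const_mul] at e1
    have e2 := mul_le_mul_of_nonneg_left e1 J0.le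
    have e3 := mul_le_mul_of_nonneg_left (pow_le_pow_left₀ J0.le hJZ 2)
      (show (0 : ℝ) ≤ 24 ^ m by positivity)
    linarith
  · have e1 := h2 (Fin N) (H u) (fun j => e j / κ) _ (by simp only [H, avc]; fun_prop)
      (by simp only [av]; fun_prop) fun x t => HB u e x t u1 u2
    have e2 : avc (fun σ : Fin m → S => (((∫ x, F σ x * gw x) / Z : ℝ) : ℂ) * ∏ i, u (σ i)) =
        (∫ x : Fin N → ℝ, H u (fun j => x j) * (gw x : ℂ)) * (Z : ℂ)⁻¹ := by
      simp only [HF, ← avc_mul_right]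
      rw [integral_avc _ fun σ => by
        simpa [mul_right_comm] using (iF1 σ).ofReal.mul_const (∏ i, u (σ i)), ← avc_mul_right]
      refine avc_congr fun σ => ?_
      simp only [mul_right_comm _ (∏ i, u (σ i)), ← Complex.ofReal_mul]
      rw [integral_mul_const, integral_complex_ofReal]
      push_cast
      ring
    rw [e2, norm_mul, norm_inv, Complex.norm_real, Real.norm_of_nonneg Z0.le, ← div_eq_mul_inv,
      div_le_iff₀ Z0]
    refine e1.trans ?_
    rw [mul_comm (2 : ℝ), mul_assoc _ (2 : ℝ), ← Real.exp_add]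
    refine mul_le_mul (Real.exp_le_exp.2 ?_) hJZ J0.le (Real.exp_pos _).le
    simp only [one_mul, a0, Pq, div_pow, ← sum_div]
    have b1 : 24 * (m : ℝ) ^ 2 * 2 ^ q * (1 + 8 * q) ^ (2 * q) ≤ (30 * q) ^ (2 * q) := by
      calc _ ≤ 4 ^ q * 2 ^ q * (9 * q : ℝ) ^ (2 * q) := by gcongr; linarith
        _ = (4 * 2 * (9 * q) ^ 2) ^ q := by rw [pow_mul, ← mul_pow, ← mul_pow]
        _ ≤ ((30 * q) ^ 2) ^ q := by gcongr; nlinarith
        _ = _ := by rw [pow_mul]
    have b2 := mul_le_mul_of_nonneg_right b1 (av_nonneg fun s =>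
      mul_nonneg (sq_nonneg (ν s)) ((even_two_mul q).pow_nonneg (∑ j, a s j * e j)))
    have b3 : (∑ j, e j ^ 2) / κ ^ 2 / 2 = 200 * q * ∑ j, e j ^ 2 := by
      field_simp
      linear_combination (-∑ j, e j ^ 2) * hκ
    linarith

end Pool.Agent.P.MP_b60056_nt.AA
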