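import Pool.Agent.P.MP_b60056_nt.AA.Api

namespace Pool.Agent.P.MP_b60056_nt.AA

namespace Trig

theorem core {x y p q d : ℝ} (h1 : x ^ 2 + y ^ 2 = 1) (h2 : p ^ 2 + q ^ 2 = 1)
    (hc : Real.cos d = x * p + y * q) (hs : Real.sin d = y * p - x * q) (hd : |d| ≤ Real.pi) :
    d ^ 2 ≤ 10 * ((1 - x) + (1 - p)) ∧ |y - q| ≤ |d| ∧
      |(y - q) - d| ≤ 5 * ((1 - x) + (1 - p)) * |d| := by
  have a1 : 1 - Real.cos d ≤ 2 * ((1 - x) + (1 - p)) := by
    nlinarith [sq_nonneg (x + p - 2), sq_nonneg (y + q)]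
  have a2 := Real.cos_le_one_sub_mul_cos_sq hd
  have a3 := Real.one_sub_sq_div_two_le_cos (x := d)
  have a4 : d ^ 2 ≤ 10 * ((1 - x) + (1 - p)) := by
    have b1 : Real.pi ^ 2 ≤ 10 := by nlinarith [Real.pi_lt_d2, Real.pi_pos]
    have b2 : 2 / 10 ≤ 2 / Real.pi ^ 2 := by gcongr
    nlinarith [sq_nonneg d]
  have x1 : x ≤ 1 := by nlinarith
  have p1 : p ≤ 1 := by nlinarith
  have c1 := Real.cos_le_one d
  refine ⟨a4, sq_le_sq.1 (by nlinarith [sq_nonneg (x - p)]), ?_⟩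
  have e : (y - q) - d = (p - 1) * Real.sin d + (Real.sin d - d) + q * (Real.cos d - 1) := by
    rw [hc, hs]
    linear_combination (-y) * h2
  have d0 := abs_nonneg d
  have t1 : |(p - 1) * Real.sin d| ≤ ((1 - x) + (1 - p)) * |d| := by
    rw [abs_mul, abs_of_nonpos (sub_nonpos.2 p1)]
    exact mul_le_mul (by linarith) Real.abs_sin_le_abs (abs_nonneg _) (by linarith)
  have t2 : |Real.sin d - d| ≤ 2 * ((1 - x) + (1 - p)) * |d| := by
    have b1 := Real.abs_sub_sin_le d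
    rw [abs_sub_comm]
    have b2 : |d| ^ 3 = d ^ 2 * |d| := by rw [pow_succ, sq_abs]
    nlinarith [mul_le_mul_of_nonneg_right a4 d0]
  have t3 : |q * (Real.cos d - 1)| ≤ 2 * ((1 - x) + (1 - p)) * |d| := by
    refine abs_le_of_sq_le_sq ?_ (mul_nonneg (by linarith) d0)
    have b1 : q ^ 2 ≤ 2 * ((1 - x) + (1 - p)) := by nlinarith [sq_nonneg (p - 1)]
    have b2 : (Real.cos d - 1) ^ 2 ≤ 2 * ((1 - x) + (1 - p)) * d ^ 2 := by
      have := mul_le_mul a1 (show 1 - Real.cos d ≤ d ^ 2 by nlinarith [sq_nonneg d])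
        (by linarith) (by linarith)
      nlinarith
    have := mul_le_mul b1 b2 (sq_nonneg _) (by linarith)
    rw [mul_pow, mul_pow, sq_abs]
    nlinarith
  rw [e]
  have := abs_add_three ((p - 1) * Real.sin d) (Real.sin d - d) (q * (Real.cos d - 1))
  linarith

end Trig

theorem trig : S_TRIG := by
  intro u u' hu hu'
  have hw : ‖u * (starRingEnd ℂ) u'‖ = 1 := by simp [hu, hu']
  have he : ee (Complex.arg (u * (starRingEnd ℂ) u')) = u * (starRingEnd ℂ) u' := by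
    have := Complex.norm_mul_exp_arg_mul_I (u * (starRingEnd ℂ) u')
    rwa [hw, Complex.ofReal_one, one_mul] at this
  have n1 : u.re ^ 2 + u.im ^ 2 = 1 := by
    have := Complex.sq_norm u
    rw [hu, Complex.normSq_apply] at this
    linarith
  have n2 : u'.re ^ 2 + u'.im ^ 2 = 1 := by
    have := Complex.sq_norm u'
    rw [hu', Complex.normSq_apply] at this
    linarith
  obtain ⟨a, b, c⟩ := Trig.core n1 n2 (d := Complex.arg (u * (starRingEnd ℂ) u'))
    (by rw [← ee_re, he]; simp) (by rw [← ee_im, he]; simp; ring) (Complex.abs_arg_le_pi _)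
  exact ⟨a, b, c, Complex.abs_arg_le_pi _, he⟩

end Pool.Agent.P.MP_b60056_nt.AA
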