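import Pool.Agent.P.MP_b60056_nt.AA.Api

namespace Pool.Agent.P.MP_b60056_nt.AA

open Finset MeasureTheory

namespace Up

theorem coef_sq (b b' : Bool) : ((sg b - sg b') / 2) ^ 2 ≤ 1 := by
  cases b <;> cases b' <;> norm_num [sg]

variable {S : Type} {n : ℕ} (δ a : Fin n → S → ℝ) (lam : ℝ) (ε ε' : Fin n → Bool) (s : S)

theorem cs (A : Finset (Fin n)) :
    (∑ i ∈ A, (sg (ε i) - sg (ε' i)) / 2 * δ i s) ^ 2 ≤ A.card * ∑ i ∈ A, δ i s ^ 2 := by
  refine (sum_mul_sq_le_sq_mul_sq _ _ _).trans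
    (mul_le_mul_of_nonneg_right ?_ (sum_nonneg fun _ _ => sq_nonneg _))
  simpa using sum_le_card_nsmul A _ 1 fun i _ => coef_sq (ε i) (ε' i)

theorem sq_le (hδ : ∀ i s, |δ i s| ≤ Real.pi) (A : Finset (Fin n)) :
    ∑ i ∈ A, δ i s ^ 2 ≤ A.card * Real.pi ^ 2 := by
  simpa using sum_le_card_nsmul A _ (Real.pi ^ 2) fun i _ =>
    sq_le_sq' (abs_le.1 (hδ i s)).1 (abs_le.1 (hδ i s)).2

theorem split : ∃ y, y ^ 2 ≤ (Hv a lam s).card * ∑ i ∈ Hv a lam s, δ i s ^ 2 ∧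
    (psi δ ε s - psi δ ε' s) / 2 = y + (Lt δ a lam ε s - Lt δ a lam ε' s) / 2 := by
  refine ⟨_, cs δ ε ε' s _, ?_⟩
  have h : ∀ e : Fin n → Bool,
      psi δ e s = ∑ i ∈ Hv a lam s, sg (e i) * δ i s + Lt δ a lam e s := fun e => by
    rw [psi, ← sum_filter_add_sum_filter_not univ fun i => lam ≤ a i s]
    simp only [Hv, Lt, not_le]
  rw [h, h]
  simp only [sub_div, sub_mul, sum_sub_distrib, div_mul_eq_mul_div, ← sum_div]
  ring

theorem abs_le_n (hδ : ∀ i s, |δ i s| ≤ Real.pi) :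
    |(psi δ ε s - psi δ ε' s) / 2| ≤ n * Real.pi := by
  have h1 := cs δ ε ε' s univ
  have h2 := sq_le δ s hδ univ
  have e : (psi δ ε s - psi δ ε' s) / 2 = ∑ i, (sg (ε i) - sg (ε' i)) / 2 * δ i s := by
    simp only [psi, sub_div, sub_mul, sum_sub_distrib, div_mul_eq_mul_div, ← sum_div]
  rw [card_univ, Fintype.card_fin] at h1 h2
  rw [e]
  refine abs_le_of_sq_le_sq' ?_ (by positivity) |> abs_le.2
  calc _ ≤ (n : ℝ) * (n * Real.pi ^ 2) := h1.trans (by gcongr)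
    _ = _ := by ring

theorem eq_of_ee {x c : ℝ} (h : ee x = ee c) (hx : |x| ≤ Real.pi + 1) (hc : |c| ≤ 1) : x = c := by
  have h1 : ee (x - c) = 1 := by rw [sub_eq_add_neg, ee_add, h, ee_mul_neg]
  obtain ⟨k, hk⟩ := (ee_eq_one_iff _).1 h1
  have h3 := Real.pi_gt_three
  have h4 := abs_le.1 hx
  have h5 := abs_le.1 hc
  have h6 : (k : ℝ) < 1 := by nlinarith
  have h7 : (-1 : ℝ) < k := by nlinarith
  have h8 : k = 0 := by
    have : k < 1 := by exact_mod_cast h6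
    have : -1 < k := by exact_mod_cast h7
    omega
  rw [h8] at hk
  simpa [sub_eq_zero] using hk

theorem small {y L L' N Q B : ℝ} (hy : y ^ 2 ≤ N * Q) (hQ0 : 0 ≤ Q) (hQ : Q ≤ N * B ^ 2)
    (hB : 0 ≤ B) (hN : N ≤ 1) (hM : L ^ 2 + L' ^ 2 ≤ 1) : |y + (L - L') / 2| ≤ B + 1 := by
  have h1 : y ^ 2 ≤ B ^ 2 := by nlinarith [sq_nonneg B]
  have h2 := abs_le_of_sq_le_sq' h1 hB
  have h3 : ((L - L') / 2) ^ 2 ≤ 1 ^ 2 := by nlinarith [sq_nonneg (L + L')]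
  have h4 := abs_le_of_sq_le_sq' h3 zero_le_one
  exact abs_le.2 ⟨by linarith [h2.1, h4.1], by linarith [h2.2, h4.2]⟩

theorem point {y L L' Q c : ℝ} {N : ℕ} (hy : y ^ 2 ≤ N * Q) (hQ0 : 0 ≤ Q) (hQ : N = 0 → Q = 0)
    (hg : (N : ℝ) ≤ 1 → L ^ 2 + L' ^ 2 ≤ 1 → y + (L - L') / 2 = c) :
    (y + (L - L') / 2 - c) ^ 2 ≤ 2 * c ^ 2 * (N + L ^ 2 + L' ^ 2) + 12 * (Q * (N - 1)) +
      6 * (Q * L ^ 2) + 6 * (Q * L' ^ 2) + 3 / 2 * (N * L ^ 2) + 3 / 2 * (N * L' ^ 2) +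
      3 * L ^ 4 + 3 * L' ^ 4 := by
  have h0 : (0 : ℝ) ≤ N := Nat.cast_nonneg _
  have h1 : 0 ≤ Q * (N - 1) := by
    rcases Nat.eq_zero_or_pos N with h | h
    · rw [hQ h, zero_mul]
    · exact mul_nonneg hQ0 (sub_nonneg.2 (by exact_mod_cast h))
  have hf : (y + (L - L') / 2 - c) ^ 2 ≤ 6 * y ^ 2 + 3 / 2 * (L ^ 2 + L' ^ 2) + 2 * c ^ 2 := by
    nlinarith [sq_nonneg (y + (L - L') / 2 + c), sq_nonneg (y - L / 2), sq_nonneg (y + L' / 2),
      sq_nonneg (L + L')]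
  have a1 : 0 ≤ Q * L ^ 2 := by positivity
  have a2 : 0 ≤ Q * L' ^ 2 := by positivity
  have a3 : 0 ≤ N * L ^ 2 := by positivity
  have a4 : 0 ≤ N * L' ^ 2 := by positivity
  have a5 : 0 ≤ L ^ 4 := by positivity
  have a6 : 0 ≤ L' ^ 4 := by positivity
  have hc : ∀ t : ℝ, 1 ≤ t → 2 * c ^ 2 ≤ 2 * c ^ 2 * t := fun t ht =>
    le_mul_of_one_le_right (by positivity) ht
  by_cases hN : (N : ℝ) ≤ 1
  · by_cases hM : L ^ 2 + L' ^ 2 ≤ 1
    · rw [hg hN hM, sub_self, sq, zero_mul]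
      have : 0 ≤ 2 * c ^ 2 * (N + L ^ 2 + L' ^ 2) := by positivity
      linarith
    · have hM' := not_le.1 hM
      have b1 := hc (N + L ^ 2 + L' ^ 2) (by linarith)
      have b2 : N * Q ≤ Q * L ^ 2 + Q * L' ^ 2 := by nlinarith
      have b3 : L ^ 2 + L' ^ 2 ≤ 2 * (L ^ 4 + L' ^ 4) := by
        nlinarith [sq_nonneg (L ^ 2 - L' ^ 2)]
      linarith
  · have h2 : (2 : ℝ) ≤ N := by
      have : 1 < N := by exact_mod_cast not_le.1 hN
      exact_mod_cast this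
    have b1 := hc (N + L ^ 2 + L' ^ 2) (by nlinarith [sq_nonneg L, sq_nonneg L'])
    have b2 : N * Q ≤ 2 * (Q * (N - 1)) := by nlinarith
    have b3 : L ^ 2 ≤ N * L ^ 2 := by nlinarith [sq_nonneg L]
    have b4 : L' ^ 2 ≤ N * L' ^ 2 := by nlinarith [sq_nonneg L']
    linarith

theorem av_off [Fintype S] [Nonempty S] [DecidableEq S] {Z : Finset S} {ζ : ℝ}
    (h : (Z.card : ℝ) ≤ ζ * Fintype.card S) : av (fun s => 1 - off Z s) ≤ ζ := by
  have e : (fun s => 1 - off Z s) = fun s => if s ∈ Z then (1 : ℝ) else 0 := by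
    funext s; unfold off; split_ifs <;> simp
  have h2 : (0 : ℝ) < Fintype.card S := by exact_mod_cast Fintype.card_pos
  rw [e, av_indicator, div_le_iff₀ h2]
  simpa using h

end Up

theorem up : S_UP := by
  intro S _ _ _ n δ a lam Z A1 A5 A6 A7 A8 A9 A10 ζ ε ε' hδ hZ h h' hs hee
  have hζ := Up.av_off hZ
  set bad : S → ℝ := fun s => (1 - off Z s) + ((Hv a lam s).card * off Z s +
    Lt δ a lam ε s ^ 2 + Lt δ a lam ε' s ^ 2) with hbad
  have hb2 : av (fun s => (Hv a lam s).card * off Z s + Lt δ a lam ε s ^ 2 +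
      Lt δ a lam ε' s ^ 2) ≤ A9 + 2 * A10 := by
    rw [av_add, av_add]; linarith [h.h9, h.h10, h'.h10]
  have hb : av bad ≤ 1 / 2 := by rw [hbad, av_add]; linarith
  have hQ0 : ∀ s, 0 ≤ ∑ i ∈ Hv a lam s, δ i s ^ 2 := fun s => sum_nonneg fun _ _ => sq_nonneg _
  have hlt : ∀ s, bad s < 1 → (Hv a lam s).card = 0 ∧
      Lt δ a lam ε s ^ 2 + Lt δ a lam ε' s ^ 2 ≤ 1 := fun s hs => by
    have h1 := sq_nonneg (Lt δ a lam ε s)
    have h2 := sq_nonneg (Lt δ a lam ε' s)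
    have h3 : (0 : ℝ) ≤ (Hv a lam s).card := Nat.cast_nonneg _
    simp only [hbad, off] at hs
    split_ifs at hs with hz
    · linarith
    · have : ((Hv a lam s).card : ℝ) < 1 := by linarith
      exact ⟨Nat.lt_one_iff.1 (by exact_mod_cast this), by linarith⟩
  obtain ⟨s₀, hs₀⟩ := exists_le_av bad
  obtain ⟨k₀, k₁⟩ := hlt s₀ (by linarith)
  set c := (psi δ ε s₀ - psi δ ε' s₀) / 2 with hc
  have hc1 : |c| ≤ 1 := by
    obtain ⟨y, hy, e⟩ := Up.split δ a lam ε ε' s₀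
    rw [hc, e]
    rw [k₀] at hy
    simpa using Up.small (N := 0) (Q := 0) (B := 0) (by simpa using hy) le_rfl (by simp) le_rfl
      zero_le_one k₁
  have hgood : ∀ s, ((Hv a lam s).card : ℝ) ≤ 1 → Lt δ a lam ε s ^ 2 + Lt δ a lam ε' s ^ 2 ≤ 1 →
      (psi δ ε s - psi δ ε' s) / 2 = c := fun s h1 h2 => by
    refine Up.eq_of_ee (hee s s₀) ?_ hc1
    obtain ⟨y, hy, e⟩ := Up.split δ a lam ε ε' s
    rw [e]
    exact Up.small hy (hQ0 s) (Up.sq_le δ s hδ _) Real.pi_pos.le h1 h2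
  have hcA : c ^ 2 ≤ 2 * A1 := by
    have h1 : av (fun s => c ^ 2 - c ^ 2 * bad s) ≤
        av (fun s => 1 / 2 * psi δ ε s ^ 2 + 1 / 2 * psi δ ε' s ^ 2) := av_mono fun s => by
      have h2 := sq_nonneg (psi δ ε s + psi δ ε' s)
      have h3 := sq_nonneg (psi δ ε s - psi δ ε' s)
      by_cases hs : bad s < 1
      · obtain ⟨k₂, k₃⟩ := hlt s hs
        have h4 := hgood s (by rw [k₂]; simp) k₃
        have h5 : 0 ≤ bad s := by
          simp only [hbad, off]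
          split_ifs <;> positivity
        have h6 : 0 ≤ c ^ 2 * bad s := by positivity
        have h7 : c ^ 2 = ((psi δ ε s - psi δ ε' s) / 2) ^ 2 := by rw [h4]
        nlinarith
      · have h4 : c ^ 2 ≤ c ^ 2 * bad s := le_mul_of_one_le_right (sq_nonneg c) (not_lt.1 hs)
        nlinarith
    rw [av_sub, av_const, av_mul_left, av_add (fun s => 1 / 2 * psi δ ε s ^ 2), av_mul_left,
      av_mul_left] at h1
    nlinarith [h.h1, h'.h1, sq_nonneg c]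
  refine ⟨c, (av_mono (g := fun s => (n * Real.pi + 1) ^ 2 * (1 - off Z s) +
    2 * c ^ 2 * ((Hv a lam s).card * off Z s + Lt δ a lam ε s ^ 2 + Lt δ a lam ε' s ^ 2) +
    12 * ((∑ i ∈ Hv a lam s, δ i s ^ 2) * (((Hv a lam s).card : ℝ) - 1) * off Z s) +
    6 * ((∑ i ∈ Hv a lam s, δ i s ^ 2) * Lt δ a lam ε s ^ 2 * off Z s) +
    6 * ((∑ i ∈ Hv a lam s, δ i s ^ 2) * Lt δ a lam ε' s ^ 2 * off Z s) +
    3 / 2 * (((Hv a lam s).card : ℝ) * Lt δ a lam ε s ^ 2 * off Z s) +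
    3 / 2 * (((Hv a lam s).card : ℝ) * Lt δ a lam ε' s ^ 2 * off Z s) +
    3 * (Lt δ a lam ε s ^ 4 * off Z s) + 3 * (Lt δ a lam ε' s ^ 4 * off Z s))
    fun s => ?_).trans ?_⟩
  · simp only [off]
    split_ifs with hz
    · have h1 := abs_le.1 (Up.abs_le_n δ ε ε' s hδ)
      have h2 := abs_le.1 hc1
      have h3 : ((psi δ ε s - psi δ ε' s) / 2 - c) ^ 2 ≤ (n * Real.pi + 1) ^ 2 :=
        sq_le_sq' (by linarith) (by linarith)
      have h4 : 0 ≤ 2 * c ^ 2 * (Lt δ a lam ε s ^ 2 + Lt δ a lam ε' s ^ 2) := by positivity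
      simp only [mul_zero, sub_zero, mul_one, add_zero, zero_add]
      linarith
    · obtain ⟨y, hy, e⟩ := Up.split δ a lam ε ε' s
      have := Up.point (c := c) hy (hQ0 s) (fun h0 => by rw [card_eq_zero.1 h0, sum_empty])
        fun h1 h2 => e ▸ hgood s h1 h2
      rw [e]
      simp only [mul_zero, sub_self, mul_one, zero_add]
      exact this
  · simp only [av_add (S := S) _ fun s => _ * _, av_mul_left]
    have h1 := mul_le_mul_of_nonneg_left hζ (sq_nonneg (n * Real.pi + 1))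
    have h0 : 0 ≤ av (fun s => (Hv a lam s).card * off Z s + Lt δ a lam ε s ^ 2 +
        Lt δ a lam ε' s ^ 2) := av_nonneg fun s => by
      simp only [off]
      split_ifs <;> positivity
    have h2 := mul_le_mul (show 2 * c ^ 2 ≤ 4 * A1 by linarith) hb2 h0
      (by nlinarith [sq_nonneg c])
    linarith [h.h5, h'.h5, h.h6, h'.h6, h.h7, h'.h7, h.h8]

end Pool.Agent.P.MP_b60056_nt.AA
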