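import Pool.Agent.P.MP_b60056_nt.AA.Api

namespace Pool.Agent.P.MP_b60056_nt.AA

open Finset MeasureTheory

namespace Window

theorem norm_Ph {Y : Type} [Fintype Y] {w : Y → ℝ} (v : Y → ℝ) (L : ℝ) (hw : ∀ σ, 0 ≤ w σ)
    (h1 : ∑ σ, w σ = 1) (i : ℤ) : ‖Ph w v L i‖ ≤ 1 := by
  refine (norm_sum_le _ _).trans (le_of_eq ?_)
  rw [← h1]
  refine Finset.sum_congr rfl fun σ _ => ?_
  rw [norm_mul, norm_ee, mul_one, Complex.norm_real, Real.norm_of_nonneg (hw σ)]

theorem Ph_zero {Y : Type} [Fintype Y] {w : Y → ℝ} (v : Y → ℝ) (L : ℝ) (h1 : ∑ σ, w σ = 1) :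
    Ph w v L 0 = 1 := by
  have : ((∑ σ, w σ : ℝ) : ℂ) = 1 := by rw [h1]; rfl
  simpa [Ph, ee_zero] using this

theorem Hf_zero {Y : Type} [Fintype Y] (w v : Y → ℝ) {T s h x : ℝ} {X m : ℕ} (hT : 1 ≤ T)
    (hm : 1 ≤ m) (hmX : m + 1 ≤ 2 * X) (hh : 1 + 4 * X / T ≤ h)
    (hB : ∀ σ, ¬ ((m : ℝ) ≤ Real.exp (s + v σ) ∧ Real.exp (s + v σ) ≤ m + h))
    (h1 : Real.log m - s ≤ x) (h2 : x ≤ Real.log ((m + 1 : ℕ) : ℝ) - s) : Hf w v T x = 0 := by
  refine Finset.sum_eq_zero fun σ _ => ?_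
  rw [if_neg, mul_zero]
  rintro ⟨h3, h4⟩
  have hm0 : (0 : ℝ) < m := by exact_mod_cast hm
  have hT0 : 0 < 1 / T := by positivity
  have hT1 : 1 / T ≤ 1 := (div_le_one (by linarith)).2 hT
  refine hB σ ⟨?_, ?_⟩
  · rw [← Real.exp_log hm0]
    exact Real.exp_le_exp.2 (by linarith)
  · have h5 : Real.exp (s + v σ) ≤ Real.exp (Real.log ((m + 1 : ℕ) : ℝ) + 1 / T) :=
      Real.exp_le_exp.2 (by linarith)
    rw [Real.exp_add (Real.log _), Real.exp_log (by positivity)] at h5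
    have h6 := Real.abs_exp_sub_one_le (x := 1 / T) (by rwa [abs_of_pos hT0])
    rw [abs_of_pos hT0] at h6
    have h7 : Real.exp (1 / T) ≤ 1 + 2 * (1 / T) := by linarith [le_abs_self (Real.exp (1 / T) - 1)]
    have h8 : ((m + 1 : ℕ) : ℝ) ≤ 2 * X := by exact_mod_cast hmX
    have h9 : 4 * (X : ℝ) / T = 2 * X * (2 * (1 / T)) := by ring
    have h10 := mul_le_mul_of_nonneg_left h7 (Nat.cast_nonneg (α := ℝ) (m + 1))
    have h11 := mul_le_mul_of_nonneg_right h8 (show 0 ≤ 2 * (1 / T) by positivity)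
    push_cast at h5 h10 h11
    nlinarith

theorem log_gap {X m : ℕ} (hm : 1 ≤ m) (hmX : m + 1 ≤ 2 * X) :
    1 / (2 * (X : ℝ)) ≤ Real.log ((m + 1 : ℕ) : ℝ) - Real.log m := by
  have hm0 : (0 : ℝ) < m := by exact_mod_cast hm
  have h8 : (m : ℝ) + 1 ≤ 2 * X := by exact_mod_cast hmX
  have h1 := Real.log_le_sub_one_of_pos (x := (m : ℝ) / (m + 1)) (by positivity)
  rw [Real.log_div hm0.ne' (by positivity)] at h1
  have h2 : (m : ℝ) / (m + 1) - 1 = -(1 / (m + 1)) := by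
    field_simp
    ring
  have h3 := one_div_le_one_div_of_le (by positivity) h8
  push_cast
  linarith

end Window

open Window in
theorem window (h1 : S_HAT) (h2 : S_COEF) (h3 : S_LOWP) : S_WINDOW := by
  intro Y _ w v a L T ε r hT hL hr hw hw1 hv hrL hε
  have hL0 : 0 < L := by linarith
  have hT0 : 0 < T := by linarith
  obtain ⟨v1, ha, hb, hlow⟩ := h3 (fun i => Ph w v L i * hat T L i / L) a L r hL hr (fun i => by
    rw [norm_div, norm_mul, Complex.norm_real, Real.norm_of_nonneg hL0.le]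
    exact div_le_div_of_nonneg_right (mul_le_one₀ (norm_Ph v L hw hw1 i) (norm_nonneg _)
      (h1 T L i hT0 hL0).1) hL0.le) (by
    simp only [Ph_zero v L hw1, (h1 T L 0 hT0 hL0).2.1, mul_one]) hrL
  refine ⟨v1, ha, hb, fun s h X B hX c1 c2 hh hB hno => ?_⟩
  obtain ⟨hint, hle⟩ := (h2 Y w v a L T hT hL0 hw hv).2 r ε hε
  generalize hF : (fun x : ℝ => ‖(Hf w v T x : ℂ) - ∑ i ∈ Ioo (-(r : ℤ)) r,
    Ph w v L i * hat T L i / L * ee (2 * Real.pi * i * x / L)‖ ^ 2) = F at hint hle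
  have hF0 : ∀ x, 0 ≤ F x := fun x => by
    rw [← hF]
    positivity
  have hX0 : (0 : ℝ) < X := by exact_mod_cast hX
  have mono : ∀ j k : ℕ, X ≤ j → j ≤ k → Real.log j - s ≤ Real.log k - s := fun j k hj hk =>
    sub_le_sub_right (Real.log_le_log (hX0.trans_le (by exact_mod_cast hj))
      (by exact_mod_cast hk)) s
  have c3 : Real.log ((2 * X : ℕ) : ℝ) - s ≤ v1 + 2 := by
    push_cast
    exact c2
  have rng : ∀ k : ℕ, X ≤ k → k ≤ 2 * X → v1 ≤ Real.log k - s ∧ Real.log k - s ≤ v1 + 2 :=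
    fun k k1 k2 => ⟨c1.trans (mono X k le_rfl k1), (mono k _ k1 k2).trans c3⟩
  have hI : ∀ k : ℕ, X ≤ k → k < 2 * X →
      IntervalIntegrable F volume (Real.log k - s) (Real.log ((k + 1 : ℕ) : ℝ) - s) := by
    intro k k1 k2
    refine hint.mono_set (Set.uIcc_subset_uIcc ?_ ?_)
    · rw [Set.uIcc_of_le (by linarith)]
      exact ⟨by linarith [(rng k k1 k2.le).1], by linarith [(rng k k1 k2.le).2]⟩
    · rw [Set.uIcc_of_le (by linarith)]
      exact ⟨by linarith [(rng (k + 1) (by omega) k2).1],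
        by linarith [(rng (k + 1) (by omega) k2).2]⟩
  have hsum := intervalIntegral.sum_integral_adjacent_intervals_Ico (f := F) (μ := volume)
    (a := fun k : ℕ => Real.log k - s) (m := X) (n := 2 * X) (by omega)
    fun k hk => hI k hk.1 hk.2
  have htot : ∫ x in (Real.log X - s)..(Real.log ((2 * X : ℕ) : ℝ) - s), F x ≤ ε / L :=
    (intervalIntegral.integral_mono_interval (by linarith) (mono X _ le_rfl (by omega))
      (by linarith) (Filter.Eventually.of_forall hF0) hint).trans hle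
  have hone : ∀ m ∈ B, 1 / (2 * (X : ℝ)) * (1 / (2 * L)) ^ 2 ≤
      ∫ x in (Real.log m - s)..(Real.log ((m + 1 : ℕ) : ℝ) - s), F x := by
    intro m hm
    obtain ⟨m1, m2⟩ := Finset.mem_Ico.1 (hB hm)
    have e1 := intervalIntegral.integral_mono_on (μ := volume) (f := fun _ => (1 / (2 * L)) ^ 2)
      (mono m (m + 1) m1 (by omega)) intervalIntegrable_const (hI m m1 m2) fun x hx => by
        have z := Hf_zero w v hT (hX.trans m1) m2 hh (hno m hm) hx.1 hx.2
        have z2 := hlow x ((rng m m1 m2.le).1.trans hx.1)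
          (hx.2.trans (rng (m + 1) (by omega) m2).2)
        rw [← hF]
        simp only [z, Complex.ofReal_zero, zero_sub, norm_neg]
        exact pow_le_pow_left₀ (by positivity) (z2.trans (Complex.re_le_norm _)) 2
    rw [intervalIntegral.integral_const, smul_eq_mul] at e1
    refine le_trans (mul_le_mul_of_nonneg_right ?_ (by positivity)) e1
    linarith [log_gap (hX.trans m1) m2]
  have hcard : (B.card : ℝ) * (1 / (2 * (X : ℝ)) * (1 / (2 * L)) ^ 2) ≤ ε / L := by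
    rw [← nsmul_eq_mul, ← Finset.sum_const]
    refine (Finset.sum_le_sum hone).trans (le_trans ?_ (hsum.le.trans htot))
    refine Finset.sum_le_sum_of_subset_of_nonneg hB fun k hk _ => ?_
    exact intervalIntegral.integral_nonneg (mono k (k + 1) (Finset.mem_Ico.1 hk).1 (by omega))
      fun x _ => hF0 x
  have e2 : (B.card : ℝ) = (B.card : ℝ) * (1 / (2 * (X : ℝ)) * (1 / (2 * L)) ^ 2) *
      (8 * X * L ^ 2) := by
    field_simp
    ring
  have e3 : 8 * L * ε * X = ε / L * (8 * X * L ^ 2) := by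
    field_simp
  rw [e2, e3]
  exact mul_le_mul_of_nonneg_right hcard (by positivity)

end Pool.Agent.P.MP_b60056_nt.AA
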