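import Pool.Agent.P.MP_b60056_nt.AA.Abs
import Pool.Agent.P.MP_b60056_nt.AA.Tilt
import Pool.Agent.P.MP_b60056_nt.AA.Diss1
import Pool.Agent.P.MP_b60056_nt.AA.Sample
import Pool.Agent.P.MP_b60056_nt.AA.Coll
import Pool.Agent.P.MP_b60056_nt.AA.Coef
import Pool.Agent.P.MP_b60056_nt.AA.Wb
import Pool.Agent.P.MP_b60056_nt.AA.Bilin
import Pool.Agent.P.MP_b60056_nt.AA.Count
import Pool.Agent.P.MP_b60056_nt.AA.Collide
import Pool.Agent.P.MP_b60056_nt.AA.Main
import Pool.Agent.P.MP_b60056_nt.AA.High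
import Pool.Agent.P.MP_b60056_nt.AA.Vino
import Pool.Agent.P.MP_b60056_nt.AA.Vmvt
import Pool.Agent.P.MP_b60056_nt.AA.Tree
import Pool.Agent.P.MP_b60056_nt.AA.Linnik
import Pool.Agent.P.MP_b60056_nt.AA.Window
import Pool.Agent.P.MP_b60056_nt.AA.Game
import Pool.Agent.P.MP_b60056_nt.AA.Pack1
import Pool.Agent.P.MP_b60056_nt.AA.Pack
import Pool.Agent.P.MP_b60056_nt.AA.Sum
import Pool.Agent.P.MP_b60056_nt.AA.Shift
import Pool.Agent.P.MP_b60056_nt.AA.Gauss
import Pool.Agent.P.MP_b60056_nt.AA.Pt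
import Pool.Agent.P.MP_b60056_nt.AA.Up
import Pool.Agent.P.MP_b60056_nt.AA.Low
import Pool.Agent.P.MP_b60056_nt.AA.Diss
import Pool.Agent.P.MP_b60056_nt.AA.Rad
import Pool.Agent.P.MP_b60056_nt.AA.Trig
import Pool.Agent.P.MP_b60056_nt.AA.Em
import Pool.Agent.P.MP_b60056_nt.AA.Omega
import Pool.Agent.P.MP_b60056_nt.AA.Rep
import Pool.Agent.P.MP_b60056_nt.AA.Hal
import Pool.Agent.P.MP_b60056_nt.AA.Sj
import Pool.Agent.P.MP_b60056_nt.AA.Hat
import Pool.Agent.P.MP_b60056_nt.AA.Lowp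
import Pool.Agent.P.MP_b60056_nt.AA.Block
import Pool.Agent.P.MP_b60056_nt.AA.F1
import Pool.Agent.P.MP_b60056_nt.AA.Dec
import Pool.Agent.P.MP_b60056_nt.AA.F23
import Pool.Agent.P.MP_b60056_nt.AA.Num
import Pool.Agent.P.MP_b60056_nt.AA.Dyad
import Pool.Agent.P.MP_b60056_nt.AA.Final

namespace Pool.Agent.P.MP_b60056_nt.AA

theorem all_vino : S_VINO := vino (wb (vmvt tree (coll linnik)) bilin sj)

theorem all_abs : S_ABS :=
  abs_ game (diss trig (diss1 (low rad) up (sample rad))) (tilt gauss (shift gauss) pt)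
    (sum_ (pack (pack1 gauss)))

theorem all_f1 : S_F1 := f1 em omega_ all_vino

theorem all_high : S_HIGH :=
  high all_abs num all_f1 (f23 (count hal em rep) all_f1 (dec all_vino))
    (collide coef rep all_f1) hat_

theorem all_final : S_FINAL := final (dyad (main_ all_high (window hat_ coef lowp) block))

end Pool.Agent.P.MP_b60056_nt.AA
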