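import Pool.Agent.P.MP_b60056_nt.AA.If

namespace Pool.Agent.P.MP_b60056_nt.AA

open Finset MeasureTheory

theorem norm_ee (x : ℝ) : ‖ee x‖ = 1 := by
  unfold ee; exact Complex.norm_exp_ofReal_mul_I x

theorem ee_add (x y : ℝ) : ee (x + y) = ee x * ee y := by
  unfold ee; rw [← Complex.exp_add]; congr 1; push_cast; ring

theorem ee_zero : ee 0 = 1 := by unfold ee; simp

theorem ee_ne_zero (x : ℝ) : ee x ≠ 0 := by unfold ee; exact Complex.exp_ne_zero _

theorem conj_ee (x : ℝ) : (starRingEnd ℂ) (ee x) = ee (-x) := by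
  unfold ee; rw [← Complex.exp_conj]; congr 1; simp

theorem ee_mul_neg (x : ℝ) : ee x * ee (-x) = 1 := by
  rw [← ee_add]; simp [ee_zero]

theorem ee_sub (x y : ℝ) : ee (x - y) = ee x * (starRingEnd ℂ) (ee y) := by
  rw [conj_ee, ← ee_add, sub_eq_add_neg]

theorem ee_sum {ι : Type*} (A : Finset ι) (f : ι → ℝ) : ee (∑ i ∈ A, f i) = ∏ i ∈ A, ee (f i) := by
  classical
  induction A using Finset.induction_on with
  | empty => simp [ee_zero]
  | insert a s ha ih => rw [Finset.sum_insert ha, Finset.prod_insert ha, ee_add, ih]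

theorem ee_nat_mul (n : ℕ) (x : ℝ) : ee (n * x) = ee x ^ n := by
  induction n with
  | zero => simp [ee_zero]
  | succ n ih => rw [pow_succ, ← ih, ← ee_add]; congr 1; push_cast; ring

theorem ee_re (x : ℝ) : (ee x).re = Real.cos x := by
  unfold ee; exact Complex.exp_ofReal_mul_I_re x

theorem ee_im (x : ℝ) : (ee x).im = Real.sin x := by
  unfold ee; exact Complex.exp_ofReal_mul_I_im x

theorem ee_int (n : ℤ) : ee (2 * Real.pi * n) = 1 := by
  unfold ee
  rw [← Complex.exp_int_mul_two_pi_mul_I n]; congr 1; push_cast; ring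

theorem ee_eq_one_iff (x : ℝ) : ee x = 1 ↔ ∃ n : ℤ, x = 2 * Real.pi * n := by
  constructor
  · intro h
    unfold ee at h
    obtain ⟨n, hn⟩ := Complex.exp_eq_one_iff.1 h
    refine ⟨n, ?_⟩
    have h2 : (x : ℂ) = ((2 * Real.pi * n : ℝ) : ℂ) := by
      apply mul_right_cancel₀ Complex.I_ne_zero
      rw [hn]; push_cast; ring
    exact_mod_cast h2
  · rintro ⟨n, rfl⟩; exact ee_int n

theorem norm_ee_sub_one_le (x : ℝ) : ‖ee x - 1‖ ≤ |x| := by
  have := Real.norm_exp_I_mul_ofReal_sub_one_le (x := x)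
  unfold ee
  rw [mul_comm]
  simpa using this

theorem norm_ee_sub_le (x y : ℝ) : ‖ee x - ee y‖ ≤ |x - y| := by
  have h : ee x - ee y = (ee (x - y) - 1) * ee y := by
    rw [sub_mul, ← ee_add]; simp
  rw [h, norm_mul, norm_ee, mul_one]; exact norm_ee_sub_one_le _

theorem continuous_ee : Continuous ee := by
  unfold ee; fun_prop

theorem sg_sq (b : Bool) : sg b ^ 2 = 1 := by cases b <;> simp [sg]

theorem abs_sg (b : Bool) : |sg b| = 1 := by cases b <;> simp [sg]

section av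

variable {S : Type} [Fintype S]

theorem av_nonneg {f : S → ℝ} (h : ∀ s, 0 ≤ f s) : 0 ≤ av f :=
  div_nonneg (Finset.sum_nonneg fun s _ => h s) (Nat.cast_nonneg _)

theorem av_mono {f g : S → ℝ} (h : ∀ s, f s ≤ g s) : av f ≤ av g :=
  div_le_div_of_nonneg_right (Finset.sum_le_sum fun s _ => h s) (Nat.cast_nonneg _)

theorem av_congr {f g : S → ℝ} (h : ∀ s, f s = g s) : av f = av g := by
  rw [funext h]

theorem av_add (f g : S → ℝ) : av (fun s => f s + g s) = av f + av g := by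
  unfold av; rw [Finset.sum_add_distrib, add_div]

theorem av_sub (f g : S → ℝ) : av (fun s => f s - g s) = av f - av g := by
  unfold av; rw [Finset.sum_sub_distrib, sub_div]

theorem av_neg (f : S → ℝ) : av (fun s => -f s) = -av f := by
  unfold av; rw [Finset.sum_neg_distrib, neg_div]

theorem av_mul_left (c : ℝ) (f : S → ℝ) : av (fun s => c * f s) = c * av f := by
  unfold av; rw [← Finset.mul_sum, mul_div_assoc]

theorem av_mul_right (c : ℝ) (f : S → ℝ) : av (fun s => f s * c) = av f * c := by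
  unfold av; rw [← Finset.sum_mul]; ring

theorem av_div (c : ℝ) (f : S → ℝ) : av (fun s => f s / c) = av f / c := by
  simp only [div_eq_mul_inv (f _), av_mul_right]; rw [div_eq_mul_inv]

theorem av_zero : av (fun _ : S => (0 : ℝ)) = 0 := by unfold av; simp

theorem av_const [Nonempty S] (c : ℝ) : av (fun _ : S => c) = c := by
  unfold av
  have : (Fintype.card S : ℝ) ≠ 0 := by exact_mod_cast Fintype.card_ne_zero
  simp only [Finset.sum_const, Finset.card_univ, nsmul_eq_mul]; field_simp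

theorem av_const_le {c : ℝ} (hc : 0 ≤ c) : av (fun _ : S => c) ≤ c := by
  cases isEmpty_or_nonempty S with
  | inl h => unfold av; simpa using hc
  | inr h => exact (av_const c).le

theorem av_sum {ι : Type*} (A : Finset ι) (f : ι → S → ℝ) :
    av (fun s => ∑ i ∈ A, f i s) = ∑ i ∈ A, av (f i) := by
  unfold av; rw [Finset.sum_comm, Finset.sum_div]

theorem av_comm {S' : Type} [Fintype S'] (f : S → S' → ℝ) :
    av (fun s => av (fun s' => f s s')) = av (fun s' => av (fun s => f s s')) := by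
  unfold av
  simp only [← Finset.sum_div]
  rw [Finset.sum_comm, div_div, div_div, mul_comm]

theorem abs_av_le (f : S → ℝ) : |av f| ≤ av (fun s => |f s|) := by
  unfold av
  rw [abs_div, Nat.abs_cast]
  exact div_le_div_of_nonneg_right (Finset.abs_sum_le_sum_abs _ _) (Nat.cast_nonneg _)

theorem av_cs (f g : S → ℝ) :
    av (fun s => f s * g s) ^ 2 ≤ av (fun s => f s ^ 2) * av (fun s => g s ^ 2) := by
  unfold av
  rw [div_pow, div_mul_div_comm, ← sq]
  exact div_le_div_of_nonneg_right (Finset.sum_mul_sq_le_sq_mul_sq _ _ _) (by positivity)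

theorem av_sq_le (f : S → ℝ) : av f ^ 2 ≤ av (fun s => f s ^ 2) := by
  have h := av_cs f (fun _ => 1)
  simp only [mul_one, one_pow] at h
  have h1 : av (fun _ : S => (1 : ℝ)) ≤ 1 := av_const_le zero_le_one
  have h2 : 0 ≤ av (fun s => f s ^ 2) := av_nonneg fun s => sq_nonneg _
  nlinarith

theorem av_indicator (p : S → Prop) [DecidablePred p] :
    av (fun s => if p s then (1 : ℝ) else 0) =
      ((univ.filter p).card : ℝ) / Fintype.card S := by
  unfold av; rw [Finset.sum_boole]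

theorem av_var [Nonempty S] (f : S → ℝ) :
    av (fun s => (f s - av f) ^ 2) = av (fun s => f s ^ 2) - av f ^ 2 := by
  have : (fun s => (f s - av f) ^ 2) =
      fun s => (f s ^ 2 - 2 * av f * f s) + av f ^ 2 := by funext s; ring
  rw [this, av_add, av_sub, av_mul_left, av_const]; ring

theorem av_var_le [Nonempty S] (f : S → ℝ) (c : ℝ) :
    av (fun s => (f s - av f) ^ 2) ≤ av (fun s => (f s - c) ^ 2) := by
  have : (fun s => (f s - c) ^ 2) = fun s => (f s ^ 2 - 2 * c * f s) + c ^ 2 := by funext s; ring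
  rw [av_var, this, av_add, av_sub, av_mul_left, av_const]
  nlinarith [sq_nonneg (av f - c)]

theorem exists_le_av [Nonempty S] (f : S → ℝ) : ∃ s, f s ≤ av f := by
  by_contra h
  push Not at h
  have h1 : ∑ _s : S, av f < ∑ s, f s :=
    Finset.sum_lt_sum_of_nonempty Finset.univ_nonempty fun s _ => h s
  have h2 : (0 : ℝ) < Fintype.card S := by exact_mod_cast Fintype.card_pos
  simp only [Finset.sum_const, Finset.card_univ, nsmul_eq_mul] at h1
  unfold av at h1
  rw [mul_div_cancel₀ _ h2.ne'] at h1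
  exact lt_irrefl _ h1

theorem avc_ofReal (f : S → ℝ) : avc (fun s => (f s : ℂ)) = (av f : ℂ) := by
  unfold avc av; push_cast; rfl

theorem avc_congr {f g : S → ℂ} (h : ∀ s, f s = g s) : avc f = avc g := by
  rw [funext h]

theorem avc_add (f g : S → ℂ) : avc (fun s => f s + g s) = avc f + avc g := by
  unfold avc; rw [Finset.sum_add_distrib, add_div]

theorem avc_sub (f g : S → ℂ) : avc (fun s => f s - g s) = avc f - avc g := by
  unfold avc; rw [Finset.sum_sub_distrib, sub_div]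

theorem avc_mul_left (c : ℂ) (f : S → ℂ) : avc (fun s => c * f s) = c * avc f := by
  unfold avc; rw [← Finset.mul_sum, mul_div_assoc]

theorem avc_mul_right (c : ℂ) (f : S → ℂ) : avc (fun s => f s * c) = avc f * c := by
  unfold avc; rw [← Finset.sum_mul]; ring

theorem avc_const [Nonempty S] (c : ℂ) : avc (fun _ : S => c) = c := by
  unfold avc
  have : (Fintype.card S : ℂ) ≠ 0 := by exact_mod_cast Fintype.card_ne_zero
  simp only [Finset.sum_const, Finset.card_univ, nsmul_eq_mul]; field_simp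

theorem avc_sum {ι : Type*} (A : Finset ι) (f : ι → S → ℂ) :
    avc (fun s => ∑ i ∈ A, f i s) = ∑ i ∈ A, avc (f i) := by
  unfold avc; rw [Finset.sum_comm, Finset.sum_div]

theorem avc_re (f : S → ℂ) : (avc f).re = av (fun s => (f s).re) := by
  unfold avc av
  rw [← Complex.ofReal_natCast, Complex.div_ofReal_re, Complex.re_sum]

theorem avc_im (f : S → ℂ) : (avc f).im = av (fun s => (f s).im) := by
  unfold avc av
  rw [← Complex.ofReal_natCast, Complex.div_ofReal_im, Complex.im_sum]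

theorem conj_avc (f : S → ℂ) :
    (starRingEnd ℂ) (avc f) = avc (fun s => (starRingEnd ℂ) (f s)) := by
  unfold avc; rw [map_div₀, map_sum]; simp

theorem norm_avc_le (f : S → ℂ) : ‖avc f‖ ≤ av (fun s => ‖f s‖) := by
  unfold avc av
  rw [norm_div, Complex.norm_natCast]
  exact div_le_div_of_nonneg_right (norm_sum_le _ _) (Nat.cast_nonneg _)

theorem norm_avc_le_one {f : S → ℂ} (h : ∀ s, ‖f s‖ ≤ 1) : ‖avc f‖ ≤ 1 :=
  (norm_avc_le f).trans ((av_mono h).trans (av_const_le zero_le_one))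

theorem av_pi {ι : Type} [Fintype ι] [DecidableEq ι] (f : ι → S → ℝ) :
    av (fun σ : ι → S => ∏ i, f i (σ i)) = ∏ i, av (f i) := by
  unfold av
  rw [Finset.prod_div_distrib, Finset.prod_univ_sum, Fintype.piFinset_univ]
  simp

theorem avc_pi {ι : Type} [Fintype ι] [DecidableEq ι] (f : ι → S → ℂ) :
    avc (fun σ : ι → S => ∏ i, f i (σ i)) = ∏ i, avc (f i) := by
  unfold avc
  rw [Finset.prod_div_distrib, Finset.prod_univ_sum, Fintype.piFinset_univ]
  simp

theorem av_prod {S' : Type} [Fintype S'] (f : S → ℝ) (g : S' → ℝ) :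
    av (fun x : S × S' => f x.1 * g x.2) = av f * av g := by
  unfold av
  rw [Fintype.sum_prod_type, Fintype.card_prod, div_mul_div_comm, Finset.sum_mul_sum]
  push_cast; rfl

theorem avc_prod {S' : Type} [Fintype S'] (f : S → ℂ) (g : S' → ℂ) :
    avc (fun x : S × S' => f x.1 * g x.2) = avc f * avc g := by
  unfold avc
  rw [Fintype.sum_prod_type, Fintype.card_prod, div_mul_div_comm, Finset.sum_mul_sum]
  push_cast; rfl

theorem av_equiv {S' : Type} [Fintype S'] (e : S ≃ S') (f : S' → ℝ) :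
    av (fun s => f (e s)) = av f := by
  unfold av; rw [Equiv.sum_comp e f, Fintype.card_congr e]

theorem avc_equiv {S' : Type} [Fintype S'] (e : S ≃ S') (f : S' → ℂ) :
    avc (fun s => f (e s)) = avc f := by
  unfold avc; rw [Equiv.sum_comp e f, Fintype.card_congr e]

theorem norm_Ft_le_one {k : ℕ} {ω : (Fin k → S) → ℝ} {h : S → ℂ} (h0 : ∀ σ, 0 ≤ ω σ)
    (h1 : av ω = 1) (hh : ∀ s, ‖h s‖ ≤ 1) : ‖Ft ω h‖ ≤ 1 := by
  unfold Ft
  refine (norm_avc_le _).trans ((av_mono fun σ => ?_).trans h1.le)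
  rw [norm_mul, Complex.norm_real, Real.norm_of_nonneg (h0 σ), norm_prod]
  exact mul_le_of_le_one_right (h0 σ)
    (Finset.prod_le_one (fun _ _ => norm_nonneg _) fun i _ => hh _)

theorem dens_pow (ρ : S → ℝ) (k : ℕ) (h0 : ∀ s, 0 ≤ ρ s) :
    ∃ ω : (Fin k → S) → ℝ, (∀ σ, 0 ≤ ω σ) ∧ av ω = av ρ ^ k ∧
      av (fun σ => ω σ ^ 2) = av (fun s => ρ s ^ 2) ^ k ∧
      ∀ h : S → ℂ, Ft ω h = avc (fun s => (ρ s : ℂ) * h s) ^ k := by
  refine ⟨fun σ => ∏ i, ρ (σ i), fun σ => Finset.prod_nonneg fun i _ => h0 _, ?_, ?_, fun h => ?_⟩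
  · rw [av_pi (fun _ => ρ)]; simp
  · simp only [← Finset.prod_pow]
    rw [av_pi (fun _ s => ρ s ^ 2)]; simp
  · unfold Ft
    simp only [Complex.ofReal_prod, ← Finset.prod_mul_distrib]
    rw [avc_pi (fun _ s => (ρ s : ℂ) * h s)]; simp

theorem dens_mul {a b : ℕ} (ω₁ : (Fin a → S) → ℝ) (ω₂ : (Fin b → S) → ℝ)
    (h1 : ∀ σ, 0 ≤ ω₁ σ) (h2 : ∀ σ, 0 ≤ ω₂ σ) :
    ∃ ω : (Fin (a + b) → S) → ℝ, (∀ σ, 0 ≤ ω σ) ∧ av ω = av ω₁ * av ω₂ ∧
      av (fun σ => ω σ ^ 2) = av (fun σ => ω₁ σ ^ 2) * av (fun σ => ω₂ σ ^ 2) ∧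
      ∀ h : S → ℂ, Ft ω h = Ft ω₁ h * Ft ω₂ h := by
  let e : (Fin a → S) × (Fin b → S) ≃ (Fin (a + b) → S) := Fin.appendEquiv a b
  refine ⟨fun σ => ω₁ (e.symm σ).1 * ω₂ (e.symm σ).2, fun σ => mul_nonneg (h1 _) (h2 _), ?_, ?_,
    fun h => ?_⟩
  · rw [← av_prod, ← av_equiv e]; simp
  · rw [← av_prod, ← av_equiv e]; simp [mul_pow]
  · unfold Ft
    rw [← avc_prod, ← avc_equiv e]
    refine avc_congr fun x => ?_
    simp only [Equiv.symm_apply_apply, Fin.prod_univ_add]
    have e1 : ∀ i : Fin a, e x (Fin.castAdd b i) = x.1 i := fun i => by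
      simp [e, Fin.appendEquiv]
    have e2 : ∀ i : Fin b, e x (Fin.natAdd a i) = x.2 i := fun i => by
      simp [e, Fin.appendEquiv]
    simp only [e1, e2]
    push_cast; ring

end av

namespace Par

variable {w k z : ℕ}

theorem wR (h : Par w k z) : (10 : ℝ) ^ 30 ≤ w := by exact_mod_cast h.hw

theorem w_pos (h : Par w k z) : (0 : ℝ) < w := lt_of_lt_of_le (by positivity) h.wR

theorem one_le_w (h : Par w k z) : (1 : ℝ) ≤ w := le_trans (by norm_num) h.wR

theorem kR (h : Par w k z) : (w : ℝ) ^ 100 ≤ k := by exact_mod_cast h.hk1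

theorem pow_le_k (h : Par w k z) {e : ℕ} (he : e ≤ 100) : (w : ℝ) ^ e ≤ k :=
  (pow_le_pow_right₀ h.one_le_w he).trans h.kR

theorem w_le_k (h : Par w k z) : (w : ℝ) ≤ k := by simpa using h.pow_le_k (e := 1) (by norm_num)

theorem k_big (h : Par w k z) : (10 : ℝ) ^ 30 ≤ k := h.wR.trans h.w_le_k

theorem k_pos (h : Par w k z) : (0 : ℝ) < k := lt_of_lt_of_le (by positivity) h.k_big

theorem log_k_le (h : Par w k z) : Real.log k ≤ 0.6932 * w := by
  have h1 : (k : ℝ) ≤ 2 ^ w := by exact_mod_cast h.hk2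
  have h2 := Real.log_le_log h.k_pos h1
  rw [Real.log_pow] at h2
  have h3 := Real.log_two_lt_d9
  have h4 := h.w_pos
  nlinarith

theorem k_le_log (h : Par w k z) : (k : ℝ) * w ≤ Real.log z := by
  refine le_trans ?_ h.hz1
  have : (w : ℝ) ≤ (w : ℝ) ^ 10 := by
    simpa using pow_le_pow_right₀ h.one_le_w (show 1 ≤ 10 by norm_num)
  exact mul_le_mul_of_nonneg_left this h.k_pos.le

theorem log_big (h : Par w k z) : (10 : ℝ) ^ 60 ≤ Real.log z := by
  refine le_trans ?_ h.k_le_log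
  have := mul_le_mul h.k_big h.wR (by positivity) h.k_pos.le
  linarith [show (10 : ℝ) ^ 60 = 10 ^ 30 * 10 ^ 30 by norm_num]

theorem z_pos (h : Par w k z) : (0 : ℝ) < z := by
  rcases Nat.eq_zero_or_pos z with h0 | h0
  · have := h.log_big
    rw [h0] at this
    norm_num at this
  · exact_mod_cast h0

theorem exp_log (h : Par w k z) : Real.exp (Real.log z) = z := Real.exp_log h.z_pos

theorem exp_le_z (h : Par w k z) {x : ℝ} (hx : x ≤ Real.log z) : Real.exp x ≤ z := by
  rw [← h.exp_log]; exact Real.exp_le_exp.2 hx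

theorem two_pow_le_z (h : Par w k z) : 2 ^ 1000 ≤ z := by
  have h1 : ((2 : ℝ) ^ 1000) ≤ z := by
    have : (2 : ℝ) ^ 1000 = Real.exp (1000 * Real.log 2) := by
      rw [show (1000 : ℝ) = ((1000 : ℕ) : ℝ) by norm_num, Real.exp_nat_mul,
        Real.exp_log (by norm_num)]
    rw [this]
    apply h.exp_le_z
    have := h.log_big
    have := Real.log_two_lt_d9
    nlinarith
  exact_mod_cast h1

theorem log_le_sq (h : Par w k z) : (10 : ℝ) ^ 30 * Real.log z ≤ (k : ℝ) ^ 2 := by
  have h1 : (10 : ℝ) ^ 30 * (w : ℝ) ^ 11 ≤ k := by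
    calc (10 : ℝ) ^ 30 * (w : ℝ) ^ 11 ≤ w * (w : ℝ) ^ 11 :=
          mul_le_mul_of_nonneg_right h.wR (by positivity)
      _ = (w : ℝ) ^ 12 := by ring
      _ ≤ k := h.pow_le_k (by norm_num)
  have h2 := h.hz2
  have h3 := h.k_pos
  nlinarith

theorem Tn_le (h : Par w k z) : Tn k z ≤ z ^ (2003 * k) := by
  have h4 : 4 ≤ z :=
    le_trans (Nat.pow_le_pow_right (n := 2) (by norm_num) (show 2 ≤ 1000 by norm_num))
      h.two_pow_le_z
  unfold Tn
  calc (4 * z ^ 2002) ^ (k - 1) ≤ (z * z ^ 2002) ^ (k - 1) :=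
        Nat.pow_le_pow_left (Nat.mul_le_mul_right _ h4) _
    _ = z ^ (2003 * (k - 1)) := by rw [← pow_succ', ← pow_mul]
    _ ≤ z ^ (2003 * k) := Nat.pow_le_pow_right (by omega) (by omega)

theorem le_Tn (_h : Par w k z) : z ^ (2002 * (k - 1)) ≤ Tn k z := by
  unfold Tn
  rw [pow_mul]
  exact Nat.pow_le_pow_left (by omega) _

theorem z_le_Tn (h : Par w k z) : z ≤ Tn k z := by
  refine le_trans ?_ h.le_Tn
  have h1 : 1 ≤ z := le_trans Nat.one_le_two_pow h.two_pow_le_z
  have h2 : 10 ^ 30 ≤ k := by exact_mod_cast h.k_big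
  calc z = z ^ 1 := (pow_one z).symm
    _ ≤ z ^ (2002 * (k - 1)) := Nat.pow_le_pow_right h1 (by omega)

theorem exp_k_le_z (h : Par w k z) : Real.exp (k * w) ≤ z := h.exp_le_z h.k_le_log

theorem k_le_z (h : Par w k z) : k ≤ z := by
  have h1 : (k : ℝ) ≤ k * w := le_mul_of_one_le_right h.k_pos.le h.one_le_w
  have h2 := Real.add_one_le_exp ((k : ℝ) * w)
  have h3 := h.exp_k_le_z
  have : (k : ℝ) ≤ z := by linarith
  exact_mod_cast this

end Par

theorem avc_chi (w k z : ℕ) (i : ℤ) : avc (chi w k z i) = Az w k z i := by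
  unfold Az Aa
  have h : ∀ (A : Finset ℕ) (t : ℝ), (∑ a ∈ A, ee (t * Real.log a)) / (A.card : ℂ) =
      avc (fun a : {a // a ∈ A} => ee (t * Real.log (a : ℕ))) := by
    intro A t
    unfold avc
    rw [Finset.sum_coe_sort A (fun a => ee (t * Real.log a))]; simp
  rw [h, h, ← avc_prod]
  refine avc_congr fun s => ?_
  unfold chi pos
  rw [← ee_add, mul_add]

theorem norm_chi (w k z : ℕ) (i : ℤ) (s : St w z) : ‖chi w k z i s‖ = 1 := norm_ee _

theorem chi_add (w k z : ℕ) (i i' : ℤ) (s : St w z) :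
    chi w k z (i + i') s = chi w k z i s * chi w k z i' s := by
  unfold chi
  rw [← ee_add]; congr 1; push_cast; ring

end Pool.Agent.P.MP_b60056_nt.AA
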