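import Pool.Agent.P.MP_b60056_nt.AA.Api

namespace Pool.Agent.P.MP_b60056_nt.AA

open Finset MeasureTheory

namespace High

theorem sum_half (B : Finset ℤ) (N : ℕ) (hN : 1 ≤ N)
    (hinj : Set.InjOn Int.natAbs (B : Set ℤ)) (hB : ∀ i ∈ B, N < i.natAbs) :
    ∑ i ∈ B, ((i : ℝ) ^ 2)⁻¹ ≤ (N : ℝ)⁻¹ := by
  classical
  have h1 : ∑ i ∈ B, ((i : ℝ) ^ 2)⁻¹ = ∑ n ∈ B.image Int.natAbs, ((n : ℝ) ^ 2)⁻¹ := by
    rw [Finset.sum_image hinj]
    refine Finset.sum_congr rfl fun i _ => ?_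
    rw [Nat.cast_natAbs, Int.cast_abs, sq_abs]
  have h2 : B.image Int.natAbs ⊆ Ioc N (N + B.sup Int.natAbs) := by
    intro n hn
    obtain ⟨i, hi, rfl⟩ := Finset.mem_image.1 hn
    have := Finset.le_sup (f := Int.natAbs) hi
    exact Finset.mem_Ioc.2 ⟨hB i hi, by omega⟩
  rw [h1]
  refine (Finset.sum_le_sum_of_subset_of_nonneg h2 fun _ _ _ => by positivity).trans ?_
  refine (sum_Ioc_inv_sq_le_sub (by omega) (by omega)).trans ?_
  have : (0 : ℝ) ≤ ((N + B.sup Int.natAbs : ℕ) : ℝ)⁻¹ := by positivity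
  linarith

theorem sum_tail (A : Finset ℤ) (N : ℕ) (hN : 1 ≤ N) (hA : ∀ i ∈ A, (N : ℤ) < |i|) :
    ∑ i ∈ A, ((i : ℝ) ^ 2)⁻¹ ≤ 2 * (N : ℝ)⁻¹ := by
  classical
  rw [← Finset.sum_filter_add_sum_filter_not A (fun i => 0 ≤ i)]
  have hB : ∀ i ∈ A, N < i.natAbs := fun i hi => by
    have := hA i hi
    rw [Int.abs_eq_natAbs] at this
    exact_mod_cast this
  have h1 := sum_half (A.filter (fun i => 0 ≤ i)) N hN (by
    intro a ha b hb hab
    have ha' := (Finset.mem_filter.1 ha).2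
    have hb' := (Finset.mem_filter.1 hb).2
    omega) (fun i hi => hB i (Finset.mem_filter.1 hi).1)
  have h2 := sum_half (A.filter (fun i => ¬ 0 ≤ i)) N hN (by
    intro a ha b hb hab
    have ha' := (Finset.mem_filter.1 ha).2
    have hb' := (Finset.mem_filter.1 hb).2
    omega) (fun i hi => hB i (Finset.mem_filter.1 hi).1)
  linarith

theorem one_le_Tn {w k z : ℕ} (h : Par w k z) : 2 ≤ Tn k z :=
  le_trans (le_trans (Nat.pow_le_pow_right (n := 2) (by norm_num) (show 1 ≤ 1000 by norm_num))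
    h.two_pow_le_z) h.z_le_Tn

theorem tail_small {w k z : ℕ} (h : Par w k z) :
    (k : ℝ) ^ 2 / (Tn k z : ℝ) ≤ Real.exp (-(k : ℝ) / 2) := by
  have hT : (0 : ℝ) < Tn k z := by
    have := one_le_Tn h
    exact_mod_cast (by omega : 0 < Tn k z)
  have h1 : Real.exp (k * w) ≤ Tn k z := h.exp_k_le_z.trans (by exact_mod_cast h.z_le_Tn)
  have h2 : (k : ℝ) ≤ Real.exp k := by linarith [Real.add_one_le_exp (k : ℝ)]
  have h3 : (k : ℝ) ^ 2 ≤ Real.exp (2 * k) := by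
    rw [show (2 : ℝ) * k = k + k by ring, Real.exp_add, sq]
    exact mul_le_mul h2 h2 h.k_pos.le (Real.exp_pos _).le
  have hw : (3 : ℝ) ≤ w := le_trans (by norm_num) h.wR
  have hk := h.k_pos
  rw [div_le_iff₀ hT]
  calc (k : ℝ) ^ 2 ≤ Real.exp (2 * k) := h3
    _ ≤ Real.exp (-(k : ℝ) / 2 + k * w) := Real.exp_le_exp.2 (by nlinarith)
    _ = Real.exp (-(k : ℝ) / 2) * Real.exp (k * w) := Real.exp_add _ _
    _ ≤ Real.exp (-(k : ℝ) / 2) * Tn k z := mul_le_mul_of_nonneg_left h1 (Real.exp_pos _).le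

theorem hat_tail (h6 : S_HAT) {w k z : ℕ} (h : Par w k z) (A : Finset ℤ)
    (hA : ∀ i ∈ A, ((Tn k z ^ 3 : ℕ) : ℤ) < |i|) :
    ∑ i ∈ A, ‖hat (Tn k z) (2 * k : ℕ) i‖ ^ 2 ≤ Real.exp (-(k : ℝ) / 2) := by
  have hT2 := one_le_Tn h
  have hT : (0 : ℝ) < Tn k z := by exact_mod_cast (by omega : 0 < Tn k z)
  have hk := h.k_pos
  have hL : (0 : ℝ) < ((2 * k : ℕ) : ℝ) := by push_cast; linarith
  have hN : 1 ≤ Tn k z ^ 3 := Nat.one_le_pow _ _ (by omega)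
  have h1 : ∀ i ∈ A, ‖hat (Tn k z) (2 * k : ℕ) i‖ ^ 2 ≤
      ((Tn k z : ℝ) ^ 2 * (k : ℝ) ^ 2 / 2) * ((i : ℝ) ^ 2)⁻¹ := by
    intro i hi
    have hi0 : i ≠ 0 := by
      rintro rfl
      have := hA 0 hi
      have h0 : (0 : ℤ) ≤ ((Tn k z ^ 3 : ℕ) : ℤ) := Int.natCast_nonneg _
      simp only [abs_zero] at this
      omega
    have hiR : (i : ℝ) ≠ 0 := by exact_mod_cast hi0
    have h2 := (h6 (Tn k z) (2 * k : ℕ) i hT hL).2.2 hi0
    refine (pow_le_pow_left₀ (norm_nonneg _) h2 2).trans ?_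
    have hpi : (8 : ℝ) ≤ Real.pi ^ 2 := by nlinarith [Real.pi_gt_three]
    have hi2 : (0 : ℝ) < (i : ℝ) ^ 2 := by positivity
    rw [div_pow, mul_pow Real.pi, sq_abs, div_le_iff₀ (by positivity)]
    push_cast
    have e : (Tn k z : ℝ) ^ 2 * (k : ℝ) ^ 2 / 2 * ((i : ℝ) ^ 2)⁻¹ * (Real.pi ^ 2 * (i : ℝ) ^ 2) =
        (Tn k z : ℝ) ^ 2 * (k : ℝ) ^ 2 / 2 * Real.pi ^ 2 := by field_simp
    rw [e]
    have : (0 : ℝ) ≤ (Tn k z : ℝ) ^ 2 * (k : ℝ) ^ 2 := by positivity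
    nlinarith
  refine (Finset.sum_le_sum h1).trans ?_
  rw [← Finset.mul_sum]
  refine (mul_le_mul_of_nonneg_left (sum_tail A _ hN hA) (by positivity)).trans ?_
  refine le_trans (le_of_eq ?_) (tail_small h)
  push_cast
  field_simp

end High

theorem high (h1 : S_ABS) (h2 : S_NUM) (h3 : S_F1) (h4 : S_F23) (h5 : S_COLLIDE) (h6 : S_HAT) :
    S_HIGH := by
  classical
  intro w k z hP
  obtain ⟨r, n, m1, m2, m, hk', hm1, hn, hnum, hr1, hr2, hω2, hε⟩ :=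
    h2 w k hP.hw hP.hk1 hP.hk2
  obtain ⟨hS1, hS2, hF1⟩ := h3 w k z hP
  obtain ⟨hF2, hF3⟩ := h4 w k z hP
  have hT2 := High.one_le_Tn hP
  have hz1 : 1 ≤ z := le_trans Nat.one_le_two_pow hP.two_pow_le_z
  have hne : Nonempty (St w z) := by
    have a1 : 0 < (Sa (z ^ 2001) (13 * w)).card := by
      have := Nat.one_le_pow 2001 z hz1
      omega
    have a2 : 0 < (Sa z (13 * w)).card := by omega
    obtain ⟨a, ha⟩ := Finset.card_pos.1 a1
    obtain ⟨b, hb⟩ := Finset.card_pos.1 a2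
    exact ⟨(⟨a, ha⟩, ⟨b, hb⟩)⟩
  set T := Tn k z with hTdef
  have hT : (0 : ℝ) < T := by exact_mod_cast (by omega : 0 < T)
  have hk := hP.k_pos
  have hL : (0 : ℝ) < ((2 * k : ℕ) : ℝ) := by push_cast; linarith
  have hkT : k ≤ T := hP.k_le_z.trans hP.z_le_Tn
  have hT34 : 2 * T ^ 3 ≤ T ^ 4 := by
    rw [pow_succ' T 3]; exact Nat.mul_le_mul_right _ hT2
  have hT34' : n * (2 * T ^ 3) ≤ T ^ 4 := by
    calc n * (2 * T ^ 3) = (2 * n) * T ^ 3 := by ring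
      _ ≤ T * T ^ 3 := Nat.mul_le_mul_right _ (hn.trans hkT)
      _ = T ^ 4 := by ring
  let U : Finset ℤ := (Icc (-((T : ℤ) ^ 4)) ((T : ℤ) ^ 4)).filter (fun i => 1 / 2 ≤ ‖Az w k z i‖)
  have hU : (U.card : ℝ) ≤ Real.exp (Real.sqrt k / w) := by
    refine hF2 U fun i hi => ?_
    obtain ⟨a, b⟩ := Finset.mem_filter.1 hi
    exact ⟨abs_le.2 (Finset.mem_Icc.1 a), b⟩
  obtain ⟨ω, hω0, hω1, hωsq, hωF, hωS⟩ := h1 (St w z) (chi w k z) U r (T ^ 3) n w m1 m2 m (2 * w)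
    (w + 1) _ _ _ _ _ _ (norm_chi w k z) (chi_add w k z) hnum (by
      intro i hi1 hi2
      rw [avc_chi]
      refine hF1 i (hr1.trans ?_) (hi2.trans (by exact_mod_cast hT34))
      have hi3 : (r : ℝ) ≤ |(i : ℝ)| := by exact_mod_cast hi1
      have hi4 : (r : ℝ) ^ 2 ≤ (i : ℝ) ^ 2 := by
        rw [← sq_abs (i : ℝ)]
        exact pow_le_pow_left₀ (Nat.cast_nonneg _) hi3 2
      rw [div_pow, div_pow, mul_pow (2 * Real.pi), mul_pow (2 * Real.pi)]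
      exact div_le_div_of_nonneg_right (mul_le_mul_of_nonneg_left hi4 (by positivity))
        (by positivity)) (by
      intro i hi1 hi2
      rw [avc_chi] at hi2
      refine Finset.mem_filter.2 ⟨Finset.mem_Icc.2 (abs_le.1 (hi1.trans ?_)), hi2⟩
      exact_mod_cast hT34') hU
  refine ⟨m1 + m2 + m, r, ω, _, hk', hnum.r1, hω0, hω1, hr2, hε, fun A hA => ?_⟩
  have hcol := h5 w k z (m1 + m2 + m) ω A hP hk' hω0 (hωsq.trans hω2)
  have hav : ∀ i, ‖avc (chi w k z i)‖ ≤ 1 := fun i =>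
    norm_avc_le_one fun s => (norm_chi w k z i s).le
  have hFt : ∀ i, ‖Ft ω (chi w k z i)‖ ≤ 1 := fun i =>
    norm_Ft_le_one hω0 hω1 fun s => (norm_chi w k z i s).le
  have hhat : ∀ i, ‖hat T (2 * k : ℕ) i‖ ≤ 1 := fun i => (h6 T (2 * k : ℕ) i hT hL).1
  let p1 : ℤ → Prop := fun i => ((T ^ 3 : ℕ) : ℤ) < |i|
  let p2 : ℤ → Prop := fun i => |i| ≤ ((T ^ 3 : ℕ) : ℤ) ∧ 1 / 2 ≤ ‖avc (chi w k z i)‖
  let p3 : ℤ → Prop := fun i => |i| ≤ ((T ^ 3 : ℕ) : ℤ) ∧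
    Real.exp (-(11 * k * (w : ℝ) ^ 2)) ≤ ‖Az w k z i‖ ∧ ‖Az w k z i‖ ≤ 1 / 2
  have hpt : ∀ i ∈ A, ‖avc (chi w k z i) * Ft ω (chi w k z i) * hat T (2 * k : ℕ) i‖ ^ 2 ≤
      (if p1 i then ‖hat T (2 * k : ℕ) i‖ ^ 2 else 0) +
      (if p2 i then ‖Ft ω (chi w k z i)‖ ^ 2 else 0) +
      (if p3 i then ‖Az w k z i‖ ^ (2 * m1) else 0) +
      Real.exp (-(11 * k * (w : ℝ) ^ 2)) ^ 2 *
        ‖Ft ω (chi w k z i) * hat T (2 * k : ℕ) i‖ ^ 2 := by
    intro i _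
    have n1 : 0 ≤ (if p1 i then ‖hat T (2 * k : ℕ) i‖ ^ 2 else 0 : ℝ) := by
      split_ifs <;> positivity
    have n2 : 0 ≤ (if p2 i then ‖Ft ω (chi w k z i)‖ ^ 2 else 0 : ℝ) := by
      split_ifs <;> positivity
    have n3 : 0 ≤ (if p3 i then ‖Az w k z i‖ ^ (2 * m1) else 0 : ℝ) := by
      split_ifs <;> positivity
    have n4 : 0 ≤ Real.exp (-(11 * k * (w : ℝ) ^ 2)) ^ 2 *
        ‖Ft ω (chi w k z i) * hat T (2 * k : ℕ) i‖ ^ 2 := by positivity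
    have a0 := norm_nonneg (avc (chi w k z i))
    have b0 := norm_nonneg (Ft ω (chi w k z i))
    have c0 := norm_nonneg (hat T (2 * k : ℕ) i)
    have b1 : ‖avc (chi w k z i) * Ft ω (chi w k z i) * hat T (2 * k : ℕ) i‖ ≤
        ‖Ft ω (chi w k z i)‖ := by
      rw [norm_mul, norm_mul]
      exact (mul_le_of_le_one_right (mul_nonneg a0 b0) (hhat i)).trans
        (mul_le_of_le_one_left b0 (hav i))
    by_cases c1 : p1 i
    · rw [if_pos c1]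
      have : ‖avc (chi w k z i) * Ft ω (chi w k z i) * hat T (2 * k : ℕ) i‖ ≤
          ‖hat T (2 * k : ℕ) i‖ := by
        rw [norm_mul, norm_mul]
        exact mul_le_of_le_one_left c0 (mul_le_one₀ (hav i) b0 (hFt i))
      have := pow_le_pow_left₀ (norm_nonneg _) this 2
      linarith
    have c1' : |i| ≤ ((T ^ 3 : ℕ) : ℤ) := not_lt.1 c1
    by_cases c2 : p2 i
    · rw [if_pos c2]
      have := pow_le_pow_left₀ (norm_nonneg _) b1 2
      linarith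
    have c2' : ‖Az w k z i‖ ≤ 1 / 2 := by
      rw [← avc_chi]
      by_contra hc
      exact c2 ⟨c1', (not_le.1 hc).le⟩
    by_cases c3 : p3 i
    · rw [if_pos c3]
      have := pow_le_pow_left₀ (norm_nonneg _) (b1.trans (hωF i)) 2
      have e : (‖avc (chi w k z i)‖ ^ m1) ^ 2 = ‖Az w k z i‖ ^ (2 * m1) := by
        rw [← pow_mul, mul_comm m1 2, avc_chi w k z i]
      linarith
    have c3' : ‖avc (chi w k z i)‖ ≤ Real.exp (-(11 * k * (w : ℝ) ^ 2)) := by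
      rw [avc_chi]
      by_contra hc
      exact c3 ⟨c1', (not_le.1 hc).le, c2'⟩
    have : ‖avc (chi w k z i) * Ft ω (chi w k z i) * hat T (2 * k : ℕ) i‖ ^ 2 ≤
        Real.exp (-(11 * k * (w : ℝ) ^ 2)) ^ 2 *
          ‖Ft ω (chi w k z i) * hat T (2 * k : ℕ) i‖ ^ 2 := by
      rw [mul_assoc, norm_mul, mul_pow]
      exact mul_le_mul_of_nonneg_right (pow_le_pow_left₀ a0 c3' 2) (by positivity)
    linarith
  refine (Finset.sum_le_sum hpt).trans ?_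
  rw [Finset.sum_add_distrib, Finset.sum_add_distrib, Finset.sum_add_distrib,
    ← Finset.sum_filter, ← Finset.sum_filter, ← Finset.sum_filter, ← Finset.mul_sum]
  have s1 := High.hat_tail h6 hP (A.filter p1) fun i hi => (Finset.mem_filter.1 hi).2
  have s2 := le_trans (Finset.sum_le_sum_of_subset_of_nonneg (s := A.filter p2) (by
    intro i hi
    obtain ⟨a, b, c⟩ := Finset.mem_filter.1 hi
    exact Finset.mem_filter.2 ⟨Finset.mem_Icc.2 (abs_le.1 b), hA i a, c⟩)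
    fun _ _ _ => by positivity) hωS
  have s3 := hF3 (A.filter p3) m1 hm1 fun i hi => by
    obtain ⟨-, b, c⟩ := Finset.mem_filter.1 hi
    refine ⟨b.trans ?_, c⟩
    exact_mod_cast (by omega : T ^ 3 ≤ T ^ 4)
  have s4 : Real.exp (-(11 * k * (w : ℝ) ^ 2)) ^ 2 *
      ∑ i ∈ A, ‖Ft ω (chi w k z i) * hat T (2 * k : ℕ) i‖ ^ 2 ≤ Real.exp (-(k : ℝ) / 2) := by
    refine (mul_le_mul_of_nonneg_left hcol (by positivity)).trans ?_
    rw [sq, ← Real.exp_add, ← Real.exp_add]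
    refine Real.exp_le_exp.2 ?_
    have hw1 : (1 : ℝ) ≤ (w : ℝ) ^ 2 := one_le_pow₀ hP.one_le_w
    nlinarith
  linarith

end Pool.Agent.P.MP_b60056_nt.AA
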