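import Mathlib

namespace Pool.Agent.P.MP_b60056_nt.AA

open Finset MeasureTheory

noncomputable def ee (x : ℝ) : ℂ := Complex.exp (x * Complex.I)

noncomputable def av {S : Type} [Fintype S] (f : S → ℝ) : ℝ := (∑ s, f s) / (Fintype.card S : ℝ)

noncomputable def avc {S : Type} [Fintype S] (f : S → ℂ) : ℂ := (∑ s, f s) / (Fintype.card S : ℂ)

noncomputable def gw {ι : Type} [Fintype ι] (x : ι → ℝ) : ℝ := Real.exp (-(∑ j, x j ^ 2) / 2)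

def sg (b : Bool) : ℝ := if b then 1 else -1

def Om (n : ℕ) : ℕ := ArithmeticFunction.cardFactors n

def Good (m k : ℕ) : Prop :=
  ∃ i ∈ range (k + 1), (m + i) ∣ ∏ j ∈ (range (k + 1)).erase i, (m + j)

/-! Part A: Vinogradov -/

def S_LINNIK : Prop :=
  ∀ (p K Y : ℕ) (ρ lam : Fin K → ℤ), p.Prime → K < p → K ≤ Y + 1 →
    (∀ i i', i ≠ i' → ¬ (p : ℤ) ∣ ρ i - ρ i') →
    ((univ : Finset (Fin K → Fin (p ^ Y))).filter (fun x => ∀ j : Fin K,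
      (p : ℤ) ^ (j.val + 1) ∣ (∑ i, (ρ i + p * ((x i : ℕ) : ℤ)) ^ (j.val + 1)) - lam j)).card
      * p ^ (K * (K - 1) / 2) ≤ p ^ (Y * K)

noncomputable def gt (p M : ℕ) (F : ℕ → ℂ) (b c : ℕ) : ℂ :=
  (∑ x ∈ range (p ^ (M - b)), F (c + p ^ b * x)) / ((p ^ (M - b) : ℕ) : ℂ)

noncomputable def eK (p M K : ℕ) (F : ℕ → ℂ) (b c : ℕ) : ℝ :=
  (∑ r ∈ (univ : Finset (Fin K → Fin p)).filter (fun r => Function.Injective r),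
    ∏ i, ‖gt p M F (b + 1) (c + p ^ b * (r i : ℕ))‖ ^ 2) / (p : ℝ) ^ K

def S_TREE : Prop :=
  ∀ (p M K n : ℕ) (F : ℕ → ℂ), 1 ≤ K → 4 * K ^ 2 ≤ p → n + 2 * K ≤ M → (∀ u, ‖F u‖ ≤ 1) →
    ‖gt p M F 0 0‖ ^ 2 ≤ ((p : ℝ) ^ K)⁻¹ ∨
    ∃ c < p ^ (n + 2 * K), ∃ B ⊆ range (n + 2 * K), B.card = n ∧
      (‖gt p M F 0 0‖ ^ 2 / 2) ^ (K * n) ≤ ∏ b ∈ B, eK p M K F b (c % p ^ b)

noncomputable def Fb (Q K : ℕ) (β : Fin K → Fin Q) (u : ℕ) : ℂ :=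
  ee (2 * Real.pi * (∑ j : Fin K, ((β j : ℕ) : ℝ) * (u : ℝ) ^ (j.val + 1)) / Q)

def S_COLL : Prop :=
  ∀ (p K M c : ℕ) (B : Finset ℕ), p.Prime → K < p → (∀ b ∈ B, b + K ≤ M) →
    av (fun β : Fin K → Fin (p ^ (M * K)) =>
      ∏ b ∈ B, eK p M K (Fb (p ^ (M * K)) K β) b (c % p ^ b))
      * (p : ℝ) ^ (B.card * (K * (K - 1) / 2)) ≤ 1

def Jn (K l P : ℕ) : ℕ :=
  ((univ : Finset ((Fin l → Fin P) × (Fin l → Fin P))).filter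
    (fun w : (Fin l → Fin P) × (Fin l → Fin P) => ∀ j : Fin K,
    ∑ i, (w.1 i : ℕ) ^ (j.val + 1) = ∑ i, (w.2 i : ℕ) ^ (j.val + 1))).card

def S_VMVT : Prop :=
  ∀ (p K n : ℕ), p.Prime → 1 ≤ K → 4 * K ^ 2 ≤ p →
    (Jn K (K * n) (p ^ (n + 3 * K)) : ℝ) * (p : ℝ) ^ (n * (K * (K - 1) / 2)) ≤
      2 * 2 ^ (K * n) * (2 * (p : ℝ)) ^ (n + 2 * K) * ((p : ℝ) ^ (n + 3 * K)) ^ (2 * (K * n))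

noncomputable def Sj (α : ℝ) (L : ℕ) : ℝ :=
  (∑ μ ∈ Icc (-(L : ℤ)) L, ‖∑ x ∈ range (2 * L + 1), ee (2 * Real.pi * α * μ * x)‖ ^ 2) / (L + 1)

noncomputable def Wb (K P : ℕ) (α : ℕ → ℝ) : ℂ :=
  (∑ u ∈ range P, ∑ v ∈ range P,
    ee (2 * Real.pi * ∑ j ∈ Icc 1 K, α j * (u : ℝ) ^ j * (v : ℝ) ^ j)) / (P : ℂ) ^ 2

def S_BILIN : Prop :=
  ∀ (K l P : ℕ) (α : ℕ → ℝ), 1 ≤ l → 1 ≤ P →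
    ‖Wb K P α‖ ^ (4 * l ^ 2) ≤
      ((Jn K l P : ℝ) / (P : ℝ) ^ (2 * l)) ^ 2 * ∏ j ∈ Icc 1 K, Sj (α j) (l * P ^ j)

def S_SJ : Prop :=
  ∀ (α : ℝ) (L : ℕ), 1 ≤ L → Sj α L ≤ 27 * (L : ℝ) ^ 2 ∧
    (α ≠ 0 → |α| * L ≤ 1 / 2 → Sj α L ≤ 27 * L + 19 / |α|)

def S_WB : Prop :=
  ∀ (Lg τ a t : ℝ) (K p : ℕ), 1000 ≤ τ → 10 ^ 6 * τ * Real.log τ ≤ Lg →
    |t| = Real.exp (τ * Lg) → Real.exp (99 / 100 * Lg) ≤ a → a ≤ Real.exp Lg →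
    K = ⌈4 * τ⌉₊ → p.Prime → Real.exp (Lg / (3009 * K)) / 2 < p →
    (p : ℝ) ≤ Real.exp (Lg / (3009 * K)) →
    ‖Wb K (p ^ (1003 * K)) (fun j => (-1) ^ (j + 1) * t / (2 * Real.pi * j * a ^ j))‖ ≤
      Real.exp (-Lg / (10 ^ 11 * τ ^ 2))

def S_VINO : Prop :=
  ∀ (M N : ℕ) (t K0 : ℝ), 2 * M ≤ N → (N : ℝ) ^ (99 / 100 : ℝ) ≤ M → 1000 ≤ K0 →
    (N : ℝ) ^ 1000 ≤ |t| → |t| ≤ (N : ℝ) ^ K0 → 10 ^ 6 * K0 * Real.log K0 ≤ Real.log N →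
    ‖∑ n ∈ Ioc M N, ee (t * Real.log n)‖ ≤
      ((N : ℝ) - M) * (Real.exp (-Real.log N / (10 ^ 11 * K0 ^ 2)) + 6 / (N : ℝ) ^ (1 / 3 : ℝ))

/-! Part B: elementary sums -/

def S_EM : Prop :=
  (∀ (y : ℕ) (t : ℝ), 1 ≤ y →
    ‖∑ n ∈ Ioc y (2 * y), ee (t * Real.log n)‖ ≤ y * (1 - min (t ^ 2) 1 / 110 + |t| / y)) ∧
  (∀ (M N : ℕ) (t : ℝ), 1 ≤ M → 2 * M ≤ N → t ≠ 0 →
    ‖∑ n ∈ Ioc M N, ee (t * Real.log n)‖ ≤ ((N : ℝ) - M) * (3 / |t| + |t| / M))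

def S_OMEGA : Prop :=
  ∀ (y R1 R2 : ℕ), 1 ≤ y →
    (((Ioc y (2 * y)).filter (fun a => R1 + 2 * R2 < Om a)).card : ℝ) ≤
      y * (2 * (1 + Real.log (2 * y)) / 2 ^ R1 + 4 / 2 ^ R2)

def S_REP : Prop :=
  ∀ (ι : Type) [Fintype ι] [DecidableEq ι] (A : Finset (ι → ℕ)) (R n : ℕ),
    (∀ f ∈ A, ∀ i, 0 < f i ∧ Om (f i) ≤ R) →
    (A.filter (fun f => ∏ i, f i = n)).card ≤ Fintype.card ι ^ (Fintype.card ι * R)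

/-! Part C: large values -/

def S_HAL : Prop :=
  ∀ (X T : Type) [Fintype X] [Fintype T] (b W : X → ℝ) (χ : T → X → ℂ) (C B : ℝ),
    (∀ x, 0 < W x) → ∑ x, b x ^ 2 / W x ≤ C → 0 ≤ B →
    (∀ t, ∑ t', ‖∑ x, (W x : ℂ) * χ t x * (starRingEnd ℂ) (χ t' x)‖ ≤ B) →
    ∑ t, ‖∑ x, (b x : ℂ) * χ t x‖ ^ 2 ≤ C * B

def Sa (y R : ℕ) : Finset ℕ := (Ioc y (2 * y)).filter (fun a => Om a ≤ R)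

noncomputable def Aa (A : Finset ℕ) (t : ℝ) : ℂ :=
  (∑ a ∈ A, ee (t * Real.log a)) / (A.card : ℂ)

def S_COUNT : Prop :=
  ∀ (z j R L N2 : ℕ) (V dec : ℝ) (T : Finset ℤ), 2 ^ 1000 ≤ z → 1 ≤ j → 1 ≤ L →
    z ^ 2001 ≤ 2 * (Sa (z ^ 2001) R).card → z ≤ 2 * (Sa z R).card →
    (∀ i ∈ T, |i| ≤ N2) →
    (∀ τ : ℝ, (2 * (z : ℝ)) ^ (1000 * j) ≤ |τ| → |τ| ≤ 4 * Real.pi * N2 / L →
      ‖∑ n ∈ Ioc (z ^ j) ((2 * z) ^ j), ee (τ * Real.log n)‖ ≤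
        ((2 * (z : ℝ)) ^ j - (z : ℝ) ^ j) * dec) →
    ((z : ℝ) ^ (1000 * j))⁻¹ ≤ dec → 0 < V →
    (∀ i ∈ T, V ≤ ‖Aa (Sa (z ^ 2001) R) (2 * Real.pi * i / L) * Aa (Sa z R) (2 * Real.pi * i / L)‖) →
    2 * (16 ^ j * (j : ℝ) ^ (2 * j * R)) * dec ≤ V ^ (2 * j) →
    ∑ i ∈ T, ‖Aa (Sa (z ^ 2001) R) (2 * Real.pi * i / L) * Aa (Sa z R) (2 * Real.pi * i / L)‖ ^ (2 * j)
      ≤ 2 * (16 ^ j * (j : ℝ) ^ (2 * j * R)) * (1 + L * (1 + Real.log (2 * N2 + 1)))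

/-! Part D: game and dissociativity -/

def S_GAME : Prop :=
  ∀ (S P : Type) [Fintype S] [Nonempty S] [Fintype P] (a d : P → S → ℝ) (LH η δ2 : ℝ),
    1 ≤ LH → 0 < η → 0 < δ2 → (∀ p s, 0 ≤ a p s) → (∀ p, av (d p) = 0) →
    (∃ ω : S → ℝ, (∀ s, 0 ≤ ω s ∧ ω s ≤ LH) ∧ av ω = 1 ∧
      ∃ (N : ℕ) (g : Fin N → S → ℝ), (∀ j, av (g j) = 0) ∧
        ∑ j, av (fun s => g j s ^ 2) ≤ 1 ∧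
        ∀ p, η ≤ av (fun s => ω s * a p s) ∨ δ2 ≤ ∑ j, av (fun s => g j s * d p s) ^ 2) ∨
    (∃ π : P → ℝ, (∀ p, 0 ≤ π p) ∧ ∑ p, π p = 1 ∧
      LH * ((univ.filter (fun s => 2 * η < ∑ p, π p * a p s)).card : ℝ) ≤ Fintype.card S ∧
      ∀ f : S → ℝ, ∑ p, π p * av (fun s => f s * d p s) ^ 2 ≤ 2 * δ2 * av (fun s => f s ^ 2))

def S_RAD : Prop :=
  ∀ (n : ℕ) (x : Fin n → ℝ),
    av (fun ε : Fin n → Bool => (∑ i, sg (ε i) * x i) ^ 2) = ∑ i, x i ^ 2 ∧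
    av (fun ε : Fin n → Bool => (∑ i, sg (ε i) * x i) ^ 4) ≤ 3 * (∑ i, x i ^ 2) ^ 2 ∧
    ∀ v y : ℝ, 0 < v → ∑ i, x i ^ 2 ≤ v → 0 ≤ y →
      ((univ.filter (fun ε : Fin n → Bool => y ≤ ∑ i, sg (ε i) * x i)).card : ℝ) ≤
        2 ^ n * Real.exp (-y ^ 2 / (2 * v))

def S_TRIG : Prop :=
  ∀ u u' : ℂ, ‖u‖ = 1 → ‖u'‖ = 1 →
    Complex.arg (u * (starRingEnd ℂ) u') ^ 2 ≤ 10 * ((1 - u.re) + (1 - u'.re)) ∧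
    |u.im - u'.im| ≤ |Complex.arg (u * (starRingEnd ℂ) u')| ∧
    |(u.im - u'.im) - Complex.arg (u * (starRingEnd ℂ) u')| ≤
      5 * ((1 - u.re) + (1 - u'.re)) * |Complex.arg (u * (starRingEnd ℂ) u')| ∧
    |Complex.arg (u * (starRingEnd ℂ) u')| ≤ Real.pi ∧
    ee (Complex.arg (u * (starRingEnd ℂ) u')) = u * (starRingEnd ℂ) u'

noncomputable def psi {n : ℕ} {S : Type} (B : Fin n → S → ℝ) (ε : Fin n → Bool) (s : S) : ℝ :=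
  ∑ i, sg (ε i) * B i s

noncomputable def offG {n : ℕ} {S : Type} [Fintype S] (B : Fin n → S → ℝ) (ε : Fin n → Bool) : ℝ :=
  ∑ i, (∑ j ∈ univ.erase i, sg (ε j) * av (fun s => B i s * B j s)) ^ 2

def S_LOW : Prop :=
  ∀ (S : Type) [Fintype S] (n : ℕ) (B : Fin n → S → ℝ) (η : ℝ) (E : Finset (Fin n → Bool)),
    0 < η → (∀ i, η / 5 ≤ av (fun s => B i s ^ 2) ∧ av (fun s => B i s ^ 2) ≤ 18 * η) →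
    2 ^ n * Real.exp (-(n : ℝ) / 10 ^ 6) < E.card → (∀ ε ∈ E, offG B ε ≤ n * η ^ 2 / 900) →
    ∃ ε ∈ E, ∃ ε' ∈ E, n * η / 4 ≤ av (fun s => (psi B ε s - psi B ε' s) ^ 2)

noncomputable def Hv {n : ℕ} {S : Type} (a : Fin n → S → ℝ) (lam : ℝ) (s : S) : Finset (Fin n) :=
  univ.filter (fun i => lam ≤ a i s)

noncomputable def Lt {n : ℕ} {S : Type} (δ a : Fin n → S → ℝ) (lam : ℝ) (ε : Fin n → Bool)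
    (s : S) : ℝ :=
  ∑ i ∈ univ.filter (fun i => a i s < lam), sg (ε i) * δ i s

noncomputable def off {S : Type} [DecidableEq S] (Z : Finset S) (s : S) : ℝ :=
  if s ∈ Z then 0 else 1

structure Typ {n : ℕ} {S : Type} [Fintype S] [DecidableEq S] (δ a : Fin n → S → ℝ) (lam : ℝ)
    (Z : Finset S) (A1 A5 A6 A7 A8 A9 A10 : ℝ) (ε : Fin n → Bool) : Prop where
  h1 : av (fun s => psi δ ε s ^ 2) ≤ A1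
  h5 : av (fun s => Lt δ a lam ε s ^ 4 * off Z s) ≤ A5
  h6 : av (fun s => (∑ i ∈ Hv a lam s, δ i s ^ 2) * Lt δ a lam ε s ^ 2 * off Z s) ≤ A6
  h7 : av (fun s => ((Hv a lam s).card : ℝ) * Lt δ a lam ε s ^ 2 * off Z s) ≤ A7
  h8 : av (fun s => (∑ i ∈ Hv a lam s, δ i s ^ 2) * (((Hv a lam s).card : ℝ) - 1) * off Z s) ≤ A8
  h9 : av (fun s => ((Hv a lam s).card : ℝ) * off Z s) ≤ A9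
  h10 : av (fun s => Lt δ a lam ε s ^ 2) ≤ A10

def S_UP : Prop :=
  ∀ (S : Type) [Fintype S] [Nonempty S] [DecidableEq S] (n : ℕ) (δ a : Fin n → S → ℝ) (lam : ℝ)
    (Z : Finset S) (A1 A5 A6 A7 A8 A9 A10 ζ : ℝ) (ε ε' : Fin n → Bool),
    (∀ i s, |δ i s| ≤ Real.pi) → (Z.card : ℝ) ≤ ζ * Fintype.card S →
    Typ δ a lam Z A1 A5 A6 A7 A8 A9 A10 ε → Typ δ a lam Z A1 A5 A6 A7 A8 A9 A10 ε' →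
    ζ + A9 + 2 * A10 ≤ 1 / 2 →
    (∀ s s', ee ((psi δ ε s - psi δ ε' s) / 2) = ee ((psi δ ε s' - psi δ ε' s') / 2)) →
    ∃ c : ℝ, av (fun s => ((psi δ ε s - psi δ ε' s) / 2 - c) ^ 2) ≤
      (n * Real.pi + 1) ^ 2 * ζ + 4 * A1 * (A9 + 2 * A10) + 12 * A8 + 12 * A6 + 3 * A7 + 6 * A5

def S_SAMPLE : Prop :=
  ∀ (S P : Type) [Fintype S] [DecidableEq S] [Fintype P] (π : P → ℝ) (δ a A B : P → S → ℝ)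
    (Z : Finset S) (n : ℕ) (η φ α β lam : ℝ),
    1 ≤ n → 0 < η → 0 < φ → 0 < α → 0 < β → 0 < lam →
    (∀ p, 0 ≤ π p) → ∑ p, π p = 1 →
    (∀ p s, δ p s ^ 2 ≤ 10 * a p s) →
    (∀ p, av (fun s => δ p s ^ 2) ≤ 2 * η) → (∀ p, av (fun s => A p s ^ 2) ≤ α * η) →
    (∀ p, av (fun s => B p s ^ 2) ≤ 18 * η) →
    (∀ s, s ∉ Z → ∑ p, π p * a p s ≤ φ) →
    (∀ f : S → ℝ, ∑ p, π p * av (fun s => f s * B p s) ^ 2 ≤ β * av (fun s => f s ^ 2)) →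
    ∃ (q : Fin n → P) (E : Finset (Fin n → Bool)), 2 ^ n ≤ 2 * E.card ∧ ∀ ε ∈ E,
      Typ (fun i => δ (q i)) (fun i => a (q i)) lam Z (36 * n * η) (1080 * n * η * (lam + n * φ))
        (360 * n ^ 2 * η * φ) (36 * n ^ 2 * η * φ / lam) (36 * n ^ 2 * η * φ / lam)
        (18 * n * φ / lam) (36 * n * η) ε ∧
      av (fun s => psi (fun i => A (q i)) ε s ^ 2) ≤ 18 * n * α * η ∧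
      offG (fun i => B (q i)) ε ≤ 324 * n ^ 2 * β * η

def S_DISS1 : Prop :=
  ∀ (S P : Type) [Fintype S] [Nonempty S] [DecidableEq S] [Fintype P] (χ : ℤ → S → ℂ)
    (δ a d : P → S → ℝ) (τ : P → ℤ) (κ : P → ℂ) (π : P → ℝ) (Z : Finset S) (U : Finset ℤ)
    (n N1 : ℕ) (η φ β0 ζ J : ℝ),
    (∀ i s, ‖χ i s‖ = 1) → (∀ i i' s, χ (i + i') s = χ i s * χ i' s) →
    (∀ p, ‖κ p‖ = 1) → (∀ p s, ee (δ p s) = κ p * χ (τ p) s) → (∀ p, |τ p| ≤ N1) →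
    (∀ p s, δ p s ^ 2 ≤ 10 * a p s ∧ |d p s| ≤ |δ p s| ∧
      |d p s - δ p s| ≤ 5 * a p s * |δ p s| ∧ |δ p s| ≤ Real.pi) →
    (∀ p, 0 ≤ π p) → ∑ p, π p = 1 →
    (∀ p, η ≤ av (fun s => δ p s ^ 2) ∧ av (fun s => δ p s ^ 2) ≤ 2 * η ∧
      av (δ p) ^ 2 ≤ η / 2) →
    (∀ s, s ∉ Z → ∑ p, π p * a p s ≤ φ) → (Z.card : ℝ) ≤ ζ * Fintype.card S →
    (∀ f : S → ℝ, ∑ p, π p * av (fun s => f s * d p s) ^ 2 ≤ β0 * av (fun s => f s ^ 2)) →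
    (∀ i : ℤ, |i| ≤ n * N1 → 1 / 2 ≤ ‖avc (χ i)‖ → i ∈ U) → (U.card : ℝ) ≤ Real.exp J →
    0 < η → 0 < φ → 0 < β0 → 0 ≤ ζ → 0 ≤ J → 10 ^ 6 * (J + 1) ≤ n →
    n * φ ≤ 2 / 10 ^ 16 → n * η ≤ 1 / 10 ^ 14 → n * β0 ≤ η / 10 ^ 6 →
    n ^ 2 * ζ ≤ η / 10 ^ 5 → False

def S_DISS : Prop :=
  ∀ (S P : Type) [Fintype S] [Nonempty S] [Fintype P] (χ : ℤ → S → ℂ)
    (u u' : P → S → ℂ) (τ : P → ℤ) (κ : P → ℂ) (π : P → ℝ) (U : Finset ℤ)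
    (n Nd N1 : ℕ) (η0 η2 δ2 ζ J : ℝ),
    (∀ i s, ‖χ i s‖ = 1) → (∀ i i' s, χ (i + i') s = χ i s * χ i' s) →
    (∀ p s, ‖u p s‖ = 1 ∧ ‖u' p s‖ = 1) → (∀ p, ‖κ p‖ = 1) →
    (∀ p s, u p s * (starRingEnd ℂ) (u' p s) = κ p * χ (τ p) s) → (∀ p, |τ p| ≤ N1) →
    (∀ p, ‖avc (χ (τ p))‖ ≤ 1 - η0) →
    (∀ p, av (fun s => (1 - (u p s).re) + (1 - (u' p s).re)) ≤ 2 * η2) →
    (∀ p, av (fun s => (u p s).im - (u' p s).im) = 0) →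
    (∀ p, 0 ≤ π p) → ∑ p, π p = 1 →
    ((univ.filter (fun s => 2 * η2 <
      ∑ p, π p * ((1 - (u p s).re) + (1 - (u' p s).re)))).card : ℝ) ≤ ζ * Fintype.card S →
    (∀ f : S → ℝ, ∑ p, π p * av (fun s => f s * ((u p s).im - (u' p s).im)) ^ 2 ≤
      2 * δ2 * av (fun s => f s ^ 2)) →
    (∀ i : ℤ, |i| ≤ n * N1 → 1 / 2 ≤ ‖avc (χ i)‖ → i ∈ U) → (U.card : ℝ) ≤ Real.exp J →
    0 < η0 → 0 < η2 → 0 < δ2 → 0 ≤ ζ → 0 ≤ J → 10 ^ 6 * (J + 1) ≤ n → 1 ≤ Nd →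
    10 * η2 < 2 ^ Nd * η0 → n * Nd * η2 ≤ 1 / 10 ^ 16 → n * Nd * δ2 ≤ η0 / 10 ^ 7 →
    n ^ 2 * ζ ≤ η0 / 10 ^ 5 → 1024 * η2 ^ 2 ≤ η0 → False

/-! Part E: the Gaussian tilt -/

def S_GAUSS : Prop :=
  ∀ (ι : Type) [Fintype ι], Integrable (fun x : ι → ℝ => gw x) ∧ 0 < ∫ x : ι → ℝ, gw x ∧
    (∀ c : ι → ℝ, Integrable (fun x : ι → ℝ => Real.exp (∑ j, c j * x j) * gw x) ∧
      ∫ x : ι → ℝ, Real.exp (∑ j, c j * x j) * gw x =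
        Real.exp ((∑ j, c j ^ 2) / 2) * ∫ x : ι → ℝ, gw x) ∧
    ∀ (c : ι → ℝ) (q : ℕ), Integrable (fun x : ι → ℝ => (∑ j, c j * x j) ^ (2 * q) * gw x) ∧
      ∫ x : ι → ℝ, (∑ j, c j * x j) ^ (2 * q) * gw x ≤
        (6 * q * ∑ j, c j ^ 2) ^ q * ∫ x : ι → ℝ, gw x

def S_SHIFT : Prop :=
  ∀ (ι : Type) [Fintype ι] (H : (ι → ℂ) → ℂ) (b : ι → ℝ) (Bd : ℝ → ℝ),
    Differentiable ℂ H → Continuous Bd →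
    (∀ (x : ι → ℝ) (s : ℝ), ‖H (fun j => (x j : ℂ) + ((s * b j : ℝ) : ℂ) * Complex.I)‖ ≤ Bd s) →
    ‖∫ x : ι → ℝ, H (fun j => (x j : ℂ)) * (gw x : ℂ)‖ ≤
      Bd 1 * Real.exp ((∑ j, b j ^ 2) / 2) * ∫ x : ι → ℝ, gw x

def S_PT : Prop :=
  ∀ (S : Type) [Fintype S] [Nonempty S] (ν G ψ : S → ℝ) (u : S → ℂ) (m q : ℕ),
    1 ≤ m → 1 ≤ q → (∀ s, 1 / 2 ≤ ν s) → av ν = 1 → av (fun s => ν s ^ 2) ≤ 4 →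
    av (fun s => ν s * G s) = 0 → av (fun s => ν s * ψ s) = 0 →
    (∀ s, ‖u s‖ = 1) → av (fun s => 1 - (u s).re) ≤ 1 / 2 →
    ‖Complex.exp (-(12 * (m : ℂ) ^ 2 * 2 ^ q) *
        avc (fun s => (ν s : ℂ) ^ 2 * ((G s : ℂ) + (ψ s : ℂ) * Complex.I) ^ (2 * q))) *
      avc (fun s => (ν s : ℂ) * (1 + ((G s : ℂ) + (ψ s : ℂ) * Complex.I) +
        ((G s : ℂ) + (ψ s : ℂ) * Complex.I) ^ q) * u s) ^ m‖ ≤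
    Real.exp (1 + 72 * m * av (fun s => 1 - (u s).re) - m * av (fun s => ν s * ψ s * (u s).im) +
      24 * (m : ℝ) ^ 2 * 2 ^ q * (1 + 8 * q) ^ (2 * q) * av (fun s => ν s ^ 2 * ψ s ^ (2 * q)))

noncomputable def Pq {S ι : Type} [Fintype S] [Fintype ι] (ϖ : S → ℝ) (a : S → ι → ℝ) (q : ℕ)
    (e : ι → ℝ) : ℝ :=
  av (fun s => ϖ s * (∑ j, a s j * e j) ^ (2 * q))

def S_TILT : Prop :=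
  ∀ (S : Type) [Fintype S] [Nonempty S] (N : ℕ) (g : Fin N → S → ℝ) (m q : ℕ),
    (∀ j, av (g j) = 0) → ∑ j, av (fun s => g j s ^ 2) ≤ 1 → 1 ≤ m → Even q →
    24 * m ^ 2 ≤ 4 ^ q →
    ∃ (ω : (Fin m → S) → ℝ) (ϖ : S → ℝ) (a : S → Fin N → ℝ),
      (∀ σ, 0 ≤ ω σ) ∧ av ω = 1 ∧ av (fun σ => ω σ ^ 2) ≤ 4 * 24 ^ m ∧
      (∀ s, 0 ≤ ϖ s) ∧ av ϖ ≤ 4 ∧ (∀ s, ∑ j, a s j ^ 2 ≤ 4) ∧
      ∀ (u : S → ℂ) (e : Fin N → ℝ), (∀ s, ‖u s‖ = 1) → av (fun s => 1 - (u s).re) ≤ 1 / 2 →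
        ‖avc (fun σ : Fin m → S => (ω σ : ℂ) * ∏ i, u (σ i))‖ ≤
          2 * Real.exp (1 + 72 * m * av (fun s => 1 - (u s).re) + 200 * q * ∑ j, e j ^ 2
            - m * ∑ j, e j * av (fun s => g j s * (u s).im) + (30 * (q : ℝ)) ^ (2 * q) * Pq ϖ a q e)

def S_PACK1 : Prop :=
  ∀ (S ι T : Type) [Fintype S] [Fintype ι] (ϖ : S → ℝ) (a : S → ι → ℝ) (q : ℕ) (A : Finset T)
    (x : T → ι → ℝ) (x0 : ι → ℝ) (R θ : ℝ),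
    1 ≤ q → (∀ s, 0 ≤ ϖ s) → av ϖ ≤ 4 → (∀ s, ∑ j, a s j ^ 2 ≤ 4) → 0 < θ →
    (∀ t ∈ A, ∑ j, (x t j - x0 j) ^ 2 ≤ R ^ 2) →
    (∀ t ∈ A, ∀ t' ∈ A, t ≠ t' → θ ^ (2 * q) ≤ Pq ϖ a q (fun j => x t j - x t' j)) →
    (A.card : ℝ) ≤ 2 * Real.exp (864 * q * R ^ 2 / θ ^ 2)

def S_PACK : Prop :=
  ∀ (S ι T : Type) [Fintype S] [Fintype ι] (ϖ : S → ℝ) (a : S → ι → ℝ) (q I : ℕ) (A : Finset T)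
    (x : T → ι → ℝ) (δ β : ℝ),
    1 ≤ q → (∀ s, 0 ≤ ϖ s) → av ϖ ≤ 4 → (∀ s, ∑ j, a s j ^ 2 ≤ 4) → 0 < δ → 0 < β →
    (∀ t ∈ A, ∀ t' ∈ A, t ≠ t' → δ ^ 2 ≤ ∑ j, (x t j - x t' j) ^ 2 ∧
      ∑ j, (x t j - x t' j) ^ 2 ≤ (δ * 2 ^ I) ^ 2 ∧
      (β * ∑ j, (x t j - x t' j) ^ 2) ^ (2 * q) ≤ Pq ϖ a q (fun j => x t j - x t' j)) →
    (A.card : ℝ) ≤ 2 ^ (I + 1) * Real.exp (4608 * q / (β ^ 2 * δ ^ 2))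

def S_SUM : Prop :=
  ∀ (S ι T : Type) [Fintype S] [Fintype ι] (ϖ : S → ℝ) (a : S → ι → ℝ) (m q I : ℕ) (A : Finset T)
    (x : T → ι → ℝ) (φ : T → ℝ) (C0 δ G0 J J' : ℝ),
    1 ≤ m → 1 ≤ q → (∀ s, 0 ≤ ϖ s) → av ϖ ≤ 4 → (∀ s, ∑ j, a s j ^ 2 ≤ 4) → 0 < δ → 0 ≤ C0 →
    (∀ t ∈ A, 0 ≤ φ t ∧ δ ^ 2 ≤ ∑ j, x t j ^ 2) →
    (∀ t ∈ A, ∀ e : ι → ℝ, φ t ≤ C0 * Real.exp (200 * q * ∑ j, e j ^ 2 - m * ∑ j, e j * x t j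
      + (30 * (q : ℝ)) ^ (2 * q) * Pq ϖ a q e)) →
    (∀ t ∈ A, ∀ t' ∈ A, t ≠ t' → δ ^ 2 ≤ ∑ j, (x t j - x t' j) ^ 2 ∧
      ∑ j, (x t j - x t' j) ^ 2 ≤ (δ * 2 ^ I) ^ 2) →
    (A.card : ℝ) ≤ Real.exp J → 1 ≤ G0 → G0 ≤ J' → 1200 * q * G0 < m * δ →
    2 * 10 ^ 9 * (q : ℝ) ^ 3 * (J' + 1) ≤ m ^ 2 * δ ^ 2 →
    ∑ t ∈ A, φ t ^ 2 ≤ C0 ^ 2 * (Real.exp (J - 2 * J') + 2 ^ (I + 2) * Real.exp (-G0))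

noncomputable def Ft {S : Type} [Fintype S] {k : ℕ} (ω : (Fin k → S) → ℝ) (h : S → ℂ) : ℂ :=
  avc (fun σ : Fin k → S => (ω σ : ℂ) * ∏ i, h (σ i))

structure NumOK (r n Nd m1 m2 m q I : ℕ) (η0 η2 δ J G0 LH : ℝ) : Prop where
  r1 : 1 ≤ r
  e0 : 0 < η0
  e2 : 0 < η2
  e2' : η2 ≤ 1 / 2
  d0 : 0 < δ
  lh : 1 ≤ LH
  j0 : 0 ≤ J
  n1 : 10 ^ 6 * (J + 1) ≤ n
  nd1 : 1 ≤ Nd
  nd2 : 10 * η2 < 2 ^ Nd * η0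
  n2 : n * Nd * η2 ≤ 1 / 10 ^ 16
  n3 : n * Nd * δ ^ 2 ≤ η0 / 10 ^ 7
  n4 : n ^ 2 * LH⁻¹ ≤ η0 / 10 ^ 5
  e3 : 1024 * η2 ^ 2 ≤ η0
  m0 : 1 ≤ m
  qe : Even q
  mq : 24 * m ^ 2 ≤ 4 ^ q
  mm : 72 * m ≤ m1
  g1 : 1 ≤ G0
  g2 : G0 ≤ 10 * J
  g3 : 1200 * q * G0 < m * δ
  g4 : 2 * 10 ^ 9 * (q : ℝ) ^ 3 * (10 * J + 1) ≤ m ^ 2 * δ ^ 2
  i1 : 2 ≤ δ * 2 ^ I

noncomputable def epsA (r m1 m2 I : ℕ) (η2 J G0 : ℝ) : ℝ :=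
  Real.exp (J - 2 * m1 * η2) + Real.exp (J - m2 * η2 / 8) +
    r * (4 * Real.exp 2 * (Real.exp (-19 * J) + 2 ^ (I + 2) * Real.exp (-G0)))

def S_ABS : Prop :=
  ∀ (S : Type) [Fintype S] [Nonempty S] (χ : ℤ → S → ℂ) (U : Finset ℤ)
    (r N0 n Nd m1 m2 m q I : ℕ) (η0 η2 δ J G0 LH : ℝ),
    (∀ i s, ‖χ i s‖ = 1) → (∀ i i' s, χ (i + i') s = χ i s * χ i' s) →
    NumOK r n Nd m1 m2 m q I η0 η2 δ J G0 LH →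
    (∀ i : ℤ, (r : ℤ) ≤ |i| → |i| ≤ 2 * N0 → ‖avc (χ i)‖ ≤ 1 - η0) →
    (∀ i : ℤ, |i| ≤ n * (2 * N0) → 1 / 2 ≤ ‖avc (χ i)‖ → i ∈ U) → (U.card : ℝ) ≤ Real.exp J →
    ∃ ω : (Fin (m1 + m2 + m) → S) → ℝ, (∀ σ, 0 ≤ ω σ) ∧ av ω = 1 ∧
      av (fun σ => ω σ ^ 2) ≤ LH ^ m2 * (4 * 24 ^ m) ∧
      (∀ i, ‖Ft ω (χ i)‖ ≤ ‖avc (χ i)‖ ^ m1) ∧
      ∑ i ∈ (Icc (-(N0 : ℤ)) N0).filter (fun i => (r : ℤ) ≤ |i| ∧ 1 / 2 ≤ ‖avc (χ i)‖),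
        ‖Ft ω (χ i)‖ ^ 2 ≤ epsA r m1 m2 I η2 J G0

/-! Part G: from Fourier coefficients to short intervals -/

noncomputable def hat (T L : ℝ) (i : ℤ) : ℂ :=
  (T : ℂ) * ∫ x in (0 : ℝ)..(1 / T), ee (2 * Real.pi * i * x / L)

noncomputable def Ph {Y : Type} [Fintype Y] (w v : Y → ℝ) (L : ℝ) (i : ℤ) : ℂ :=
  ∑ σ, (w σ : ℂ) * ee (-(2 * Real.pi * i * v σ / L))

noncomputable def Hf {Y : Type} [Fintype Y] (w v : Y → ℝ) (T : ℝ) (x : ℝ) : ℝ :=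
  ∑ σ, w σ * (if x ≤ v σ ∧ v σ < x + 1 / T then T else 0)

def S_HAT : Prop :=
  ∀ (T L : ℝ) (i : ℤ), 0 < T → 0 < L → ‖hat T L i‖ ≤ 1 ∧ hat T L 0 = 1 ∧
    (i ≠ 0 → ‖hat T L i‖ ≤ T * L / (Real.pi * |(i : ℝ)|))

def S_COEF : Prop :=
  ∀ (Y : Type) [Fintype Y] (w v : Y → ℝ) (a L T : ℝ), 1 ≤ T → 0 < L → (∀ σ, 0 ≤ w σ) →
    (∀ σ, a + 1 ≤ v σ ∧ v σ ≤ a + L) →
    (∀ A : Finset ℤ, ∑ i ∈ A, ‖Ph w v L i * hat T L i‖ ^ 2 ≤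
      L * T * ∑ σ, ∑ σ', w σ * w σ' * (if |v σ - v σ'| < 1 / T then 1 else 0)) ∧
    ∀ (r : ℕ) (ε : ℝ), (∀ A : Finset ℤ, (∀ i ∈ A, (r : ℤ) ≤ |i|) →
        ∑ i ∈ A, ‖Ph w v L i * hat T L i‖ ^ 2 ≤ ε) →
      IntervalIntegrable (fun x => ‖(Hf w v T x : ℂ) - ∑ i ∈ Ioo (-(r : ℤ)) r,
          Ph w v L i * hat T L i / L * ee (2 * Real.pi * i * x / L)‖ ^ 2) volume a (a + L) ∧
      ∫ x in a..(a + L), ‖(Hf w v T x : ℂ) - ∑ i ∈ Ioo (-(r : ℤ)) r,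
          Ph w v L i * hat T L i / L * ee (2 * Real.pi * i * x / L)‖ ^ 2 ≤ ε / L

def S_LOWP : Prop :=
  ∀ (c : ℤ → ℂ) (a L : ℝ) (r : ℕ), 2 ≤ L → 1 ≤ r → (∀ i, ‖c i‖ ≤ 1 / L) → c 0 = 1 / L →
    8 * r * (2 * Real.pi * r / L) ^ 2 ≤ 1 / 2 →
    ∃ v1, a ≤ v1 ∧ v1 + 2 ≤ a + L ∧ ∀ x, v1 ≤ x → x ≤ v1 + 2 →
      1 / (2 * L) ≤ (∑ i ∈ Ioo (-(r : ℤ)) r, c i * ee (2 * Real.pi * i * x / L)).re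

def S_WINDOW : Prop :=
  ∀ (Y : Type) [Fintype Y] (w v : Y → ℝ) (a L T ε : ℝ) (r : ℕ), 1 ≤ T → 2 ≤ L → 1 ≤ r →
    (∀ σ, 0 ≤ w σ) → ∑ σ, w σ = 1 → (∀ σ, a + 1 ≤ v σ ∧ v σ ≤ a + L) →
    8 * r * (2 * Real.pi * r / L) ^ 2 ≤ 1 / 2 →
    (∀ A : Finset ℤ, (∀ i ∈ A, (r : ℤ) ≤ |i|) → ∑ i ∈ A, ‖Ph w v L i * hat T L i‖ ^ 2 ≤ ε) →
    ∃ v1, a ≤ v1 ∧ v1 + 2 ≤ a + L ∧ ∀ (s h : ℝ) (X : ℕ) (B : Finset ℕ), 1 ≤ X →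
      v1 ≤ Real.log X - s → Real.log (2 * X) - s ≤ v1 + 2 → 1 + 4 * X / T ≤ h →
      B ⊆ Ico X (2 * X) →
      (∀ m ∈ B, ∀ σ, ¬ ((m : ℝ) ≤ Real.exp (s + v σ) ∧ Real.exp (s + v σ) ≤ m + h)) →
      (B.card : ℝ) ≤ 8 * L * ε * X

/-! Part H: assembly -/

def S_BLOCK : Prop :=
  ∀ (ι : Type) [Fintype ι] (f : ι → ℕ) (Y m h : ℕ), (∀ i, 1 ≤ f i ∧ f i ≤ Y) →
    m ≤ ∏ i, f i → ∏ i, f i ≤ m + h → Good m (h + Fintype.card ι * Y + 1)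

structure Par (w k z : ℕ) : Prop where
  hw : 10 ^ 30 ≤ w
  hk1 : w ^ 100 ≤ k
  hk2 : k ≤ 2 ^ w
  hz1 : (k : ℝ) * (w : ℝ) ^ 10 ≤ Real.log z
  hz2 : Real.log z ≤ (k : ℝ) * (w : ℝ) ^ 11

def Tn (k z : ℕ) : ℕ := (4 * z ^ 2002) ^ (k - 1)

noncomputable def Az (w k z : ℕ) (i : ℤ) : ℂ :=
  Aa (Sa (z ^ 2001) (13 * w)) (2 * Real.pi * i / (2 * k : ℕ)) *
    Aa (Sa z (13 * w)) (2 * Real.pi * i / (2 * k : ℕ))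

def S_F1 : Prop :=
  ∀ w k z : ℕ, Par w k z →
    z ^ 2001 ≤ 2 * (Sa (z ^ 2001) (13 * w)).card ∧ z ≤ 2 * (Sa z (13 * w)).card ∧
    ∀ i : ℤ, 220 * (w : ℝ) ^ 9 / k ≤ (2 * Real.pi * i / (2 * k : ℕ)) ^ 2 → |i| ≤ Tn k z ^ 4 →
      ‖Az w k z i‖ ≤ 1 - (w : ℝ) ^ 9 / k

def S_DEC : Prop :=
  ∀ w k z j : ℕ, Par w k z → 1 ≤ j → j ≤ k →
    ((z : ℝ) ^ (1000 * j))⁻¹ ≤ 2 * Real.exp (-((j : ℝ) ^ 3 * (w : ℝ) ^ 9 / k)) ∧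
    ∀ τ : ℝ, (2 * (z : ℝ)) ^ (1000 * j) ≤ |τ| → |τ| ≤ (Tn k z : ℝ) ^ 4 →
      ‖∑ n ∈ Ioc (z ^ j) ((2 * z) ^ j), ee (τ * Real.log n)‖ ≤
        ((2 * (z : ℝ)) ^ j - (z : ℝ) ^ j) * (2 * Real.exp (-((j : ℝ) ^ 3 * (w : ℝ) ^ 9 / k)))

def S_F23 : Prop :=
  ∀ w k z : ℕ, Par w k z →
    (∀ A : Finset ℤ, (∀ i ∈ A, |i| ≤ Tn k z ^ 4 ∧ 1 / 2 ≤ ‖Az w k z i‖) →
      (A.card : ℝ) ≤ Real.exp (Real.sqrt k / w)) ∧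
    (∀ (A : Finset ℤ) (m1 : ℕ), k ≤ 2 * m1 →
      (∀ i ∈ A, |i| ≤ Tn k z ^ 4 ∧ Real.exp (-(11 * k * (w : ℝ) ^ 2)) ≤ ‖Az w k z i‖ ∧
        ‖Az w k z i‖ ≤ 1 / 2) →
      ∑ i ∈ A, ‖Az w k z i‖ ^ (2 * m1) ≤ Real.exp (-(k : ℝ) / 2))

abbrev St (w z : ℕ) : Type :=
  {a // a ∈ Sa (z ^ 2001) (13 * w)} × {b // b ∈ Sa z (13 * w)}

noncomputable def pos {w z : ℕ} (s : St w z) : ℝ := Real.log (s.1 : ℕ) + Real.log (s.2 : ℕ)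

noncomputable def chi (w k z : ℕ) (i : ℤ) (s : St w z) : ℂ :=
  ee (2 * Real.pi * i / (2 * k : ℕ) * pos s)

def S_COLLIDE : Prop :=
  ∀ (w k z k' : ℕ) (ω : (Fin k' → St w z) → ℝ) (A : Finset ℤ), Par w k z → k' + 1 = k →
    (∀ σ, 0 ≤ ω σ) → av (fun σ => ω σ ^ 2) ≤ Real.exp (k * w) →
    ∑ i ∈ A, ‖Ft ω (chi w k z i) * hat (Tn k z) (2 * k : ℕ) i‖ ^ 2 ≤
      Real.exp (20 * k * (w : ℝ) ^ 2)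

def S_NUM : Prop :=
  ∀ w k : ℕ, 10 ^ 30 ≤ w → w ^ 100 ≤ k → k ≤ 2 ^ w →
    ∃ r n m1 m2 m : ℕ, m1 + m2 + m + 1 = k ∧ k ≤ 2 * m1 ∧ 2 * n ≤ k ∧
      NumOK r n w m1 m2 m (2 * w) (w + 1) ((w : ℝ) ^ 9 / k) (100 / (w * Real.sqrt k))
        ((w : ℝ) ^ 4 / (k : ℝ) ^ (3 / 4 : ℝ)) (Real.sqrt k / w) ((k : ℝ) ^ (1 / 4 : ℝ))
        ((k : ℝ) ^ 5) ∧
      220 * (w : ℝ) ^ 9 / k ≤ (2 * Real.pi * r / (2 * k : ℕ)) ^ 2 ∧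
      8 * r * (2 * Real.pi * r / (2 * k : ℕ)) ^ 2 ≤ 1 / 2 ∧
      ((k : ℝ) ^ 5) ^ m2 * (4 * 24 ^ m) ≤ Real.exp (k * w) ∧
      16 * k * (epsA r m1 m2 (w + 1) (100 / (w * Real.sqrt k)) (Real.sqrt k / w)
          ((k : ℝ) ^ (1 / 4 : ℝ)) + 3 * Real.exp (-(k : ℝ) / 2)) ≤
        Real.exp (-(k : ℝ) ^ (1 / 5 : ℝ))

def S_HIGH : Prop :=
  ∀ w k z : ℕ, Par w k z →
    ∃ (k' r : ℕ) (ω : (Fin k' → St w z) → ℝ) (ε : ℝ), k' + 1 = k ∧ 1 ≤ r ∧ (∀ σ, 0 ≤ ω σ) ∧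
      av ω = 1 ∧ 8 * r * (2 * Real.pi * r / (2 * k : ℕ)) ^ 2 ≤ 1 / 2 ∧
      16 * k * ε ≤ Real.exp (-(k : ℝ) ^ (1 / 5 : ℝ)) ∧
      ∀ A : Finset ℤ, (∀ i ∈ A, (r : ℤ) ≤ |i|) →
        ∑ i ∈ A, ‖avc (chi w k z i) * Ft ω (chi w k z i) * hat (Tn k z) (2 * k : ℕ) i‖ ^ 2 ≤ ε

def S_MAIN : Prop :=
  ∀ (w k z X : ℕ) (B : Finset ℕ), Par w k z →
    k * (2002 * Real.log z + 2) - 1 ≤ Real.log X →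
    Real.log X ≤ (k + 1) * (2002 * Real.log z + 2) - 1 →
    B ⊆ Ico X (2 * X) → (∀ m ∈ B, ¬ ∃ h : ℕ, 0 < h ∧ h ≤ z ^ 4100 ∧ Good m h) →
    (B.card : ℝ) ≤ X * Real.exp (-(k : ℝ) ^ (1 / 5 : ℝ))

def S_DYAD : Prop :=
  ∃ X0 : ℕ, ∀ (X : ℕ) (B : Finset ℕ), X0 ≤ X → B ⊆ Ico X (2 * X) →
    (∀ m ∈ B, ¬ ∃ h : ℕ, 0 < h ∧
      (h : ℝ) ≤ Real.exp (Real.sqrt (Real.log m) * Real.log (Real.log m) ^ 6) ∧ Good m h) →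
    (B.card : ℝ) ≤ X * Real.exp (-(Real.log X) ^ (1 / 11 : ℝ))

def S_FINAL : Prop :=
  ∃ C : ℝ, ∀ X : ℕ, 2 ≤ X →
    (Set.ncard {m : ℕ | 2 ≤ m ∧ m ≤ X ∧ ¬ ∃ h : ℕ, 0 < h ∧
      (h : ℝ) ≤ Real.exp (Real.sqrt (Real.log m) * Real.log (Real.log m) ^ 6) ∧ Good m h} : ℝ) ≤
      C * X * Real.exp (-(Real.log X) ^ (1 / 12 : ℝ))

end Pool.Agent.P.MP_b60056_nt.AA
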