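import Pool.Agent.P.MP_b60056_nt.AA.Api

namespace Pool.Agent.P.MP_b60056_nt.AA

open Finset MeasureTheory

namespace Lowp

/-- The trigonometric polynomial. -/
noncomputable def F (c : ℤ → ℂ) (L : ℝ) (r : ℕ) (x : ℝ) : ℂ :=
  ∑ i ∈ Ioo (-(r : ℤ)) r, c i * ee (2 * Real.pi * i * x / L)

theorem cont_ee (L : ℝ) (i : ℤ) : Continuous fun x : ℝ => ee (2 * Real.pi * i * x / L) :=
  continuous_ee.comp (by fun_prop)

theorem cont (c : ℤ → ℂ) (L : ℝ) (r : ℕ) : Continuous (F c L r) :=
  continuous_finset_sum _ fun i _ => continuous_const.mul (cont_ee L i)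

theorem per_ee {L : ℝ} (hL : L ≠ 0) (i : ℤ) (x : ℝ) :
    ee (2 * Real.pi * i * (x + L) / L) = ee (2 * Real.pi * i * x / L) := by
  rw [show 2 * Real.pi * i * (x + L) / L = 2 * Real.pi * i * x / L + 2 * Real.pi * i by
    field_simp, ee_add, ee_int, mul_one]

theorem per (c : ℤ → ℂ) {L : ℝ} (hL : L ≠ 0) (r : ℕ) : Function.Periodic (F c L r) L :=
  fun x => Finset.sum_congr rfl fun i _ => by rw [per_ee hL]

theorem int_ee {L : ℝ} (hL : L ≠ 0) {i : ℤ} (hi : i ≠ 0) (a : ℝ) :
    ∫ x in a..(a + L), ee (2 * Real.pi * i * x / L) = 0 := by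
  have e : ∀ x : ℝ, ee (2 * Real.pi * i * x / L) =
      Complex.exp ((2 * Real.pi * i / L * Complex.I) * x) := fun x => by
    rw [ee]; congr 1; push_cast; ring
  have h0 : (2 * Real.pi * i / L * Complex.I : ℂ) ≠ 0 := by
    simp [hL, hi, Real.pi_ne_zero]
  simp only [e]
  rw [integral_exp_mul_complex h0, ← e, ← e, per_ee hL, sub_self, zero_div]

theorem int_F (c : ℤ → ℂ) {L : ℝ} (hL : L ≠ 0) {r : ℕ} (hr : 1 ≤ r) (a : ℝ) :
    ∫ x in a..(a + L), F c L r x = c 0 * L := by
  unfold F
  rw [intervalIntegral.integral_finset_sum (f := fun (i : ℤ) (x : ℝ) =>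
    c i * ee (2 * Real.pi * i * x / L)) fun i _ =>
    (continuous_const.mul (cont_ee L i)).intervalIntegrable _ _,
    Finset.sum_eq_single 0 (fun i _ hi => by
      rw [intervalIntegral.integral_const_mul, int_ee hL hi, mul_zero])
      (fun h => absurd (Finset.mem_Ioo.2 ⟨by omega, by omega⟩) h)]
  simp [ee_zero, mul_comm]

theorem second (c : ℤ → ℂ) {L : ℝ} (hL : 0 < L) (r : ℕ) (hc : ∀ i, ‖c i‖ ≤ 1 / L) (v y : ℝ)
    (hy : |y| ≤ 2) : ‖2 * F c L r v - F c L r (v + y) - F c L r (v - y)‖ ≤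
      8 * r * (2 * Real.pi * r / L) ^ 2 / L := by
  unfold F
  rw [Finset.mul_sum, ← Finset.sum_sub_distrib, ← Finset.sum_sub_distrib]
  refine (norm_sum_le _ _).trans ((Finset.sum_le_card_nsmul _ _
    (1 / L * (4 * (2 * Real.pi * r / L) ^ 2)) fun i hi => ?_).trans ?_)
  · have e : 2 * (c i * ee (2 * Real.pi * i * v / L)) - c i * ee (2 * Real.pi * i * (v + y) / L) -
        c i * ee (2 * Real.pi * i * (v - y) / L) = c i * ee (2 * Real.pi * i * v / L) *
        ((ee (2 * Real.pi * i * y / L) - 1) * (ee (-(2 * Real.pi * i * y / L)) - 1)) := by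
      have := ee_mul_neg (2 * Real.pi * i * y / L)
      rw [mul_add, add_div, mul_sub _ v, sub_div, sub_eq_add_neg (2 * Real.pi * i * v / L), ee_add,
        ee_add]
      linear_combination (-(c i * ee (2 * Real.pi * i * v / L))) * this
    have h1 : |(i : ℝ)| ≤ r := by
      have := Finset.mem_Ioo.1 hi
      exact_mod_cast abs_le.2 ⟨this.1.le, this.2.le⟩
    have h2 : |2 * Real.pi * i * y / L| ≤ 2 * (2 * Real.pi * r / L) := by
      rw [abs_div, abs_mul, abs_mul, abs_of_pos hL, abs_of_pos Real.two_pi_pos, ← mul_div_assoc,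
        mul_comm 2 (2 * Real.pi * r)]
      gcongr
    have h3 := (norm_ee_sub_one_le _).trans h2
    have h4 := (norm_ee_sub_one_le (-(2 * Real.pi * i * y / L))).trans
      ((abs_neg _).trans_le h2)
    rw [e, norm_mul, norm_mul, norm_mul, norm_ee, mul_one]
    refine mul_le_mul (hc i) ((mul_le_mul h3 h4 (norm_nonneg _) (by positivity)).trans_eq
      (by ring)) (by positivity) (by positivity)
  · have h1 : ((Ioo (-(r : ℤ)) r).card : ℝ) ≤ 2 * r := by
      have : (Ioo (-(r : ℤ)) r).card ≤ 2 * r := by rw [Int.card_Ioo]; omega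
      exact_mod_cast this
    rw [nsmul_eq_mul]
    refine (mul_le_mul_of_nonneg_right h1 (by positivity)).trans_eq (by ring)

end Lowp

open Lowp in
theorem lowp : S_LOWP := by
  intro c a L r hL hr hc h0 hs
  have hL0 : 0 < L := by linarith
  have hct : Continuous fun x => (F c L r x).re := Complex.continuous_re.comp (cont c L r)
  obtain ⟨v, hv, hm⟩ := (isCompact_Icc (a := a) (b := a + L)).exists_isMaxOn
    ⟨a, le_rfl, by linarith⟩ hct.continuousOn
  have hg : ∀ x, (F c L r x).re ≤ (F c L r v).re := fun x => by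
    obtain ⟨y, hy, e⟩ := (per c hL0.ne' r).exists_mem_Ico hL0 x a
    rw [e]
    exact hm (Set.Ico_subset_Icc_self hy)
  have h1 : 1 / L ≤ (F c L r v).re := by
    have a1 := Complex.reCLM.intervalIntegral_comp_comm (μ := volume)
      ((cont c L r).intervalIntegrable a (a + L))
    have a2 : c 0 * L = 1 := by
      rw [h0, one_div, inv_mul_cancel₀ (by exact_mod_cast hL0.ne')]
    rw [int_F c hL0.ne' hr, a2] at a1
    have a3 := intervalIntegral.integral_mono_on (μ := volume) (by linarith : a ≤ a + L)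
      (hct.intervalIntegrable _ _) (continuous_const.intervalIntegrable _ _) fun x _ => hg x
    simp only [Complex.reCLM_apply, Complex.one_re] at a1
    rw [a1, intervalIntegral.integral_const, add_sub_cancel_left, smul_eq_mul] at a3
    rwa [div_le_iff₀' hL0]
  refine ⟨min v (a + L - 2), le_min hv.1 (by linarith), by linarith [min_le_right v (a + L - 2)],
    fun x x1 x2 => ?_⟩
  have hy : |x - v| ≤ 2 := by
    refine abs_le.2 ⟨?_, by linarith [min_le_left v (a + L - 2)]⟩
    rcases min_le_iff.1 x1 with e | e <;> linarith [hv.2]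
  have h2 := (Complex.re_le_norm _).trans (second c hL0 r hc v _ hy)
  have h3 := hg (v - (x - v))
  have h4 : 8 * r * (2 * Real.pi * r / L) ^ 2 / L ≤ 1 / 2 / L := by gcongr
  rw [add_sub_cancel, Complex.sub_re, Complex.sub_re, two_mul, Complex.add_re] at h2
  have h5 : 1 / (2 * L) = 1 / L - 1 / 2 / L := by field_simp; ring
  change _ ≤ (F c L r x).re
  linarith

end Pool.Agent.P.MP_b60056_nt.AA
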