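import Pool.Agent.P.MP_b60056_nt.AA.Api

/-! The pointwise estimate for the tilted product. -/

namespace Pool.Agent.P.MP_b60056_nt.AA

open Finset

namespace Pt

theorem norm_pow_sub (a b : ℂ) (n : ℕ) : ‖(a + b) ^ n - a ^ n‖ ≤ (‖a‖ + ‖b‖) ^ n - ‖a‖ ^ n := by
  induction n with
  | zero => simp
  | succ n ih =>
    have e : (a + b) ^ (n + 1) - a ^ (n + 1) = (a + b) * ((a + b) ^ n - a ^ n) + b * a ^ n := by
      ring
    have h1 := mul_le_mul (norm_add_le a b) ih (norm_nonneg _) (by positivity)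
    rw [e]
    refine (norm_add_le _ _).trans ?_
    rw [norm_mul, norm_mul, norm_pow]
    refine (add_le_add_left h1 _).trans_eq (by ring)

theorem add_pow_split {x y : ℝ} (hx : 0 ≤ x) (hy : 0 ≤ y) {q : ℕ} (hq : 1 ≤ q) :
    (x + y) ^ (2 * q) ≤ 3 / 2 * x ^ (2 * q) + (1 + 8 * q) ^ (2 * q) * y ^ (2 * q) := by
  have hq' : (0 : ℝ) < q := by exact_mod_cast hq
  rcases le_total (8 * q * y) x with h | h
  · have e1 : x + y ≤ Real.exp (1 / (8 * q)) * x := by
      have h1 : y ≤ 1 / (8 * q) * x := by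
        rw [one_div, inv_mul_eq_div, le_div_iff₀ (by positivity)]; linarith
      nlinarith [Real.add_one_le_exp (1 / (8 * (q : ℝ)))]
    have e2 : Real.exp (1 / (8 * q)) ^ (2 * q) ≤ 3 / 2 := by
      rw [← Real.exp_nat_mul, show ((2 * q : ℕ) : ℝ) * (1 / (8 * q)) = 1 / 4 by
        push_cast; field_simp; norm_num]
      exact (Real.exp_bound_div_one_sub_of_interval (by norm_num) (by norm_num)).trans
        (by norm_num)
    refine (pow_le_pow_left₀ (by positivity) e1 _).trans ?_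
    rw [mul_pow]
    exact (mul_le_mul_of_nonneg_right e2 (by positivity)).trans (le_add_of_nonneg_right (by positivity))
  · refine (pow_le_pow_left₀ (by positivity) (show x + y ≤ (1 + 8 * q) * y by linarith) _).trans ?_
    rw [mul_pow]
    exact le_add_of_nonneg_left (by positivity)

theorem abs_pow2 (x : ℝ) (q : ℕ) : |x| ^ (2 * q) = x ^ (2 * q) := (even_two_mul q).pow_abs x

theorem pow2_nonneg (x : ℝ) (q : ℕ) : 0 ≤ x ^ (2 * q) := (even_two_mul q).pow_nonneg x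

theorem re_ge (G ψ : ℝ) {q : ℕ} (hq : 1 ≤ q) :
    1 / 2 * G ^ (2 * q) - (1 + 8 * q) ^ (2 * q) * ψ ^ (2 * q) ≤
      (((G : ℂ) + (ψ : ℂ) * Complex.I) ^ (2 * q)).re := by
  have h1 := norm_pow_sub G (ψ * Complex.I) (2 * q)
  have h2 := add_pow_split (abs_nonneg G) (abs_nonneg ψ) hq
  have h3 := (abs_le.1 ((Complex.abs_re_le_norm _).trans h1)).1
  rw [norm_mul, Complex.norm_I, mul_one, Complex.norm_real, Complex.norm_real, Real.norm_eq_abs,
    Real.norm_eq_abs, Complex.sub_re, ← Complex.ofReal_pow, Complex.ofReal_re, abs_pow2] at h3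
  rw [abs_pow2, abs_pow2] at h2
  linarith

theorem norm_pow_le (G ψ : ℝ) {m : ℝ} (hm : 0 < m) (q : ℕ) :
    ‖((G : ℂ) + (ψ : ℂ) * Complex.I) ^ q‖ ≤
      1 / m + m / 4 * (2 ^ q * (G ^ (2 * q) + ψ ^ (2 * q))) := by
  have h1 : ‖((G : ℂ) + (ψ : ℂ) * Complex.I) ^ q‖ ^ 2 ≤ 2 ^ q * (G ^ (2 * q) + ψ ^ (2 * q)) := by
    rw [norm_pow, ← pow_mul, mul_comm q 2, pow_mul, Complex.sq_norm, Complex.normSq_add_mul_I,
      pow_mul, pow_mul]
    exact (add_pow_le (sq_nonneg G) (sq_nonneg ψ) q).trans (mul_le_mul_of_nonneg_right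
      (pow_le_pow_right₀ one_le_two (Nat.sub_le _ _)) (by positivity))
  generalize ‖((G : ℂ) + (ψ : ℂ) * Complex.I) ^ q‖ = t at h1
  have h2 : t ≤ 1 / m + m / 4 * t ^ 2 := by
    rw [← sub_nonneg, show 1 / m + m / 4 * t ^ 2 - t = (m * t - 2) ^ 2 / (4 * m) by
      field_simp; ring]
    positivity
  exact h2.trans (add_le_add_right (mul_le_mul_of_nonneg_left h1 (by positivity)) _)

theorem sq_le (G : ℝ) {q : ℕ} (hq : 1 ≤ q) : G ^ 2 ≤ 1 + G ^ (2 * q) := by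
  rcases le_total (G ^ 2) 1 with h | h
  · exact h.trans (le_add_of_nonneg_right (pow2_nonneg G q))
  · rw [pow_mul]
    exact (le_self_pow₀ h (by omega)).trans (le_add_of_nonneg_left zero_le_one)

theorem low (G c : ℝ) {q : ℕ} (hq : 1 ≤ q) (h0 : 0 ≤ c) (h2 : c ≤ 2) :
    -((1 + G) * c) ≤ 2 * G ^ (2 * q) := by
  have h3 := pow2_nonneg G q
  have h4 := sq_le G hq
  rcases le_total 0 (1 + G) with h | h
  · nlinarith [mul_nonneg h h0]
  · nlinarith [mul_nonneg (neg_nonneg.2 h) (sub_nonneg.2 h2)]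

variable {S : Type} [Fintype S]

theorem cs {ν F d c : S → ℝ} {q : ℕ} (hq : 1 ≤ q) (h4 : av (fun s => ν s ^ 2) ≤ 4)
    (hd : ∀ s, d s ^ 2 ≤ 2 * c s) :
    av (fun s => ν s * F s * d s) ^ 2 ≤ (4 + av (fun s => ν s ^ 2 * F s ^ (2 * q))) * (2 * av c) := by
  refine (av_cs (fun s => ν s * F s) d).trans (mul_le_mul ?_ ?_ (av_nonneg fun s => sq_nonneg _)
    (add_nonneg (by norm_num) (av_nonneg fun s => mul_nonneg (sq_nonneg _) (pow2_nonneg _ _))))
  · refine le_trans (av_mono (g := fun s => ν s ^ 2 + ν s ^ 2 * F s ^ (2 * q)) fun s => ?_) ?_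
    · nlinarith [mul_le_mul_of_nonneg_left (sq_le (F s) hq) (sq_nonneg (ν s))]
    · rw [av_add]; linarith
  · rw [← av_mul_left]; exact av_mono hd

theorem cs0 {ν d c : S → ℝ} (h4 : av (fun s => ν s ^ 2) ≤ 4) (hd : ∀ s, d s ^ 2 ≤ 2 * c s) :
    av (fun s => ν s * d s) ^ 2 ≤ 4 * (2 * av c) := by
  refine (av_cs ν d).trans (mul_le_mul h4 ?_ (av_nonneg fun s => sq_nonneg _) (by norm_num))
  rw [← av_mul_left]; exact av_mono hd

theorem half (w : ℂ) : ‖w‖ ≤ (1 + w.re ^ 2 + w.im ^ 2) / 2 := by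
  have h := Complex.sq_norm w
  rw [Complex.normSq_apply] at h
  nlinarith [sq_nonneg (‖w‖ - 1)]

theorem w1 {ν G ψ : S → ℝ} {u : S → ℂ} {q : ℕ} (hq : 1 ≤ q) (hν : ∀ s, 1 / 2 ≤ ν s)
    (h1 : av ν = 1) (h4 : av (fun s => ν s ^ 2) ≤ 4) (hG : av (fun s => ν s * G s) = 0)
    (hψ : av (fun s => ν s * ψ s) = 0) (hu : ∀ s, ‖u s‖ = 1)
    (hη : av (fun s => 1 - (u s).re) ≤ 1 / 2) :
    ‖avc (fun s => (ν s : ℂ) * (1 + ((G s : ℂ) + (ψ s : ℂ) * Complex.I)) * u s)‖ ≤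
      1 + 72 * av (fun s => 1 - (u s).re) - av (fun s => ν s * ψ s * (u s).im) +
        7 * av (fun s => ν s ^ 2 * G s ^ (2 * q)) + 3 * av (fun s => ν s ^ 2 * ψ s ^ (2 * q)) := by
  have hn : ∀ s, (u s).re ^ 2 + (u s).im ^ 2 = 1 := fun s => by
    have h := Complex.sq_norm (u s)
    rw [hu s, Complex.normSq_apply] at h
    linarith
  have hc : ∀ s, (1 - (u s).re) ^ 2 ≤ 2 * (1 - (u s).re) := fun s => by
    nlinarith [hn s, sq_nonneg (u s).im]
  have hs : ∀ s, (u s).im ^ 2 ≤ 2 * (1 - (u s).re) := fun s => by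
    nlinarith [hn s, sq_nonneg (1 - (u s).re)]
  have hc0 : ∀ s, 0 ≤ 1 - (u s).re := fun s => by nlinarith [hc s, sq_nonneg (1 - (u s).re)]
  have hc2 : ∀ s, 1 - (u s).re ≤ 2 := fun s => by nlinarith [hn s, sq_nonneg (u s).im]
  have ere : (avc (fun s => (ν s : ℂ) * (1 + ((G s : ℂ) + (ψ s : ℂ) * Complex.I)) * u s)).re =
      av ν + av (fun s => ν s * G s) - (av (fun s => ν s * (1 - (u s).re)) +
        av (fun s => ν s * G s * (1 - (u s).re)) + av (fun s => ν s * ψ s * (u s).im)) := by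
    rw [avc_re, ← av_add, ← av_add, ← av_add, ← av_sub]
    exact av_congr fun s => by simp; ring
  have eim : (avc (fun s => (ν s : ℂ) * (1 + ((G s : ℂ) + (ψ s : ℂ) * Complex.I)) * u s)).im =
      av (fun s => ν s * (u s).im) + av (fun s => ν s * G s * (u s).im) -
        av (fun s => ν s * ψ s * (1 - (u s).re)) + av (fun s => ν s * ψ s) := by
    rw [avc_im, ← av_add, ← av_sub, ← av_add]
    exact av_congr fun s => by simp; ring
  have a1 := cs0 h4 hc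
  have a2 := cs (F := G) hq h4 hc
  have a3 := cs (F := ψ) hq h4 hs
  have b1 := cs0 h4 hs
  have b2 := cs (F := G) hq h4 hs
  have b3 := cs (F := ψ) hq h4 hc
  have hl : -(av (fun s => ν s * (1 - (u s).re)) + av (fun s => ν s * G s * (1 - (u s).re))) ≤
      4 * av (fun s => ν s ^ 2 * G s ^ (2 * q)) := by
    rw [← av_add, ← av_neg, ← av_mul_left]
    refine av_mono fun s => ?_
    have e0 : 0 ≤ ν s := by linarith [hν s]
    have e1 := mul_le_mul_of_nonneg_left (low (G s) _ hq (hc0 s) (hc2 s)) e0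
    have e2 := mul_le_mul_of_nonneg_right (show ν s ≤ 2 * ν s ^ 2 by nlinarith [hν s])
      (pow2_nonneg (G s) q)
    linarith
  have p1 : 0 ≤ av (fun s => ν s ^ 2 * G s ^ (2 * q)) :=
    av_nonneg fun s => mul_nonneg (sq_nonneg _) (pow2_nonneg _ _)
  have p2 : 0 ≤ av (fun s => ν s ^ 2 * ψ s ^ (2 * q)) :=
    av_nonneg fun s => mul_nonneg (sq_nonneg _) (pow2_nonneg _ _)
  refine (half _).trans ?_
  rw [ere, eim, hψ, add_zero, h1, hG, add_zero]
  generalize av (fun s => ν s * (1 - (u s).re)) = x1 at *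
  generalize av (fun s => ν s * G s * (1 - (u s).re)) = x2 at *
  generalize av (fun s => ν s * ψ s * (u s).im) = x3 at *
  generalize av (fun s => ν s * (u s).im) = y1 at *
  generalize av (fun s => ν s * G s * (u s).im) = y2 at *
  generalize av (fun s => ν s * ψ s * (1 - (u s).re)) = y3 at *
  generalize av (fun s => ν s ^ 2 * G s ^ (2 * q)) = PG at *
  generalize av (fun s => ν s ^ 2 * ψ s ^ (2 * q)) = PP at *
  generalize av (fun s => 1 - (u s).re) = η at *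
  have c1 := mul_le_mul_of_nonneg_left hη p1
  have c2 := mul_le_mul_of_nonneg_left hη p2
  nlinarith [sq_nonneg (x1 - x2), sq_nonneg (x1 - x3), sq_nonneg (x2 - x3), sq_nonneg (y1 - y2),
    sq_nonneg (y1 + y3), sq_nonneg (y2 + y3)]

theorem w2 {ν G ψ : S → ℝ} {u : S → ℂ} {m : ℝ} (hm : 0 < m) (q : ℕ) (hν : ∀ s, 1 / 2 ≤ ν s)
    (h1 : av ν = 1) (hu : ∀ s, ‖u s‖ = 1) :
    ‖avc (fun s => (ν s : ℂ) * ((G s : ℂ) + (ψ s : ℂ) * Complex.I) ^ q * u s)‖ ≤
      1 / m + m / 2 * 2 ^ q * (av (fun s => ν s ^ 2 * G s ^ (2 * q)) +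
        av (fun s => ν s ^ 2 * ψ s ^ (2 * q))) := by
  rw [← av_add, ← av_mul_left, show 1 / m = 1 / m * av ν by rw [h1, mul_one], ← av_mul_left,
    ← av_add]
  refine (norm_avc_le _).trans (av_mono fun s => ?_)
  have e0 : 0 ≤ ν s := by linarith [hν s]
  rw [norm_mul, norm_mul, hu, mul_one, Complex.norm_real, Real.norm_of_nonneg e0]
  have e1 := mul_le_mul_of_nonneg_left (norm_pow_le (G s) (ψ s) hm q) e0
  have e2 := mul_le_mul_of_nonneg_right (show ν s ≤ 2 * ν s ^ 2 by nlinarith [hν s])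
    (show 0 ≤ m / 4 * (2 ^ q * (G s ^ (2 * q) + ψ s ^ (2 * q))) from mul_nonneg (by positivity)
      (mul_nonneg (by positivity) (add_nonneg (pow2_nonneg _ _) (pow2_nonneg _ _))))
  linarith

end Pt

open Pt in
theorem pt : S_PT := by
  intro S _ _ ν G ψ u m q hm hq hν h1 h4 hG hψ hu hη
  have hm1 : (1 : ℝ) ≤ m := by exact_mod_cast hm
  have a1 := w1 hq hν h1 h4 hG hψ hu hη
  have a2 := w2 (G := G) (ψ := ψ) (zero_lt_one.trans_le hm1) q hν h1 hu
  have a3 : 1 / 2 * av (fun s => ν s ^ 2 * G s ^ (2 * q)) -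
      (1 + 8 * q) ^ (2 * q) * av (fun s => ν s ^ 2 * ψ s ^ (2 * q)) ≤
      (avc (fun s => (ν s : ℂ) ^ 2 * ((G s : ℂ) + (ψ s : ℂ) * Complex.I) ^ (2 * q))).re := by
    rw [avc_re, ← av_mul_left, ← av_mul_left, ← av_sub]
    refine av_mono fun s => ?_
    rw [← Complex.ofReal_pow, Complex.re_ofReal_mul]
    have := mul_le_mul_of_nonneg_left (re_ge (G s) (ψ s) hq) (sq_nonneg (ν s))
    linarith
  have e : avc (fun s => (ν s : ℂ) * (1 + ((G s : ℂ) + (ψ s : ℂ) * Complex.I) +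
      ((G s : ℂ) + (ψ s : ℂ) * Complex.I) ^ q) * u s) = _ :=
    (avc_congr fun s => by ring).trans (avc_add
      (fun s => (ν s : ℂ) * (1 + ((G s : ℂ) + (ψ s : ℂ) * Complex.I)) * u s)
      (fun s => (ν s : ℂ) * ((G s : ℂ) + (ψ s : ℂ) * Complex.I) ^ q * u s))
  have a4 := (norm_add_le _ _).trans (add_le_add a1 a2)
  rw [← e] at a4
  have p1 : 0 ≤ av (fun s => ν s ^ 2 * G s ^ (2 * q)) :=
    av_nonneg fun s => mul_nonneg (sq_nonneg _) (pow2_nonneg _ _)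
  have p2 : 0 ≤ av (fun s => ν s ^ 2 * ψ s ^ (2 * q)) :=
    av_nonneg fun s => mul_nonneg (sq_nonneg _) (pow2_nonneg _ _)
  have hD : (1 : ℝ) ≤ (1 + 8 * q) ^ (2 * q) := one_le_pow₀ (le_add_of_nonneg_right (by positivity))
  have hQ : (2 : ℝ) ≤ 2 ^ q := le_self_pow₀ one_le_two (by omega)
  have hc : (-(12 * (m : ℂ) ^ 2 * 2 ^ q) : ℂ) = ((-(12 * (m : ℝ) ^ 2 * 2 ^ q) : ℝ) : ℂ) := by
    push_cast; rfl
  rw [norm_mul, Complex.norm_exp, hc, Complex.re_ofReal_mul, norm_pow]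
  have hW := norm_nonneg (avc (fun s => (ν s : ℂ) * (1 + ((G s : ℂ) + (ψ s : ℂ) * Complex.I) +
      ((G s : ℂ) + (ψ s : ℂ) * Complex.I) ^ q) * u s))
  clear e a1 a2 hc
  generalize ‖avc (fun s => (ν s : ℂ) * (1 + ((G s : ℂ) + (ψ s : ℂ) * Complex.I) +
      ((G s : ℂ) + (ψ s : ℂ) * Complex.I) ^ q) * u s)‖ = W at *
  have a5 : W ^ m ≤ Real.exp (m * (W - 1)) := by
    rw [Real.exp_nat_mul]
    exact pow_le_pow_left₀ hW (by linarith [Real.add_one_le_exp (W - 1)]) m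
  refine (mul_le_mul_of_nonneg_left a5 (Real.exp_nonneg _)).trans ?_
  rw [← Real.exp_add, Real.exp_le_exp]
  generalize av (fun s => ν s * ψ s * (u s).im) = x3 at *
  generalize av (fun s => ν s ^ 2 * G s ^ (2 * q)) = PG at *
  generalize av (fun s => ν s ^ 2 * ψ s ^ (2 * q)) = PP at *
  generalize av (fun s => 1 - (u s).re) = η at *
  generalize (avc (fun s => (ν s : ℂ) ^ 2 * ((G s : ℂ) + (ψ s : ℂ) * Complex.I) ^ (2 * q))).re = Z
    at *
  generalize ((1 : ℝ) + 8 * q) ^ (2 * q) = D at *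
  generalize (2 : ℝ) ^ q = Q at *
  generalize (m : ℝ) = M at *
  have hA : 2 * M ≤ M ^ 2 * Q := by nlinarith [mul_le_mul hm1 hQ zero_le_two (by linarith)]
  have b1 := mul_le_mul_of_nonneg_left a4 (show 0 ≤ M by linarith)
  have b2 := mul_le_mul_of_nonneg_left a3 (show 0 ≤ 12 * M ^ 2 * Q by positivity)
  have b3 := mul_le_mul_of_nonneg_right hA p1
  have b4 := mul_le_mul_of_nonneg_right hA p2
  have b5 := mul_le_mul_of_nonneg_left hD (show 0 ≤ M ^ 2 * Q * PP by positivity)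
  have b6 : M * (1 / M) = 1 := by field_simp
  have b7 : 0 ≤ M ^ 2 * Q * PG := by positivity
  have b8 : 0 ≤ M ^ 2 * Q * PP := by positivity
  linarith

end Pool.Agent.P.MP_b60056_nt.AA
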